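import Mathlib
import Pool.Agent.H720R2.HP.IVL

/-!
Weak solutions of the `∂̄`-equation on open subsets of the plane.
-/

set_option autoImplicit false

open MeasureTheory Metric Set Filter Topology Complex
open scoped ContDiff

namespace Pool.Agent.H720R2.HP

/-- the `∂̄` operator -/
noncomputable def db (φ : ℂ → ℂ) (z : ℂ) : ℂ := (fderiv ℝ φ z 1 + I * fderiv ℝ φ z I) / 2

theorem db_mul {χ φ : ℂ → ℂ} {z : ℂ} (h1 : DifferentiableAt ℝ χ z) (h2 : DifferentiableAt ℝ φ z) :
    db (fun w => χ w * φ w) z = χ z * db φ z + φ z * db χ z := by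
  unfold db
  rw [fderiv_fun_mul h1 h2]
  simp only [_root_.add_apply, _root_.smul_apply, smul_eq_mul]
  ring

theorem db_holo {c : ℂ → ℂ} {z : ℂ} (h : DifferentiableAt ℂ c z) : db c z = 0 := by
  unfold db
  have h1 : fderiv ℝ c z = (fderiv ℂ c z).restrictScalars ℝ := h.fderiv_restrictScalars ℝ
  rw [h1]
  simp only [ContinuousLinearMap.coe_restrictScalars']
  have h2 : fderiv ℂ c z I = I * fderiv ℂ c z 1 := by
    have := (fderiv ℂ c z).map_smul I 1
    simpa using this
  rw [h2, ← mul_assoc, I_mul_I]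
  ring

theorem db_cont {φ : ℂ → ℂ} (h : ContDiff ℝ ∞ φ) : Continuous (db φ) := by
  unfold db
  have h1 : Continuous (fderiv ℝ φ) := h.continuous_fderiv (by simp)
  have h2 : Continuous (fun z => fderiv ℝ φ z 1) := h1.clm_apply continuous_const
  have h3 : Continuous (fun z => fderiv ℝ φ z I) := h1.clm_apply continuous_const
  exact (h2.add (continuous_const.mul h3)).div_const 2

theorem db_supp {φ : ℂ → ℂ} {z : ℂ} (h : z ∉ tsupport φ) : db φ z = 0 := by
  have h1 : fderiv ℝ φ z = 0 := by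
    have := (tsupport_fderiv_subset ℝ (f := φ))
    exact image_eq_zero_of_notMem_tsupport (fun h2 => h (this h2))
  unfold db
  rw [h1]; simp

theorem db_congr {φ ψ : ℂ → ℂ} {z : ℂ} (h : φ =ᶠ[𝓝 z] ψ) : db φ z = db ψ z := by
  unfold db
  rw [h.fderiv_eq]

theorem db_norm_le (φ : ℂ → ℂ) (z : ℂ) : ‖db φ z‖ ≤ ‖fderiv ℝ φ z‖ := by
  unfold db
  rw [norm_div]
  have h1 : ‖fderiv ℝ φ z 1‖ ≤ ‖fderiv ℝ φ z‖ := by
    simpa using (fderiv ℝ φ z).le_opNorm 1
  have h2 : ‖I * fderiv ℝ φ z I‖ ≤ ‖fderiv ℝ φ z‖ := by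
    rw [norm_mul, norm_I, one_mul]
    simpa using (fderiv ℝ φ z).le_opNorm I
  have h3 := norm_add_le (fderiv ℝ φ z 1) (I * fderiv ℝ φ z I)
  have h4 : ‖(2 : ℂ)‖ = 2 := by simp
  rw [h4]
  linarith

/-- `V` is continuous on `Ω` and solves `∂̄ V = ν` there, in the weak sense. -/
structure WD (Ω : Set ℂ) (V ν : ℂ → ℂ) : Prop where
  cont : ContinuousOn V Ω
  li : LocallyIntegrableOn ν Ω
  weak : ∀ φ : ℂ → ℂ, ContDiff ℝ ∞ φ → HasCompactSupport φ → tsupport φ ⊆ Ω →
    ∫ z, V z * db φ z = - ∫ z, ν z * φ z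

/-- a locally integrable function times a continuous compactly supported one -/
theorem int_mul {Ω : Set ℂ} {ν φ : ℂ → ℂ} (hν : LocallyIntegrableOn ν Ω)
    (hφ : Continuous φ) {K : Set ℂ} (hK : IsCompact K) (hKΩ : K ⊆ Ω) (h0 : ∀ z, z ∉ K → φ z = 0) :
    Integrable (fun z => ν z * φ z) := by
  have h1 : IntegrableOn ν K := hν.integrableOn_compact_subset hKΩ hK
  have h2 : IntegrableOn (fun z => ν z * φ z) K :=
    h1.mul_continuousOn hφ.continuousOn hK
  rw [← integrableOn_univ]
  refine h2.of_forall_sdiff_eq_zero MeasurableSet.univ (fun z hz => ?_)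
  rw [h0 z hz.2, mul_zero]

theorem int_mul_test {Ω : Set ℂ} {ν φ : ℂ → ℂ} (hν : LocallyIntegrableOn ν Ω)
    (hφ : ContDiff ℝ ∞ φ) (hc : HasCompactSupport φ) (hs : tsupport φ ⊆ Ω) :
    Integrable (fun z => ν z * φ z) :=
  int_mul hν hφ.continuous hc hs (fun _ hz => image_eq_zero_of_notMem_tsupport hz)

theorem int_mul_db {Ω : Set ℂ} {ν φ : ℂ → ℂ} (hν : LocallyIntegrableOn ν Ω)
    (hφ : ContDiff ℝ ∞ φ) (hc : HasCompactSupport φ) (hs : tsupport φ ⊆ Ω) :
    Integrable (fun z => ν z * db φ z) :=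
  int_mul hν (db_cont hφ) hc hs (fun _ hz => db_supp hz)

theorem WD.int_db {Ω : Set ℂ} (hΩ : IsOpen Ω) {V ν φ : ℂ → ℂ} (h : WD Ω V ν)
    (hφ : ContDiff ℝ ∞ φ) (hc : HasCompactSupport φ) (hs : tsupport φ ⊆ Ω) :
    Integrable (fun z => V z * db φ z) :=
  int_mul_db (h.cont.locallyIntegrableOn hΩ.measurableSet) hφ hc hs

theorem WD.add {Ω : Set ℂ} (hΩ : IsOpen Ω) {V ν V' ν' : ℂ → ℂ} (h : WD Ω V ν) (h' : WD Ω V' ν') :
    WD Ω (fun z => V z + V' z) (fun z => ν z + ν' z) where
  cont := h.cont.add h'.cont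
  li := h.li.add h'.li
  weak := by
    intro φ hφ hc hs
    have h1 := h.int_db hΩ hφ hc hs
    have h2 := h'.int_db hΩ hφ hc hs
    have h3 := int_mul_test h.li hφ hc hs
    have h4 := int_mul_test h'.li hφ hc hs
    simp only [add_mul]
    rw [integral_add h1 h2, integral_add h3 h4, h.weak φ hφ hc hs, h'.weak φ hφ hc hs]
    ring

/-- the product of a holomorphic function and a test function is a test function -/
theorem test_mul {Ω : Set ℂ} (hΩ : IsOpen Ω) {c φ : ℂ → ℂ} (hcd : DifferentiableOn ℂ c Ω)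
    (hφ : ContDiff ℝ ∞ φ) (hs : tsupport φ ⊆ Ω) :
    ContDiff ℝ ∞ (fun z => c z * φ z) := by
  rw [contDiff_iff_contDiffAt]
  intro z
  by_cases hz : z ∈ Ω
  · have h1 : ContDiffAt ℂ ∞ c z := by
      have := (hcd.analyticAt (hΩ.mem_nhds hz)).contDiffAt (n := ω)
      exact this.of_le (by exact le_top)
    have h2 : ContDiffAt ℝ ∞ c z := h1.restrict_scalars ℝ
    exact h2.mul hφ.contDiffAt
  · have hz' : z ∉ tsupport φ := fun h => hz (hs h)
    have h1 : (fun z => c z * φ z) =ᶠ[𝓝 z] fun _ => 0 := by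
      have h2 : φ =ᶠ[𝓝 z] 0 := notMem_tsupport_iff_eventuallyEq.1 hz'
      filter_upwards [h2] with w hw
      rw [hw]
      simp
    exact contDiffAt_const.congr_of_eventuallyEq h1

theorem tsupport_mul_sub {c φ : ℂ → ℂ} : tsupport (fun z => c z * φ z) ⊆ tsupport φ :=
  tsupport_mul_subset_right

theorem WD.mul_holo {Ω : Set ℂ} (hΩ : IsOpen Ω) {V ν c : ℂ → ℂ} (h : WD Ω V ν)
    (hcd : DifferentiableOn ℂ c Ω) : WD Ω (fun z => c z * V z) (fun z => c z * ν z) where
  cont := hcd.continuousOn.mul h.cont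
  li := by
    have := h.li.continuousOn_mul hcd.continuousOn hΩ.isLocallyClosed
    exact this
  weak := by
    intro φ hφ hc hs
    have h1 := h.weak (fun z => c z * φ z) (test_mul hΩ hcd hφ hs)
      (hc.mono' (subset_closure.trans tsupport_mul_sub)) (tsupport_mul_sub.trans hs)
    have h2 : (fun z => c z * V z * db φ z) = fun z => V z * db (fun w => c w * φ w) z := by
      funext z
      by_cases hz : z ∈ tsupport φ
      · have hd : DifferentiableAt ℂ c z := (hcd z (hs hz)).differentiableAt (hΩ.mem_nhds (hs hz))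
        rw [db_mul (hd.restrictScalars ℝ) (hφ.differentiable (by simp) z), db_holo hd]
        ring
      · rw [db_supp hz, db_supp (fun h => hz (tsupport_mul_sub h)), mul_zero, mul_zero]
    rw [h2, h1]
    congr 2
    funext z
    ring

theorem WD.congr {Ω : Set ℂ} (hΩ : IsOpen Ω) {V ν V' ν' : ℂ → ℂ} (h : WD Ω V ν)
    (hV : ∀ z ∈ Ω, V' z = V z) (hν : ∀ z ∈ Ω, ν' z = ν z) : WD Ω V' ν' where
  cont := h.cont.congr hV
  li := by
    intro x hx
    obtain ⟨t, ht, hi⟩ := h.li x hx
    rw [hΩ.nhdsWithin_eq hx] at ht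
    obtain ⟨ε, hε, hB⟩ := Metric.mem_nhds_iff.1 (inter_mem ht (hΩ.mem_nhds hx))
    refine ⟨ball x ε, mem_nhdsWithin_of_mem_nhds (ball_mem_nhds x hε), ?_⟩
    have h1 : IntegrableOn ν (ball x ε) := hi.mono_set (hB.trans inter_subset_left)
    exact h1.congr_fun (fun z hz => (hν z (hB hz).2).symm) measurableSet_ball
  weak := by
    intro φ hφ hc hs
    have h1 := h.weak φ hφ hc hs
    have h2 : (fun z => V' z * db φ z) = fun z => V z * db φ z := by
      funext z
      by_cases hz : z ∈ tsupport φ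
      · rw [hV z (hs hz)]
      · rw [db_supp hz, mul_zero, mul_zero]
    have h3 : (fun z => ν' z * φ z) = fun z => ν z * φ z := by
      funext z
      by_cases hz : z ∈ tsupport φ
      · rw [hν z (hs hz)]
      · rw [image_eq_zero_of_notMem_tsupport hz, mul_zero, mul_zero]
    rw [h2, h3, h1]

/-- a function of class `C¹` is a weak solution -/
theorem WD.of_C1 {Ω : Set ℂ} (hΩ : IsOpen Ω) {χ : ℂ → ℂ} (h : ContDiffOn ℝ 1 χ Ω) :
    WD Ω χ (db χ) where
  cont := h.continuousOn
  li := by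
    have h1 : ContinuousOn (fderiv ℝ χ) Ω := h.continuousOn_fderiv_of_isOpen hΩ le_rfl
    refine ContinuousOn.locallyIntegrableOn ?_ hΩ.measurableSet
    unfold db
    exact ((h1.clm_apply continuousOn_const).add
      (continuousOn_const.mul (h1.clm_apply continuousOn_const))).div_const 2
  weak := by
    intro φ hφ hc hs
    have h1 : ContinuousOn (fderiv ℝ χ) Ω := h.continuousOn_fderiv_of_isOpen hΩ le_rfl
    have hd : ∀ x ∈ tsupport φ, DifferentiableAt ℝ χ x := fun x hx =>
      ((h.differentiableOn one_ne_zero) x (hs hx)).differentiableAt (hΩ.mem_nhds (hs hx))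
    have hφc := hφ.continuous_fderiv (by simp)
    have hint : ∀ v : ℂ, ∫ z, χ z * fderiv ℝ φ z v = - ∫ z, fderiv ℝ χ z v * φ z := by
      intro v
      refine integral_mul_fderiv_eq_neg_fderiv_mul_of_integrable ?_ ?_ ?_ hd
        (fun x _ => hφ.differentiable (by simp) x)
      · exact int_mul_test ((h1.clm_apply continuousOn_const).locallyIntegrableOn
          hΩ.measurableSet) hφ hc hs
      · refine int_mul (h.continuousOn.locallyIntegrableOn hΩ.measurableSet)
          (hφc.clm_apply continuous_const) hc hs (fun z hz => ?_)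
        have h1 : fderiv ℝ φ z = 0 := by
          have := (tsupport_fderiv_subset ℝ (f := φ))
          exact image_eq_zero_of_notMem_tsupport (fun h2 => hz (this h2))
        rw [h1]; simp
      · exact int_mul_test (h.continuousOn.locallyIntegrableOn hΩ.measurableSet) hφ hc hs
    have hi1 : ∀ v : ℂ, Integrable (fun z => χ z * fderiv ℝ φ z v) := by
      intro v
      refine int_mul (h.continuousOn.locallyIntegrableOn hΩ.measurableSet)
          (hφc.clm_apply continuous_const) hc hs (fun z hz => ?_)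
      have h1 : fderiv ℝ φ z = 0 := by
        have := (tsupport_fderiv_subset ℝ (f := φ))
        exact image_eq_zero_of_notMem_tsupport (fun h2 => hz (this h2))
      rw [h1]; simp
    have hi2 : ∀ v : ℂ, Integrable (fun z => fderiv ℝ χ z v * φ z) := by
      intro v
      exact int_mul_test ((h1.clm_apply continuousOn_const).locallyIntegrableOn
          hΩ.measurableSet) hφ hc hs
    have e1 : (fun z => χ z * db φ z) =
        fun z => (χ z * fderiv ℝ φ z 1 + I * (χ z * fderiv ℝ φ z I)) / 2 := by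
      funext z
      unfold db
      ring
    have e2 : (fun z => db χ z * φ z) =
        fun z => (fderiv ℝ χ z 1 * φ z + I * (fderiv ℝ χ z I * φ z)) / 2 := by
      funext z
      unfold db
      ring
    rw [e1, e2, integral_div, integral_div, integral_add (hi1 1) ((hi1 I).const_mul I),
      integral_add (hi2 1) ((hi2 I).const_mul I), integral_const_mul, integral_const_mul,
      hint, hint]
    ring

/-- Weyl's lemma -/
theorem WD.holo {Ω : Set ℂ} (hΩ : IsOpen Ω) {V ν : ℂ → ℂ} (h : WD Ω V ν)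
    (h0 : ∀ z ∈ Ω, ν z = 0) : DifferentiableOn ℂ V Ω := by
  intro z hz
  obtain ⟨ε, hε, hB⟩ := Metric.isOpen_iff.1 hΩ z hz
  obtain ⟨f', hf', hae⟩ := IV.local_holo Ω hΩ V
    (h.cont.locallyIntegrableOn hΩ.measurableSet) (fun φ hφ hc hs => by
      have h1 := h.weak φ hφ hc hs
      unfold db at h1
      rw [h1]
      have h2 : (fun z => ν z * φ z) = fun _ => 0 := by
        funext w
        by_cases hw : w ∈ tsupport φ
        · rw [h0 w (hs hw), zero_mul]
        · rw [image_eq_zero_of_notMem_tsupport hw, mul_zero]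
      rw [h2]
      simp) z (ε / 3) (by positivity) ((closedBall_subset_ball (by linarith)).trans hB)
  have hsub : ball z (ε / 3) ⊆ Ω := (ball_subset_ball (by linarith)).trans hB
  have heq : EqOn V f' (ball z (ε / 3)) := by
    refine Measure.eqOn_open_of_ae_eq (μ := volume) hae isOpen_ball (h.cont.mono hsub) hf'.continuousOn
  have hd : DifferentiableAt ℂ f' z := hf'.differentiableAt (ball_mem_nhds _ (by positivity))
  refine (hd.congr_of_eventuallyEq ?_).differentiableWithinAt
  filter_upwards [ball_mem_nhds z (by positivity : 0 < ε / 3)] with w hw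
  exact heq hw

end Pool.Agent.H720R2.HP
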