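import Mathlib
import Pool.Agent.H720R2.HP.Weak

/-!
Cauchy type integrals with a kernel depending holomorphically on the variable.
-/

set_option autoImplicit false

open MeasureTheory Metric Set Filter Topology Complex
open scoped ContDiff

namespace Pool.Agent.H720R2.HP

theorem inv_ball_int (w : ℂ) (r : ℝ) : IntegrableOn (fun ζ : ℂ => ‖w - ζ‖⁻¹) (ball w r) := by
  have h : IntegrableOn (fun w : ℂ => (‖w‖)⁻¹) (ball 0 r) := by
    rw [integrableOn_fun_norm_addHaar (volume : Measure ℂ) (f := fun y : ℝ => y⁻¹) (r := r)]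
    rw [Complex.finrank_real_complex]
    have h1 : IntegrableOn (fun _ : ℝ => (1:ℝ)) (Ioo 0 r) :=
      integrableOn_const measure_Ioo_lt_top.ne (by simp)
    refine h1.congr_fun ?_ measurableSet_Ioo
    intro y hy
    have hy0 : y ≠ 0 := hy.1.ne'
    simp [hy0]
  have h2 : Integrable ((ball (0 : ℂ) r).indicator (fun w : ℂ => (‖w‖)⁻¹)) :=
    (integrable_indicator_iff measurableSet_ball).2 h
  have h3 := h2.comp_sub_left w
  have h4 : (fun t => (ball (0 : ℂ) r).indicator (fun w : ℂ => (‖w‖)⁻¹) (w - t)) =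
      (ball w r).indicator (fun ζ : ℂ => ‖w - ζ‖⁻¹) := by
    funext t
    by_cases ht : t ∈ ball w r
    · have ht' : w - t ∈ ball (0 : ℂ) r := by
        rw [mem_ball, dist_comm, dist_eq_norm] at ht
        rwa [mem_ball_zero_iff]
      rw [indicator_of_mem ht, indicator_of_mem ht']
    · have ht' : w - t ∉ ball (0 : ℂ) r := by
        rw [mem_ball, dist_comm, dist_eq_norm] at ht
        rwa [mem_ball_zero_iff]
      rw [indicator_of_notMem ht, indicator_of_notMem ht']
  rw [h4] at h3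
  exact (integrable_indicator_iff measurableSet_ball).1 h3

theorem inv_ball_eq (w : ℂ) {r : ℝ} (hr : 0 ≤ r) :
    ∫ ζ in ball w r, ‖w - ζ‖⁻¹ = 2 * Real.pi * r := by
  have h1 : ∫ ζ in ball w r, ‖w - ζ‖⁻¹ =
      ∫ ζ : ℂ, (Iio r).indicator (fun y : ℝ => y⁻¹) ‖ζ‖ := by
    rw [← integral_indicator measurableSet_ball,
      ← integral_sub_left_eq_self (fun ζ : ℂ => (Iio r).indicator (fun y : ℝ => y⁻¹) ‖ζ‖) _ w]
    congr 1
    funext t
    by_cases ht : t ∈ ball w r
    · have ht' : ‖w - t‖ ∈ Iio r := by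
        rw [mem_ball, dist_comm, dist_eq_norm] at ht
        exact ht
      rw [indicator_of_mem ht, indicator_of_mem ht']
    · have ht' : ‖w - t‖ ∉ Iio r := by
        rw [mem_ball, dist_comm, dist_eq_norm] at ht
        exact ht
      rw [indicator_of_notMem ht, indicator_of_notMem ht']
  rw [h1, integral_fun_norm_addHaar (volume : Measure ℂ), Complex.finrank_real_complex]
  have h2 : (volume : Measure ℂ).real (ball 0 1) = Real.pi := by
    rw [Measure.real, Complex.volume_ball]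
    simp
  have h3 : ∫ y in Ioi (0 : ℝ), y ^ (2 - 1) • (Iio r).indicator (fun y : ℝ => y⁻¹) y = r := by
    have : ∀ y ∈ Ioi (0 : ℝ), y ^ (2 - 1) • (Iio r).indicator (fun y : ℝ => y⁻¹) y =
        (Iio r).indicator (fun _ => (1 : ℝ)) y := by
      intro y hy
      have hy0 : y ≠ 0 := (ne_of_gt hy)
      by_cases h : y ∈ Iio r
      · rw [indicator_of_mem h, indicator_of_mem h]
        simp [hy0]
      · rw [indicator_of_notMem h, indicator_of_notMem h, smul_zero]
    rw [setIntegral_congr_fun measurableSet_Ioi this, setIntegral_indicator measurableSet_Iio,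
      Ioi_inter_Iio, integral_const]
    simp [hr]
  rw [h3, h2]
  simp only [nsmul_eq_mul, smul_eq_mul]
  push_cast
  ring

/-- the basic Cauchy type integral -/
noncomputable def CT (B : ℂ → ℂ → ℂ) (w : ℂ) : ℂ := (1 / Real.pi : ℂ) * ∫ ζ, B ζ w / (w - ζ)

section

variable {Ω : Set ℂ} {B : ℂ → ℂ → ℂ} {ρ M : ℝ}

theorem dom_int (w : ℂ) (ρ M : ℝ) :
    Integrable (fun ζ : ℂ => (ball (0 : ℂ) ρ).indicator (fun _ => M) ζ * ‖w - ζ‖⁻¹) := by
  have h1 : (fun ζ : ℂ => (ball (0 : ℂ) ρ).indicator (fun _ => M) ζ * ‖w - ζ‖⁻¹) =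
      (ball (0 : ℂ) ρ).indicator (fun ζ => M * ‖w - ζ‖⁻¹) := by
    funext ζ
    by_cases h : ζ ∈ ball (0 : ℂ) ρ
    · rw [indicator_of_mem h, indicator_of_mem h]
    · rw [indicator_of_notMem h, indicator_of_notMem h, zero_mul]
  rw [h1, integrable_indicator_iff measurableSet_ball]
  refine IntegrableOn.mono_set ?_ (show ball (0 : ℂ) ρ ⊆ ball w (‖w‖ + ρ) from ?_)
  · exact (inv_ball_int w _).const_mul M
  · refine ball_subset_ball' ?_
    rw [dist_zero_left, add_comm]

theorem dom_int_le (w : ℂ) {ρ M : ℝ} (hρ : 0 ≤ ρ) (hM : 0 ≤ M) :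
    ∫ ζ : ℂ, (ball (0 : ℂ) ρ).indicator (fun _ => M) ζ * ‖w - ζ‖⁻¹ ≤
      M * (2 * Real.pi * (‖w‖ + ρ)) := by
  have h1 : (fun ζ : ℂ => (ball (0 : ℂ) ρ).indicator (fun _ => M) ζ * ‖w - ζ‖⁻¹) =
      (ball (0 : ℂ) ρ).indicator (fun ζ => M * ‖w - ζ‖⁻¹) := by
    funext ζ
    by_cases h : ζ ∈ ball (0 : ℂ) ρ
    · rw [indicator_of_mem h, indicator_of_mem h]
    · rw [indicator_of_notMem h, indicator_of_notMem h, zero_mul]
  rw [h1, integral_indicator measurableSet_ball, ← inv_ball_eq w (by positivity : 0 ≤ ‖w‖ + ρ),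
    ← integral_const_mul]
  refine setIntegral_mono_set ((inv_ball_int w _).const_mul M) ?_ ?_
  · exact Eventually.of_forall fun ζ => by positivity
  · refine (ball_subset_ball' ?_).eventuallyLE
    rw [dist_zero_left, add_comm]

theorem B_int (hBm : Measurable (fun p : ℂ × ℂ => B p.1 p.2))
    (hBb : ∀ ζ w, ‖B ζ w‖ ≤ (ball (0 : ℂ) ρ).indicator (fun _ => M) ζ) (w w' : ℂ) :
    Integrable (fun ζ => B ζ w / (w' - ζ)) := by
  refine (dom_int w' ρ M).mono' ?_ (Eventually.of_forall fun ζ => ?_)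
  · have h1 : Measurable (fun ζ => B ζ w) := hBm.comp (measurable_id.prodMk measurable_const)
    exact (h1.div (measurable_const.sub measurable_id)).aestronglyMeasurable
  · rw [norm_div, div_eq_mul_inv]
    exact mul_le_mul_of_nonneg_right (hBb ζ w) (by positivity)

theorem B_lip (hBd : ∀ ζ, DifferentiableOn ℂ (B ζ) Ω)
    (hBb : ∀ ζ w, ‖B ζ w‖ ≤ (ball (0 : ℂ) ρ).indicator (fun _ => M) ζ) {w0 : ℂ} {s : ℝ}
    (hs : 0 < s) (hsub : ball w0 s ⊆ Ω) {w : ℂ} (hw : w ∈ ball w0 s) (ζ : ℂ) :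
    ‖B ζ w - B ζ w0‖ ≤ (ball (0 : ℂ) ρ).indicator (fun _ => 2 * M) ζ * (‖w - w0‖ / s) := by
  have h1 : MapsTo (B ζ) (ball w0 s) (closedBall (B ζ w0)
      ((ball (0 : ℂ) ρ).indicator (fun _ => 2 * M) ζ)) := by
    intro z _
    rw [mem_closedBall, dist_eq_norm]
    have h2 := hBb ζ z
    have h3 := hBb ζ w0
    have h4 := norm_sub_le (B ζ z) (B ζ w0)
    by_cases h : ζ ∈ ball (0 : ℂ) ρ
    · rw [indicator_of_mem h] at h2 h3 ⊢
      linarith
    · rw [indicator_of_notMem h] at h2 h3 ⊢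
      linarith
  have hd := (hBd ζ).mono hsub
  have ho : (fun z => B ζ z - B ζ w0) =o[𝓝 w0] fun z => ‖z - w0‖ ^ 0 := by
    simp only [pow_zero]
    rw [Asymptotics.isLittleO_one_iff]
    have hc : ContinuousAt (B ζ) w0 := (hd.differentiableAt (ball_mem_nhds _ hs)).continuousAt
    have := hc.tendsto.sub_const (B ζ w0)
    simpa using this
  have h := Complex.dist_le_mul_div_pow_of_mapsTo_ball_of_isLittleO (n := 0) hd h1 ho hw
  rw [dist_eq_norm, dist_eq_norm, zero_add, pow_one] at h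
  exact h

theorem CT_cont (hΩ : IsOpen Ω) (hρ : 0 ≤ ρ) (hM : 0 ≤ M)
    (hBm : Measurable (fun p : ℂ × ℂ => B p.1 p.2))
    (hBd : ∀ ζ, DifferentiableOn ℂ (B ζ) Ω)
    (hBb : ∀ ζ w, ‖B ζ w‖ ≤ (ball (0 : ℂ) ρ).indicator (fun _ => M) ζ) :
    ContinuousOn (CT B) Ω := by
  intro w0 hw0
  apply ContinuousAt.continuousWithinAt
  obtain ⟨s, hs, hsub⟩ := Metric.isOpen_iff.1 hΩ w0 hw0
  have hg : Integrable (fun ζ => B ζ w0) := by
    have h1 : Integrable ((ball (0 : ℂ) ρ).indicator (fun _ : ℂ => M)) :=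
      (integrable_indicator_iff measurableSet_ball).2
        (integrableOn_const measure_ball_lt_top.ne (by simp))
    exact h1.mono' (hBm.comp (measurable_id.prodMk measurable_const)).aestronglyMeasurable
      (Eventually.of_forall fun ζ => hBb ζ w0)
  have hc := IV.cauchy_cont (fun ζ => B ζ w0) hg w0 1 M
    (Eventually.of_forall fun ζ => (hBb ζ w0).trans (by
      by_cases h : ζ ∈ ball (0 : ℂ) ρ
      · rw [indicator_of_mem h]
      · rw [indicator_of_notMem h]
        exact hM))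
  have hc0 : ContinuousAt (fun z => ∫ ζ, B ζ w0 / (z - ζ)) w0 :=
    hc.continuousAt (ball_mem_nhds _ one_pos)
  have hdiff : ∀ z ∈ ball w0 s, ‖(∫ ζ, B ζ z / (z - ζ)) - ∫ ζ, B ζ w0 / (z - ζ)‖ ≤
      (2 * M * (2 * Real.pi * (‖w0‖ + s + ρ))) * (‖z - w0‖ / s) := by
    intro z hz
    rw [← integral_sub (B_int hBm hBb z z) (B_int hBm hBb w0 z)]
    have h1 : ∀ ζ, ‖B ζ z / (z - ζ) - B ζ w0 / (z - ζ)‖ ≤
        ((ball (0 : ℂ) ρ).indicator (fun _ => 2 * M) ζ * ‖z - ζ‖⁻¹) * (‖z - w0‖ / s) := by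
      intro ζ
      rw [← sub_div, norm_div, div_eq_mul_inv]
      have h2 := B_lip hBd hBb hs hsub hz ζ
      calc ‖B ζ z - B ζ w0‖ * ‖z - ζ‖⁻¹ ≤
          ((ball (0 : ℂ) ρ).indicator (fun _ => 2 * M) ζ * (‖z - w0‖ / s)) * ‖z - ζ‖⁻¹ := by gcongr
        _ = _ := by ring
    refine (norm_integral_le_of_norm_le ((dom_int z ρ (2 * M)).mul_const _)
      (Eventually.of_forall h1)).trans ?_
    rw [integral_mul_const]
    gcongr
    refine (dom_int_le z hρ (by positivity)).trans ?_
    have h3 : ‖z‖ ≤ ‖w0‖ + s := by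
      have h4 : ‖z - w0‖ < s := by rwa [mem_ball, dist_eq_norm] at hz
      have h5 := norm_add_le (z - w0) w0
      rw [sub_add_cancel] at h5
      linarith
    gcongr
  unfold CT
  refine ContinuousAt.mul continuousAt_const ?_
  rw [ContinuousAt, tendsto_iff_norm_sub_tendsto_zero] at hc0 ⊢
  have hlim : Tendsto (fun z => (2 * M * (2 * Real.pi * (‖w0‖ + s + ρ))) * (‖z - w0‖ / s) +
      ‖(∫ ζ, B ζ w0 / (z - ζ)) - ∫ ζ, B ζ w0 / (w0 - ζ)‖) (𝓝 w0) (𝓝 0) := by
    have h1 : Tendsto (fun z : ℂ => (2 * M * (2 * Real.pi * (‖w0‖ + s + ρ))) * (‖z - w0‖ / s))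
        (𝓝 w0) (𝓝 0) := by
      have h2 : Continuous (fun z : ℂ =>
          (2 * M * (2 * Real.pi * (‖w0‖ + s + ρ))) * (‖z - w0‖ / s)) := by fun_prop
      have h3 := h2.tendsto w0
      simpa using h3
    simpa using h1.add hc0
  refine squeeze_zero' (Eventually.of_forall fun z => norm_nonneg _) ?_ hlim
  filter_upwards [ball_mem_nhds w0 hs] with z hz
  have h1 := hdiff z hz
  have h2 := norm_add_le ((∫ ζ, B ζ z / (z - ζ)) - ∫ ζ, B ζ w0 / (z - ζ))
    ((∫ ζ, B ζ w0 / (z - ζ)) - ∫ ζ, B ζ w0 / (w0 - ζ))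
  rw [sub_add_sub_cancel] at h2
  linarith

theorem pompeiu {ψ : ℂ → ℂ} (h : ContDiff ℝ ∞ ψ) (hc : HasCompactSupport ψ) (ζ : ℂ) :
    ∫ w, db ψ w / (w - ζ) = -(Real.pi * ψ ζ) := by
  have h1 := Pool.Agent.Helper366.IV.cauchy_pompeiu ψ (h.of_le (by exact_mod_cast le_top)) hc ζ
  rw [← integral_sub_left_eq_self (fun w => db ψ w / (w - ζ)) _ ζ]
  rw [← h1, ← integral_neg]
  congr 1
  funext w
  unfold db
  rw [sub_sub_cancel_left]
  rw [div_neg]

theorem CT_weak (hΩ : IsOpen Ω) (hρ : 0 ≤ ρ) (hM : 0 ≤ M)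
    (hBm : Measurable (fun p : ℂ × ℂ => B p.1 p.2))
    (hBd : ∀ ζ, DifferentiableOn ℂ (B ζ) Ω)
    (hBb : ∀ ζ w, ‖B ζ w‖ ≤ (ball (0 : ℂ) ρ).indicator (fun _ => M) ζ) :
    WD Ω (CT B) (fun z => B z z) where
  cont := CT_cont hΩ hρ hM hBm hBd hBb
  li := by
    have h1 : Integrable (fun z => B z z) := by
      have h1 : Integrable ((ball (0 : ℂ) ρ).indicator (fun _ : ℂ => M)) :=
        (integrable_indicator_iff measurableSet_ball).2
          (integrableOn_const measure_ball_lt_top.ne (by simp))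
      exact h1.mono' (hBm.comp (measurable_id.prodMk measurable_id)).aestronglyMeasurable
        (Eventually.of_forall fun ζ => hBb ζ ζ)
    exact h1.locallyIntegrable.locallyIntegrableOn _
  weak := by
    intro φ hφ hc hs
    -- a bound for `db φ`
    obtain ⟨D, hD⟩ : ∃ D, ∀ w, ‖db φ w‖ ≤ D := by
      have h1 : HasCompactSupport (db φ) := by
        refine HasCompactSupport.intro hc (fun z hz => db_supp hz)
      exact h1.exists_bound_of_continuous (db_cont hφ)
    have hD0 : 0 ≤ D := (norm_nonneg _).trans (hD 0)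
    obtain ⟨r, hr⟩ : ∃ r : ℝ, ∀ w, w ∉ ball (0 : ℂ) r → db φ w = 0 := by
      obtain ⟨r, hr⟩ := hc.isCompact.isBounded.subset_ball (0 : ℂ)
      exact ⟨r, fun w hw => db_supp (fun h => hw (hr h))⟩
    -- integrability on the product
    have hprod : Integrable (fun p : ℂ × ℂ => (B p.2 p.1 / (p.1 - p.2)) * db φ p.1)
        (volume.prod volume) := by
      have h1 : Integrable ((ball (0 : ℂ) ρ).indicator (fun _ : ℂ => M)) :=
        (integrable_indicator_iff measurableSet_ball).2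
          (integrableOn_const measure_ball_lt_top.ne (by simp))
      have h2 : Integrable ((ball (0 : ℂ) (r + ρ)).indicator (fun ζ : ℂ => D * ‖ζ‖⁻¹)) := by
        have h3 := inv_ball_int 0 (r + ρ)
        simp only [zero_sub, norm_neg] at h3
        exact (integrable_indicator_iff measurableSet_ball).2 (h3.const_mul D)
      have h4 := h1.convolution_integrand (ContinuousLinearMap.mul ℝ ℝ) h2
      refine h4.mono' ?_ (Eventually.of_forall fun p => ?_)
      · have h5 : Measurable (fun p : ℂ × ℂ => B p.2 p.1) := hBm.comp measurable_swap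
        have h6 : Measurable (fun p : ℂ × ℂ => db φ p.1) :=
          (db_cont hφ).measurable.comp measurable_fst
        exact ((h5.div (measurable_fst.sub measurable_snd)).mul h6).aestronglyMeasurable
      · rw [norm_mul, norm_div, ContinuousLinearMap.mul_apply']
        by_cases hp2 : p.2 ∈ ball (0 : ℂ) ρ
        · by_cases hp1 : p.1 ∈ ball (0 : ℂ) r
          · have h7 : p.1 - p.2 ∈ ball (0 : ℂ) (r + ρ) := by
              rw [mem_ball_zero_iff] at hp1 hp2 ⊢
              have := norm_sub_le p.1 p.2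
              linarith
            have h8 := hBb p.2 p.1
            rw [indicator_of_mem hp2] at h8 ⊢
            rw [indicator_of_mem h7]
            calc ‖B p.2 p.1‖ / ‖p.1 - p.2‖ * ‖db φ p.1‖ ≤ M / ‖p.1 - p.2‖ * D := by
                  gcongr
                  exact hD _
              _ = M * (D * ‖p.1 - p.2‖⁻¹) := by ring
          · rw [hr _ hp1, norm_zero, mul_zero]
            refine mul_nonneg ?_ ?_
            · exact indicator_nonneg (fun _ _ => hM) _
            · exact indicator_nonneg (fun _ _ => by positivity) _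
        · have h8 := hBb p.2 p.1
          rw [indicator_of_notMem hp2] at h8 ⊢
          have h9 : ‖B p.2 p.1‖ = 0 := le_antisymm h8 (norm_nonneg _)
          rw [h9]
          simp
    have e1 : ∀ w, CT B w * db φ w =
        (1 / Real.pi : ℂ) * ∫ ζ, (B ζ w / (w - ζ)) * db φ w := by
      intro w
      rw [integral_mul_const, CT]
      ring
    calc ∫ w, CT B w * db φ w
        = ∫ w, (1 / Real.pi : ℂ) * ∫ ζ, (B ζ w / (w - ζ)) * db φ w := by simp only [e1]
      _ = (1 / Real.pi : ℂ) * ∫ w, ∫ ζ, (B ζ w / (w - ζ)) * db φ w := by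
          rw [integral_const_mul]
      _ = (1 / Real.pi : ℂ) * ∫ ζ, ∫ w, (B ζ w / (w - ζ)) * db φ w := by
          rw [integral_integral_swap hprod]
      _ = (1 / Real.pi : ℂ) * ∫ ζ, -(Real.pi * (B ζ ζ * φ ζ)) := by
          congr 2
          funext ζ
          rw [← pompeiu (test_mul hΩ (hBd ζ) hφ hs)
            (hc.mono' (subset_closure.trans tsupport_mul_sub)) ζ]
          congr 1
          funext w
          by_cases hw : w ∈ tsupport φ
          · have hd : DifferentiableAt ℂ (B ζ) w :=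
              ((hBd ζ) w (hs hw)).differentiableAt (hΩ.mem_nhds (hs hw))
            rw [db_mul (hd.restrictScalars ℝ) (hφ.differentiable (by simp) w), db_holo hd]
            ring
          · rw [db_supp hw, db_supp (fun h => hw (tsupport_mul_sub h)), mul_zero, zero_div]
      _ = -∫ z, B z z * φ z := by
          rw [integral_neg, integral_const_mul]
          have hpi : (Real.pi : ℂ) ≠ 0 := by exact_mod_cast Real.pi_ne_zero
          field_simp

end

end Pool.Agent.H720R2.HP
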