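import Mathlib
import Pool.Agent.HopfPinch.AnS1
import Pool.Agent.H720R2.HP.Kern
import Pool.Agent.H720R2.Cor.Jones

/-!
The solution operator of P. Jones on the Siegel domain.
-/

set_option autoImplicit false

open MeasureTheory Metric Set Filter Topology Complex
open scoped ContDiff

namespace Pool.Agent.H720R2.HP

variable {E : Type} [NormedAddCommGroup E] [NormedSpace ℂ E] [FiniteDimensional ℂ E]

/-- the Siegel domain -/
def SI (E : Type) [NormedAddCommGroup E] : Set (ℂ × E) := {p | ‖p.2‖ ^ 2 < p.1.im}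

theorem isOpen_SI : IsOpen (SI E) :=
  isOpen_lt (by fun_prop) (Complex.continuous_im.comp continuous_fst)

theorem SI_im {p : ℂ × E} (hp : p ∈ SI E) : 0 < p.1.im :=
  lt_of_le_of_lt (sq_nonneg _) hp

theorem im_add_le {a w : ℂ} : w.im + a.im ≤ ‖w - starRingEnd ℂ a‖ := by
  have h := Complex.abs_im_le_norm (w - starRingEnd ℂ a)
  simp only [Complex.sub_im, Complex.conj_im, sub_neg_eq_add] at h
  exact (le_abs_self _).trans h

theorem den_pos {a w : ℂ} (ha : 0 < a.im) (hw : 0 ≤ w.im) : 0 < ‖w - starRingEnd ℂ a‖ :=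
  lt_of_lt_of_le (by linarith) im_add_le

theorem den_ne {a w : ℂ} (ha : 0 < a.im) (hw : 0 ≤ w.im) : w - starRingEnd ℂ a ≠ 0 :=
  norm_pos_iff.1 (den_pos ha hw)

/-- the exponents -/
noncomputable def EK (a w : ℂ) : ℂ := I * (a.im : ℂ) / (w - starRingEnd ℂ a)

theorem EK_re (a w : ℂ) :
    (EK a w).re = a.im * (w.im + a.im) / ‖w - starRingEnd ℂ a‖ ^ 2 := by
  unfold EK
  rw [Complex.div_re, ← Complex.normSq_eq_norm_sq]
  simp only [Complex.mul_re, Complex.I_re, Complex.ofReal_re, Complex.I_im, Complex.ofReal_im,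
    Complex.mul_im, Complex.sub_im, Complex.conj_im, Complex.sub_re, Complex.conj_re]
  ring

theorem EK_diff {a w : ℂ} (ha : 0 < a.im) (hw : 0 ≤ w.im) : DifferentiableAt ℂ (EK a) w := by
  unfold EK
  exact DifferentiableAt.fun_div (by fun_prop) (by fun_prop) (den_ne ha hw)

/-- the linear maps between the slices -/
noncomputable def Lz (ζ : ℂ) (p : ℂ × E) : E := (2 * I * (ζ.im : ℂ) / (p.1 - starRingEnd ℂ ζ)) • p.2

theorem Lz_mem {ζ : ℂ} (hζ : 0 < ζ.im) {p : ℂ × E} (hp : p ∈ SI E) : ‖Lz ζ p‖ ^ 2 < ζ.im := by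
  have hw := SI_im hp
  have h1 : ‖p.2‖ ^ 2 < p.1.im := hp
  have h2 : p.1.im + ζ.im ≤ ‖p.1 - starRingEnd ℂ ζ‖ := im_add_le
  have h3 := den_pos hζ hw.le
  unfold Lz
  rw [norm_smul, norm_div, norm_mul, norm_mul, Complex.norm_real, norm_I, Real.norm_of_nonneg hζ.le,
    Complex.norm_ofNat, mul_pow, div_pow]
  have h4 : 4 * (p.1.im * ζ.im) ≤ ‖p.1 - starRingEnd ℂ ζ‖ ^ 2 := by nlinarith [sq_nonneg (p.1.im - ζ.im)]
  rw [div_mul_eq_mul_div, div_lt_iff₀ (by positivity)]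
  calc (2 * 1 * ζ.im) ^ 2 * ‖p.2‖ ^ 2 < (2 * 1 * ζ.im) ^ 2 * p.1.im := by gcongr
    _ = ζ.im * (4 * (p.1.im * ζ.im)) := by ring
    _ ≤ ζ.im * ‖p.1 - starRingEnd ℂ ζ‖ ^ 2 := by gcongr

theorem Lz_self {ζ : ℂ} (hζ : 0 < ζ.im) (y : E) : Lz ζ (ζ, y) = y := by
  unfold Lz
  have h1 : ζ - starRingEnd ℂ ζ = 2 * I * (ζ.im : ℂ) := by
    apply Complex.ext <;> simp
    ring
  simp only
  rw [h1, div_self, one_smul]
  have : (ζ.im : ℂ) ≠ 0 := by exact_mod_cast hζ.ne'
  simp [this, I_ne_zero]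

theorem mem_pair {ζ : ℂ} {y : E} : (ζ, y) ∈ SI E ↔ ‖y‖ ^ 2 < ζ.im := Iff.rfl

/-- a finite family of regions with the packing property -/
structure Fam {ι : Type} (S : Finset ι) (a : ι → ℂ) (R : ι → Set ℂ) (Cp : ℝ) : Prop where
  ha : ∀ k ∈ S, 0 < (a k).im
  hm : ∀ k ∈ S, MeasurableSet (R k)
  hd : ∀ k ∈ S, ∀ j ∈ S, k ≠ j → Disjoint (R k) (R j)
  hR : ∀ k ∈ S, ∀ w ∈ R k, 0 < w.im ∧ ‖w - a k‖ ≤ 4 * (a k).im
  hp : ∀ k ∈ S, ∀ ζ ∈ R k, ∑ j ∈ S.filter (fun j => (a j).im ≤ (a k).im),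
    (a j).im * (ζ.im + (a j).im) / ‖ζ - starRingEnd ℂ (a j)‖ ^ 2 ≤ Cp

section

variable {ι : Type} {S : Finset ι} {a : ι → ℂ} {R : ι → Set ℂ} {Cp : ℝ}

/-- the weights -/
noncomputable def Wk (S : Finset ι) (a : ι → ℂ) (k : ι) (ζ w : ℂ) : ℂ :=
  (ζ - starRingEnd ℂ (a k)) / (w - starRingEnd ℂ (a k)) *
    Complex.exp (-(∑ j ∈ S.filter (fun j => (a j).im ≤ (a k).im), EK (a j) w -
      ∑ j ∈ S.filter (fun j => (a j).im ≤ (a k).im), EK (a j) ζ))

theorem Wk_self (hF : Fam S a R Cp) {k : ι} (hk : k ∈ S) {ζ : ℂ} (hζ : 0 < ζ.im) :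
    Wk S a k ζ ζ = 1 := by
  unfold Wk
  rw [div_self (den_ne (hF.ha k hk) hζ.le), sub_self, neg_zero, Complex.exp_zero, one_mul]

theorem Wk_diff (hF : Fam S a R Cp) {k : ι} (hk : k ∈ S) (ζ : ℂ) {w : ℂ} (hw : 0 < w.im) :
    DifferentiableAt ℂ (Wk S a k ζ) w := by
  have h1 : DifferentiableAt ℂ
      (fun w => ∑ j ∈ S.filter (fun j => (a j).im ≤ (a k).im), EK (a j) w) w :=
    DifferentiableAt.fun_sum
      (fun j hj => EK_diff (hF.ha j (Finset.mem_of_mem_filter j hj)) hw.le)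
  have h2 : DifferentiableAt ℂ (fun w => (ζ - starRingEnd ℂ (a k)) / (w - starRingEnd ℂ (a k))) w :=
    DifferentiableAt.fun_div (by fun_prop) (by fun_prop) (den_ne (hF.ha k hk) hw.le)
  unfold Wk
  exact h2.fun_mul ((h1.sub_const _).fun_neg.cexp)

theorem Wk_cont (hF : Fam S a R Cp) {k : ι} (hk : k ∈ S) :
    ContinuousOn (fun p : ℂ × ℂ => Wk S a k p.1 p.2) {p | 0 < p.1.im ∧ 0 < p.2.im} := by
  have hE : ∀ j ∈ S, ∀ w : ℂ, 0 < w.im → ContinuousAt (EK (a j)) w := fun j hj w hw =>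
    (EK_diff (hF.ha j hj) hw.le).continuousAt
  intro p hp
  obtain ⟨hp1, hp2⟩ := hp
  apply ContinuousAt.continuousWithinAt
  unfold Wk
  refine ContinuousAt.mul (ContinuousAt.div (by fun_prop) (by fun_prop)
    (den_ne (hF.ha k hk) hp2.le)) ?_
  refine ContinuousAt.cexp (ContinuousAt.neg (ContinuousAt.sub ?_ ?_))
  · refine tendsto_finsetSum _ (fun j hj => ?_)
    exact ContinuousAt.comp (f := fun p : ℂ × ℂ => p.2) (hE j (Finset.mem_of_mem_filter j hj) p.2 hp2)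
      continuous_snd.continuousAt
  · refine tendsto_finsetSum _ (fun j hj => ?_)
    exact ContinuousAt.comp (f := fun p : ℂ × ℂ => p.1) (hE j (Finset.mem_of_mem_filter j hj) p.1 hp1)
      continuous_fst.continuousAt

/-- the basic size function -/
noncomputable def al (a w : ℂ) : ℝ := a.im ^ 2 / ‖w - starRingEnd ℂ a‖ ^ 2

theorem al_nonneg (a w : ℂ) : 0 ≤ al a w := by unfold al; positivity

theorem Wk_le (hF : Fam S a R Cp) {k : ι} (hk : k ∈ S) {ζ : ℂ} (hζ : ζ ∈ R k) {w : ℂ}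
    (hw : 0 < w.im) :
    ‖Wk S a k ζ w‖ ≤ 6 * (a k).im / ‖w - starRingEnd ℂ (a k)‖ * (Real.exp Cp *
      Real.exp (-∑ j ∈ S.filter (fun j => (a j).im ≤ (a k).im), al (a j) w)) := by
  have hak := hF.ha k hk
  have h1 : ‖ζ - starRingEnd ℂ (a k)‖ ≤ 6 * (a k).im := by
    have h2 := (hF.hR k hk ζ hζ).2
    have h3 : ‖a k - starRingEnd ℂ (a k)‖ = 2 * (a k).im := by
      have : a k - starRingEnd ℂ (a k) = ((2 * (a k).im : ℝ) : ℂ) * I := by
        apply Complex.ext <;> simp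
        ring
      rw [this, norm_mul, norm_I, mul_one, Complex.norm_real, Real.norm_of_nonneg (by positivity)]
    have h4 := norm_add_le (ζ - a k) (a k - starRingEnd ℂ (a k))
    rw [sub_add_sub_cancel] at h4
    linarith
  unfold Wk
  rw [norm_mul, norm_div, Complex.norm_exp, ← Real.exp_add]
  have h5 := den_pos hak hw.le
  gcongr
  rw [Complex.neg_re, Complex.sub_re, Complex.re_sum, Complex.re_sum]
  have h6 := hF.hp k hk ζ hζ
  have h7 : ∑ j ∈ S.filter (fun j => (a j).im ≤ (a k).im), (EK (a j) ζ).re ≤ Cp := by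
    simp only [EK_re]
    exact h6
  have h8 : ∑ j ∈ S.filter (fun j => (a j).im ≤ (a k).im), al (a j) w ≤
      ∑ j ∈ S.filter (fun j => (a j).im ≤ (a k).im), (EK (a j) w).re := by
    refine Finset.sum_le_sum (fun j hj => ?_)
    rw [EK_re]
    unfold al
    have h9 := hF.ha j (Finset.mem_of_mem_filter j hj)
    gcongr
    nlinarith
  linarith

theorem Wk_le' (hF : Fam S a R Cp) {k : ι} (hk : k ∈ S) {ζ : ℂ} (hζ : ζ ∈ R k) {w : ℂ}
    (hw : 0 < w.im) : ‖Wk S a k ζ w‖ ≤ 6 * Real.exp Cp := by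
  have hak := hF.ha k hk
  refine (Wk_le hF hk hζ hw).trans ?_
  have h1 : Real.exp (-∑ j ∈ S.filter (fun j => (a j).im ≤ (a k).im), al (a j) w) ≤ 1 := by
    rw [Real.exp_le_one_iff, neg_nonpos]
    exact Finset.sum_nonneg (fun j _ => al_nonneg _ _)
  have h2 : 6 * (a k).im / ‖w - starRingEnd ℂ (a k)‖ ≤ 6 := by
    rw [div_le_iff₀ (den_pos hak hw.le)]
    have := im_add_le (a := a k) (w := w)
    nlinarith
  calc _ ≤ 6 * (Real.exp Cp * 1) := by gcongr
    _ = _ := by ring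

/-- the area integral over a disc -/
theorem ball_int {a w : ℂ} (ha : 0 < a.im) (hw : 0 < w.im) :
    ∫ ζ in ball a (5 * a.im), ‖w - ζ‖⁻¹ ≤ 360 * Real.pi * (a.im ^ 2 / ‖w - starRingEnd ℂ a‖) := by
  have hd := den_pos ha hw.le
  have h3 : ‖a - starRingEnd ℂ a‖ = 2 * a.im := by
    have : a - starRingEnd ℂ a = ((2 * a.im : ℝ) : ℂ) * I := by
      apply Complex.ext <;> simp
      ring
    rw [this, norm_mul, norm_I, mul_one, Complex.norm_real, Real.norm_of_nonneg (by positivity)]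
  have h4 : ‖w - starRingEnd ℂ a‖ ≤ ‖w - a‖ + 2 * a.im := by
    have := norm_add_le (w - a) (a - starRingEnd ℂ a)
    rw [sub_add_sub_cancel, h3] at this
    exact this
  have hpi := Real.pi_pos
  rcases le_or_gt (10 * a.im) ‖w - a‖ with h | h
  · have h5 : ∀ ζ ∈ ball a (5 * a.im), ‖w - ζ‖⁻¹ ≤ (12 / 5) * ‖w - starRingEnd ℂ a‖⁻¹ := by
      intro ζ hζ
      rw [mem_ball, dist_eq_norm] at hζ
      have h6 : ‖w - a‖ ≤ ‖w - ζ‖ + ‖ζ - a‖ := by
        have := norm_add_le (w - ζ) (ζ - a)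
        rwa [sub_add_sub_cancel] at this
      have h7 : ‖w - starRingEnd ℂ a‖ ≤ (12 / 5) * ‖w - ζ‖ := by linarith
      have h8 : 0 < ‖w - ζ‖ := by nlinarith
      rw [← div_eq_mul_inv, inv_eq_one_div, div_le_div_iff₀ h8 hd]
      linarith
    have h6 : ∫ ζ in ball a (5 * a.im), ‖w - ζ‖⁻¹ ≤
        ∫ _ζ in ball a (5 * a.im), (12 / 5) * ‖w - starRingEnd ℂ a‖⁻¹ := by
      refine setIntegral_mono_on ?_ ?_ measurableSet_ball h5
      · refine (inv_ball_int w (‖w - a‖ + 5 * a.im)).mono_set (ball_subset_ball' ?_)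
        rw [dist_comm, dist_eq_norm]
        linarith
      · exact integrableOn_const measure_ball_lt_top.ne enorm_ne_top
    refine h6.trans ?_
    rw [setIntegral_const, Measure.real, Complex.volume_ball]
    simp only [smul_eq_mul]
    rw [ENNReal.toReal_mul, ENNReal.toReal_pow, ENNReal.toReal_ofReal (by positivity)]
    simp only [ENNReal.coe_toReal, NNReal.coe_real_pi]
    have h10 : 0 ≤ a.im ^ 2 * ‖w - starRingEnd ℂ a‖⁻¹ * Real.pi := by positivity
    calc (5 * a.im) ^ 2 * Real.pi * (12 / 5 * ‖w - starRingEnd ℂ a‖⁻¹)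
        = 60 * (a.im ^ 2 * ‖w - starRingEnd ℂ a‖⁻¹ * Real.pi) := by ring
      _ ≤ 360 * (a.im ^ 2 * ‖w - starRingEnd ℂ a‖⁻¹ * Real.pi) := by linarith
      _ = _ := by rw [div_eq_mul_inv]; ring
  · have h5 : ball a (5 * a.im) ⊆ ball w (15 * a.im) := by
      refine ball_subset_ball' ?_
      rw [dist_comm, dist_eq_norm]
      linarith
    have h6 : ∫ ζ in ball a (5 * a.im), ‖w - ζ‖⁻¹ ≤ ∫ ζ in ball w (15 * a.im), ‖w - ζ‖⁻¹ :=
      setIntegral_mono_set (inv_ball_int w _) (Eventually.of_forall fun ζ => by positivity)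
        h5.eventuallyLE
    rw [inv_ball_eq w (by positivity)] at h6
    refine h6.trans ?_
    have h7 : ‖w - starRingEnd ℂ a‖ ≤ 12 * a.im := by linarith
    have h8 : a.im / 12 ≤ a.im ^ 2 / ‖w - starRingEnd ℂ a‖ := by
      rw [div_le_div_iff₀ (by norm_num) hd]
      nlinarith
    nlinarith

/-- the kernel for a fixed `y` -/
noncomputable def Bk (S : Finset ι) (a : ι → ℂ) (R : ι → Set ℂ) (μ : ℂ → ℂ) (G : ℂ × E → ℂ)
    (y : E) (ζ w : ℂ) : ℂ :=
  ∑ k ∈ S, ((R k) ×ˢ {w : ℂ | ‖y‖ ^ 2 < w.im}).indicator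
    (fun p : ℂ × ℂ => μ p.1 * (G (p.1, Lz p.1 (p.2, y)))⁻¹ * Wk S a k p.1 p.2) (ζ, w)

theorem Bk_eq (hF : Fam S a R Cp) {μ : ℂ → ℂ} {G : ℂ × E → ℂ} {y : E} {ζ w : ℂ} {k : ι}
    (hk : k ∈ S) (hζ : ζ ∈ R k) (hw : ‖y‖ ^ 2 < w.im) :
    Bk S a R μ G y ζ w = μ ζ * (G (ζ, Lz ζ (w, y)))⁻¹ * Wk S a k ζ w := by
  unfold Bk
  rw [Finset.sum_eq_single_of_mem k hk]
  · rw [indicator_of_mem]
    exact ⟨hζ, hw⟩
  · intro j hj hjk
    rw [indicator_of_notMem]
    intro h
    exact (Set.disjoint_left.1 (hF.hd j hj k hk hjk)) h.1 hζ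

theorem Bk_zero {μ : ℂ → ℂ} {G : ℂ × E → ℂ} {y : E} {ζ w : ℂ} (h : ∀ k ∈ S, ζ ∉ R k) :
    Bk S a R μ G y ζ w = 0 := by
  unfold Bk
  refine Finset.sum_eq_zero (fun k hk => ?_)
  rw [indicator_of_notMem]
  intro h'
  exact h k hk h'.1

theorem Bk_zero' {μ : ℂ → ℂ} {G : ℂ × E → ℂ} {y : E} {ζ w : ℂ} (h : ¬ ‖y‖ ^ 2 < w.im) :
    Bk S a R μ G y ζ w = 0 := by
  unfold Bk
  refine Finset.sum_eq_zero (fun k hk => ?_)
  rw [indicator_of_notMem]
  intro h'
  exact h h'.2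

theorem Bk_meas (hF : Fam S a R Cp) {μ : ℂ → ℂ} (hμ : Measurable μ) {G : ℂ × E → ℂ}
    (hG : ContinuousOn G (SI E)) (y : E) :
    Measurable (fun p : ℂ × ℂ => Bk S a R μ G y p.1 p.2) := by
  set T : Set (ℂ × ℂ) := {p | 0 < p.1.im ∧ ‖y‖ ^ 2 < p.2.im} with hT
  have hTo : IsOpen T := by
    refine IsOpen.inter ?_ ?_
    · exact isOpen_lt continuous_const (Complex.continuous_im.comp continuous_fst)
    · exact isOpen_lt continuous_const (Complex.continuous_im.comp continuous_snd)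
  have hc1 : ContinuousOn (fun p : ℂ × ℂ => G (p.1, Lz p.1 (p.2, y))) T := by
    refine hG.comp ?_ ?_
    · intro p hp
      apply ContinuousAt.continuousWithinAt
      have h1 : p.2 - starRingEnd ℂ p.1 ≠ 0 := den_ne hp.1 ((sq_nonneg _).trans hp.2.le)
      unfold Lz
      refine ContinuousAt.prodMk continuousAt_fst ?_
      refine ContinuousAt.smul (ContinuousAt.div ?_ ?_ h1) continuousAt_const
      · exact (by fun_prop : Continuous fun p : ℂ × ℂ => 2 * I * (p.1.im : ℂ)).continuousAt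
      · exact (continuous_snd.sub (Complex.continuous_conj.comp continuous_fst)).continuousAt
    · intro p hp
      exact Lz_mem hp.1 (p := (p.2, y)) hp.2
  have hm1 : Measurable (T.indicator (fun p : ℂ × ℂ => G (p.1, Lz p.1 (p.2, y)))) := by
    rw [← Set.piecewise_eq_indicator]
    exact ContinuousOn.measurable_piecewise hc1 continuousOn_const hTo.measurableSet
  unfold Bk
  refine Finset.measurable_fun_sum _ (fun k hk => ?_)
  have hm2 : Measurable (T.indicator (fun p : ℂ × ℂ => Wk S a k p.1 p.2)) := by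
    rw [← Set.piecewise_eq_indicator]
    refine ContinuousOn.measurable_piecewise ?_ continuousOn_const hTo.measurableSet
    refine (Wk_cont hF hk).mono (fun p hp => ⟨hp.1, lt_of_le_of_lt (sq_nonneg _) hp.2⟩)
  have hΩ : MeasurableSet {w : ℂ | ‖y‖ ^ 2 < w.im} :=
    (isOpen_lt continuous_const Complex.continuous_im).measurableSet
  have heq : (fun p : ℂ × ℂ => ((R k) ×ˢ {w : ℂ | ‖y‖ ^ 2 < w.im}).indicator
      (fun p : ℂ × ℂ => μ p.1 * (G (p.1, Lz p.1 (p.2, y)))⁻¹ * Wk S a k p.1 p.2) (p.1, p.2)) =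
      ((R k) ×ˢ {w : ℂ | ‖y‖ ^ 2 < w.im}).indicator
      (fun p : ℂ × ℂ => μ p.1 * (T.indicator (fun p : ℂ × ℂ => G (p.1, Lz p.1 (p.2, y))) p)⁻¹ *
        T.indicator (fun p : ℂ × ℂ => Wk S a k p.1 p.2) p) := by
    funext p
    by_cases hp : p ∈ (R k) ×ˢ {w : ℂ | ‖y‖ ^ 2 < w.im}
    · have hpT : p ∈ T := ⟨(hF.hR k hk _ hp.1).1, hp.2⟩
      rw [indicator_of_mem hp, indicator_of_mem (a := (p.1, p.2)) hp, indicator_of_mem hpT,
        indicator_of_mem hpT]
    · rw [indicator_of_notMem hp, indicator_of_notMem (a := (p.1, p.2)) hp]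
  rw [heq]
  refine Measurable.indicator ?_ ((hF.hm k hk).prod hΩ)
  exact ((hμ.comp measurable_fst).mul hm1.inv).mul hm2

/-- hypotheses on the density and the denominator -/
structure Den (S : Finset ι) (a : ι → ℂ) (R : ι → Set ℂ) (μ : ℂ → ℂ) (K : ℝ) (G : ℂ × E → ℂ)
    (M : ℝ) : Prop where
  hμ : Measurable μ
  hK0 : 0 ≤ K
  hK : ∀ k ∈ S, ∀ ζ ∈ R k, ‖μ ζ‖ ≤ K / (a k).im
  h0 : ∀ ζ, (∀ k ∈ S, ζ ∉ R k) → μ ζ = 0
  hG : DifferentiableOn ℂ G (SI E)
  hM0 : 0 ≤ M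
  hM : ∀ ζ, μ ζ ≠ 0 → ∀ y : E, ‖y‖ ^ 2 < ζ.im → G (ζ, y) ≠ 0 ∧ ‖(G (ζ, y))⁻¹‖ ≤ M

theorem Bk_le (hF : Fam S a R Cp) {μ : ℂ → ℂ} {K M : ℝ} {G : ℂ × E → ℂ}
    (hD : Den S a R μ K G M) {y : E} {ζ w : ℂ} {k : ι} (hk : k ∈ S) (hζ : ζ ∈ R k)
    (hw : ‖y‖ ^ 2 < w.im) :
    ‖Bk S a R μ G y ζ w‖ ≤ K / (a k).im * M * ‖Wk S a k ζ w‖ := by
  rw [Bk_eq hF hk hζ hw, norm_mul, norm_mul]
  have hak := hF.ha k hk
  have hK0 := hD.hK0
  have hM0 := hD.hM0
  by_cases h : μ ζ = 0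
  · rw [h, norm_zero, zero_mul, zero_mul]
    positivity
  · have h1 := (hD.hM ζ h (Lz ζ (w, y)) (Lz_mem (hF.hR k hk ζ hζ).1 (p := (w, y)) hw)).2
    gcongr
    exact hD.hK k hk ζ hζ

theorem Bk_bound (hF : Fam S a R Cp) {μ : ℂ → ℂ} {K M : ℝ} {G : ℂ × E → ℂ}
    (hD : Den S a R μ K G M) : ∃ ρ M' : ℝ, 0 ≤ ρ ∧ 0 ≤ M' ∧ ∀ (y : E) (ζ w : ℂ),
      ‖Bk S a R μ G y ζ w‖ ≤ (ball (0 : ℂ) ρ).indicator (fun _ => M') ζ := by
  have hK0 := hD.hK0
  have hM0 := hD.hM0
  refine ⟨∑ k ∈ S, (‖a k‖ + 5 * |(a k).im|), ∑ k ∈ S, K / |(a k).im| * M * (6 * Real.exp Cp),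
    Finset.sum_nonneg fun k _ => by positivity, Finset.sum_nonneg fun k _ => by positivity,
    fun y ζ w => ?_⟩
  have hnn : 0 ≤ ∑ k ∈ S, K / |(a k).im| * M * (6 * Real.exp Cp) :=
    Finset.sum_nonneg fun k _ => by positivity
  by_cases h : ∀ k ∈ S, ζ ∉ R k
  · rw [Bk_zero h, norm_zero]
    exact indicator_nonneg (fun _ _ => hnn) _
  · push Not at h
    obtain ⟨k, hk, hζ⟩ := h
    have hak := hF.ha k hk
    have hmem : ζ ∈ ball (0 : ℂ) (∑ k ∈ S, (‖a k‖ + 5 * |(a k).im|)) := by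
      rw [mem_ball_zero_iff]
      have h1 := (hF.hR k hk ζ hζ).2
      have h2 := norm_add_le (ζ - a k) (a k)
      rw [sub_add_cancel] at h2
      have h3 : ‖a k‖ + 5 * |(a k).im| ≤ ∑ k ∈ S, (‖a k‖ + 5 * |(a k).im|) :=
        Finset.single_le_sum (f := fun k => ‖a k‖ + 5 * |(a k).im|)
          (fun j _ => by positivity) hk
      rw [abs_of_pos hak] at h3
      linarith
    rw [indicator_of_mem hmem]
    by_cases hw : ‖y‖ ^ 2 < w.im
    · refine (Bk_le hF hD hk hζ hw).trans ?_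
      have h4 := Wk_le' hF hk hζ (lt_of_le_of_lt (sq_nonneg ‖y‖) hw)
      have h5 : K / |(a k).im| * M * (6 * Real.exp Cp) ≤
          ∑ k ∈ S, K / |(a k).im| * M * (6 * Real.exp Cp) :=
        Finset.single_le_sum (f := fun k => K / |(a k).im| * M * (6 * Real.exp Cp))
          (fun j _ => by positivity) hk
      rw [abs_of_pos hak] at h5
      refine le_trans ?_ h5
      gcongr
    · rw [Bk_zero' hw, norm_zero]
      exact hnn

theorem Bk_diff (hF : Fam S a R Cp) {μ : ℂ → ℂ} {K M : ℝ} {G : ℂ × E → ℂ}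
    (hD : Den S a R μ K G M) (ζ : ℂ) {w : ℂ} {y : E} (hp : (w, y) ∈ SI E) :
    DifferentiableAt ℂ (fun p : ℂ × E => Bk S a R μ G p.2 ζ p.1) (w, y) := by
  by_cases h : ∀ k ∈ S, ζ ∉ R k
  · have h1 : (fun p : ℂ × E => Bk S a R μ G p.2 ζ p.1) = fun _ => 0 := by
      funext p
      exact Bk_zero h
    rw [h1]
    exact differentiableAt_const _
  · push Not at h
    obtain ⟨k, hk, hζ⟩ := h
    have hζim := (hF.hR k hk ζ hζ).1
    have hev : (fun p : ℂ × E => Bk S a R μ G p.2 ζ p.1) =ᶠ[𝓝 (w, y)]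
        fun p => μ ζ * (G (ζ, Lz ζ p))⁻¹ * Wk S a k ζ p.1 := by
      filter_upwards [isOpen_SI.mem_nhds hp] with p hp'
      exact Bk_eq hF hk hζ hp'
    refine DifferentiableAt.congr_of_eventuallyEq ?_ hev
    by_cases hμ : μ ζ = 0
    · simp only [hμ, zero_mul]
      exact differentiableAt_const _
    · have hw := SI_im hp
      have hL := Lz_mem hζim hp
      have h2 : DifferentiableAt ℂ (fun p : ℂ × E => (ζ, Lz ζ p)) (w, y) := by
        refine DifferentiableAt.prodMk (differentiableAt_const _) ?_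
        unfold Lz
        have h3 : (w, y).1 - starRingEnd ℂ ζ ≠ 0 := den_ne hζim hw.le
        simp only [div_eq_mul_inv]
        refine DifferentiableAt.fun_smul (DifferentiableAt.const_mul ?_ _) differentiableAt_snd
        exact DifferentiableAt.fun_inv (differentiableAt_fst.sub_const _) h3
      have h4 : DifferentiableAt ℂ G (ζ, Lz ζ (w, y)) :=
        (hD.hG _ hL).differentiableAt (isOpen_SI.mem_nhds hL)
      have h5 : DifferentiableAt ℂ (fun p : ℂ × E => G (ζ, Lz ζ p)) (w, y) :=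
        DifferentiableAt.comp (w, y) h4 h2
      have h6 : DifferentiableAt ℂ (fun p : ℂ × E => Wk S a k ζ p.1) (w, y) :=
        DifferentiableAt.comp (f := fun p : ℂ × E => p.1) (w, y) (Wk_diff hF hk ζ hw)
          differentiableAt_fst
      exact ((h5.fun_inv (hD.hM ζ hμ _ hL).1).const_mul _).fun_mul h6

/-- **The solution operator.** -/
theorem jones_op (hF : Fam S a R Cp) {μ : ℂ → ℂ} {K M : ℝ} {G : ℂ × E → ℂ}
    (hD : Den S a R μ K G M) : ∃ V : ℂ × E → ℂ,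
      (∀ p ∈ SI E, ‖V p‖ ≤ 2160 * Real.exp Cp * K * M) ∧
      (∀ y : E, WD {w : ℂ | ‖y‖ ^ 2 < w.im} (fun w => V (w, y)) (fun w => μ w * (G (w, y))⁻¹)) ∧
      ∀ w : ℂ, DifferentiableOn ℂ (fun y : E => V (w, y)) {y | ‖y‖ ^ 2 < w.im} := by
  classical
  obtain ⟨ρ, M', hρ, hM', hb⟩ := Bk_bound hF hD
  have hK0 := hD.hK0
  have hM0 := hD.hM0
  have hmeas := fun y => Bk_meas hF hD.hμ hD.hG.continuousOn y
  have hopen : ∀ y : E, IsOpen {w : ℂ | ‖y‖ ^ 2 < w.im} := fun y =>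
    isOpen_lt continuous_const Complex.continuous_im
  refine ⟨fun p => CT (Bk S a R μ G p.2) p.1, ?_, ?_, ?_⟩
  · rintro ⟨w, y⟩ hp
    have hw : 0 < w.im := SI_im hp
    set g : ι → ℝ := fun k => al (a k) w *
      Real.exp (-∑ j ∈ S.filter (fun j => (a j).im ≤ (a k).im), al (a j) w) with hg
    set c : ι → ℝ := fun k => K / (a k).im * M * (6 * (a k).im / ‖w - starRingEnd ℂ (a k)‖ *
      (Real.exp Cp *
        Real.exp (-∑ j ∈ S.filter (fun j => (a j).im ≤ (a k).im), al (a j) w))) with hc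
    have hc0 : ∀ k ∈ S, 0 ≤ c k := by
      intro k hk
      have := hF.ha k hk
      simp only [hc]
      positivity
    have hint : ∀ k, Integrable ((ball (a k) (5 * (a k).im)).indicator
        (fun ζ => c k * ‖w - ζ‖⁻¹)) := by
      intro k
      refine (integrable_indicator_iff measurableSet_ball).2 ?_
      refine Integrable.const_mul ?_ _
      refine (inv_ball_int w (‖w - a k‖ + 5 * (a k).im)).mono_set (ball_subset_ball' ?_)
      rw [dist_comm, dist_eq_norm]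
      linarith
    have h1 : ∀ ζ, ‖Bk S a R μ G y ζ w / (w - ζ)‖ ≤
        ∑ k ∈ S, (ball (a k) (5 * (a k).im)).indicator (fun ζ => c k * ‖w - ζ‖⁻¹) ζ := by
      intro ζ
      have hnn : ∀ k ∈ S, 0 ≤ (ball (a k) (5 * (a k).im)).indicator
          (fun ζ => c k * ‖w - ζ‖⁻¹) ζ := fun k hk =>
        indicator_nonneg (fun _ _ => mul_nonneg (hc0 k hk) (by positivity)) _
      by_cases h : ∀ k ∈ S, ζ ∉ R k
      · rw [Bk_zero h, zero_div, norm_zero]
        exact Finset.sum_nonneg hnn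
      · push Not at h
        obtain ⟨k, hk, hζ⟩ := h
        refine le_trans ?_ (Finset.single_le_sum hnn hk)
        have hak := hF.ha k hk
        have hmem : ζ ∈ ball (a k) (5 * (a k).im) := by
          rw [mem_ball, dist_eq_norm]
          have := (hF.hR k hk ζ hζ).2
          linarith
        rw [indicator_of_mem hmem, norm_div, div_eq_mul_inv]
        refine mul_le_mul_of_nonneg_right ?_ (by positivity)
        refine (Bk_le hF hD hk hζ hp).trans ?_
        simp only [hc]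
        have := Wk_le hF hk hζ hw
        gcongr
    have h2 : ‖∫ ζ, Bk S a R μ G y ζ w / (w - ζ)‖ ≤
        ∑ k ∈ S, c k * (360 * Real.pi * ((a k).im ^ 2 / ‖w - starRingEnd ℂ (a k)‖)) := by
      refine (norm_integral_le_of_norm_le (integrable_finset_sum S (fun k _ => hint k))
        (Eventually.of_forall h1)).trans ?_
      rw [integral_finset_sum S (fun k _ => hint k)]
      refine Finset.sum_le_sum (fun k hk => ?_)
      rw [integral_indicator measurableSet_ball, integral_const_mul]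
      exact mul_le_mul_of_nonneg_left (ball_int (hF.ha k hk) hw) (hc0 k hk)
    have h3 : ∀ k ∈ S, c k * (360 * Real.pi * ((a k).im ^ 2 / ‖w - starRingEnd ℂ (a k)‖)) =
        Real.pi * (2160 * Real.exp Cp * K * M) * g k := by
      intro k hk
      have hak := hF.ha k hk
      have hdk := den_pos hak hw.le
      simp only [hc, hg, al]
      field_simp
      ring
    rw [Finset.sum_congr rfl h3, ← Finset.mul_sum] at h2
    have h4 : ∑ k ∈ S, g k ≤ 1 := by
      have h5 := Cor.exp_sum_le S (fun k => -(a k).im) (fun k => al (a k) w)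
        (fun k _ => al_nonneg _ _)
      have h6 : ∀ k, S.filter (fun j => -(a k).im ≤ -(a j).im) =
          S.filter (fun j => (a j).im ≤ (a k).im) := by
        intro k
        refine Finset.filter_congr (fun j _ => ?_)
        exact neg_le_neg_iff
      simp only [h6] at h5
      refine h5.trans ?_
      have := Real.exp_pos (-∑ j ∈ S, al (a j) w)
      linarith
    simp only [CT]
    rw [norm_mul, norm_div, norm_one, Complex.norm_real, Real.norm_of_nonneg Real.pi_pos.le]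
    have hpi := Real.pi_pos
    calc 1 / Real.pi * ‖∫ ζ, Bk S a R μ G y ζ w / (w - ζ)‖
        ≤ 1 / Real.pi * (Real.pi * (2160 * Real.exp Cp * K * M) * 1) := by
          gcongr
          refine h2.trans ?_
          gcongr
      _ = _ := by field_simp
  · intro y
    have h1 := CT_weak (hopen y) hρ hM' (hmeas y) (fun ζ w hw => by
      have h2 := Bk_diff hF hD ζ (w := w) (y := y) hw
      have h3 : DifferentiableAt ℂ (fun w : ℂ => (w, y)) w :=
        differentiableAt_id.prodMk (differentiableAt_const _)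
      exact (DifferentiableAt.comp (g := fun p : ℂ × E => Bk S a R μ G p.2 ζ p.1) w h2
        h3).differentiableWithinAt) (fun ζ w => hb y ζ w)
    refine h1.congr (hopen y) (fun _ _ => rfl) (fun z hz => ?_)
    have hz' : ‖y‖ ^ 2 < z.im := hz
    have hz0 : 0 < z.im := lt_of_le_of_lt (sq_nonneg _) hz'
    by_cases h : ∀ k ∈ S, z ∉ R k
    · rw [Bk_zero h, hD.h0 z h, zero_mul]
    · push Not at h
      obtain ⟨k, hk, hζ⟩ := h
      rw [Bk_eq hF hk hζ hz, Wk_self hF hk hz0, Lz_self hz0, mul_one]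
  · intro w
    have hO : IsOpen {y : E | ‖y‖ ^ 2 < w.im} := isOpen_lt (by fun_prop) continuous_const
    have h1 := HP.differentiableOn_integral (X := E) (E := ℂ) volume
      (fun ζ y => Bk S a R μ G y ζ w / (w - ζ)) {y : E | ‖y‖ ^ 2 < w.im} hO
      (fun y _ => (B_int (hmeas y) (fun ζ w => hb y ζ w) w w).aestronglyMeasurable)
      (fun ζ y hy => by
        have h2 := Bk_diff hF hD ζ (w := w) (y := y) hy
        have h3 : DifferentiableAt ℂ (fun y : E => (w, y)) y :=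
          (differentiableAt_const _).prodMk differentiableAt_id
        have h4 := DifferentiableAt.comp (g := fun p : ℂ × E => Bk S a R μ G p.2 ζ p.1) y h2 h3
        simp only [div_eq_mul_inv]
        exact (h4.mul_const _).differentiableWithinAt)
      (fun ζ => (ball (0 : ℂ) ρ).indicator (fun _ => M') ζ * ‖w - ζ‖⁻¹) (dom_int w ρ M')
      (fun ζ y _ => by
        rw [norm_div, div_eq_mul_inv]
        exact mul_le_mul_of_nonneg_right (hb y ζ w) (by positivity))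
    exact h1.const_mul _

end

end Pool.Agent.H720R2.HP
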