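import Mathlib
import Pool.Agent.HopfPinch.AnS1
import Pool.Agent.H720R2.HP.Op

/-!
Bounded separately holomorphic functions on the Siegel domain are holomorphic.
-/

set_option autoImplicit false

open MeasureTheory Metric Set Filter Topology Complex

namespace Pool.Agent.H720R2.HP

variable {E : Type} [NormedAddCommGroup E] [NormedSpace ℂ E] [FiniteDimensional ℂ E]

theorem osgood {u : ℂ × E → ℂ} {C : ℝ} (hb : ∀ p ∈ SI E, ‖u p‖ ≤ C)
    (h1 : ∀ y : E, DifferentiableOn ℂ (fun w => u (w, y)) {w : ℂ | ‖y‖ ^ 2 < w.im})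
    (h2 : ∀ w : ℂ, DifferentiableOn ℂ (fun y : E => u (w, y)) {y | ‖y‖ ^ 2 < w.im}) :
    DifferentiableOn ℂ u (SI E) := by
  rintro ⟨w0, y0⟩ hp0
  apply DifferentiableAt.differentiableWithinAt
  obtain ⟨ε, hε, hB⟩ := Metric.isOpen_iff.1 (isOpen_SI (E := E)) _ hp0
  set r := ε / 2 with hr
  have hr0 : 0 < r := by positivity
  have hsub : ∀ w ∈ closedBall w0 r, ∀ y ∈ ball y0 r, (w, y) ∈ SI E := by
    intro w hw y hy
    refine hB ?_
    rw [mem_ball, Prod.dist_eq]
    rw [mem_closedBall] at hw
    rw [mem_ball] at hy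
    simp only [max_lt_iff]
    constructor <;> linarith
  set O : Set (ℂ × E) := ball w0 (r / 2) ×ˢ ball y0 r with hO
  have hOo : IsOpen O := isOpen_ball.prod isOpen_ball
  have hcm : ∀ θ, circleMap w0 r θ ∈ closedBall w0 r := fun θ => circleMap_mem_closedBall _ hr0.le θ
  have hC0 : 0 ≤ C := (norm_nonneg _).trans (hb _ hp0)
  have hsep : ∀ θ, ∀ w ∈ ball w0 (r / 2), r / 2 ≤ ‖circleMap w0 r θ - w‖ := by
    intro θ w hw
    have h3 : ‖circleMap w0 r θ - w0‖ = r := by
      simp [circleMap_sub_center, abs_of_pos hr0]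
    rw [mem_ball, dist_eq_norm] at hw
    have h4 := norm_sub_le (circleMap w0 r θ - w) (w0 - w)
    rw [sub_sub_sub_cancel_right, h3] at h4
    rw [norm_sub_rev w0 w] at h4
    linarith
  have hrep : ∀ p ∈ O, u p = (2 * Real.pi * I : ℂ)⁻¹ • ∫ θ in Ioc (0 : ℝ) (2 * Real.pi),
      deriv (circleMap w0 r) θ * ((circleMap w0 r θ - p.1)⁻¹ * u (circleMap w0 r θ, p.2)) := by
    rintro ⟨w, y⟩ ⟨hw, hy⟩
    have hd : DifferentiableOn ℂ (fun w => u (w, y)) (closedBall w0 r) := by
      intro z hz
      have h3 : z ∈ {w : ℂ | ‖y‖ ^ 2 < w.im} := hsub z hz y hy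
      exact ((h1 y z h3).differentiableAt ((isOpen_lt continuous_const
        Complex.continuous_im).mem_nhds h3)).differentiableWithinAt
    have hdc : DiffContOnCl ℂ (fun w => u (w, y)) (ball w0 r) := by
      refine DifferentiableOn.diffContOnCl ?_
      rw [closure_ball _ hr0.ne']
      exact hd
    have h4 := hdc.two_pi_i_inv_smul_circleIntegral_sub_inv_smul
      (ball_subset_ball (by linarith : r / 2 ≤ r) hw)
    simp only at h4 ⊢
    rw [← h4, circleIntegral, intervalIntegral.integral_of_le (by positivity)]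
    simp only [smul_eq_mul]
  have hint : DifferentiableOn ℂ (fun p : ℂ × E => ∫ θ in Ioc (0 : ℝ) (2 * Real.pi),
      deriv (circleMap w0 r) θ * ((circleMap w0 r θ - p.1)⁻¹ * u (circleMap w0 r θ, p.2))) O := by
    refine HP.differentiableOn_integral (X := ℂ × E) (E := ℂ) _ _ O hOo ?_ ?_
      (fun _ => r * ((r / 2)⁻¹ * C)) ?_ ?_
    · rintro ⟨w, y⟩ ⟨hw, hy⟩
      apply Continuous.aestronglyMeasurable
      have hc1 : Continuous (fun θ => u (circleMap w0 r θ, y)) := by
        rw [continuous_iff_continuousAt]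
        intro θ
        have h3 : circleMap w0 r θ ∈ {w : ℂ | ‖y‖ ^ 2 < w.im} := hsub _ (hcm θ) y hy
        have h4 : ContinuousAt (fun w => u (w, y)) (circleMap w0 r θ) :=
          ((h1 y _ h3).differentiableAt ((isOpen_lt continuous_const
            Complex.continuous_im).mem_nhds h3)).continuousAt
        exact ContinuousAt.comp (f := fun θ => circleMap w0 r θ) (g := fun w => u (w, y)) h4
          (continuous_circleMap w0 r).continuousAt
      have hc2 : Continuous (fun θ => (circleMap w0 r θ - w)⁻¹) := by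
        refine Continuous.inv₀ ((continuous_circleMap w0 r).sub continuous_const) (fun θ => ?_)
        have := hsep θ w hw
        exact norm_pos_iff.1 (by linarith)
      have hc3 : Continuous (fun θ => deriv (circleMap w0 r) θ) := by
        simp only [deriv_circleMap]
        exact (continuous_circleMap 0 r).mul continuous_const
      exact hc3.mul (hc2.mul hc1)
    · intro θ
      have hd1 : DifferentiableOn ℂ (fun p : ℂ × E => u (circleMap w0 r θ, p.2)) O := by
        refine (h2 (circleMap w0 r θ)).comp differentiableOn_snd (fun p hp => ?_)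
        exact hsub _ (hcm θ) _ hp.2
      have hd2 : DifferentiableOn ℂ (fun p : ℂ × E => (circleMap w0 r θ - p.1)⁻¹) O := by
        intro p hp
        refine (DifferentiableAt.fun_inv ((differentiableAt_const _).fun_sub differentiableAt_fst)
          ?_).differentiableWithinAt
        have := hsep θ p.1 hp.1
        exact norm_pos_iff.1 (by linarith)
      exact (hd2.fun_mul hd1).const_mul _
    · exact integrableOn_const measure_Ioc_lt_top.ne enorm_ne_top
    · rintro θ ⟨w, y⟩ ⟨hw, hy⟩
      rw [norm_mul, norm_mul, norm_inv]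
      have h3 : ‖deriv (circleMap w0 r) θ‖ = r := by
        simp [deriv_circleMap, abs_of_pos hr0]
      rw [h3]
      have h4 := hsep θ w hw
      have h5 := hb _ (hsub _ (hcm θ) y hy)
      gcongr
  have hfin : DifferentiableOn ℂ u O :=
    (hint.const_smul (2 * Real.pi * I : ℂ)⁻¹).congr (fun p hp => hrep p hp)
  exact hfin.differentiableAt (hOo.mem_nhds ⟨mem_ball_self (by positivity), mem_ball_self hr0⟩)

end Pool.Agent.H720R2.HP
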