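import Mathlib
import Pool.Agent.H720R2.HP.Osgood

/-!
From cutoff functions to solutions of the Bezout equation on the Siegel domain.
-/

set_option autoImplicit false

open MeasureTheory Metric Set Filter Topology Complex
open scoped ContDiff

namespace Pool.Agent.H720R2.HP

/-- the upper half plane -/
def UH : Set ℂ := {w | 0 < w.im}

theorem isOpen_UH : IsOpen UH := isOpen_lt continuous_const Complex.continuous_im

/-- a partition of unity subordinate to the sets where the functions are small or large, with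
gradients supported on a packed family of regions -/
structure CutP {N : ℕ} (f : Fin N → ℂ → ℂ) (ε ε' C : ℝ) {ι : Type} (S : Finset ι) (a : ι → ℂ)
    (R : ι → Set ℂ) (χ : Option (Fin N) → ℂ → ℂ) : Prop where
  fam : Fam S a R C
  smooth : ∀ o, ContDiffOn ℝ 1 (χ o) UH
  bd : ∀ o, ∀ w ∈ UH, ‖χ o w‖ ≤ 1
  sum : ∀ w ∈ UH, ∑ o, χ o w = 1
  small : ∀ w ∈ UH, χ none w ≠ 0 → ∀ i, ‖f i w‖ ≤ ε
  large : ∀ w ∈ UH, ∀ i, χ (some i) w ≠ 0 → ε' ≤ ‖f i w‖
  grad : ∀ w ∈ UH, ∀ o, fderiv ℝ (χ o) w ≠ 0 → ∃ k ∈ S, w ∈ R k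
  gradb : ∀ k ∈ S, ∀ w ∈ R k, ∀ o, ‖fderiv ℝ (χ o) w‖ ≤ C / (a k).im

variable {E : Type} [NormedAddCommGroup E] [NormedSpace ℂ E] [FiniteDimensional ℂ E]

section

variable {N : ℕ} {f : Fin N → ℂ → ℂ} {ε ε' C : ℝ} {ι : Type} {S : Finset ι} {a : ι → ℂ}
  {R : ι → Set ℂ} {χ : Option (Fin N) → ℂ → ℂ}

theorem db_ne {φ : ℂ → ℂ} {z : ℂ} (h : db φ z ≠ 0) : fderiv ℝ φ z ≠ 0 := by
  intro h'
  apply h
  unfold db
  rw [h']
  simp

/-- at a point where the derivative of a function does not vanish, the function is non-zero at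
nearby points -/
theorem freq_ne {φ : ℂ → ℂ} {z : ℂ} (h : fderiv ℝ φ z ≠ 0) : ∃ᶠ w in 𝓝 z, φ w ≠ 0 := by
  intro h'
  apply h
  have h1 : φ =ᶠ[𝓝 z] fun _ => 0 := by
    filter_upwards [h'] with w hw
    exact not_not.1 hw
  rw [h1.fderiv_eq]
  exact fderiv_const_apply 0

theorem CutP.d_none (h : CutP f ε ε' C S a R χ) (hf : ∀ i, DifferentiableOn ℂ (f i) UH) {w : ℂ}
    (hw : w ∈ UH) (hd : fderiv ℝ (χ none) w ≠ 0) (i : Fin N) : ‖f i w‖ ≤ ε := by
  have h1 := freq_ne hd
  have hc : ContinuousAt (f i) w := ((hf i).differentiableAt (isOpen_UH.mem_nhds hw)).continuousAt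
  by_contra hlt
  push Not at hlt
  have h2 : ∀ᶠ z in 𝓝 w, ε < ‖f i z‖ := hc.norm.eventually (lt_mem_nhds hlt)
  obtain ⟨z, hz, hz2, hz3⟩ := (h1.and_eventually (h2.and (isOpen_UH.mem_nhds hw))).exists
  exact absurd (h.small z hz3 hz i) (not_le.2 hz2)

theorem CutP.d_some (h : CutP f ε ε' C S a R χ) (hf : ∀ i, DifferentiableOn ℂ (f i) UH) {w : ℂ}
    (hw : w ∈ UH) {i : Fin N} (hd : fderiv ℝ (χ (some i)) w ≠ 0) : ε' ≤ ‖f i w‖ := by
  have h1 := freq_ne hd
  have hc : ContinuousAt (f i) w := ((hf i).differentiableAt (isOpen_UH.mem_nhds hw)).continuousAt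
  by_contra hlt
  push Not at hlt
  have h2 : ∀ᶠ z in 𝓝 w, ‖f i z‖ < ε' := hc.norm.eventually (gt_mem_nhds hlt)
  obtain ⟨z, hz, hz2, hz3⟩ := (h1.and_eventually (h2.and (isOpen_UH.mem_nhds hw))).exists
  exact absurd (h.large z hz3 i hz) (not_le.2 hz2)

theorem CutP.diffAt (h : CutP f ε ε' C S a R χ) {w : ℂ} (hw : w ∈ UH) (o : Option (Fin N)) :
    DifferentiableAt ℝ (χ o) w :=
  ((h.smooth o).differentiableOn one_ne_zero w hw).differentiableAt (isOpen_UH.mem_nhds hw)

theorem CutP.db_sum (h : CutP f ε ε' C S a R χ) {w : ℂ} (hw : w ∈ UH) :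
    db (χ none) w + ∑ i, db (χ (some i)) w = 0 := by
  have h1 : fderiv ℝ (fun z => ∑ o, χ o z) w = 0 := by
    have h2 : (fun z => ∑ o, χ o z) =ᶠ[𝓝 w] fun _ => 1 := by
      filter_upwards [isOpen_UH.mem_nhds hw] with z hz
      exact h.sum z hz
    rw [h2.fderiv_eq]
    exact fderiv_const_apply 1
  rw [fderiv_fun_sum (fun o _ => h.diffAt hw o)] at h1
  have h3 : ∀ v : ℂ, ∑ o, fderiv ℝ (χ o) w v = 0 := by
    intro v
    have := congrArg (fun L : ℂ →L[ℝ] ℂ => L v) h1
    simpa using this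
  have h4 : ∑ o, db (χ o) w = 0 := by
    unfold db
    rw [← Finset.sum_div, Finset.sum_add_distrib, ← Finset.mul_sum, h3, h3]
    simp
  rwa [Fintype.sum_option] at h4

/-- the sum of squares -/
noncomputable def DD (f : Fin N → ℂ → ℂ) (w : ℂ) : ℝ := ∑ i, ‖f i w‖ ^ 2

theorem DD_ge (f : Fin N → ℂ → ℂ) (w : ℂ) (i : Fin N) : ‖f i w‖ ^ 2 ≤ DD f w :=
  Finset.single_le_sum (f := fun i => ‖f i w‖ ^ 2) (fun j _ => by positivity) (Finset.mem_univ i)

theorem DD_nonneg (f : Fin N → ℂ → ℂ) (w : ℂ) : 0 ≤ DD f w :=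
  Finset.sum_nonneg fun i _ => by positivity

theorem CutP.DD_none (h : CutP f ε ε' C S a R χ) (hε' : 0 < ε')
    (hf : ∀ i, DifferentiableOn ℂ (f i) UH) {w : ℂ}
    (hw : w ∈ UH) (hd : db (χ none) w ≠ 0) : ε' ^ 2 ≤ DD f w := by
  have h1 := h.db_sum hw
  have h2 : ∃ i, db (χ (some i)) w ≠ 0 := by
    by_contra h3
    push Not at h3
    apply hd
    rw [← h1, Finset.sum_eq_zero (fun i _ => h3 i), add_zero]
  obtain ⟨i, hi⟩ := h2
  have h3 := h.d_some hf hw (db_ne hi)
  exact (pow_le_pow_left₀ hε'.le h3 2).trans (DD_ge f w i)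

theorem CutP.DD_some (h : CutP f ε ε' C S a R χ) (hε' : 0 < ε')
    (hf : ∀ i, DifferentiableOn ℂ (f i) UH) {w : ℂ}
    (hw : w ∈ UH) {i : Fin N} (hd : db (χ (some i)) w ≠ 0) : ε' ^ 2 ≤ DD f w := by
  have h3 := h.d_some hf hw (db_ne hd)
  exact (pow_le_pow_left₀ hε'.le h3 2).trans (DD_ge f w i)

/-- the union of the regions -/
def UR (S : Finset ι) (R : ι → Set ℂ) : Set ℂ := {w | ∃ k ∈ S, w ∈ R k}

theorem CutP.UR_meas (h : CutP f ε ε' C S a R χ) : MeasurableSet (UR S R) := by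
  have : UR S R = ⋃ k ∈ S, R k := by
    ext w
    simp [UR]
  rw [this]
  exact Finset.measurableSet_biUnion S (fun k hk => h.fam.hm k hk)

theorem CutP.UR_sub (h : CutP f ε ε' C S a R χ) {w : ℂ} (hw : w ∈ UR S R) : w ∈ UH := by
  obtain ⟨k, hk, hw⟩ := hw
  exact (h.fam.hR k hk w hw).1

/-- first density -/
noncomputable def mu1 (f : Fin N → ℂ → ℂ) (S : Finset ι) (R : ι → Set ℂ)
    (χ : Option (Fin N) → ℂ → ℂ) (i : Fin N) : ℂ → ℂ :=
  (UR S R).indicator (fun w => starRingEnd ℂ (f i w) / (DD f w : ℂ) * db (χ none) w)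

/-- the auxiliary functions `e_i` -/
noncomputable def ee (f : Fin N → ℂ → ℂ) (χ : Option (Fin N) → ℂ → ℂ) (i : Fin N) (w : ℂ) : ℂ :=
  db (χ (some i)) w / f i w + starRingEnd ℂ (f i w) / (DD f w : ℂ) * db (χ none) w

/-- second density -/
noncomputable def mu2 (f : Fin N → ℂ → ℂ) (S : Finset ι) (R : ι → Set ℂ)
    (χ : Option (Fin N) → ℂ → ℂ) (i j : Fin N) : ℂ → ℂ :=
  (UR S R).indicator (fun w => starRingEnd ℂ (f j w) / (DD f w : ℂ) * ee f χ i w)

theorem db_meas (φ : ℂ → ℂ) : Measurable (db φ) := by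
  unfold db
  exact ((measurable_fderiv_apply_const ℝ φ 1).add
    ((measurable_fderiv_apply_const ℝ φ I).const_mul I)).div_const 2

theorem ind_meas (h : CutP f ε ε' C S a R χ) (hf : ∀ i, DifferentiableOn ℂ (f i) UH)
    (Φ : (Fin N → ℂ) → ℂ → ℂ) (hΦ : Measurable (fun p : (Fin N → ℂ) × ℂ => Φ p.1 p.2)) :
    Measurable ((UR S R).indicator (fun w => Φ (fun i => f i w) w)) := by
  have h1 : (UR S R).indicator (fun w => Φ (fun i => f i w) w) =
      (UR S R).indicator (fun w => Φ (fun i => UH.indicator (f i) w) w) := by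
    funext w
    by_cases hw : w ∈ UR S R
    · rw [indicator_of_mem hw, indicator_of_mem hw]
      congr 1
      funext i
      rw [indicator_of_mem (h.UR_sub hw)]
    · rw [indicator_of_notMem hw, indicator_of_notMem hw]
  rw [h1]
  refine Measurable.indicator ?_ h.UR_meas
  refine hΦ.comp (Measurable.prodMk ?_ measurable_id)
  rw [measurable_pi_iff]
  intro i
  have h2 : Measurable (UH.indicator (f i)) := by
    classical
    rw [← Set.piecewise_eq_indicator]
    exact ContinuousOn.measurable_piecewise (hf i).continuousOn continuousOn_const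
      isOpen_UH.measurableSet
  exact h2

theorem ratio_le {f : Fin N → ℂ → ℂ} {w : ℂ} (hε' : 0 < ε') (h : ε' ^ 2 ≤ DD f w) (i : Fin N) :
    ‖starRingEnd ℂ (f i w) / (DD f w : ℂ)‖ ≤ 1 / ε' := by
  have h0 : 0 < DD f w := lt_of_lt_of_le (by positivity) h
  rw [norm_div, RCLike.norm_conj, Complex.norm_real, Real.norm_of_nonneg h0.le,
    div_le_div_iff₀ h0 hε', one_mul]
  have h1 := DD_ge f w i
  have h2 := norm_nonneg (f i w)
  by_contra hlt
  push Not at hlt
  rcases le_or_gt ‖f i w‖ ε' with h3 | h3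
  · nlinarith
  · nlinarith

theorem mu1_le (h : CutP f ε ε' C S a R χ) (hε' : 0 < ε') (hC : 0 ≤ C)
    (hf : ∀ i, DifferentiableOn ℂ (f i) UH) (i : Fin N) {k : ι} (hk : k ∈ S) {w : ℂ}
    (hw : w ∈ R k) : ‖starRingEnd ℂ (f i w) / (DD f w : ℂ) * db (χ none) w‖ ≤ (C / ε') / (a k).im := by
  have hwU := (h.fam.hR k hk w hw).1
  have hak := h.fam.ha k hk
  by_cases hd : db (χ none) w = 0
  · rw [hd, mul_zero, norm_zero]
    positivity
  · rw [norm_mul]
    have h1 := ratio_le hε' (h.DD_none hε' hf hwU hd) i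
    have h2 := (db_norm_le (χ none) w).trans (h.gradb k hk w hw none)
    calc _ ≤ 1 / ε' * (C / (a k).im) := by gcongr
      _ = _ := by ring

theorem ee_le (h : CutP f ε ε' C S a R χ) (hε' : 0 < ε') (hC : 0 ≤ C)
    (hf : ∀ i, DifferentiableOn ℂ (f i) UH) (i : Fin N) {k : ι} (hk : k ∈ S) {w : ℂ}
    (hw : w ∈ R k) : ‖ee f χ i w‖ ≤ (2 * C / ε') / (a k).im := by
  have hwU := (h.fam.hR k hk w hw).1
  have hak := h.fam.ha k hk
  have h1 := mu1_le h hε' hC hf i hk hw
  have h2 : ‖db (χ (some i)) w / f i w‖ ≤ (C / ε') / (a k).im := by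
    by_cases hd : db (χ (some i)) w = 0
    · rw [hd, zero_div, norm_zero]
      positivity
    · have h3 := h.d_some hf hwU (db_ne hd)
      have h4 := (db_norm_le (χ (some i)) w).trans (h.gradb k hk w hw (some i))
      rw [norm_div]
      calc _ ≤ C / (a k).im / ε' := by gcongr
        _ = _ := by ring
  unfold ee
  refine (norm_add_le _ _).trans ?_
  calc _ ≤ (C / ε') / (a k).im + (C / ε') / (a k).im := add_le_add h2 h1
    _ = _ := by ring

theorem ee_ne (h : CutP f ε ε' C S a R χ) (hε' : 0 < ε')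
    (hf : ∀ i, DifferentiableOn ℂ (f i) UH) {i : Fin N} {w : ℂ} (hw : w ∈ UH)
    (hne : ee f χ i w ≠ 0) : ε' ^ 2 ≤ DD f w ∧ w ∈ UR S R := by
  by_cases h1 : db (χ (some i)) w = 0
  · have h2 : db (χ none) w ≠ 0 := by
      intro h3
      apply hne
      unfold ee
      rw [h1, h3, zero_div, mul_zero, add_zero]
    exact ⟨h.DD_none hε' hf hw h2, h.grad w hw _ (db_ne h2)⟩
  · exact ⟨h.DD_some hε' hf hw h1, h.grad w hw _ (db_ne h1)⟩

theorem mu2_le (h : CutP f ε ε' C S a R χ) (hε' : 0 < ε') (hC : 0 ≤ C)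
    (hf : ∀ i, DifferentiableOn ℂ (f i) UH) (i j : Fin N) {k : ι} (hk : k ∈ S) {w : ℂ}
    (hw : w ∈ R k) :
    ‖starRingEnd ℂ (f j w) / (DD f w : ℂ) * ee f χ i w‖ ≤ (2 * C / ε' ^ 2) / (a k).im := by
  have hwU := (h.fam.hR k hk w hw).1
  have hak := h.fam.ha k hk
  by_cases hd : ee f χ i w = 0
  · rw [hd, mul_zero, norm_zero]
    positivity
  · rw [norm_mul]
    have h1 := ratio_le hε' (ee_ne h hε' hf hwU hd).1 j
    have h2 := ee_le h hε' hC hf i hk hw
    calc _ ≤ 1 / ε' * ((2 * C / ε') / (a k).im) := by gcongr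
      _ = _ := by
        field_simp

theorem den1 (h : CutP f ε ε' C S a R χ) (hε' : 0 < ε') (hC : 0 ≤ C)
    (hf : ∀ i, DifferentiableOn ℂ (f i) UH) {G : ℂ × E → ℂ} (hG : DifferentiableOn ℂ G (SI E))
    {η : ℝ} (hη : 0 < η) (hlow : ∀ p ∈ SI E, (∀ i, ‖f i p.1‖ ≤ ε) → η ≤ ‖G p‖) (i : Fin N) :
    Den S a R (mu1 f S R χ i) (C / ε') G (1 / η) where
  hμ := by
    refine ind_meas h hf (fun v w => starRingEnd ℂ (v i) / ((∑ j, ‖v j‖ ^ 2 : ℝ) : ℂ) * db (χ none) w) ?_
    have h1 : Measurable (fun p : (Fin N → ℂ) × ℂ => p.1 i) :=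
      (measurable_pi_apply i).comp measurable_fst
    have h2 : Measurable (fun p : (Fin N → ℂ) × ℂ => ((∑ j, ‖p.1 j‖ ^ 2 : ℝ) : ℂ)) := by
      refine Complex.measurable_ofReal.comp ?_
      refine Finset.measurable_fun_sum _ (fun j _ => ?_)
      exact (((measurable_pi_apply j).comp measurable_fst).norm).pow_const 2
    exact ((Complex.continuous_conj.measurable.comp h1).div h2).mul
      ((db_meas _).comp measurable_snd)
  hK0 := by positivity
  hK := by
    intro k hk w hw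
    rw [mu1, indicator_of_mem (show w ∈ UR S R from ⟨k, hk, hw⟩)]
    exact mu1_le h hε' hC hf i hk hw
  h0 := by
    intro w hw
    rw [mu1, indicator_of_notMem]
    rintro ⟨k, hk, hwk⟩
    exact hw k hk hwk
  hG := hG
  hM0 := by positivity
  hM := by
    intro ζ hζ y hy
    have hmem : ζ ∈ UR S R := by
      by_contra hno
      exact hζ (by rw [mu1, indicator_of_notMem hno])
    have hU := h.UR_sub hmem
    have hd : db (χ none) ζ ≠ 0 := by
      intro h1
      apply hζ
      rw [mu1, indicator_of_mem hmem, h1, mul_zero]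
    have h2 := hlow (ζ, y) hy (fun i => h.d_none hf hU (db_ne hd) i)
    have h3 : 0 < ‖G (ζ, y)‖ := lt_of_lt_of_le hη h2
    refine ⟨norm_pos_iff.1 h3, ?_⟩
    rw [norm_inv, inv_eq_one_div]
    exact one_div_le_one_div_of_le hη h2

theorem den2 (h : CutP f ε ε' C S a R χ) (hε' : 0 < ε') (hC : 0 ≤ C)
    (hf : ∀ i, DifferentiableOn ℂ (f i) UH) (i j : Fin N) :
    Den S a R (mu2 f S R χ i j) (2 * C / ε' ^ 2) (fun _ : ℂ × E => 1) 1 where
  hμ := by
    refine ind_meas h hf (fun v w => starRingEnd ℂ (v j) / ((∑ j, ‖v j‖ ^ 2 : ℝ) : ℂ) *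
      (db (χ (some i)) w / v i + starRingEnd ℂ (v i) / ((∑ j, ‖v j‖ ^ 2 : ℝ) : ℂ) * db (χ none) w)) ?_
    have h1 : ∀ i, Measurable (fun p : (Fin N → ℂ) × ℂ => p.1 i) := fun i =>
      (measurable_pi_apply i).comp measurable_fst
    have h2 : Measurable (fun p : (Fin N → ℂ) × ℂ => ((∑ j, ‖p.1 j‖ ^ 2 : ℝ) : ℂ)) := by
      refine Complex.measurable_ofReal.comp ?_
      refine Finset.measurable_fun_sum _ (fun j _ => ?_)
      exact (((measurable_pi_apply j).comp measurable_fst).norm).pow_const 2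
    refine ((Complex.continuous_conj.measurable.comp (h1 j)).div h2).mul ?_
    refine Measurable.add (((db_meas _).comp measurable_snd).div (h1 i)) ?_
    exact ((Complex.continuous_conj.measurable.comp (h1 i)).div h2).mul
      ((db_meas _).comp measurable_snd)
  hK0 := by positivity
  hK := by
    intro k hk w hw
    rw [mu2, indicator_of_mem (show w ∈ UR S R from ⟨k, hk, hw⟩)]
    exact mu2_le h hε' hC hf i j hk hw
  h0 := by
    intro w hw
    rw [mu2, indicator_of_notMem]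
    rintro ⟨k, hk, hwk⟩
    exact hw k hk hwk
  hG := differentiableOn_const _
  hM0 := zero_le_one
  hM := by
    intro ζ _ y _
    simp

theorem mu1_eq (h : CutP f ε ε' C S a R χ) {w : ℂ} (hw : w ∈ UH) (i : Fin N) :
    mu1 f S R χ i w = starRingEnd ℂ (f i w) / (DD f w : ℂ) * db (χ none) w := by
  by_cases hm : w ∈ UR S R
  · rw [mu1, indicator_of_mem hm]
  · rw [mu1, indicator_of_notMem hm]
    have h1 : db (χ none) w = 0 := by
      by_contra h2
      exact hm (h.grad w hw _ (db_ne h2))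
    rw [h1, mul_zero]

theorem mu2_eq (h : CutP f ε ε' C S a R χ) (hε' : 0 < ε')
    (hf : ∀ i, DifferentiableOn ℂ (f i) UH) {w : ℂ} (hw : w ∈ UH) (i j : Fin N) :
    mu2 f S R χ i j w = starRingEnd ℂ (f j w) / (DD f w : ℂ) * ee f χ i w := by
  by_cases hm : w ∈ UR S R
  · rw [mu2, indicator_of_mem hm]
  · rw [mu2, indicator_of_notMem hm]
    have h1 : ee f χ i w = 0 := by
      by_contra h2
      exact hm (ee_ne h hε' hf hw h2).2
    rw [h1, mul_zero]

theorem conj_sum (f : Fin N → ℂ → ℂ) (w : ℂ) :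
    ∑ i, f i w * starRingEnd ℂ (f i w) = (DD f w : ℂ) := by
  unfold DD
  push_cast
  refine Finset.sum_congr rfl (fun i _ => ?_)
  rw [Complex.mul_conj, Complex.normSq_eq_norm_sq]
  push_cast
  rfl

/-- `∑ f_i μ_i = ∂̄ χ₀` -/
theorem sum_mu1 (h : CutP f ε ε' C S a R χ) (hε' : 0 < ε')
    (hf : ∀ i, DifferentiableOn ℂ (f i) UH) {w : ℂ} (hw : w ∈ UH) :
    ∑ i, f i w * (starRingEnd ℂ (f i w) / (DD f w : ℂ) * db (χ none) w) = db (χ none) w := by
  by_cases hd : db (χ none) w = 0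
  · rw [hd]
    simp
  · have h1 := h.DD_none hε' hf hw hd
    have h2 : (DD f w : ℂ) ≠ 0 := by
      have : 0 < DD f w := lt_of_lt_of_le (by positivity) h1
      exact_mod_cast this.ne'
    have h3 : ∀ i, f i w * (starRingEnd ℂ (f i w) / (DD f w : ℂ) * db (χ none) w) =
        (f i w * starRingEnd ℂ (f i w)) * ((DD f w : ℂ)⁻¹ * db (χ none) w) := fun i => by ring
    simp only [h3]
    rw [← Finset.sum_mul, conj_sum, ← mul_assoc, mul_inv_cancel₀ h2, one_mul]

/-- `∑ f_i e_i = 0` -/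
theorem sum_ee (h : CutP f ε ε' C S a R χ) (hε' : 0 < ε')
    (hf : ∀ i, DifferentiableOn ℂ (f i) UH) {w : ℂ} (hw : w ∈ UH) :
    ∑ i, f i w * ee f χ i w = 0 := by
  have h1 : ∀ i, f i w * ee f χ i w = db (χ (some i)) w +
      f i w * (starRingEnd ℂ (f i w) / (DD f w : ℂ) * db (χ none) w) := by
    intro i
    unfold ee
    rw [mul_add]
    congr 1
    by_cases hd : db (χ (some i)) w = 0
    · rw [hd, zero_div, mul_zero]
    · have h2 := h.d_some hf hw (db_ne hd)
      have h3 : f i w ≠ 0 := norm_pos_iff.1 (lt_of_lt_of_le hε' h2)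
      field_simp
  simp only [h1]
  rw [Finset.sum_add_distrib, sum_mu1 h hε' hf hw, add_comm]
  exact h.db_sum hw

/-- the domain of the first variable -/
def Om (y : E) : Set ℂ := {w : ℂ | ‖y‖ ^ 2 < w.im}

theorem isOpen_Om (y : E) : IsOpen (Om y) := isOpen_lt continuous_const Complex.continuous_im

theorem Om_sub {y : E} {w : ℂ} (hw : w ∈ Om y) : w ∈ UH := by
  change (0 : ℝ) < w.im
  exact lt_of_le_of_lt (sq_nonneg ‖y‖) hw

theorem WD.sum {Ω : Set ℂ} (hΩ : IsOpen Ω) {J : Type*} (T : Finset J) {V ν : J → ℂ → ℂ}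
    (h : ∀ j ∈ T, WD Ω (V j) (ν j)) :
    WD Ω (fun z => ∑ j ∈ T, V j z) (fun z => ∑ j ∈ T, ν j z) := by
  classical
  induction T using Finset.induction_on with
  | empty =>
    simp only [Finset.sum_empty]
    have h1 := WD.of_C1 hΩ (χ := fun _ => (0 : ℂ)) contDiffOn_const
    refine h1.congr hΩ (fun _ _ => rfl) (fun z _ => ?_)
    unfold db
    simp
  | insert i T hi ih =>
    have h1 := (h i (Finset.mem_insert_self _ _)).add hΩ
      (ih (fun j hj => h j (Finset.mem_insert_of_mem hj)))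
    refine h1.congr hΩ (fun z _ => ?_) (fun z _ => ?_)
    · rw [Finset.sum_insert hi]
    · rw [Finset.sum_insert hi]

theorem inv_C1 {Ω : Set ℂ} (hΩ : IsOpen Ω) (hΩU : Ω ⊆ UH) {g : ℂ → ℂ}
    (hg : DifferentiableOn ℂ g Ω) {φ : ℂ → ℂ} (hφ : ContDiffOn ℝ 1 φ UH)
    (h0 : ∀ w ∈ Ω, g w = 0 → ∀ᶠ z in 𝓝 w, φ z = 0) :
    ContDiffOn ℝ 1 (fun w => φ w / g w) Ω ∧ ∀ w ∈ Ω, db (fun w => φ w / g w) w = db φ w / g w := by
  have hgc : ∀ w ∈ Ω, ContDiffAt ℝ 1 g w := by
    intro w hw
    have h1 : ContDiffAt ℂ 1 g w :=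
      ((hg.analyticAt (hΩ.mem_nhds hw)).contDiffAt (n := ω)).of_le le_top
    exact h1.restrict_scalars ℝ
  have hφc : ∀ w ∈ Ω, ContDiffAt ℝ 1 φ w := fun w hw =>
    hφ.contDiffAt (isOpen_UH.mem_nhds (hΩU hw))
  constructor
  · intro w hw
    apply ContDiffAt.contDiffWithinAt
    by_cases hgw : g w = 0
    · have h1 : (fun w => φ w / g w) =ᶠ[𝓝 w] fun _ => 0 := by
        filter_upwards [h0 w hw hgw] with z hz
        rw [hz, zero_div]
      exact contDiffAt_const.congr_of_eventuallyEq h1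
    · simp only [div_eq_mul_inv]
      exact (hφc w hw).mul ((hgc w hw).inv hgw)
  · intro w hw
    by_cases hgw : g w = 0
    · have h1 : (fun w => φ w / g w) =ᶠ[𝓝 w] fun _ => 0 := by
        filter_upwards [h0 w hw hgw] with z hz
        rw [hz, zero_div]
      rw [db_congr h1, hgw, div_zero]
      unfold db
      simp
    · have hgd : DifferentiableAt ℂ g w := hg.differentiableAt (hΩ.mem_nhds hw)
      have h2 : DifferentiableAt ℂ (fun z => (g z)⁻¹) w := hgd.fun_inv hgw
      simp only [div_eq_mul_inv]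
      rw [db_mul ((hφc w hw).differentiableAt one_ne_zero) (h2.restrictScalars ℝ), db_holo h2]
      ring

/-- **Solutions of the Bezout equation.** -/
theorem solve (h : CutP f ε ε' C S a R χ) (hε' : 0 < ε') (hC : 0 ≤ C)
    (hf : ∀ i, DifferentiableOn ℂ (f i) UH) (hfb : ∀ i, ∀ w ∈ UH, ‖f i w‖ ≤ 1)
    {G : ℂ × E → ℂ} (hG : DifferentiableOn ℂ G (SI E)) (hGb : ∀ p ∈ SI E, ‖G p‖ ≤ 1)
    {η : ℝ} (hη : 0 < η) (hlow : ∀ p ∈ SI E, (∀ i, ‖f i p.1‖ ≤ ε) → η ≤ ‖G p‖) :
    ∃ g : Fin N → ℂ × E → ℂ, ∃ g0 : ℂ × E → ℂ, (∀ i, DifferentiableOn ℂ (g i) (SI E)) ∧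
      DifferentiableOn ℂ g0 (SI E) ∧
      (∀ i, ∀ p ∈ SI E, ‖g i p‖ ≤ 1 / ε' + 2160 * Real.exp C * (C / ε') * (1 / η) +
        N * (2 * (2160 * Real.exp C * (2 * C / ε' ^ 2) * 1))) ∧
      (∀ p ∈ SI E, ‖g0 p‖ ≤ 1 / η + N * (2160 * Real.exp C * (C / ε') * (1 / η))) ∧
      ∀ p ∈ SI E, ∑ i, f i p.1 * g i p + G p * g0 p = 1 := by
  choose V hV1 hV2 hV3 using fun i => jones_op h.fam (den1 h hε' hC hf hG hη hlow i)
  choose B hB1 hB2 hB3 using fun i j => jones_op (E := E) h.fam (den2 h hε' hC hf i j)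
  set C1 : ℝ := 2160 * Real.exp C * (C / ε') * (1 / η) with hC1
  set C2 : ℝ := 2160 * Real.exp C * (2 * C / ε' ^ 2) * 1 with hC2
  have hC10 : 0 ≤ C1 := by positivity
  have hC20 : 0 ≤ C2 := by positivity
  -- zeros of `G`
  have hGne : ∀ p ∈ SI E, χ none p.1 ≠ 0 → η ≤ ‖G p‖ := by
    intro p hp hχ
    exact hlow p hp (h.small p.1 (SI_im hp) hχ)
  have hfne : ∀ i, ∀ w ∈ UH, χ (some i) w ≠ 0 → f i w ≠ 0 := by
    intro i w hw hχ
    exact norm_pos_iff.1 (lt_of_lt_of_le hε' (h.large w hw i hχ))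
  have hslice : ∀ y : E, DifferentiableOn ℂ (fun w => G (w, y)) (Om y) := by
    intro y w hw
    have h1 : DifferentiableAt ℂ G (w, y) := hG.differentiableAt (isOpen_SI.mem_nhds hw)
    have h2 : DifferentiableAt ℂ (fun w : ℂ => (w, y)) w :=
      differentiableAt_id.prodMk (differentiableAt_const _)
    exact (DifferentiableAt.comp w h1 h2).differentiableWithinAt
  have hslice2 : ∀ w : ℂ, DifferentiableOn ℂ (fun y : E => G (w, y)) {y | ‖y‖ ^ 2 < w.im} := by
    intro w y hy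
    have h1 : DifferentiableAt ℂ G (w, y) := hG.differentiableAt (isOpen_SI.mem_nhds hy)
    have h2 : DifferentiableAt ℂ (fun y : E => (w, y)) y :=
      (differentiableAt_const _).prodMk differentiableAt_id
    exact (DifferentiableAt.comp y h1 h2).differentiableWithinAt
  have hG0 : ∀ y : E, ∀ w ∈ Om y, G (w, y) = 0 → ∀ᶠ z in 𝓝 w, χ none z = 0 := by
    intro y w hw h0
    have hc : ContinuousAt (fun w => G (w, y)) w :=
      ((hslice y).differentiableAt ((isOpen_Om y).mem_nhds hw)).continuousAt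
    have h1 : ∀ᶠ z in 𝓝 w, ‖G (z, y)‖ < η :=
      hc.norm.eventually (gt_mem_nhds (by
        change ‖G (w, y)‖ < η
        rw [h0, norm_zero]; exact hη))
    filter_upwards [h1, (isOpen_Om y).mem_nhds hw] with z hz1 hz2
    by_contra hne
    exact absurd (hGne (z, y) hz2 hne) (not_le.2 hz1)
  have hf0 : ∀ i, ∀ w ∈ UH, f i w = 0 → ∀ᶠ z in 𝓝 w, χ (some i) z = 0 := by
    intro i w hw h0
    have hc : ContinuousAt (f i) w := ((hf i).differentiableAt (isOpen_UH.mem_nhds hw)).continuousAt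
    have h1 : ∀ᶠ z in 𝓝 w, ‖f i z‖ < ε' :=
      hc.norm.eventually (gt_mem_nhds (by
        change ‖f i w‖ < ε'
        rw [h0, norm_zero]; exact hε'))
    filter_upwards [h1, isOpen_UH.mem_nhds hw] with z hz1 hz2
    by_contra hne
    exact absurd (h.large z hz2 i hne) (not_le.2 hz1)
  -- the functions
  set g0 : ℂ × E → ℂ := fun p => χ none p.1 / G p + ∑ i, -f i p.1 * V i p with hg0
  set g : Fin N → ℂ × E → ℂ := fun i p => χ (some i) p.1 / f i p.1 + G p * V i p +
    ∑ j, (f j p.1 * B j i p + -f j p.1 * B i j p) with hg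
  have hχle : ∀ o, ∀ w ∈ UH, ∀ (c : ℂ) (κ : ℝ), 0 < κ → (χ o w ≠ 0 → κ ≤ ‖c‖) →
      ‖χ o w / c‖ ≤ 1 / κ := by
    intro o w hw c κ hκ hc
    by_cases hχ : χ o w = 0
    · rw [hχ, zero_div, norm_zero]
      positivity
    · rw [norm_div]
      have h1 := hc hχ
      have h2 := h.bd o w hw
      gcongr
  have hg0b : ∀ p ∈ SI E, ‖g0 p‖ ≤ 1 / η + N * C1 := by
    intro p hp
    refine (norm_add_le _ _).trans (add_le_add ?_ ?_)
    · exact hχle none p.1 (SI_im hp) (G p) η hη (hGne p hp)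
    · refine (norm_sum_le _ _).trans ?_
      have h1 : ∀ i ∈ Finset.univ, ‖-f i p.1 * V i p‖ ≤ C1 := by
        intro i _
        rw [norm_mul, norm_neg]
        have h2 := hfb i p.1 (SI_im hp)
        have h3 := hV1 i p hp
        calc ‖f i p.1‖ * ‖V i p‖ ≤ 1 * C1 := by gcongr
          _ = C1 := one_mul _
      refine (Finset.sum_le_sum h1).trans (le_of_eq ?_)
      simp
  have hgb : ∀ i, ∀ p ∈ SI E, ‖g i p‖ ≤ 1 / ε' + C1 + N * (2 * C2) := by
    intro i p hp
    refine (norm_add_le _ _).trans (add_le_add ((norm_add_le _ _).trans (add_le_add ?_ ?_)) ?_)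
    · exact hχle (some i) p.1 (SI_im hp) (f i p.1) ε' hε' (h.large p.1 (SI_im hp) i)
    · rw [norm_mul]
      have h2 := hGb p hp
      have h3 := hV1 i p hp
      calc ‖G p‖ * ‖V i p‖ ≤ 1 * C1 := by gcongr
        _ = C1 := one_mul _
    · refine (norm_sum_le _ _).trans ?_
      have h1 : ∀ j ∈ Finset.univ, ‖f j p.1 * B j i p + -f j p.1 * B i j p‖ ≤ 2 * C2 := by
        intro j _
        refine (norm_add_le _ _).trans ?_
        rw [norm_mul, norm_mul, norm_neg]
        have h2 := hfb j p.1 (SI_im hp)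
        have h3 := hB1 j i p hp
        have h4 := hB1 i j p hp
        calc ‖f j p.1‖ * ‖B j i p‖ + ‖f j p.1‖ * ‖B i j p‖ ≤ 1 * C2 + 1 * C2 := by gcongr
          _ = 2 * C2 := by ring
      refine (Finset.sum_le_sum h1).trans (le_of_eq ?_)
      simp
  refine ⟨g, g0, ?_, ?_, hgb, hg0b, ?_⟩
  · intro i
    refine osgood (hgb i) ?_ ?_
    · intro y
      change DifferentiableOn ℂ (fun w => g i (w, y)) (Om y)
      obtain ⟨hc1, hc2⟩ := inv_C1 (isOpen_Om y) (fun w hw => Om_sub hw)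
        ((hf i).mono (fun w hw => Om_sub hw)) (h.smooth (some i))
        (fun w hw => hf0 i w (Om_sub hw))
      have hw1 : WD (Om y) (fun w => χ (some i) w / f i w) (fun w => db (χ (some i)) w / f i w) :=
        (WD.of_C1 (isOpen_Om y) hc1).congr (isOpen_Om y) (fun _ _ => rfl)
          (fun w hw => (hc2 w hw).symm)
      have hw2 := (hV2 i y).mul_holo (isOpen_Om y) (hslice y)
      have hw3 := WD.sum (isOpen_Om y) (Finset.univ : Finset (Fin N))
        (V := fun j w => f j w * B j i (w, y) + -f j w * B i j (w, y))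
        (ν := fun j w => f j w * (mu2 f S R χ j i w * (1 : ℂ)⁻¹) +
          -f j w * (mu2 f S R χ i j w * (1 : ℂ)⁻¹))
        (fun j _ => ((hB2 j i y).mul_holo (isOpen_Om y)
          ((hf j).mono (fun w hw => Om_sub hw))).add (isOpen_Om y)
          ((hB2 i j y).mul_holo (isOpen_Om y) ((hf j).mono (fun w hw => Om_sub hw)).neg))
      refine ((hw1.add (isOpen_Om y) hw2).add (isOpen_Om y) hw3).holo (isOpen_Om y) ?_
      intro w hw
      have hwU := Om_sub hw
      have e1 : G (w, y) * (mu1 f S R χ i w * (G (w, y))⁻¹) =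
          starRingEnd ℂ (f i w) / (DD f w : ℂ) * db (χ none) w := by
        rw [mu1_eq h hwU]
        by_cases hd : db (χ none) w = 0
        · rw [hd]
          simp
        · have h2 := hlow (w, y) hw (fun i => h.d_none hf hwU (db_ne hd) i)
          have h3 : G (w, y) ≠ 0 := norm_pos_iff.1 (lt_of_lt_of_le hη h2)
          field_simp
      have e2 : ∑ j, (f j w * (mu2 f S R χ j i w * (1 : ℂ)⁻¹) +
          -f j w * (mu2 f S R χ i j w * (1 : ℂ)⁻¹)) = -ee f χ i w := by
        simp only [inv_one, mul_one, mu2_eq h hε' hf hwU]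
        rw [Finset.sum_add_distrib]
        have h1 : ∑ j, f j w * (starRingEnd ℂ (f i w) / (DD f w : ℂ) * ee f χ j w) = 0 := by
          have h2 : ∀ j, f j w * (starRingEnd ℂ (f i w) / (DD f w : ℂ) * ee f χ j w) =
              (starRingEnd ℂ (f i w) / (DD f w : ℂ)) * (f j w * ee f χ j w) := fun j => by ring
          simp only [h2]
          rw [← Finset.mul_sum, sum_ee h hε' hf hwU, mul_zero]
        have h3 : ∑ j, -f j w * (starRingEnd ℂ (f j w) / (DD f w : ℂ) * ee f χ i w) = -ee f χ i w := by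
          by_cases he : ee f χ i w = 0
          · rw [he]
            simp
          · have h4 := (ee_ne h hε' hf hwU he).1
            have h5 : (DD f w : ℂ) ≠ 0 := by
              have : 0 < DD f w := lt_of_lt_of_le (by positivity) h4
              exact_mod_cast this.ne'
            have h6 : ∀ j, -f j w * (starRingEnd ℂ (f j w) / (DD f w : ℂ) * ee f χ i w) =
                (f j w * starRingEnd ℂ (f j w)) * (-((DD f w : ℂ)⁻¹ * ee f χ i w)) := fun j => by ring
            simp only [h6]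
            rw [← Finset.sum_mul, conj_sum, mul_neg, ← mul_assoc, mul_inv_cancel₀ h5, one_mul]
        rw [h1, h3, zero_add]
      rw [e1, e2]
      unfold ee
      ring
    · intro w
      have hV := hV3 i w
      have hsum : DifferentiableOn ℂ (fun y : E => ∑ j, (f j w * B j i (w, y) +
          -f j w * B i j (w, y))) {y | ‖y‖ ^ 2 < w.im} :=
        DifferentiableOn.fun_sum (fun j _ => ((hB3 j i w).const_mul _).fun_add
          ((hB3 i j w).const_mul _))
      exact ((differentiableOn_const (χ (some i) w / f i w)).fun_add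
        ((hslice2 w).fun_mul hV)).fun_add hsum
  · refine osgood hg0b ?_ ?_
    · intro y
      change DifferentiableOn ℂ (fun w => g0 (w, y)) (Om y)
      obtain ⟨hc1, hc2⟩ := inv_C1 (isOpen_Om y) (fun w hw => Om_sub hw) (hslice y)
        (h.smooth none) (hG0 y)
      have hw1 : WD (Om y) (fun w => χ none w / G (w, y)) (fun w => db (χ none) w / G (w, y)) :=
        (WD.of_C1 (isOpen_Om y) hc1).congr (isOpen_Om y) (fun _ _ => rfl)
          (fun w hw => (hc2 w hw).symm)
      have hw3 := WD.sum (isOpen_Om y) (Finset.univ : Finset (Fin N))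
        (V := fun i w => -f i w * V i (w, y))
        (ν := fun i w => -f i w * (mu1 f S R χ i w * (G (w, y))⁻¹))
        (fun i _ => (hV2 i y).mul_holo (isOpen_Om y) ((hf i).mono (fun w hw => Om_sub hw)).neg)
      refine (hw1.add (isOpen_Om y) hw3).holo (isOpen_Om y) ?_
      intro w hw
      have hwU := Om_sub hw
      simp only [mu1_eq h hwU]
      have h1 : ∀ i, -f i w * (starRingEnd ℂ (f i w) / (DD f w : ℂ) * db (χ none) w * (G (w, y))⁻¹) =
          (f i w * (starRingEnd ℂ (f i w) / (DD f w : ℂ) * db (χ none) w)) * (-(G (w, y))⁻¹) :=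
        fun i => by ring
      simp only [h1]
      rw [← Finset.sum_mul, sum_mu1 h hε' hf hwU]
      ring
    · intro w
      have hsum : DifferentiableOn ℂ (fun y : E => ∑ i, -f i w * V i (w, y))
          {y | ‖y‖ ^ 2 < w.im} :=
        DifferentiableOn.fun_sum (fun i _ => (hV3 i w).const_mul _)
      have h1 : DifferentiableOn ℂ (fun y : E => χ none w / G (w, y)) {y | ‖y‖ ^ 2 < w.im} := by
        by_cases hχ : χ none w = 0
        · simp only [hχ, zero_div]
          exact differentiableOn_const _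
        · simp only [div_eq_mul_inv]
          refine DifferentiableOn.const_mul (DifferentiableOn.fun_inv (hslice2 w) ?_) _
          intro y hy
          exact norm_pos_iff.1 (lt_of_lt_of_le hη (hGne (w, y) hy hχ))
      exact h1.fun_add hsum
  · intro p hp
    have hw := SI_im hp
    have e1 : G p * (χ none p.1 / G p) = χ none p.1 := by
      by_cases hχ : χ none p.1 = 0
      · rw [hχ, zero_div, mul_zero]
      · have h3 : G p ≠ 0 := norm_pos_iff.1 (lt_of_lt_of_le hη (hGne p hp hχ))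
        field_simp
    have e2 : ∀ i, f i p.1 * (χ (some i) p.1 / f i p.1) = χ (some i) p.1 := by
      intro i
      by_cases hχ : χ (some i) p.1 = 0
      · rw [hχ, zero_div, mul_zero]
      · have h3 := hfne i p.1 hw hχ
        field_simp
    have e3 : ∀ i, f i p.1 * g i p = χ (some i) p.1 + G p * (f i p.1 * V i p) +
        ∑ j, (f i p.1 * f j p.1 * B j i p - f j p.1 * f i p.1 * B i j p) := by
      intro i
      simp only [hg]
      rw [mul_add, mul_add, e2, Finset.mul_sum]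
      congr 1
      · ring
      · refine Finset.sum_congr rfl (fun j _ => ?_)
        ring
    have e4 : ∑ i, ∑ j, (f i p.1 * f j p.1 * B j i p - f j p.1 * f i p.1 * B i j p) = 0 := by
      simp only [Finset.sum_sub_distrib]
      rw [sub_eq_zero]
      exact Finset.sum_comm
    have e5 : G p * g0 p = χ none p.1 - G p * ∑ i, f i p.1 * V i p := by
      simp only [hg0]
      rw [mul_add, e1, sub_eq_add_neg, ← mul_neg, ← Finset.sum_neg_distrib]
      congr 2
      refine Finset.sum_congr rfl (fun i _ => ?_)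
      ring
    have e6 := h.sum p.1 hw
    rw [Fintype.sum_option] at e6
    simp only [e3]
    rw [Finset.sum_add_distrib, Finset.sum_add_distrib, e4, e5, ← Finset.mul_sum]
    linear_combination e6

end

end Pool.Agent.H720R2.HP
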