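import Mathlib

/-!
The stopping lemma: below a point where a bounded holomorphic function is not small, the boxes
on which it is very small have small total length.
-/

set_option autoImplicit false

open MeasureTheory Metric Set Filter Topology Complex

namespace Pool.Agent.H720R2.HP

/-- Blaschke factor of the upper half plane -/
noncomputable def bf (a w : ℂ) : ℂ := (w - a) / (w - starRingEnd ℂ a)

theorem sub_cj_sq (a w : ℂ) : ‖w - starRingEnd ℂ a‖ ^ 2 = ‖w - a‖ ^ 2 + 4 * w.im * a.im := by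
  rw [← Complex.normSq_eq_norm_sq, ← Complex.normSq_eq_norm_sq, Complex.normSq_apply,
    Complex.normSq_apply]
  simp only [Complex.sub_re, Complex.sub_im, Complex.conj_re, Complex.conj_im]
  ring

theorem sub_cj_pos {a w : ℂ} (ha : 0 < a.im) (hw : 0 ≤ w.im) : 0 < ‖w - starRingEnd ℂ a‖ := by
  have h1 : w.im + a.im ≤ ‖w - starRingEnd ℂ a‖ := by
    have := Complex.im_le_norm (w - starRingEnd ℂ a)
    simpa using this
  linarith

theorem bf_sq {a w : ℂ} (ha : 0 < a.im) (hw : 0 ≤ w.im) :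
    1 - ‖bf a w‖ ^ 2 = 4 * w.im * a.im / ‖w - starRingEnd ℂ a‖ ^ 2 := by
  have h := sub_cj_pos ha hw
  have h2 := sub_cj_sq a w
  unfold bf
  rw [norm_div, div_pow, eq_div_iff (by positivity), sub_mul, div_mul_cancel₀ _ (by positivity)]
  linarith

theorem bf_le_one {a w : ℂ} (ha : 0 < a.im) (hw : 0 ≤ w.im) : ‖bf a w‖ ≤ 1 := by
  have h1 := bf_sq ha hw
  have h2 : 0 ≤ 4 * w.im * a.im / ‖w - starRingEnd ℂ a‖ ^ 2 := by positivity
  have h3 := norm_nonneg (bf a w)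
  nlinarith

theorem bf_real {a w : ℂ} (ha : 0 < a.im) (hw : w.im = 0) : ‖bf a w‖ = 1 := by
  have h1 := bf_sq ha hw.ge
  rw [hw] at h1
  simp only [mul_zero, zero_mul, zero_div] at h1
  have h3 := norm_nonneg (bf a w)
  nlinarith

theorem bf_cont {a : ℂ} (ha : 0 < a.im) : ContinuousOn (bf a) {w | 0 ≤ w.im} := by
  unfold bf
  refine ContinuousOn.div (by fun_prop) (by fun_prop) (fun w hw => ?_)
  exact norm_pos_iff.1 (sub_cj_pos ha hw)

theorem bf_diff {a : ℂ} (ha : 0 < a.im) : DifferentiableOn ℂ (bf a) {w | 0 ≤ w.im} := by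
  unfold bf
  refine DifferentiableOn.div (by fun_prop) (by fun_prop) (fun w hw => ?_)
  exact norm_pos_iff.1 (sub_cj_pos ha hw)

theorem bf_tendsto (a : ℂ) : Tendsto (bf a) (Bornology.cobounded ℂ) (𝓝 1) := by
  have h1 : Tendsto (fun w : ℂ => 1 - (a - starRingEnd ℂ a) * (w - starRingEnd ℂ a)⁻¹) (Bornology.cobounded ℂ)
      (𝓝 (1 - (a - starRingEnd ℂ a) * 0)) := by
    refine tendsto_const_nhds.sub (tendsto_const_nhds.mul ?_)
    refine tendsto_inv₀_cobounded.comp ?_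
    rw [← tendsto_norm_atTop_iff_cobounded]
    refine tendsto_atTop_mono (fun w => norm_sub_norm_le w (starRingEnd ℂ a)) ?_
    exact tendsto_atTop_add_const_right _ _ tendsto_norm_cobounded_atTop
  rw [mul_zero, sub_zero] at h1
  refine h1.congr' ?_
  filter_upwards [Bornology.eventually_ne_cobounded (starRingEnd ℂ a)] with w hw
  have : w - starRingEnd ℂ a ≠ 0 := sub_ne_zero.2 hw
  unfold bf
  field_simp
  ring

theorem exp_le_of_ge {s : ℝ} (h : 1 / 7 ≤ s) (h1 : s ≤ 1) : Real.exp (-(7 * (1 - s))) ≤ s := by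
  have hs : 0 < s := by linarith
  have h2 := Real.one_sub_inv_le_log_of_pos hs
  have h3 : -(7 * (1 - s)) ≤ Real.log s := by
    refine le_trans ?_ h2
    have h4 : s⁻¹ ≤ 7 := by
      rw [inv_le_comm₀ hs (by norm_num)]
      linarith
    have h5 : s⁻¹ - 1 = (1 - s) * s⁻¹ := by
      field_simp
    nlinarith
  calc Real.exp (-(7 * (1 - s))) ≤ Real.exp (Real.log s) := Real.exp_le_exp.2 h3
    _ = s := Real.exp_log hs

/-- the total mass of the Poisson kernel -/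
theorem poisson_int (w : ℂ) (hw : 0 < w.im) :
    Integrable (fun t : ℝ => w.im / ((w.re - t) ^ 2 + w.im ^ 2)) ∧
    ∫ t : ℝ, w.im / ((w.re - t) ^ 2 + w.im ^ 2) = Real.pi := by
  have h0 : ∀ t : ℝ, w.im / ((w.re - t) ^ 2 + w.im ^ 2) =
      w.im⁻¹ * (1 + (w.im⁻¹ * t + -(w.im⁻¹ * w.re)) ^ 2)⁻¹ := by
    intro t
    have : w.im⁻¹ * t + -(w.im⁻¹ * w.re) = (t - w.re) / w.im := by
      field_simp
      ring
    rw [this, div_pow]
    have h2 : (w.re - t) ^ 2 + w.im ^ 2 ≠ 0 := by positivity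
    have h3 : 1 + (t - w.re) ^ 2 / w.im ^ 2 ≠ 0 := by positivity
    field_simp
    ring
  have hi : Integrable (fun t : ℝ => (1 + (w.im⁻¹ * t + -(w.im⁻¹ * w.re)) ^ 2)⁻¹) := by
    have h1 := integrable_inv_one_add_sq
    have h2 := (h1.comp_add_right (-(w.im⁻¹ * w.re)))
    exact h2.comp_mul_left' (inv_ne_zero hw.ne')
  constructor
  · simp only [h0]
    exact hi.const_mul _
  · simp only [h0]
    rw [integral_const_mul]
    have h1 := Measure.integral_comp_mul_left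
      (fun x : ℝ => (1 + (x + -(w.im⁻¹ * w.re)) ^ 2)⁻¹) w.im⁻¹
    rw [h1, inv_inv, abs_of_pos hw, integral_add_right_eq_self (μ := volume)
      (fun x : ℝ => (1 + x ^ 2)⁻¹), integral_univ_inv_one_add_sq, smul_eq_mul, ← mul_assoc,
      inv_mul_cancel₀ hw.ne', one_mul]

section

variable {ι : Type} {F : Finset ι} {u ℓ : ι → ℝ}

/-- centre of the top half of the box with base centre `u` and length `ℓ` -/
noncomputable def ctr (u ℓ : ℝ) : ℂ := ⟨u, 3 / 4 * ℓ⟩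

theorem pois_le {u ℓ : ℝ} (hℓ : 0 < ℓ) {w : ℂ} (hw : 0 < w.im) {t : ℝ}
    (ht : t ∈ Ico (u - ℓ / 2) (u + ℓ / 2)) :
    1 / ‖w - starRingEnd ℂ (ctr u ℓ)‖ ^ 2 ≤ 5 / ((w.re - t) ^ 2 + w.im ^ 2) := by
  have hc : 0 < (ctr u ℓ).im := by unfold ctr; simp; linarith
  have h1 := sub_cj_pos hc hw.le
  rw [div_le_div_iff₀ (by positivity) (by positivity), one_mul]
  have h2 : ‖w - starRingEnd ℂ (ctr u ℓ)‖ ^ 2 = (w.re - u) ^ 2 + (w.im + 3 / 4 * ℓ) ^ 2 := by
    rw [← Complex.normSq_eq_norm_sq, Complex.normSq_apply]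
    simp [ctr]
    ring
  rw [h2]
  obtain ⟨h3, h4⟩ := ht
  have h5 : |u - t| ≤ ℓ / 2 := abs_le.2 ⟨by linarith, by linarith⟩
  have h6 : (u - t) ^ 2 ≤ (ℓ / 2) ^ 2 := sq_le_sq' (by linarith) (by linarith)
  nlinarith [sq_nonneg (2 * (w.re - u) - (u - t)), sq_nonneg (w.re - u), mul_pos hw hℓ,
    sq_nonneg ((w.re - u) - (u - t))]

theorem pois_sum (hℓ : ∀ j ∈ F, 0 < ℓ j)
    (hd : (F : Set ι).PairwiseDisjoint (fun j => Ico (u j - ℓ j / 2) (u j + ℓ j / 2)))
    {w : ℂ} (hw : 0 < w.im) :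
    ∑ j ∈ F, w.im * (3 / 4 * ℓ j) / ‖w - starRingEnd ℂ (ctr (u j) (ℓ j))‖ ^ 2 ≤ 15 / 4 * Real.pi := by
  obtain ⟨hi, he⟩ := poisson_int w hw
  set P : ℝ → ℝ := fun t => w.im / ((w.re - t) ^ 2 + w.im ^ 2) with hP
  have hP0 : ∀ t, 0 ≤ P t := fun t => by simp only [hP]; positivity
  have h1 : ∀ j ∈ F, w.im * (3 / 4 * ℓ j) / ‖w - starRingEnd ℂ (ctr (u j) (ℓ j))‖ ^ 2 ≤
      15 / 4 * ∫ t in Ico (u j - ℓ j / 2) (u j + ℓ j / 2), P t := by
    intro j hj
    have hjl := hℓ j hj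
    have h2 : ∫ t in Ico (u j - ℓ j / 2) (u j + ℓ j / 2),
        (w.im / 5 * (1 / ‖w - starRingEnd ℂ (ctr (u j) (ℓ j))‖ ^ 2)) ≤
        ∫ t in Ico (u j - ℓ j / 2) (u j + ℓ j / 2), P t := by
      refine setIntegral_mono_on (continuousOn_const.integrableOn_Icc.mono_set Ico_subset_Icc_self)
        hi.integrableOn measurableSet_Ico (fun t ht => ?_)
      have h3 := pois_le hjl hw ht
      simp only [hP]
      calc w.im / 5 * (1 / ‖w - starRingEnd ℂ (ctr (u j) (ℓ j))‖ ^ 2)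
          ≤ w.im / 5 * (5 / ((w.re - t) ^ 2 + w.im ^ 2)) := by gcongr
        _ = _ := by ring
    rw [setIntegral_const, measureReal_def, Real.volume_Ico] at h2
    have h4 : (u j + ℓ j / 2) - (u j - ℓ j / 2) = ℓ j := by ring
    rw [h4, ENNReal.toReal_ofReal hjl.le, smul_eq_mul] at h2
    calc w.im * (3 / 4 * ℓ j) / ‖w - starRingEnd ℂ (ctr (u j) (ℓ j))‖ ^ 2
        = 15 / 4 * (ℓ j * (w.im / 5 * (1 / ‖w - starRingEnd ℂ (ctr (u j) (ℓ j))‖ ^ 2))) := by ring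
      _ ≤ _ := by gcongr
  refine (Finset.sum_le_sum h1).trans ?_
  rw [← Finset.mul_sum]
  refine mul_le_mul_of_nonneg_left ?_ (by norm_num)
  rw [← integral_biUnion_finset F (fun j _ => measurableSet_Ico) hd (fun j _ => hi.integrableOn)]
  rw [← he]
  exact setIntegral_le_integral hi (Eventually.of_forall hP0)

/-- lower bound of the Blaschke product on the circles -/
theorem prod_ge (hℓ : ∀ j ∈ F, 0 < ℓ j)
    (hd : (F : Set ι).PairwiseDisjoint (fun j => Ico (u j - ℓ j / 2) (u j + ℓ j / 2)))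
    {m : ι} (hm : m ∈ F) {w : ℂ} (hw : ‖w - ctr (u m) (ℓ m)‖ = ℓ m / 4) :
    Real.exp (-168) ≤ ∏ j ∈ F, ‖bf (ctr (u j) (ℓ j)) w‖ := by
  classical
  have hlm := hℓ m hm
  have hre : |w.re - u m| ≤ ℓ m / 4 := by
    have := Complex.abs_re_le_norm (w - ctr (u m) (ℓ m))
    rw [hw] at this
    simpa [ctr] using this
  have him : |w.im - 3 / 4 * ℓ m| ≤ ℓ m / 4 := by
    have := Complex.abs_im_le_norm (w - ctr (u m) (ℓ m))
    rw [hw] at this
    simpa [ctr] using this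
  obtain ⟨hi1, hi2⟩ := abs_le.1 him
  obtain ⟨hr1, hr2⟩ := abs_le.1 hre
  have hwpos : 0 < w.im := by linarith
  have hc : ∀ j ∈ F, 0 < (ctr (u j) (ℓ j)).im := by
    intro j hj
    have := hℓ j hj
    simp only [ctr]
    linarith
  have hsum := pois_sum hℓ hd hwpos
  -- squares
  have hpi : Real.pi ≤ 3.1416 := Real.pi_lt_d4.le
  have key : Real.exp (-336) ≤ ∏ j ∈ F, ‖bf (ctr (u j) (ℓ j)) w‖ ^ 2 := by
    have h7 : ∀ j ∈ F, j ≠ m → 1 / 7 ≤ ‖bf (ctr (u j) (ℓ j)) w‖ ^ 2 := by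
      intro j hj hjm
      have hlj := hℓ j hj
      have hdis := hd (Finset.mem_coe.2 hj) (Finset.mem_coe.2 hm) hjm
      -- horizontal distance
      have hdist : ℓ j / 2 + ℓ m / 2 ≤ |u j - u m| := by
        by_contra hlt
        push Not at hlt
        rw [abs_lt] at hlt
        rw [Function.onFun, Set.disjoint_left] at hdis
        rcases le_total (u j - ℓ j / 2) (u m - ℓ m / 2) with h | h
        · exact hdis (a := u m - ℓ m / 2) ⟨h, by linarith⟩ ⟨le_rfl, by linarith⟩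
        · exact hdis (a := u j - ℓ j / 2) ⟨le_rfl, by linarith⟩ ⟨h, by linarith⟩
      have hdist2 : ℓ j / 2 + ℓ m / 4 ≤ |w.re - u j| := by
        have h1 : |u j - u m| ≤ |w.re - u j| + |w.re - u m| := by
          have : u j - u m = -(w.re - u j) + (w.re - u m) := by ring
          rw [this]
          exact (abs_add_le _ _).trans (by rw [abs_neg])
        linarith
      have hsq : (ℓ j / 2 + ℓ m / 4) ^ 2 ≤ (w.re - u j) ^ 2 := by
        rw [← sq_abs (w.re - u j)]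
        exact pow_le_pow_left₀ (by positivity) hdist2 2
      have hb := bf_sq (hc j hj) hwpos.le
      have hpos := sub_cj_pos (hc j hj) hwpos.le
      have hn : ‖w - starRingEnd ℂ (ctr (u j) (ℓ j))‖ ^ 2 = (w.re - u j) ^ 2 + (w.im + 3 / 4 * ℓ j) ^ 2 := by
        rw [← Complex.normSq_eq_norm_sq, Complex.normSq_apply]
        simp [ctr]
        ring
      have h1 : 4 * w.im * (ctr (u j) (ℓ j)).im / ‖w - starRingEnd ℂ (ctr (u j) (ℓ j))‖ ^ 2 ≤ 6 / 7 := by
        rw [div_le_div_iff₀ (by positivity) (by norm_num), hn]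
        simp only [ctr]
        nlinarith [sq_nonneg (ℓ j / 2 - ℓ m / 4), sq_nonneg (w.im - 3 / 4 * ℓ j), mul_pos hlj hlm,
          mul_pos hwpos hlj]
      linarith
    have h49 : Real.exp (-4) ≤ ‖bf (ctr (u m) (ℓ m)) w‖ ^ 2 := by
      have hn : ‖w - starRingEnd ℂ (ctr (u m) (ℓ m))‖ ≤ 7 / 4 * ℓ m := by
        have h1 : w - starRingEnd ℂ (ctr (u m) (ℓ m)) = (w - ctr (u m) (ℓ m)) +
            (ctr (u m) (ℓ m) - starRingEnd ℂ (ctr (u m) (ℓ m))) := by ring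
        rw [h1]
        refine (norm_add_le _ _).trans ?_
        rw [hw, Complex.sub_conj]
        simp only [ctr]
        rw [norm_mul, Complex.norm_I, Complex.norm_real, Real.norm_of_nonneg (by positivity)]
        linarith
      have h1 : 1 / 7 ≤ ‖bf (ctr (u m) (ℓ m)) w‖ := by
        unfold bf
        rw [norm_div, hw, div_le_div_iff₀ (by norm_num) (sub_cj_pos (hc m hm) hwpos.le)]
        linarith
      have h2 : (1 / 7 : ℝ) ^ 2 ≤ ‖bf (ctr (u m) (ℓ m)) w‖ ^ 2 :=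
        pow_le_pow_left₀ (by norm_num) h1 2
      refine le_trans ?_ h2
      rw [Real.exp_neg]
      have h3 : (49 : ℝ) ≤ Real.exp 4 := by
        have h4 : (2.7 : ℝ) ≤ Real.exp 1 := by linarith [Real.exp_one_gt_d9]
        have h5 : Real.exp 4 = Real.exp 1 ^ 4 := by
          rw [← Real.exp_nat_mul]; norm_num
        rw [h5]
        calc (49 : ℝ) ≤ 2.7 ^ 4 := by norm_num
          _ ≤ _ := pow_le_pow_left₀ (by norm_num) h4 4
      calc (Real.exp 4)⁻¹ ≤ (49 : ℝ)⁻¹ := by gcongr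
        _ = _ := by norm_num
    rw [← Finset.mul_prod_erase F _ hm]
    have h8 : Real.exp (-∑ j ∈ F.erase m, 7 * (1 - ‖bf (ctr (u j) (ℓ j)) w‖ ^ 2)) ≤
        ∏ j ∈ F.erase m, ‖bf (ctr (u j) (ℓ j)) w‖ ^ 2 := by
      rw [← Finset.sum_neg_distrib, Real.exp_sum]
      refine Finset.prod_le_prod (fun j _ => (Real.exp_pos _).le) (fun j hj => ?_)
      have hj2 := Finset.mem_of_mem_erase hj
      refine exp_le_of_ge (h7 j hj2 (Finset.ne_of_mem_erase hj)) ?_
      have := bf_le_one (hc j hj2) hwpos.le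
      nlinarith [norm_nonneg (bf (ctr (u j) (ℓ j)) w)]
    have h9 : ∑ j ∈ F.erase m, 7 * (1 - ‖bf (ctr (u j) (ℓ j)) w‖ ^ 2) ≤ 332 := by
      have h10 : ∑ j ∈ F.erase m, 7 * (1 - ‖bf (ctr (u j) (ℓ j)) w‖ ^ 2) ≤
          ∑ j ∈ F, 28 * (w.im * (3 / 4 * ℓ j) / ‖w - starRingEnd ℂ (ctr (u j) (ℓ j))‖ ^ 2) := by
        refine (Finset.sum_le_sum_of_subset_of_nonneg (Finset.erase_subset m F)
          (fun j hj _ => ?_)).trans (Finset.sum_le_sum (fun j hj => ?_))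
        · have := bf_le_one (hc j hj) hwpos.le
          nlinarith [norm_nonneg (bf (ctr (u j) (ℓ j)) w)]
        · rw [bf_sq (hc j hj) hwpos.le]
          simp only [ctr]
          apply le_of_eq
          ring
      refine h10.trans ?_
      rw [← Finset.mul_sum]
      linarith
    calc Real.exp (-336) = Real.exp (-4) * Real.exp (-332) := by
          rw [← Real.exp_add]; norm_num
      _ ≤ Real.exp (-4) * Real.exp (-∑ j ∈ F.erase m, 7 * (1 - ‖bf (ctr (u j) (ℓ j)) w‖ ^ 2)) := by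
          gcongr
      _ ≤ _ := by gcongr
  rw [Finset.prod_pow] at key
  have h1 : Real.exp (-336) = Real.exp (-168) ^ 2 := by
    rw [← Real.exp_nat_mul]; norm_num
  rw [h1] at key
  exact (sq_le_sq₀ (Real.exp_pos _).le (Finset.prod_nonneg fun j _ => norm_nonneg _)).1 key

/-- **The stopping lemma.** -/
theorem stop (hℓ : ∀ j ∈ F, 0 < ℓ j)
    (hd : (F : Set ι).PairwiseDisjoint (fun j => Ico (u j - ℓ j / 2) (u j + ℓ j / 2)))
    {u₀ ℓ₀ : ℝ} (hℓ₀ : 0 < ℓ₀) (hsub : ∀ j ∈ F, |u j - u₀| + ℓ j / 2 ≤ ℓ₀ / 2)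
    (hhalf : ∀ j ∈ F, ℓ j ≤ ℓ₀ / 2)
    {f : ℂ → ℂ} (hf : DifferentiableOn ℂ f {w | 0 < w.im}) (hfc : ContinuousOn f {w | 0 ≤ w.im})
    (hfb : ∀ w : ℂ, 0 ≤ w.im → ‖f w‖ ≤ 1) {ε₁ : ℝ} (hε₁ : 0 < ε₁)
    (ha : ε₁ ≤ ‖f (ctr u₀ ℓ₀)‖) {M : ℕ} (hM1 : 1 ≤ M) (hM : 3 * Real.log (1 / ε₁) ≤ M)
    (hlow : ∀ j ∈ F, ∀ w, ‖w - ctr (u j) (ℓ j)‖ ≤ ℓ j / 4 → ‖f w‖ ≤ Real.exp (-(168 * M))) :
    ∑ j ∈ F, ℓ j ≤ ℓ₀ / 2 := by
  classical
  have hc : ∀ j ∈ F, 0 < (ctr (u j) (ℓ j)).im := by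
    intro j hj
    have := hℓ j hj
    simp only [ctr]
    linarith
  set B : ℂ → ℂ := fun w => ∏ j ∈ F, bf (ctr (u j) (ℓ j)) w with hB
  have hBc : ContinuousOn B {w | 0 ≤ w.im} :=
    continuousOn_finset_prod _ (fun j hj => bf_cont (hc j hj))
  have hBd : DifferentiableOn ℂ B {w | 0 ≤ w.im} :=
    DifferentiableOn.fun_finset_prod (fun j hj => bf_diff (hc j hj))
  have hBn : ∀ w, ‖B w‖ = ∏ j ∈ F, ‖bf (ctr (u j) (ℓ j)) w‖ := fun w => norm_prod _ _
  have hBle : ∀ w : ℂ, 0 ≤ w.im → ‖B w‖ ≤ 1 := by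
    intro w hw
    rw [hBn]
    exact Finset.prod_le_one (fun j _ => norm_nonneg _) (fun j hj => bf_le_one (hc j hj) hw)
  have hBne : ∀ w : ℂ, 0 ≤ w.im → (∀ j ∈ F, w ≠ ctr (u j) (ℓ j)) → B w ≠ 0 := by
    intro w hw hne
    rw [hB]
    refine Finset.prod_ne_zero_iff.2 (fun j hj => ?_)
    unfold bf
    exact div_ne_zero (sub_ne_zero.2 (hne j hj)) (norm_pos_iff.1 (sub_cj_pos (hc j hj) hw))
  have hBt : Tendsto (fun w => ‖B w‖ ^ M) (Bornology.cobounded ℂ) (𝓝 1) := by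
    have h1 : Tendsto B (Bornology.cobounded ℂ) (𝓝 (∏ j ∈ F, (1 : ℂ))) :=
      tendsto_finset_prod _ (fun j _ => bf_tendsto _)
    rw [Finset.prod_const_one] at h1
    have h2 := (h1.norm.pow M)
    simpa using h2
  set a : ℂ := ctr u₀ ℓ₀ with hadef
  have haim : a.im = 3 / 4 * ℓ₀ := rfl
  have hare : a.re = u₀ := rfl
  have hapos : 0 < a.im := by rw [haim]; positivity
  -- the maximum principle
  have hmax : ∀ δ : ℝ, 0 < δ → ‖f a‖ ≤ (1 + δ) * ‖B a‖ ^ M := by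
    intro δ hδ
    have hlt : 1 / (1 + δ) < 1 := by
      rw [div_lt_one (by linarith)]
      linarith
    have hev := hBt.eventually (lt_mem_nhds hlt)
    obtain ⟨R₁, hR₁⟩ := (Metric.hasBasis_cobounded_compl_closedBall (0 : ℂ)).eventually_iff.1 hev
    obtain ⟨-, hR₁⟩ := hR₁
    set R : ℝ := max (R₁ + 1) (‖a‖ + 1) with hR
    set U : Set ℂ := {w | 0 < w.im ∧ ‖w‖ < R ∧ ∀ j ∈ F, ℓ j / 4 < ‖w - ctr (u j) (ℓ j)‖} with hU
    set K : Set ℂ := {w | 0 ≤ w.im ∧ ‖w‖ ≤ R ∧ ∀ j ∈ F, ℓ j / 4 ≤ ‖w - ctr (u j) (ℓ j)‖} with hK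
    have hUK : closure U ⊆ K := by
      refine closure_minimal (fun w hw => ⟨hw.1.le, hw.2.1.le, fun j hj => (hw.2.2 j hj).le⟩) ?_
      refine (isClosed_le continuous_const Complex.continuous_im).inter
        ((isClosed_le continuous_norm continuous_const).inter ?_)
      have h9 : {w : ℂ | ∀ j ∈ F, ℓ j / 4 ≤ ‖w - ctr (u j) (ℓ j)‖} =
          ⋂ j ∈ F, {w : ℂ | ℓ j / 4 ≤ ‖w - ctr (u j) (ℓ j)‖} := by
        ext w; simp
      change IsClosed {w : ℂ | ∀ j ∈ F, ℓ j / 4 ≤ ‖w - ctr (u j) (ℓ j)‖}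
      rw [h9]
      exact isClosed_biInter (fun j _ => isClosed_le continuous_const (by fun_prop))
    have hUo : IsOpen U := by
      refine (isOpen_lt continuous_const Complex.continuous_im).inter
        ((isOpen_lt continuous_norm continuous_const).inter ?_)
      have h9 : {w : ℂ | ∀ j ∈ F, ℓ j / 4 < ‖w - ctr (u j) (ℓ j)‖} =
          ⋂ j ∈ F, {w : ℂ | ℓ j / 4 < ‖w - ctr (u j) (ℓ j)‖} := by
        ext w; simp
      change IsOpen {w : ℂ | ∀ j ∈ F, ℓ j / 4 < ‖w - ctr (u j) (ℓ j)‖}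
      rw [h9]
      exact isOpen_biInter_finset (fun j _ => isOpen_lt continuous_const (by fun_prop))
    have hKne : ∀ w ∈ K, ∀ j ∈ F, w ≠ ctr (u j) (ℓ j) := by
      intro w hw j hj h
      have h1 := hw.2.2 j hj
      rw [h, sub_self, norm_zero] at h1
      have := hℓ j hj
      linarith
    have hmem : a ∈ U := by
      refine ⟨hapos, lt_of_lt_of_le (by linarith) (le_max_right _ _), fun j hj => ?_⟩
      have h1 := hℓ j hj
      have h2 := hhalf j hj
      have h3 := Complex.im_le_norm (a - ctr (u j) (ℓ j))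
      rw [Complex.sub_im, haim] at h3
      simp only [ctr] at h3 ⊢
      linarith
    have hdc : DiffContOnCl ℂ (fun w => f w / B w ^ M) U := by
      constructor
      · refine DifferentiableOn.fun_div (hf.mono (fun w hw => hw.1))
          ((hBd.mono (fun w hw => hw.1.le)).fun_pow M) (fun w hw => ?_)
        exact pow_ne_zero _ (hBne w hw.1.le (hKne w (hUK (subset_closure hw))))
      · refine ContinuousOn.div (hfc.mono (fun w hw => (hUK hw).1))
          ((hBc.mono (fun w hw => (hUK hw).1)).pow M) (fun w hw => ?_)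
        exact pow_ne_zero _ (hBne w (hUK hw).1 (hKne w (hUK hw)))
    have hfr : ∀ z ∈ frontier U, ‖f z / B z ^ M‖ ≤ 1 + δ := by
      intro z hz
      rw [hUo.frontier_eq] at hz
      obtain ⟨hz1, hz2⟩ := hz
      have hzK := hUK hz1
      have hB0 : 0 < ‖B z‖ ^ M := by
        have := hBne z hzK.1 (hKne z hzK)
        positivity
      rw [norm_div, norm_pow, div_le_iff₀ hB0]
      have hfz := hfb z hzK.1
      by_cases h1 : z.im = 0
      · have h2 : ‖B z‖ = 1 := by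
          rw [hBn]
          exact Finset.prod_eq_one (fun j hj => bf_real (hc j hj) h1)
        rw [h2, one_pow, mul_one]
        linarith
      · have h1' : 0 < z.im := lt_of_le_of_ne hzK.1 (Ne.symm h1)
        by_cases h3 : ‖z‖ < R
        · have h4 : ¬ ∀ j ∈ F, ℓ j / 4 < ‖z - ctr (u j) (ℓ j)‖ := fun h => hz2 ⟨h1', h3, h⟩
          push Not at h4
          obtain ⟨j, hj, hj2⟩ := h4
          have hj3 : ‖z - ctr (u j) (ℓ j)‖ = ℓ j / 4 := le_antisymm hj2 (hzK.2.2 j hj)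
          have h5 := hlow j hj z hj2
          have h6 := prod_ge hℓ hd hj hj3
          rw [← hBn] at h6
          have h7 : Real.exp (-(168 * M)) ≤ ‖B z‖ ^ M := by
            have h8 : Real.exp (-(168 * M)) = Real.exp (-168) ^ M := by
              rw [← Real.exp_nat_mul]
              congr 1
              ring
            rw [h8]
            exact pow_le_pow_left₀ (Real.exp_pos _).le h6 M
          nlinarith
        · push Not at h3
          have h4 : z ∈ (closedBall (0 : ℂ) R₁)ᶜ := by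
            intro h5
            have h6 : ‖z‖ ≤ R₁ := by simpa using h5
            have h7 : R₁ + 1 ≤ R := le_max_left _ _
            linarith
          have h5 := hR₁ h4
          have h6 : 1 ≤ (1 + δ) * ‖B z‖ ^ M := by
            rw [div_lt_iff₀ (by linarith)] at h5
            linarith
          linarith
    have hbd : Bornology.IsBounded U := by
      refine (Metric.isBounded_ball (x := (0 : ℂ)) (r := R)).subset (fun w hw => ?_)
      simpa using hw.2.1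
    have h1 := Complex.norm_le_of_forall_mem_frontier_norm_le hbd hdc hfr (subset_closure hmem)
    have hB0 : 0 < ‖B a‖ ^ M := by
      have := hBne a hapos.le (hKne a (hUK (subset_closure hmem)))
      positivity
    rwa [norm_div, norm_pow, div_le_iff₀ hB0] at h1
  have hmax1 : ‖f a‖ ≤ ‖B a‖ ^ M := by
    refine le_of_forall_pos_le_add (fun δ hδ => ?_)
    have h1 := hmax δ hδ
    have h2 : ‖B a‖ ^ M ≤ 1 := pow_le_one₀ (norm_nonneg _) (hBle a hapos.le)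
    nlinarith
  -- upper bound of `B a`
  have hup : ‖B a‖ ^ 2 ≤ Real.exp (-(4 / 3 * (∑ j ∈ F, ℓ j) / ℓ₀)) := by
    rw [hBn, ← Finset.prod_pow]
    have h1 : -(4 / 3 * (∑ j ∈ F, ℓ j) / ℓ₀) = ∑ j ∈ F, -(4 / 3 * ℓ j / ℓ₀) := by
      rw [Finset.sum_neg_distrib, Finset.mul_sum, Finset.sum_div]
    rw [h1, Real.exp_sum]
    refine Finset.prod_le_prod (fun j _ => by positivity) (fun j hj => ?_)
    have hlj := hℓ j hj
    have h2 := bf_sq (hc j hj) hapos.le
    have hpos := sub_cj_pos (hc j hj) hapos.le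
    have hn : ‖a - starRingEnd ℂ (ctr (u j) (ℓ j))‖ ^ 2 = (u₀ - u j) ^ 2 + (3 / 4 * ℓ₀ + 3 / 4 * ℓ j) ^ 2 := by
      rw [← Complex.normSq_eq_norm_sq, Complex.normSq_apply, hadef]
      simp [ctr]
      ring
    have h3 : 4 / 3 * ℓ j / ℓ₀ ≤ 4 * a.im * (ctr (u j) (ℓ j)).im /
        ‖a - starRingEnd ℂ (ctr (u j) (ℓ j))‖ ^ 2 := by
      rw [div_le_div_iff₀ hℓ₀ (by positivity), hn, haim]
      simp only [ctr]
      have h4 := hsub j hj
      have h5 := hhalf j hj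
      have h6 : |u j - u₀| ≤ ℓ₀ / 2 := by linarith
      have h7 : (u₀ - u j) ^ 2 ≤ (ℓ₀ / 2) ^ 2 := by
        rw [← sq_abs (u₀ - u j), abs_sub_comm]
        exact pow_le_pow_left₀ (abs_nonneg _) h6 2
      have h8 : (3 / 4 * ℓ₀ + 3 / 4 * ℓ j) ^ 2 ≤ (9 / 8 * ℓ₀) ^ 2 :=
        pow_le_pow_left₀ (by positivity) (by linarith) 2
      have h9 : (u₀ - u j) ^ 2 + (3 / 4 * ℓ₀ + 3 / 4 * ℓ j) ^ 2 ≤ 97 / 64 * ℓ₀ ^ 2 := by
        nlinarith
      calc 4 / 3 * ℓ j * ((u₀ - u j) ^ 2 + (3 / 4 * ℓ₀ + 3 / 4 * ℓ j) ^ 2)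
          ≤ 4 / 3 * ℓ j * (97 / 64 * ℓ₀ ^ 2) := by gcongr
        _ ≤ 4 * (3 / 4 * ℓ₀) * (3 / 4 * ℓ j) * ℓ₀ := by nlinarith [mul_pos hlj (mul_pos hℓ₀ hℓ₀)]
    have h10 : ‖bf (ctr (u j) (ℓ j)) a‖ ^ 2 ≤ 1 - 4 / 3 * ℓ j / ℓ₀ := by linarith
    refine h10.trans ?_
    have := Real.add_one_le_exp (-(4 / 3 * ℓ j / ℓ₀))
    linarith
  -- conclusion
  have hfin : ε₁ ^ 2 ≤ Real.exp (-(4 / 3 * (∑ j ∈ F, ℓ j) / ℓ₀)) ^ M := by
    calc ε₁ ^ 2 ≤ (‖B a‖ ^ M) ^ 2 := pow_le_pow_left₀ hε₁.le (ha.trans hmax1) 2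
      _ = (‖B a‖ ^ 2) ^ M := by rw [← pow_mul, ← pow_mul, mul_comm]
      _ ≤ _ := pow_le_pow_left₀ (by positivity) hup M
  rw [← Real.exp_nat_mul] at hfin
  have hlog := Real.log_le_log (by positivity) hfin
  rw [Real.log_exp, Real.log_pow] at hlog
  have hMpos : (0 : ℝ) < M := by exact_mod_cast hM1
  have h1 : Real.log (1 / ε₁) = -Real.log ε₁ := by rw [one_div, Real.log_inv]
  rw [h1] at hM
  have h2 : (4 / 3 : ℝ) * (∑ j ∈ F, ℓ j) / ℓ₀ ≤ 2 / 3 := by
    push_cast at hlog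
    by_contra hlt
    push Not at hlt
    nlinarith
  rw [div_le_iff₀ hℓ₀] at h2
  linarith

end

end Pool.Agent.H720R2.HP
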