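import Mathlib

/-!
Packing of dyadic boxes: definitions.
-/

set_option autoImplicit false

open Metric Set Filter Topology Complex

namespace Pool.Agent.H720R2.HP

/-- `j` lies below (or is equal to) `q` -/
def desc (q j : ℕ × ℤ) : Prop := q.1 ≤ j.1 ∧ j.2 / 2 ^ (j.1 - q.1) = q.2

open scoped Classical in
/-- packing with constant `C` -/
def Pk (C : ℝ) (T : Finset (ℕ × ℤ)) : Prop :=
  ∀ q : ℕ × ℤ, ∑ j ∈ T with desc q j, (1 / 2 : ℝ) ^ j.1 ≤ C * (1 / 2) ^ q.1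

/-- centre of the top half of the box `j`, the unit of length is `Λ` -/
noncomputable def cen (Λ : ℝ) (j : ℕ × ℤ) : ℂ :=
  ⟨(j.2 + 1 / 2) * (Λ * (1 / 2) ^ j.1), 3 / 4 * (Λ * (1 / 2) ^ j.1)⟩

end Pool.Agent.H720R2.HP
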