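import Mathlib
import Pool.Agent.H720R2.HP.PDefs

/-!
The stopping time tree: states of dyadic boxes, and packing of the boxes where the state changes.
-/

set_option autoImplicit false

open Metric Set Filter Topology

namespace Pool.Agent.H720R2.HP

/-- weight of a box -/
noncomputable def wt (q : ℕ × ℤ) : ℝ := (1 / 2 : ℝ) ^ q.1

theorem wt_pos (q : ℕ × ℤ) : 0 < wt q := by unfold wt; positivity

/-- the children of a box -/
def ch (q : ℕ × ℤ) (b : Bool) : ℕ × ℤ := (q.1 + 1, 2 * q.2 + if b then 1 else 0)

theorem wt_ch (q : ℕ × ℤ) (b : Bool) : wt (ch q b) = wt q / 2 := by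
  unfold wt ch
  rw [pow_succ]
  ring

theorem desc_self (q : ℕ × ℤ) : desc q q := ⟨le_rfl, by simp⟩

theorem desc_trans {p q j : ℕ × ℤ} (h : desc p q) (h' : desc q j) : desc p j := by
  obtain ⟨h1, h2⟩ := h
  obtain ⟨h3, h4⟩ := h'
  refine ⟨h1.trans h3, ?_⟩
  have h5 : j.1 - p.1 = (j.1 - q.1) + (q.1 - p.1) := by omega
  rw [h5, pow_add, ← Int.ediv_ediv_of_nonneg (by positivity), h4, h2]

theorem desc_ch (q : ℕ × ℤ) (b : Bool) : desc q (ch q b) := by
  refine ⟨Nat.le_succ _, ?_⟩
  have h1 : (ch q b).1 - q.1 = 1 := by simp [ch]
  rw [h1]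
  cases b <;> simp [ch] <;> omega

theorem desc_cases {q j : ℕ × ℤ} (h : desc q j) (hne : j ≠ q) :
    ∃ b, desc (ch q b) j := by
  obtain ⟨h1, h2⟩ := h
  have h3 : q.1 < j.1 := by
    rcases Nat.lt_or_ge q.1 j.1 with h | h
    · exact h
    · exfalso
      apply hne
      have h4 : j.1 = q.1 := le_antisymm h h1
      rw [h4, Nat.sub_self, pow_zero, Int.ediv_one] at h2
      exact Prod.ext h4 h2
  have h5 : j.1 - q.1 = (j.1 - (q.1 + 1)) + 1 := by omega
  rw [h5, pow_succ, ← Int.ediv_ediv_of_nonneg (by positivity)] at h2
  set m := j.2 / 2 ^ (j.1 - (q.1 + 1)) with hm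
  rcases Int.emod_two_eq_zero_or_one m with h6 | h6
  · refine ⟨false, h3, ?_⟩
    simp only [ch]
    rw [← hm]
    simp
    omega
  · refine ⟨true, h3, ?_⟩
    simp only [ch]
    rw [← hm]
    simp
    omega

theorem desc_ch_lt {q j : ℕ × ℤ} {b : Bool} (h : desc (ch q b) j) : q.1 < j.1 := h.1

theorem desc_ch_disj {q j : ℕ × ℤ} (h : desc (ch q false) j) (h' : desc (ch q true) j) : False := by
  have h1 := h.2
  have h2 := h'.2
  simp only [ch] at h1 h2
  rw [h1] at h2
  simp at h2

open scoped Classical in
/-- total weight of the members of `T` below `q` -/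
noncomputable def AA (T : Finset (ℕ × ℤ)) (q : ℕ × ℤ) : ℝ := ∑ j ∈ T with desc q j, wt j

theorem AA_nonneg (T : Finset (ℕ × ℤ)) (q : ℕ × ℤ) : 0 ≤ AA T q :=
  Finset.sum_nonneg fun j _ => (wt_pos j).le

open scoped Classical in
theorem AA_rec (T : Finset (ℕ × ℤ)) (q : ℕ × ℤ) :
    AA T q = (if q ∈ T then wt q else 0) + (AA T (ch q false) + AA T (ch q true)) := by
  classical
  unfold AA
  have h1 : T.filter (fun j => desc q j) = (T.filter fun j => j = q) ∪
      ((T.filter fun j => desc (ch q false) j) ∪ T.filter fun j => desc (ch q true) j) := by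
    ext j
    simp only [Finset.mem_filter, Finset.mem_union]
    constructor
    · rintro ⟨hj, hd⟩
      by_cases hq : j = q
      · exact Or.inl ⟨hj, hq⟩
      · obtain ⟨b, hb⟩ := desc_cases hd hq
        cases b
        · exact Or.inr (Or.inl ⟨hj, hb⟩)
        · exact Or.inr (Or.inr ⟨hj, hb⟩)
    · rintro (⟨hj, rfl⟩ | ⟨hj, hb⟩ | ⟨hj, hb⟩)
      · exact ⟨hj, desc_self _⟩
      · exact ⟨hj, desc_trans (desc_ch q _) hb⟩
      · exact ⟨hj, desc_trans (desc_ch q _) hb⟩
  rw [h1, Finset.sum_union, Finset.sum_union]
  · congr 1
    rw [Finset.filter_eq']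
    split_ifs with h
    · simp
    · simp
  · rw [Finset.disjoint_left]
    intro j h2 h3
    exact desc_ch_disj (Finset.mem_filter.1 h2).2 (Finset.mem_filter.1 h3).2
  · rw [Finset.disjoint_left]
    intro j h2 h3
    have h4 := (Finset.mem_filter.1 h2).2
    subst h4
    rcases Finset.mem_union.1 h3 with h5 | h5
    · exact absurd (desc_ch_lt (Finset.mem_filter.1 h5).2) (lt_irrefl _)
    · exact absurd (desc_ch_lt (Finset.mem_filter.1 h5).2) (lt_irrefl _)

theorem AA_zero {T : Finset (ℕ × ℤ)} {J : ℕ} (hT : ∀ j ∈ T, j.1 ≤ J) {q : ℕ × ℤ} (hq : J < q.1) :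
    AA T q = 0 := by
  classical
  unfold AA
  rw [Finset.filter_false_of_mem, Finset.sum_empty]
  intro j hj hd
  have := hT j hj
  have := hd.1
  omega

section

variable (low high : ℕ × ℤ → Prop) (c0 : Bool)

open scoped Classical in
/-- the state of a box -/
noncomputable def stt : ℕ → ℤ → Bool
  | 0, _ => c0
  | (i + 1), n => if low (i + 1, n) then false else if high (i + 1, n) then true
      else stt i (n / 2)

/-- the state changes at the box `q` -/
def chg (q : ℕ × ℤ) : Prop := 1 ≤ q.1 ∧ stt low high c0 q.1 q.2 ≠ stt low high c0 (q.1 - 1) (q.2 / 2)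

open scoped Classical in
theorem stt_ch (q : ℕ × ℤ) (b : Bool) : stt low high c0 (ch q b).1 (ch q b).2 =
    if low (ch q b) then false else if high (ch q b) then true else stt low high c0 q.1 q.2 := by
  have h1 : (2 * q.2 + if b then 1 else 0) / 2 = q.2 := by
    cases b <;> simp <;> omega
  unfold ch
  simp only
  rw [stt, h1]

theorem chg_ch {q : ℕ × ℤ} {b : Bool} (h : chg low high c0 (ch q b)) :
    stt low high c0 (ch q b).1 (ch q b).2 ≠ stt low high c0 q.1 q.2 := by
  have h1 := h.2
  have h2 : (ch q b).2 / 2 = q.2 := by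
    cases b <;> simp [ch] <;> omega
  have h3 : (ch q b).1 - 1 = q.1 := by simp [ch]
  rwa [h2, h3] at h1

open scoped Classical in
/-- the maximal low boxes strictly below `q`, up to depth `k` -/
noncomputable def DD' : ℕ → ℕ × ℤ → Finset (ℕ × ℤ)
  | 0, _ => ∅
  | (k + 1), q => (if low (ch q false) then {ch q false} else DD' k (ch q false)) ∪
      (if low (ch q true) then {ch q true} else DD' k (ch q true))

theorem DD'_mem : ∀ (k : ℕ) (q : ℕ × ℤ), ∀ j ∈ DD' low k q, low j ∧ desc q j ∧ q.1 < j.1 := by
  classical
  intro k
  induction k with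
  | zero => intro q j hj; simp [DD'] at hj
  | succ k ih =>
    intro q j hj
    have key : ∀ b, j ∈ (if low (ch q b) then {ch q b} else DD' low k (ch q b)) →
        low j ∧ desc q j ∧ q.1 < j.1 := by
      intro b hb
      split_ifs at hb with hl
      · rw [Finset.mem_singleton] at hb
        subst hb
        exact ⟨hl, desc_ch q b, Nat.lt_succ_self _⟩
      · obtain ⟨h1, h2, h3⟩ := ih _ j hb
        exact ⟨h1, desc_trans (desc_ch q b) h2, lt_trans (Nat.lt_succ_self _) h3⟩
    rw [DD', Finset.mem_union] at hj
    rcases hj with hj | hj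
    · exact key false hj
    · exact key true hj

theorem DD'_desc (k : ℕ) (q : ℕ × ℤ) (b : Bool) [Decidable (low (ch q b))] : ∀ j ∈
    (if low (ch q b) then {ch q b} else DD' low k (ch q b)), desc (ch q b) j := by
  intro j hb
  split_ifs at hb with hl
  · rw [Finset.mem_singleton] at hb
    subst hb
    exact desc_self _
  · exact (DD'_mem low k _ j hb).2.1

theorem DD'_anti : ∀ (k : ℕ) (q : ℕ × ℤ), ∀ j ∈ DD' low k q, ∀ j' ∈ DD' low k q, j ≠ j' →
    ¬ desc j j' := by
  classical
  intro k
  induction k with
  | zero => intro q j hj; simp [DD'] at hj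
  | succ k ih =>
    intro q j hj j' hj' hne hd
    rw [DD', Finset.mem_union] at hj hj'
    have same : ∀ b, j ∈ (if low (ch q b) then {ch q b} else DD' low k (ch q b)) →
        j' ∈ (if low (ch q b) then {ch q b} else DD' low k (ch q b)) → False := by
      intro b h1 h2
      split_ifs at h1 h2 with hl
      · rw [Finset.mem_singleton] at h1 h2
        exact hne (h1.trans h2.symm)
      · exact ih _ j h1 j' h2 hne hd
    rcases hj with hj | hj <;> rcases hj' with hj' | hj'
    · exact same false hj hj'
    · have h1 := DD'_desc low k q false j hj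
      have h2 := DD'_desc low k q true j' hj'
      exact desc_ch_disj (desc_trans h1 hd) h2
    · have h1 := DD'_desc low k q true j hj
      have h2 := DD'_desc low k q false j' hj'
      exact desc_ch_disj h2 (desc_trans h1 hd)
    · exact same true hj hj'

open scoped Classical in
theorem DD'_sum (k : ℕ) (q : ℕ × ℤ) : ∑ j ∈ DD' low (k + 1) q, wt j =
    (∑ j ∈ (if low (ch q false) then {ch q false} else DD' low k (ch q false)), wt j) +
      ∑ j ∈ (if low (ch q true) then {ch q true} else DD' low k (ch q true)), wt j := by
  rw [DD', Finset.sum_union]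
  rw [Finset.disjoint_left]
  intro j h1 h2
  exact desc_ch_disj (DD'_desc low k q false j h1) (DD'_desc low k q true j h2)

theorem DD'_sum_le : ∀ (k : ℕ) (q : ℕ × ℤ), ∑ j ∈ DD' low k q, wt j ≤ wt q := by
  classical
  intro k
  induction k with
  | zero => intro q; simp [DD']; exact (wt_pos q).le
  | succ k ih =>
    intro q
    rw [DD'_sum]
    have key : ∀ b, ∑ j ∈ (if low (ch q b) then {ch q b} else DD' low k (ch q b)), wt j ≤
        wt q / 2 := by
      intro b
      rw [← wt_ch q b]
      split_ifs with hl
      · simp
      · exact ih _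
    have h1 := key false
    have h2 := key true
    linarith

/-- **Packing of the change boxes.** -/
theorem tree {T : Finset (ℕ × ℤ)} {J : ℕ} (hT : ∀ j ∈ T, j.1 ≤ J)
    (hT2 : ∀ j ∈ T, chg low high c0 j)
    (hstop : ∀ q, high q → ∀ F : Finset (ℕ × ℤ), (∀ j ∈ F, low j ∧ desc q j ∧ q.1 < j.1) →
      (∀ j ∈ F, ∀ j' ∈ F, j ≠ j' → ¬ desc j j') → ∑ j ∈ F, wt j ≤ wt q / 2) :
    Pk 6 T := by
  classical
  have main : ∀ (k : ℕ) (q : ℕ × ℤ), J ≤ q.1 + k →
      (stt low high c0 q.1 q.2 = true →
        AA T (ch q false) + AA T (ch q true) ≤ 5 * ∑ j ∈ DD' low k q, wt j) ∧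
      (stt low high c0 q.1 q.2 = false →
        AA T (ch q false) + AA T (ch q true) ≤ 4 * wt q) := by
    intro k
    induction k with
    | zero =>
      intro q hq
      have h1 : ∀ b, AA T (ch q b) = 0 := fun b => AA_zero hT (by simp [ch]; omega)
      rw [h1, h1]
      constructor
      · intro _
        simp [DD']
      · intro _
        have := wt_pos q
        linarith
    | succ k ih =>
      intro q hq
      have hc : ∀ b, J ≤ (ch q b).1 + k := by
        intro b
        simp only [ch]
        omega
      constructor
      · intro hst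
        rw [DD'_sum, mul_add]
        have key : ∀ b, AA T (ch q b) ≤
            5 * ∑ j ∈ (if low (ch q b) then {ch q b} else DD' low k (ch q b)), wt j := by
          intro b
          obtain ⟨ih1, ih2⟩ := ih (ch q b) (hc b)
          have hs := stt_ch low high c0 q b
          rw [AA_rec]
          by_cases hl : low (ch q b)
          · rw [if_pos hl] at hs ⊢
            have h2 := ih2 hs
            rw [Finset.sum_singleton]
            have h3 := wt_pos (ch q b)
            split_ifs <;> linarith
          · rw [if_neg hl] at hs ⊢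
            have hs2 : stt low high c0 (ch q b).1 (ch q b).2 = true := by
              rw [hs, hst]
              simp
            have h1 := ih1 hs2
            have h3 : ch q b ∉ T := by
              intro h
              apply chg_ch low high c0 (hT2 _ h)
              rw [hs2, hst]
            rw [if_neg h3, zero_add]
            exact h1
        exact add_le_add (key false) (key true)
      · intro hst
        have key : ∀ b, AA T (ch q b) ≤ 4 * (wt q / 2) := by
          intro b
          obtain ⟨ih1, ih2⟩ := ih (ch q b) (hc b)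
          have hs := stt_ch low high c0 q b
          rw [AA_rec, ← wt_ch q b]
          have hw := wt_pos (ch q b)
          by_cases hl : low (ch q b)
          · rw [if_pos hl] at hs
            have h2 := ih2 hs
            have h3 : ch q b ∉ T := by
              intro h
              apply chg_ch low high c0 (hT2 _ h)
              rw [hs, hst]
            rw [if_neg h3, zero_add]
            exact h2
          · rw [if_neg hl] at hs
            by_cases hh : high (ch q b)
            · rw [if_pos hh] at hs
              have h1 := ih1 hs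
              have h4 := hstop _ hh (DD' low k (ch q b))
                (fun j hj => DD'_mem low k _ j hj) (DD'_anti low k _)
              split_ifs <;> linarith
            · rw [if_neg hh, hst] at hs
              have h2 := ih2 hs
              have h3 : ch q b ∉ T := by
                intro h
                apply chg_ch low high c0 (hT2 _ h)
                rw [hs, hst]
              rw [if_neg h3, zero_add]
              exact h2
        have h1 := key false
        have h2 := key true
        linarith
  intro q
  have h1 : AA T q ≤ 6 * wt q := by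
    rw [AA_rec]
    obtain ⟨m1, m2⟩ := main J q (by omega)
    have hw := wt_pos q
    have h2 := DD'_sum_le low J q
    cases h : stt low high c0 q.1 q.2
    · have h3 := m2 h
      split_ifs <;> linarith
    · have h3 := m1 h
      split_ifs <;> linarith
  unfold AA wt at h1
  convert h1

end

end Pool.Agent.H720R2.HP
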