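import Mathlib
import Pool.Agent.H720R2.HP.Tree
import Pool.Agent.H720R2.HP.Stop

/-!
Geometry of the dyadic boxes of the upper half plane.
-/

set_option autoImplicit false

open Metric Set Filter Topology Complex

namespace Pool.Agent.H720R2.HP

/-- length of the boxes of generation `i` -/
noncomputable def ln (Λ : ℝ) (i : ℕ) : ℝ := Λ * (1 / 2) ^ i

theorem ln_pos {Λ : ℝ} (hΛ : 0 < Λ) (i : ℕ) : 0 < ln Λ i := by unfold ln; positivity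

theorem ln_succ (Λ : ℝ) (i : ℕ) : ln Λ (i + 1) = ln Λ i / 2 := by
  unfold ln; rw [pow_succ]; ring

theorem ln_add (Λ : ℝ) (i k : ℕ) : ln Λ i = 2 ^ k * ln Λ (i + k) := by
  unfold ln
  rw [pow_add]
  have : (2 : ℝ) ^ k * (1 / 2) ^ k = 1 := by rw [← mul_pow]; norm_num
  linear_combination (-Λ * (1 / 2) ^ i) * this

theorem ln_anti {Λ : ℝ} (hΛ : 0 < Λ) {i j : ℕ} (h : i ≤ j) : ln Λ j ≤ ln Λ i := by
  obtain ⟨k, rfl⟩ := Nat.exists_eq_add_of_le h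
  rw [ln_add Λ i k]
  have h1 := ln_pos hΛ (i + k)
  have h2 : (1 : ℝ) ≤ 2 ^ k := one_le_pow₀ (by norm_num)
  nlinarith

theorem ln_wt (Λ : ℝ) (q : ℕ × ℤ) : ln Λ q.1 = Λ * wt q := rfl

/-- centre of the base interval -/
noncomputable def uc' (Λ : ℝ) (q : ℕ × ℤ) : ℝ := (q.2 + 1 / 2) * ln Λ q.1

theorem cen_eq (Λ : ℝ) (q : ℕ × ℤ) : cen Λ q = ctr (uc' Λ q) (ln Λ q.1) := rfl

theorem cen_re (Λ : ℝ) (q : ℕ × ℤ) : (cen Λ q).re = uc' Λ q := rfl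

theorem cen_im (Λ : ℝ) (q : ℕ × ℤ) : (cen Λ q).im = 3 / 4 * ln Λ q.1 := rfl

/-- half open top half -/
def Tp (Λ : ℝ) (q : ℕ × ℤ) : Set ℂ :=
  {z | q.2 * ln Λ q.1 ≤ z.re ∧ z.re < (q.2 + 1) * ln Λ q.1 ∧ ln Λ q.1 / 2 < z.im ∧ z.im ≤ ln Λ q.1}

/-- closed top half -/
def TpC (Λ : ℝ) (q : ℕ × ℤ) : Set ℂ :=
  {z | |z.re - uc' Λ q| ≤ ln Λ q.1 / 2 ∧ ln Λ q.1 / 2 ≤ z.im ∧ z.im ≤ ln Λ q.1}

theorem Tp_sub {Λ : ℝ} {q : ℕ × ℤ} {z : ℂ} (hz : z ∈ Tp Λ q) : z ∈ TpC Λ q := by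
  obtain ⟨h1, h2, h3, h4⟩ := hz
  refine ⟨?_, h3.le, h4⟩
  unfold uc'
  rw [abs_le]
  constructor <;> nlinarith

theorem cen_mem {Λ : ℝ} (hΛ : 0 < Λ) (q : ℕ × ℤ) : cen Λ q ∈ TpC Λ q := by
  have := ln_pos hΛ q.1
  refine ⟨?_, ?_, ?_⟩
  · rw [cen_re, sub_self, abs_zero]; linarith
  · rw [cen_im]; linarith
  · rw [cen_im]; linarith

theorem disc_sub {Λ : ℝ} (q : ℕ × ℤ) {z : ℂ} (hz : ‖z - cen Λ q‖ ≤ ln Λ q.1 / 4) :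
    z ∈ TpC Λ q := by
  have h0 : 0 ≤ ln Λ q.1 / 4 := (norm_nonneg _).trans hz
  have h1 := (Complex.abs_re_le_norm (z - cen Λ q)).trans hz
  have h2 := (Complex.abs_im_le_norm (z - cen Λ q)).trans hz
  rw [Complex.sub_re, cen_re] at h1
  rw [Complex.sub_im, cen_im, abs_le] at h2
  exact ⟨by linarith, by linarith [h2.1], by linarith [h2.2]⟩

theorem desc_range {q j : ℕ × ℤ} (h : desc q j) :
    q.2 * 2 ^ (j.1 - q.1) ≤ j.2 ∧ j.2 + 1 ≤ (q.2 + 1) * 2 ^ (j.1 - q.1) := by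
  obtain ⟨h1, h2⟩ := h
  have h3 : (0 : ℤ) < 2 ^ (j.1 - q.1) := by positivity
  constructor
  · have := Int.ediv_mul_le j.2 h3.ne'
    rwa [h2] at this
  · have := Int.lt_ediv_add_one_mul_self j.2 h3
    rw [h2] at this
    linarith

theorem desc_geo {Λ : ℝ} (hΛ : 0 < Λ) {q j : ℕ × ℤ} (h : desc q j) :
    |uc' Λ j - uc' Λ q| + ln Λ j.1 / 2 ≤ ln Λ q.1 / 2 := by
  obtain ⟨h1, h2⟩ := desc_range h
  have hk : j.1 = q.1 + (j.1 - q.1) := by have := h.1; omega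
  set k := j.1 - q.1 with hkdef
  have h3 : ln Λ q.1 = 2 ^ k * ln Λ j.1 := by rw [hk]; exact ln_add Λ q.1 k
  have hpos := ln_pos hΛ j.1
  unfold uc'
  rw [h3]
  have h4 : (q.2 : ℝ) * 2 ^ k ≤ j.2 := by exact_mod_cast h1
  have h5 : (j.2 : ℝ) + 1 ≤ (q.2 + 1) * 2 ^ k := by exact_mod_cast h2
  have h6 : ((j.2 : ℝ) + 1 / 2) * ln Λ j.1 - (q.2 + 1 / 2) * (2 ^ k * ln Λ j.1) =
      (j.2 + 1 / 2 - (q.2 + 1 / 2) * 2 ^ k) * ln Λ j.1 := by ring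
  rw [h6, abs_mul, abs_of_pos hpos]
  have h7 : |(j.2 : ℝ) + 1 / 2 - (q.2 + 1 / 2) * 2 ^ k| ≤ (2 ^ k - 1) / 2 := by
    rw [abs_le]
    constructor <;> linarith
  nlinarith

theorem ediv_eq_of {n n' : ℤ} {k : ℕ} (h1 : n * 2 ^ k ≤ n') (h2 : n' < (n + 1) * 2 ^ k) :
    n' / 2 ^ k = n := by
  have h3 : (0 : ℤ) < 2 ^ k := by positivity
  rw [Int.ediv_eq_iff_of_pos h3]
  constructor <;> linarith

/-- if the base intervals of two boxes meet then one lies below the other -/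
theorem desc_of_inter {Λ : ℝ} (hΛ : 0 < Λ) {q j : ℕ × ℤ} (hqj : q.1 ≤ j.1) {t : ℝ}
    (h1 : t ∈ Ico (uc' Λ q - ln Λ q.1 / 2) (uc' Λ q + ln Λ q.1 / 2))
    (h2 : t ∈ Ico (uc' Λ j - ln Λ j.1 / 2) (uc' Λ j + ln Λ j.1 / 2)) : desc q j := by
  refine ⟨hqj, ?_⟩
  have hk : j.1 = q.1 + (j.1 - q.1) := by omega
  set k := j.1 - q.1 with hkdef
  have h3 : ln Λ q.1 = 2 ^ k * ln Λ j.1 := by rw [hk]; exact ln_add Λ q.1 k
  have hpos := ln_pos hΛ j.1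
  obtain ⟨a1, a2⟩ := h1
  obtain ⟨b1, b2⟩ := h2
  unfold uc' at a1 a2 b1 b2
  rw [h3] at a1 a2
  have c1 : (q.2 : ℝ) * 2 ^ k * ln Λ j.1 < (j.2 + 1) * ln Λ j.1 := by linarith
  have c2 : (j.2 : ℝ) * ln Λ j.1 < (q.2 + 1) * 2 ^ k * ln Λ j.1 := by linarith
  have d1 : (q.2 : ℝ) * 2 ^ k < j.2 + 1 := lt_of_mul_lt_mul_right c1 hpos.le
  have d2 : (j.2 : ℝ) < (q.2 + 1) * 2 ^ k := lt_of_mul_lt_mul_right c2 hpos.le
  have e1 : q.2 * 2 ^ k < j.2 + 1 := by exact_mod_cast d1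
  have e2 : j.2 < (q.2 + 1) * 2 ^ k := by exact_mod_cast d2
  exact ediv_eq_of (by omega) e2

/-- **The stopping lemma for dyadic boxes.** -/
theorem stop_dyadic {Λ : ℝ} (hΛ : 0 < Λ) {f : ℂ → ℂ} (hf : DifferentiableOn ℂ f {w | 0 < w.im})
    (hfc : ContinuousOn f {w | 0 ≤ w.im}) (hfb : ∀ w : ℂ, 0 ≤ w.im → ‖f w‖ ≤ 1) {ε₁ : ℝ}
    (hε₁ : 0 < ε₁) {M : ℕ} (hM1 : 1 ≤ M) (hM : 3 * Real.log (1 / ε₁) ≤ M) (q : ℕ × ℤ)
    (ha : ε₁ ≤ ‖f (cen Λ q)‖) (F : Finset (ℕ × ℤ))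
    (hF : ∀ j ∈ F, (∀ z ∈ TpC Λ j, ‖f z‖ ≤ Real.exp (-(168 * M))) ∧ desc q j ∧ q.1 < j.1)
    (hanti : ∀ j ∈ F, ∀ j' ∈ F, j ≠ j' → ¬ desc j j') :
    ∑ j ∈ F, wt j ≤ wt q / 2 := by
  have h := stop (F := F) (u := uc' Λ) (ℓ := fun j => ln Λ j.1) (fun j _ => ln_pos hΛ j.1) ?_
    (u₀ := uc' Λ q) (ln_pos hΛ q.1) (fun j hj => desc_geo hΛ (hF j hj).2.1) (fun j hj => ?_) hf hfc
    hfb hε₁ ha hM1 hM (fun j hj w hw => (hF j hj).1 w (disc_sub j hw))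
  · simp only [ln_wt] at h
    rw [← Finset.mul_sum] at h
    have h2 : Λ * ∑ j ∈ F, wt j ≤ Λ * (wt q / 2) := by linarith
    exact le_of_mul_le_mul_left h2 hΛ
  · intro j hj j' hj' hne
    rw [Function.onFun, Set.disjoint_left]
    intro t ht ht'
    rcases le_total j.1 j'.1 with h | h
    · exact hanti j hj j' hj' hne (desc_of_inter hΛ h ht ht')
    · exact hanti j' hj' j hj hne.symm (desc_of_inter hΛ h ht' ht)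
  · have h1 := (hF j hj).2.2
    have h2 := ln_anti hΛ (Nat.succ_le_of_lt h1)
    rwa [Nat.succ_eq_add_one, ln_succ] at h2

end Pool.Agent.H720R2.HP
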