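import Mathlib
import Pool.Agent.H720R2.HP.Geo

/-!
Packing of the boxes where a bounded holomorphic function oscillates.
-/

set_option autoImplicit false

open MeasureTheory Metric Set Filter Topology Complex

namespace Pool.Agent.H720R2.HP

/-- nice functions on the upper half plane -/
structure Nice (f : ℂ → ℂ) (η : ℝ) : Prop where
  pos : 0 < η
  diff : DifferentiableOn ℂ f {w : ℂ | -η < w.im}
  bd : ∀ w : ℂ, 0 ≤ w.im → ‖f w‖ ≤ 1

theorem isOpen_strip (η : ℝ) : IsOpen {w : ℂ | -η < w.im} :=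
  isOpen_lt continuous_const Complex.continuous_im

theorem Nice.diffAt {f : ℂ → ℂ} {η : ℝ} (h : Nice f η) {w : ℂ} (hw : 0 ≤ w.im) :
    DifferentiableAt ℂ f w :=
  h.diff.differentiableAt ((isOpen_strip η).mem_nhds (by
    change -η < w.im
    linarith [h.pos]))

theorem Nice.diffAt' {f : ℂ → ℂ} {η : ℝ} (h : Nice f η) {w : ℂ} (hw : 0 ≤ w.im) :
    DifferentiableAt ℂ (deriv f) w :=
  (h.diff.deriv (isOpen_strip η)).differentiableAt ((isOpen_strip η).mem_nhds (by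
    change -η < w.im
    linarith [h.pos]))

theorem Nice.deriv_le {f : ℂ → ℂ} {η : ℝ} (h : Nice f η) {w : ℂ} (hw : 0 < w.im) :
    ‖deriv f w‖ ≤ 1 / w.im := by
  have hin : ∀ z ∈ closedBall w w.im, 0 ≤ z.im := by
    intro z hz
    rw [mem_closedBall, dist_eq_norm] at hz
    have h1 := (Complex.abs_im_le_norm (z - w)).trans hz
    rw [Complex.sub_im, abs_le] at h1
    linarith [h1.1]
  refine Complex.norm_deriv_le_of_forall_mem_sphere_norm_le hw ?_
    (fun z hz => h.bd z (hin z (sphere_subset_closedBall hz)))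
  refine DifferentiableOn.diffContOnCl ?_
  intro z hz
  exact (h.diffAt (hin z (closure_ball_subset_closedBall hz))).differentiableWithinAt

theorem Nice.deriv2_le {f : ℂ → ℂ} {η : ℝ} (h : Nice f η) {w : ℂ} (hw : 0 < w.im) :
    ‖deriv (deriv f) w‖ ≤ 4 / w.im ^ 2 := by
  have hin : ∀ z ∈ closedBall w (w.im / 2), w.im / 2 ≤ z.im := by
    intro z hz
    rw [mem_closedBall, dist_eq_norm] at hz
    have h1 := (Complex.abs_im_le_norm (z - w)).trans hz
    rw [Complex.sub_im, abs_le] at h1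
    linarith [h1.1]
  have h1 : ‖deriv (deriv f) w‖ ≤ (2 / w.im) / (w.im / 2) := by
    refine Complex.norm_deriv_le_of_forall_mem_sphere_norm_le (by positivity) ?_ (fun z hz => ?_)
    · refine DifferentiableOn.diffContOnCl ?_
      intro z hz
      have := hin z (closure_ball_subset_closedBall hz)
      exact (h.diffAt' (by linarith)).differentiableWithinAt
    · have h2 := hin z (sphere_subset_closedBall hz)
      refine (h.deriv_le (by linarith)).trans ?_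
      rw [div_le_div_iff₀ (by linarith) hw]
      linarith
  refine h1.trans (le_of_eq ?_)
  field_simp
  norm_num

theorem convex_TpC (Λ : ℝ) (q : ℕ × ℤ) : Convex ℝ (TpC Λ q) := by
  intro x hx y hy a b ha hb hab
  obtain ⟨x1, x2, x3⟩ := hx
  obtain ⟨y1, y2, y3⟩ := hy
  rw [abs_le] at x1 y1
  refine ⟨?_, ?_, ?_⟩
  · rw [abs_le]
    simp only [Complex.add_re, Complex.real_smul, Complex.mul_re, Complex.ofReal_re,
      Complex.ofReal_im, zero_mul, sub_zero]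
    have hb' : b = 1 - a := by linarith
    subst hb'
    constructor <;> nlinarith [x1.1, x1.2, y1.1, y1.2]
  · simp only [Complex.add_im, Complex.real_smul, Complex.mul_im, Complex.ofReal_re,
      Complex.ofReal_im, zero_mul, add_zero]
    have hb' : b = 1 - a := by linarith
    subst hb'
    nlinarith
  · simp only [Complex.add_im, Complex.real_smul, Complex.mul_im, Complex.ofReal_re,
      Complex.ofReal_im, zero_mul, add_zero]
    have hb' : b = 1 - a := by linarith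
    subst hb'
    nlinarith

theorem TpC_diam {Λ : ℝ} (hΛ : 0 < Λ) {q : ℕ × ℤ} {z : ℂ} (hz : z ∈ TpC Λ q) :
    ‖z - cen Λ q‖ ≤ ln Λ q.1 := by
  have hpos := ln_pos hΛ q.1
  refine (Complex.norm_le_abs_re_add_abs_im _).trans ?_
  rw [Complex.sub_re, Complex.sub_im, cen_re, cen_im]
  obtain ⟨h1, h2, h3⟩ := hz
  have h4 : |z.im - 3 / 4 * ln Λ q.1| ≤ ln Λ q.1 / 4 := by
    rw [abs_le]; constructor <;> linarith
  linarith

/-- exceptional boxes -/
def exc (Λ τ : ℝ) (f : ℂ → ℂ) (q : ℕ × ℤ) : Prop := ∃ z ∈ TpC Λ q, τ < ‖f z - f (cen Λ q)‖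

theorem exc_point {Λ τ : ℝ} (hΛ : 0 < Λ) {f : ℂ → ℂ} {η : ℝ} (h : Nice f η) {q : ℕ × ℤ}
    (hq : exc Λ τ f q) : ∃ b ∈ TpC Λ q, τ / ln Λ q.1 ≤ ‖deriv f b‖ := by
  have hpos := ln_pos hΛ q.1
  by_contra hcon
  push Not at hcon
  obtain ⟨z, hz, hzt⟩ := hq
  have h1 := Convex.norm_image_sub_le_of_norm_deriv_le (f := f) (C := τ / ln Λ q.1)
    (s := TpC Λ q) (fun x hx => h.diffAt (by linarith [hx.2.1])) (fun x hx => (hcon x hx).le)
    (convex_TpC Λ q) (cen_mem hΛ q) hz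
  have h2 := TpC_diam hΛ hz
  have h3 : 0 ≤ τ / ln Λ q.1 := (norm_nonneg _).trans (hcon _ (cen_mem hΛ q)).le
  have h4 : τ / ln Λ q.1 * ‖z - cen Λ q‖ ≤ τ / ln Λ q.1 * ln Λ q.1 := by gcongr
  rw [div_mul_cancel₀ _ hpos.ne'] at h4
  linarith

/-- the box in the energy estimate -/
def bx (u ℓ : ℝ) : Set ℂ := {w : ℂ | |w.re - u| ≤ ℓ ∧ 0 ≤ w.im ∧ w.im ≤ ℓ}

theorem disc_facts {Λ τ : ℝ} (hΛ : 0 < Λ) (hτ : 0 < τ) (hτ1 : τ ≤ 1) {f : ℂ → ℂ} {η : ℝ}
    (h : Nice f η) {q : ℕ × ℤ} {b : ℂ} (hb : b ∈ TpC Λ q) (hd : τ / ln Λ q.1 ≤ ‖deriv f b‖) {w : ℂ}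
    (hw : w ∈ closedBall b (τ / 64 * ln Λ q.1)) :
    |w.re - b.re| ≤ τ / 64 * ln Λ q.1 ∧ |w.im - b.im| ≤ τ / 64 * ln Λ q.1 ∧
    3 / 8 * ln Λ q.1 ≤ w.im ∧ τ / (2 * ln Λ q.1) ≤ ‖deriv f w‖ := by
  have hpos := ln_pos hΛ q.1
  have hw' := hw
  rw [mem_closedBall, dist_eq_norm] at hw
  have h1 := (Complex.abs_re_le_norm (w - b)).trans hw
  have h2 := (Complex.abs_im_le_norm (w - b)).trans hw
  rw [Complex.sub_re] at h1
  rw [Complex.sub_im] at h2
  have him : ∀ z ∈ closedBall b (τ / 64 * ln Λ q.1), 3 / 8 * ln Λ q.1 ≤ z.im := by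
    intro z hz
    rw [mem_closedBall, dist_eq_norm] at hz
    have h3 := (Complex.abs_im_le_norm (z - b)).trans hz
    rw [Complex.sub_im, abs_le] at h3
    have h4 := hb.2.1
    nlinarith [h3.1]
  refine ⟨h1, h2, him w hw', ?_⟩
  have hr : 0 ≤ τ / 64 * ln Λ q.1 := by positivity
  have h5 := Convex.norm_image_sub_le_of_norm_deriv_le (f := deriv f) (C := 32 / ln Λ q.1 ^ 2)
    (s := closedBall b (τ / 64 * ln Λ q.1)) (x := b) (y := w)
    (fun x hx => h.diffAt' (by linarith [him x hx])) (fun x hx => ?_) (convex_closedBall _ _)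
    (mem_closedBall_self hr) hw'
  · have h6 : 32 / ln Λ q.1 ^ 2 * ‖w - b‖ ≤ τ / (2 * ln Λ q.1) := by
      calc 32 / ln Λ q.1 ^ 2 * ‖w - b‖ ≤ 32 / ln Λ q.1 ^ 2 * (τ / 64 * ln Λ q.1) := by gcongr
        _ = τ / (2 * ln Λ q.1) := by
          field_simp
          norm_num
    have h7 : ‖deriv f b‖ ≤ ‖deriv f w‖ + ‖deriv f w - deriv f b‖ := by
      have := norm_sub_norm_le (deriv f b) (deriv f w)
      rw [norm_sub_rev (deriv f b)] at this
      linarith
    have h8 : τ / ln Λ q.1 = τ / (2 * ln Λ q.1) + τ / (2 * ln Λ q.1) := by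
      field_simp
      norm_num
    linarith
  · have h6 := him x hx
    have h7 : 0 < x.im := by linarith
    refine (h.deriv2_le h7).trans ?_
    rw [div_le_div_iff₀ (by positivity) (by positivity)]
    have h8 : (3 / 8 * ln Λ q.1) ^ 2 ≤ x.im ^ 2 := pow_le_pow_left₀ (by positivity) h6 2
    nlinarith [sq_nonneg (ln Λ q.1)]

open scoped Classical in
theorem exc_class {Λ τ CE : ℝ} (hΛ : 0 < Λ) (hτ : 0 < τ) (hτ1 : τ ≤ 1) {f : ℂ → ℂ} {η : ℝ}
    (h : Nice f η) (hE : ∀ u ℓ : ℝ, 0 < ℓ →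
      IntegrableOn (fun w : ℂ => ‖deriv f w‖ ^ 2 * w.im) (bx u ℓ) ∧
      ∫ w in bx u ℓ, ‖deriv f w‖ ^ 2 * w.im ≤ CE * ℓ) {T : Finset (ℕ × ℤ)}
    (hT : ∀ j ∈ T, exc Λ τ f j) (c₁ : ℕ) (c₂ : ℤ) (hc : ∀ j ∈ T, j.1 % 2 = c₁ ∧ j.2 % 2 = c₂) :
    Pk (2 * CE / ((τ / 2) ^ 2 * (3 / 8) * (τ / 64) ^ 2)) T := by
  intro q
  have hne : ∀ j : ℕ × ℤ, ∃ b : ℂ, j ∈ T → b ∈ TpC Λ j ∧ τ / ln Λ j.1 ≤ ‖deriv f b‖ := by
    intro j
    by_cases hj : j ∈ T
    · obtain ⟨b, hb, hb2⟩ := exc_point hΛ h (hT j hj)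
      exact ⟨b, fun _ => ⟨hb, hb2⟩⟩
    · exact ⟨0, fun h' => absurd h' hj⟩
  choose b hb using hne
  set D : ℕ × ℤ → Set ℂ := fun j => closedBall (b j) (τ / 64 * ln Λ j.1) with hD
  set g : ℂ → ℝ := fun w => ‖deriv f w‖ ^ 2 * w.im with hg
  set T' := T.filter (fun j => desc q j) with hT'
  have hq := ln_pos hΛ q.1
  obtain ⟨hi, hle⟩ := hE (uc' Λ q) (2 * ln Λ q.1) (by positivity)
  have hsub : ∀ j ∈ T', D j ⊆ bx (uc' Λ q) (2 * ln Λ q.1) := by
    intro j hj w hw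
    obtain ⟨hjT, hjd⟩ := Finset.mem_filter.1 hj
    obtain ⟨hb1, hb2⟩ := hb j hjT
    obtain ⟨f1, f2, f3, f4⟩ := disc_facts hΛ hτ hτ1 h hb1 hb2 hw
    have hj0 := ln_pos hΛ j.1
    have hjq := ln_anti hΛ hjd.1
    have hgeo := desc_geo hΛ hjd
    rw [abs_le] at f1 f2
    have g1 := hb1.1
    have g2 := (abs_le.1 g1).1
    have g3 := (abs_le.1 g1).2
    have g4 : |uc' Λ j - uc' Λ q| ≤ ln Λ q.1 / 2 - ln Λ j.1 / 2 := by linarith
    rw [abs_le] at g4
    refine ⟨?_, by linarith, ?_⟩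
    · rw [abs_le]
      constructor <;> nlinarith [f1.1, f1.2, g4.1, g4.2]
    · have := hb1.2.2
      nlinarith [f2.2]
  have hdisj : (T' : Set (ℕ × ℤ)).PairwiseDisjoint D := by
    have key : ∀ j ∈ T, ∀ k ∈ T, j.1 < k.1 → Disjoint (D j) (D k) := by
      intro j hj k hk hlt
      rw [Set.disjoint_left]
      intro w hw hw'
      obtain ⟨hb1, hb2⟩ := hb j hj
      obtain ⟨hb3, hb4⟩ := hb k hk
      obtain ⟨f1, f2, f3, f4⟩ := disc_facts hΛ hτ hτ1 h hb1 hb2 hw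
      obtain ⟨k1, k2, k3, k4⟩ := disc_facts hΛ hτ hτ1 h hb3 hb4 hw'
      have h1 := (hc j hj).1
      have h2 := (hc k hk).1
      have h3 : j.1 + 2 ≤ k.1 := by omega
      have h4 := ln_anti hΛ h3
      rw [ln_succ, ln_succ] at h4
      have hj0 := ln_pos hΛ j.1
      have hk0 := ln_pos hΛ k.1
      rw [abs_le] at k2
      have := hb3.2.2
      nlinarith [k2.2]
    intro j hj k hk hne
    have hjT := (Finset.mem_filter.1 (Finset.mem_coe.1 hj)).1
    have hkT := (Finset.mem_filter.1 (Finset.mem_coe.1 hk)).1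
    rcases lt_trichotomy j.1 k.1 with h1 | h1 | h1
    · exact key j hjT k hkT h1
    · rw [Function.onFun, Set.disjoint_left]
      intro w hw hw'
      obtain ⟨hb1, hb2⟩ := hb j hjT
      obtain ⟨hb3, hb4⟩ := hb k hkT
      obtain ⟨f1, f2, f3, f4⟩ := disc_facts hΛ hτ hτ1 h hb1 hb2 hw
      obtain ⟨k1, k2, k3, k4⟩ := disc_facts hΛ hτ hτ1 h hb3 hb4 hw'
      have h2 := (hc j hjT).2
      have h3 := (hc k hkT).2
      have h4 : j.2 ≠ k.2 := fun h => hne (Prod.ext h1 h)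
      have hj0 := ln_pos hΛ j.1
      rw [← h1] at k1
      have g1 := hb1.1
      have g3 := hb3.1
      unfold uc' at g1 g3
      rw [← h1] at g3
      have h6 : |((j.2 : ℝ) - k.2) * ln Λ j.1| < 2 * ln Λ j.1 := by
        rw [abs_le] at f1 k1 g1 g3
        rw [abs_lt]
        constructor <;> nlinarith [f1.1, f1.2, k1.1, k1.2, g1.1, g1.2, g3.1, g3.2]
      rw [abs_mul, abs_of_pos hj0] at h6
      have h7 : |(j.2 : ℝ) - k.2| < 2 := lt_of_mul_lt_mul_right h6 hj0.le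
      have h8 : |j.2 - k.2| < 2 := by exact_mod_cast h7
      rw [abs_lt] at h8
      omega
    · exact (key k hkT j hjT h1).symm
  have hlow : ∀ j ∈ T', (τ / 2) ^ 2 * (3 / 8) * (τ / 64) ^ 2 * ln Λ j.1 ≤ ∫ w in D j, g w := by
    intro j hj
    obtain ⟨hjT, hjd⟩ := Finset.mem_filter.1 hj
    obtain ⟨hb1, hb2⟩ := hb j hjT
    have hj0 := ln_pos hΛ j.1
    have h1 := setIntegral_ge_of_const_le (μ := volume) (s := D j) (f := g)
      (c := (τ / (2 * ln Λ j.1)) ^ 2 * (3 / 8 * ln Λ j.1)) measurableSet_closedBall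
      (measure_closedBall_lt_top).ne (fun w hw => ?_) (hi.mono_set (hsub j hj))
    · refine le_trans ?_ h1
      rw [measureReal_def, Complex.volume_closedBall, ENNReal.toReal_mul, ENNReal.toReal_pow,
        ENNReal.toReal_ofReal (by positivity), smul_eq_mul, mul_comm (_ ^ 2 * _) (_ ^ 2 * _)]
      have hpi : (3 : ℝ) ≤ ((NNReal.pi : ENNReal)).toReal := by
        rw [ENNReal.coe_toReal, NNReal.coe_real_pi]
        exact Real.pi_gt_three.le
      have h2 : (τ / 2) ^ 2 * (3 / 8) * (τ / 64) ^ 2 * ln Λ j.1 =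
          (τ / (2 * ln Λ j.1)) ^ 2 * (3 / 8 * ln Λ j.1) * ((τ / 64 * ln Λ j.1) ^ 2 * 1) := by
        field_simp
      rw [h2]
      refine mul_le_mul_of_nonneg_left (mul_le_mul_of_nonneg_left ?_ (by positivity))
        (by positivity)
      linarith
    · obtain ⟨f1, f2, f3, f4⟩ := disc_facts hΛ hτ hτ1 h hb1 hb2 hw
      have f5 : (τ / (2 * ln Λ j.1)) ^ 2 ≤ ‖deriv f w‖ ^ 2 :=
        pow_le_pow_left₀ (by positivity) f4 2
      change _ ≤ ‖deriv f w‖ ^ 2 * w.im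
      exact mul_le_mul f5 f3 (by positivity) (by positivity)
  have hsum : ∑ j ∈ T', (τ / 2) ^ 2 * (3 / 8) * (τ / 64) ^ 2 * ln Λ j.1 ≤
      CE * (2 * ln Λ q.1) := by
    refine (Finset.sum_le_sum hlow).trans ?_
    rw [← integral_biUnion_finset T' (fun j _ => measurableSet_closedBall) hdisj
      (fun j hj => hi.mono_set (hsub j hj))]
    refine le_trans (setIntegral_mono_set hi ?_ ?_) hle
    · filter_upwards [ae_restrict_mem (by
        have : bx (uc' Λ q) (2 * ln Λ q.1) =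
          {w : ℂ | |w.re - uc' Λ q| ≤ 2 * ln Λ q.1} ∩ ({w : ℂ | 0 ≤ w.im} ∩
            {w : ℂ | w.im ≤ 2 * ln Λ q.1}) := rfl
        rw [this]
        refine MeasurableSet.inter ?_ (MeasurableSet.inter ?_ ?_)
        · exact measurableSet_le (by fun_prop) measurable_const
        · exact measurableSet_le measurable_const Complex.measurable_im
        · exact measurableSet_le Complex.measurable_im measurable_const)] with w hw
      have := hw.2.1
      simp only [hg, Pi.zero_apply]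
      positivity
    · refine HasSubset.Subset.eventuallyLE ?_
      exact Set.iUnion₂_subset hsub
  have hK : 0 < (τ / 2) ^ 2 * (3 / 8) * (τ / 64) ^ 2 := by positivity
  simp only [ln_wt] at hsum
  have h3 : ∑ j ∈ T', (τ / 2) ^ 2 * (3 / 8) * (τ / 64) ^ 2 * (Λ * wt j) =
      ((τ / 2) ^ 2 * (3 / 8) * (τ / 64) ^ 2 * Λ) * ∑ j ∈ T', wt j := by
    rw [Finset.mul_sum]
    refine Finset.sum_congr rfl (fun j _ => by ring)
  rw [h3] at hsum
  change ∑ j ∈ T', wt j ≤ 2 * CE / ((τ / 2) ^ 2 * (3 / 8) * (τ / 64) ^ 2) * wt q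
  rw [div_mul_eq_mul_div, le_div_iff₀ hK]
  have h4 : ((τ / 2) ^ 2 * (3 / 8) * (τ / 64) ^ 2 * ∑ j ∈ T', wt j) * Λ ≤
      (2 * CE * wt q) * Λ := by linarith
  have h5 := le_of_mul_le_mul_right h4 hΛ
  linarith

end Pool.Agent.H720R2.HP
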