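import Mathlib

/-!
TASK E1 (energy of a bounded holomorphic function over a box), for helper720's corona project.
-/

set_option autoImplicit false

open MeasureTheory Metric Set Filter Topology Complex
open scoped ContDiff

namespace Pool.Agent.H720R2.HP

namespace E1

/-- the point `x + i v` -/
noncomputable def pt (x v : ℝ) : ℂ := (x : ℂ) + (v : ℂ) * I

lemma pt_im (x v : ℝ) : (pt x v).im = v := by simp [pt]

lemma pt_re (x v : ℝ) : (pt x v).re = x := by simp [pt]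

lemma hasDerivAt_pt_x (x v : ℝ) : HasDerivAt (fun x : ℝ => pt x v) 1 x := by
  unfold pt
  exact (Complex.ofRealCLM.hasDerivAt (x := x)).add_const _ |>.congr_deriv (by simp)

lemma hasDerivAt_pt_v (x v : ℝ) : HasDerivAt (fun v : ℝ => pt x v) I v := by
  unfold pt
  have h := ((Complex.ofRealCLM.hasDerivAt (x := v)).mul_const I).const_add (x : ℂ)
  exact h.congr_deriv (by simp)

/-- `|f|²` -/
noncomputable def F (f : ℂ → ℂ) (x v : ℝ) : ℝ := (f (pt x v)).re ^ 2 + (f (pt x v)).im ^ 2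
/-- `|f'|²` -/
noncomputable def Q (f : ℂ → ℂ) (x v : ℝ) : ℝ :=
  (deriv f (pt x v)).re ^ 2 + (deriv f (pt x v)).im ^ 2
/-- `Re (f'' conj f)` -/
noncomputable def G (f : ℂ → ℂ) (x v : ℝ) : ℝ :=
  (f (pt x v)).re * (deriv (deriv f) (pt x v)).re + (f (pt x v)).im * (deriv (deriv f) (pt x v)).im
noncomputable def Fx (f : ℂ → ℂ) (x v : ℝ) : ℝ :=
  2 * ((f (pt x v)).re * (deriv f (pt x v)).re + (f (pt x v)).im * (deriv f (pt x v)).im)
noncomputable def Fv (f : ℂ → ℂ) (x v : ℝ) : ℝ :=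
  2 * (-((f (pt x v)).re * (deriv f (pt x v)).im) + (f (pt x v)).im * (deriv f (pt x v)).re)

section

variable {f : ℂ → ℂ} {η : ℝ}

lemma isOpen_half : IsOpen {w : ℂ | -η < w.im} := isOpen_lt continuous_const Complex.continuous_im

lemma hasDerivAt_x (hf : DifferentiableOn ℂ f {w : ℂ | -η < w.im}) (x : ℝ) {v : ℝ} (hv : -η < v) :
    HasDerivAt (fun x : ℝ => f (pt x v)) (deriv f (pt x v)) x := by
  have h : HasDerivAt f (deriv f (pt x v)) (pt x v) :=
    (hf.differentiableAt (isOpen_half.mem_nhds (by simpa [pt_im] using hv))).hasDerivAt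
  exact (h.comp_of_eq x (hasDerivAt_pt_x x v) rfl).congr_deriv (by simp)

lemma hasDerivAt_v (hf : DifferentiableOn ℂ f {w : ℂ | -η < w.im}) (x : ℝ) {v : ℝ} (hv : -η < v) :
    HasDerivAt (fun v : ℝ => f (pt x v)) (deriv f (pt x v) * I) v := by
  have h : HasDerivAt f (deriv f (pt x v)) (pt x v) :=
    (hf.differentiableAt (isOpen_half.mem_nhds (by simpa [pt_im] using hv))).hasDerivAt
  exact h.comp_of_eq v (hasDerivAt_pt_v x v) rfl

lemma re_deriv {c : ℝ → ℂ} {c' : ℂ} {x : ℝ} (h : HasDerivAt c c' x) :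
    HasDerivAt (fun x => (c x).re) c'.re x :=
  (Complex.reCLM.hasFDerivAt.comp_hasDerivAt x h)

lemma im_deriv {c : ℝ → ℂ} {c' : ℂ} {x : ℝ} (h : HasDerivAt c c' x) :
    HasDerivAt (fun x => (c x).im) c'.im x :=
  (Complex.imCLM.hasFDerivAt.comp_hasDerivAt x h)

variable (hf : DifferentiableOn ℂ f {w : ℂ | -η < w.im})

include hf

lemma dF_x (x : ℝ) {v : ℝ} (hv : -η < v) : HasDerivAt (fun x => F f x v) (Fx f x v) x := by
  have h := hasDerivAt_x hf x hv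
  have h1 := ((re_deriv h).pow 2).add ((im_deriv h).pow 2)
  refine h1.congr_deriv ?_
  simp only [Fx]; push_cast; ring

lemma dF_v (x : ℝ) {v : ℝ} (hv : -η < v) : HasDerivAt (fun v => F f x v) (Fv f x v) v := by
  have h := hasDerivAt_v hf x hv
  have h1 := ((re_deriv h).pow 2).add ((im_deriv h).pow 2)
  refine h1.congr_deriv ?_
  simp only [Fv, Complex.mul_re, Complex.mul_im, Complex.I_re, Complex.I_im]; push_cast; ring

lemma dFx_x (x : ℝ) {v : ℝ} (hv : -η < v) :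
    HasDerivAt (fun x => Fx f x v) (2 * G f x v + 2 * Q f x v) x := by
  have h := hasDerivAt_x hf x hv
  have h' := hasDerivAt_x (hf.deriv isOpen_half) x hv
  have h1 := (((re_deriv h).mul (re_deriv h')).add ((im_deriv h).mul (im_deriv h'))).const_mul 2
  refine h1.congr_deriv ?_
  simp only [G, Q]; ring

lemma dFv_v (x : ℝ) {v : ℝ} (hv : -η < v) :
    HasDerivAt (fun v => Fv f x v) (-(2 * G f x v) + 2 * Q f x v) v := by
  have h := hasDerivAt_v hf x hv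
  have h' := hasDerivAt_v (hf.deriv isOpen_half) x hv
  have h1 := ((((re_deriv h).mul (im_deriv h')).neg).add
    ((im_deriv h).mul (re_deriv h'))).const_mul 2
  refine h1.congr_deriv ?_
  simp only [G, Q, Complex.mul_re, Complex.mul_im, Complex.I_re, Complex.I_im]; ring

omit hf in
lemma cont_of (g : ℂ → ℂ) (hg : ContinuousOn g {w : ℂ | -η < w.im}) :
    ContinuousOn (fun p : ℝ × ℝ => g (pt p.1 p.2)) {p : ℝ × ℝ | -η < p.2} := by
  refine hg.comp ?_ (fun p hp => by simpa [pt_im] using hp)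
  unfold pt
  fun_prop

lemma cont_F : ContinuousOn (fun p : ℝ × ℝ => F f p.1 p.2) {p : ℝ × ℝ | -η < p.2} := by
  have h0 := cont_of f hf.continuousOn
  unfold F
  exact ((Complex.continuous_re.comp_continuousOn h0).pow 2).add
    ((Complex.continuous_im.comp_continuousOn h0).pow 2)

lemma cont_Q : ContinuousOn (fun p : ℝ × ℝ => Q f p.1 p.2) {p : ℝ × ℝ | -η < p.2} := by
  have h0 := cont_of (deriv f) (hf.deriv isOpen_half).continuousOn
  unfold Q
  exact ((Complex.continuous_re.comp_continuousOn h0).pow 2).add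
    ((Complex.continuous_im.comp_continuousOn h0).pow 2)

lemma cont_G : ContinuousOn (fun p : ℝ × ℝ => G f p.1 p.2) {p : ℝ × ℝ | -η < p.2} := by
  have h0 := cont_of f hf.continuousOn
  have h2 := cont_of (deriv (deriv f)) ((hf.deriv isOpen_half).deriv isOpen_half).continuousOn
  unfold G
  exact ((Complex.continuous_re.comp_continuousOn h0).mul
      (Complex.continuous_re.comp_continuousOn h2)).add
    ((Complex.continuous_im.comp_continuousOn h0).mul (Complex.continuous_im.comp_continuousOn h2))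

omit hf in
/-- slices -/
lemma slice_x {g : ℝ × ℝ → ℝ} (hg : ContinuousOn g {p : ℝ × ℝ | -η < p.2}) {v : ℝ} (hv : -η < v) :
    Continuous (fun x => g (x, v)) := by
  rw [← continuousOn_univ]
  exact hg.comp (by fun_prop) (fun x _ => hv)

omit hf in
lemma slice_v {g : ℝ × ℝ → ℝ} (hg : ContinuousOn g {p : ℝ × ℝ | -η < p.2}) (x : ℝ)
    {s : Set ℝ} (hs : ∀ v ∈ s, -η < v) :
    ContinuousOn (fun v => g (x, v)) s :=
  hg.comp (by fun_prop) (fun v hv => hs v hv)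

/-- integration by parts in `x` -/
lemma ibp_x (u ℓ : ℝ) {v : ℝ} (hv : -η < v) :
    ∫ x in (u - 2 * ℓ)..(u + 2 * ℓ),
        (4 * ℓ ^ 2 - (x - u) ^ 2) ^ 2 * (2 * G f x v + 2 * Q f x v) =
      ∫ x in (u - 2 * ℓ)..(u + 2 * ℓ), (12 * (x - u) ^ 2 - 16 * ℓ ^ 2) * F f x v := by
  have cF : Continuous (fun x => F f x v) := slice_x (cont_F hf) hv
  have cQ : Continuous (fun x => Q f x v) := slice_x (cont_Q hf) hv
  have cG : Continuous (fun x => G f x v) := slice_x (cont_G hf) hv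
  rw [← sub_eq_zero, ← intervalIntegral.integral_sub]
  · have key : ∀ x ∈ uIcc (u - 2 * ℓ) (u + 2 * ℓ),
        HasDerivAt (fun x => (4 * ℓ ^ 2 - (x - u) ^ 2) ^ 2 * Fx f x v -
          (-4 * (x - u) * (4 * ℓ ^ 2 - (x - u) ^ 2)) * F f x v)
          ((4 * ℓ ^ 2 - (x - u) ^ 2) ^ 2 * (2 * G f x v + 2 * Q f x v) -
            (12 * (x - u) ^ 2 - 16 * ℓ ^ 2) * F f x v) x := by
      intro x _
      have hid : HasDerivAt (fun x : ℝ => x - u) 1 x := (hasDerivAt_id x).sub_const u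
      have hP : HasDerivAt (fun x : ℝ => (4 * ℓ ^ 2 - (x - u) ^ 2) ^ 2)
          (-4 * (x - u) * (4 * ℓ ^ 2 - (x - u) ^ 2)) x := by
        refine (((hid.pow 2).const_sub (4 * ℓ ^ 2)).pow 2).congr_deriv ?_
        simp only [Pi.pow_apply]; push_cast; ring
      have hP' : HasDerivAt (fun x : ℝ => -4 * (x - u) * (4 * ℓ ^ 2 - (x - u) ^ 2))
          (12 * (x - u) ^ 2 - 16 * ℓ ^ 2) x := by
        refine ((hid.const_mul (-4)).mul ((hid.pow 2).const_sub (4 * ℓ ^ 2))).congr_deriv ?_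
        simp only [Pi.pow_apply]; push_cast; ring
      refine ((hP.mul (dFx_x hf x hv)).sub (hP'.mul (dF_x hf x hv))).congr_deriv ?_
      ring
    rw [intervalIntegral.integral_eq_sub_of_hasDerivAt key]
    · ring
    · apply Continuous.intervalIntegrable
      fun_prop
  · apply Continuous.intervalIntegrable
    fun_prop
  · apply Continuous.intervalIntegrable
    fun_prop

/-- integration by parts in `v` -/
lemma ibp_v (hη : 0 < η) (x : ℝ) {ℓ : ℝ} (hℓ : 0 < ℓ) :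
    ∫ v in (0)..(2 * ℓ), (v * (2 * ℓ - v) ^ 2) * (-(2 * G f x v) + 2 * Q f x v) =
      (∫ v in (0)..(2 * ℓ), (6 * v - 8 * ℓ) * F f x v) + 4 * ℓ ^ 2 * F f x 0 := by
  have hs : ∀ v ∈ uIcc 0 (2 * ℓ), -η < v := by
    intro v hv
    rw [uIcc_of_le (by linarith)] at hv
    linarith [hv.1]
  have cF : ContinuousOn (fun v => F f x v) (uIcc 0 (2 * ℓ)) := slice_v (cont_F hf) x hs
  have cQ : ContinuousOn (fun v => Q f x v) (uIcc 0 (2 * ℓ)) := slice_v (cont_Q hf) x hs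
  have cG : ContinuousOn (fun v => G f x v) (uIcc 0 (2 * ℓ)) := slice_v (cont_G hf) x hs
  rw [← sub_eq_iff_eq_add', ← intervalIntegral.integral_sub]
  · have key : ∀ v ∈ uIcc 0 (2 * ℓ),
        HasDerivAt (fun v => (v * (2 * ℓ - v) ^ 2) * Fv f x v -
          (4 * ℓ ^ 2 - 8 * ℓ * v + 3 * v ^ 2) * F f x v)
          ((v * (2 * ℓ - v) ^ 2) * (-(2 * G f x v) + 2 * Q f x v) -
            (6 * v - 8 * ℓ) * F f x v) v := by
      intro v hv
      have hid : HasDerivAt (fun x : ℝ => x) 1 v := hasDerivAt_id v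
      have hP : HasDerivAt (fun v : ℝ => v * (2 * ℓ - v) ^ 2)
          (4 * ℓ ^ 2 - 8 * ℓ * v + 3 * v ^ 2) v := by
        refine (hid.mul ((hid.const_sub (2 * ℓ)).pow 2)).congr_deriv ?_
        simp only [Pi.pow_apply]; push_cast; ring
      have hP' : HasDerivAt (fun v : ℝ => 4 * ℓ ^ 2 - 8 * ℓ * v + 3 * v ^ 2)
          (6 * v - 8 * ℓ) v := by
        refine (((hid.const_mul (8 * ℓ)).const_sub (4 * ℓ ^ 2)).add
          ((hid.pow 2).const_mul 3)).congr_deriv ?_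
        push_cast; ring
      refine ((hP.mul (dFv_v hf x (hs v hv))).sub (hP'.mul (dF_v hf x (hs v hv)))).congr_deriv ?_
      ring
    rw [intervalIntegral.integral_eq_sub_of_hasDerivAt key]
    · ring
    · apply ContinuousOn.intervalIntegrable
      fun_prop
  · apply ContinuousOn.intervalIntegrable
    fun_prop
  · apply ContinuousOn.intervalIntegrable
    fun_prop

/-- the weighted energy over the double box -/
lemma energy_weight (hη : 0 < η) (hb : ∀ w : ℂ, 0 ≤ w.im → ‖f w‖ ≤ 1) (u : ℝ) {ℓ : ℝ}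
    (hℓ : 0 < ℓ) :
    ∫ p in Icc (u - 2 * ℓ) (u + 2 * ℓ) ×ˢ Icc 0 (2 * ℓ),
      Q f p.1 p.2 * ((4 * ℓ ^ 2 - (p.1 - u) ^ 2) ^ 2 * (p.2 * (2 * ℓ - p.2) ^ 2)) ≤
      1728 * ℓ ^ 7 := by
  set A : Set ℝ := Icc (u - 2 * ℓ) (u + 2 * ℓ) with hA
  set D : Set ℝ := Icc 0 (2 * ℓ) with hD
  have hsub : A ×ˢ D ⊆ {p : ℝ × ℝ | -η < p.2} := by
    rintro ⟨x, v⟩ ⟨_, hv⟩
    simp only [hD, mem_Icc, mem_ofPred_eq] at hv ⊢
    linarith [hv.1]
  have hcomp : IsCompact (A ×ˢ D) := isCompact_Icc.prod isCompact_Icc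
  have hFle : ∀ x v, 0 ≤ v → |F f x v| ≤ 1 := by
    intro x v hv
    have h := hb (pt x v) (by simpa [pt_im] using hv)
    have h2 : F f x v = ‖f (pt x v)‖ ^ 2 := by
      rw [Complex.sq_norm, Complex.normSq_apply]; simp only [F]; ring
    rw [h2, abs_of_nonneg (by positivity)]
    nlinarith [norm_nonneg (f (pt x v))]
  have cF := (cont_F hf).mono hsub
  have cQ := (cont_Q hf).mono hsub
  have cG := (cont_G hf).mono hsub
  let g1 : ℝ × ℝ → ℝ := fun p => (4 * ℓ ^ 2 - (p.1 - u) ^ 2) ^ 2 * (p.2 * (2 * ℓ - p.2) ^ 2) *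
    (2 * G f p.1 p.2 + 2 * Q f p.1 p.2)
  let g2 : ℝ × ℝ → ℝ := fun p => (4 * ℓ ^ 2 - (p.1 - u) ^ 2) ^ 2 * (p.2 * (2 * ℓ - p.2) ^ 2) *
    (-(2 * G f p.1 p.2) + 2 * Q f p.1 p.2)
  have c1 : ContinuousOn g1 (A ×ˢ D) := by
    simp only [g1]; fun_prop
  have c2 : ContinuousOn g2 (A ×ˢ D) := by
    simp only [g2]; fun_prop
  have i1 : IntegrableOn g1 (A ×ˢ D) := c1.integrableOn_compact hcomp
  have i2 : IntegrableOn g2 (A ×ˢ D) := c2.integrableOn_compact hcomp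
  have hle : u - 2 * ℓ ≤ u + 2 * ℓ := by linarith
  -- first integral
  have h1 : ‖∫ p in A ×ˢ D, g1 p‖ ≤ 4096 * ℓ ^ 7 := by
    have e1 : ∫ p in A ×ˢ D, g1 p = ∫ v in D, ∫ x in A, g1 (x, v) := by
      have i1' : Integrable g1 ((volume.restrict A).prod (volume.restrict D)) := by
        rw [Measure.prod_restrict, ← Measure.volume_eq_prod]; exact i1
      have := integral_prod_symm g1 i1'
      rw [Measure.prod_restrict, ← Measure.volume_eq_prod] at this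
      exact this
    rw [e1]
    have e2 : ∀ v ∈ D, ‖∫ x in A, g1 (x, v)‖ ≤ (8 * ℓ ^ 3 * (64 * ℓ ^ 2)) * (4 * ℓ) := by
      intro v hv
      have hv' : 0 ≤ v ∧ v ≤ 2 * ℓ := hv
      have e3 : ∫ x in A, g1 (x, v) =
          (v * (2 * ℓ - v) ^ 2) * ∫ x in (u - 2 * ℓ)..(u + 2 * ℓ),
            (12 * (x - u) ^ 2 - 16 * ℓ ^ 2) * F f x v := by
        rw [← ibp_x hf u ℓ (by linarith : -η < v), ← intervalIntegral.integral_const_mul,
          intervalIntegral.integral_of_le hle, integral_Icc_eq_integral_Ioc]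
        congr 1
        funext x
        simp only [g1]; ring
      have hv3 : |v * (2 * ℓ - v) ^ 2| ≤ 8 * ℓ ^ 3 := by
        rw [abs_of_nonneg (by have := hv'.1; positivity)]
        have : (2 * ℓ - v) ^ 2 ≤ (2 * ℓ) ^ 2 := by nlinarith
        calc v * (2 * ℓ - v) ^ 2 ≤ (2 * ℓ) * (2 * ℓ) ^ 2 := by
              apply mul_le_mul hv'.2 this (by positivity) (by positivity)
          _ = 8 * ℓ ^ 3 := by ring
      have hI : ‖∫ x in (u - 2 * ℓ)..(u + 2 * ℓ), (12 * (x - u) ^ 2 - 16 * ℓ ^ 2) * F f x v‖ ≤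
          (64 * ℓ ^ 2) * |(u + 2 * ℓ) - (u - 2 * ℓ)| := by
        apply intervalIntegral.norm_integral_le_of_norm_le_const
        intro x hx
        rw [uIoc_of_le hle] at hx
        have hx1 : (x - u) ^ 2 ≤ 4 * ℓ ^ 2 := by nlinarith [hx.1, hx.2]
        rw [Real.norm_eq_abs, abs_mul]
        have : |12 * (x - u) ^ 2 - 16 * ℓ ^ 2| ≤ 64 * ℓ ^ 2 := by
          rw [abs_le]; constructor <;> nlinarith [sq_nonneg (x - u), sq_nonneg ℓ]
        calc |12 * (x - u) ^ 2 - 16 * ℓ ^ 2| * |F f x v| ≤ (64 * ℓ ^ 2) * 1 :=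
              mul_le_mul this (hFle x v hv'.1) (abs_nonneg _) (by positivity)
          _ = 64 * ℓ ^ 2 := by ring
      rw [e3, norm_mul, Real.norm_eq_abs]
      have : |(u + 2 * ℓ) - (u - 2 * ℓ)| = 4 * ℓ := by
        rw [abs_of_nonneg (by linarith)]; ring
      rw [this] at hI
      calc |v * (2 * ℓ - v) ^ 2| * ‖∫ x in (u - 2 * ℓ)..(u + 2 * ℓ),
            (12 * (x - u) ^ 2 - 16 * ℓ ^ 2) * F f x v‖ ≤ (8 * ℓ ^ 3) * ((64 * ℓ ^ 2) * (4 * ℓ)) :=
            mul_le_mul hv3 hI (norm_nonneg _) (by positivity)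
        _ = (8 * ℓ ^ 3 * (64 * ℓ ^ 2)) * (4 * ℓ) := by ring
    have hfin : volume D < ⊤ := by rw [hD, Real.volume_Icc]; exact ENNReal.ofReal_lt_top
    refine (norm_setIntegral_le_of_norm_le_const hfin e2).trans (le_of_eq ?_)
    have : volume.real D = 2 * ℓ := by
      rw [hD, Measure.real, Real.volume_Icc, sub_zero, ENNReal.toReal_ofReal (by linarith)]
    rw [this]; ring
  have h2 : ‖∫ p in A ×ˢ D, g2 p‖ ≤ 2816 * ℓ ^ 7 := by
    have e1 : ∫ p in A ×ˢ D, g2 p = ∫ x in A, ∫ v in D, g2 (x, v) := by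
      rw [Measure.volume_eq_prod] at i2 ⊢
      exact setIntegral_prod g2 i2
    rw [e1]
    have e2 : ∀ x ∈ A, ‖∫ v in D, g2 (x, v)‖ ≤ (16 * ℓ ^ 4) * (44 * ℓ ^ 2) := by
      intro x hx
      have hx' : u - 2 * ℓ ≤ x ∧ x ≤ u + 2 * ℓ := hx
      have e3 : ∫ v in D, g2 (x, v) =
          (4 * ℓ ^ 2 - (x - u) ^ 2) ^ 2 * ((∫ v in (0)..(2 * ℓ), (6 * v - 8 * ℓ) * F f x v) +
            4 * ℓ ^ 2 * F f x 0) := by
        rw [← ibp_v hf hη x hℓ, ← intervalIntegral.integral_const_mul,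
          intervalIntegral.integral_of_le (by linarith), integral_Icc_eq_integral_Ioc]
        congr 1
        funext v
        simp only [g2]; ring
      have hx1 : (x - u) ^ 2 ≤ 4 * ℓ ^ 2 := by nlinarith [hx'.1, hx'.2]
      have hP : |(4 * ℓ ^ 2 - (x - u) ^ 2) ^ 2| ≤ 16 * ℓ ^ 4 := by
        rw [abs_of_nonneg (by positivity)]
        have h1 : 4 * ℓ ^ 2 - (x - u) ^ 2 ≤ 4 * ℓ ^ 2 := by nlinarith [sq_nonneg (x - u)]
        have h0 : 0 ≤ 4 * ℓ ^ 2 - (x - u) ^ 2 := by linarith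
        calc (4 * ℓ ^ 2 - (x - u) ^ 2) ^ 2 ≤ (4 * ℓ ^ 2) ^ 2 := pow_le_pow_left₀ h0 h1 2
          _ = 16 * ℓ ^ 4 := by ring
      have hI : ‖∫ v in (0)..(2 * ℓ), (6 * v - 8 * ℓ) * F f x v‖ ≤ (20 * ℓ) * |2 * ℓ - 0| := by
        apply intervalIntegral.norm_integral_le_of_norm_le_const
        intro v hv
        rw [uIoc_of_le (by linarith)] at hv
        rw [Real.norm_eq_abs, abs_mul]
        have : |6 * v - 8 * ℓ| ≤ 20 * ℓ := by
          rw [abs_le]; constructor <;> nlinarith [hv.1, hv.2]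
        calc |6 * v - 8 * ℓ| * |F f x v| ≤ (20 * ℓ) * 1 :=
              mul_le_mul this (hFle x v hv.1.le) (abs_nonneg _) (by positivity)
          _ = 20 * ℓ := by ring
      have h40 : (20 * ℓ) * |2 * ℓ - 0| = 40 * ℓ ^ 2 := by
        rw [abs_of_nonneg (by linarith)]; ring
      rw [h40] at hI
      have h0 : ‖4 * ℓ ^ 2 * F f x 0‖ ≤ 4 * ℓ ^ 2 := by
        rw [Real.norm_eq_abs, abs_mul, abs_of_nonneg (by positivity : (0:ℝ) ≤ 4 * ℓ ^ 2)]
        calc 4 * ℓ ^ 2 * |F f x 0| ≤ 4 * ℓ ^ 2 * 1 :=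
              mul_le_mul_of_nonneg_left (hFle x 0 le_rfl) (by positivity)
          _ = 4 * ℓ ^ 2 := by ring
      rw [e3, norm_mul, Real.norm_eq_abs]
      apply mul_le_mul hP _ (norm_nonneg _) (by positivity)
      calc ‖(∫ v in (0)..(2 * ℓ), (6 * v - 8 * ℓ) * F f x v) + 4 * ℓ ^ 2 * F f x 0‖
          ≤ 40 * ℓ ^ 2 + 4 * ℓ ^ 2 := (norm_add_le _ _).trans (add_le_add hI h0)
        _ = 44 * ℓ ^ 2 := by ring
    have hfin : volume A < ⊤ := by simp [hA]
    refine (norm_setIntegral_le_of_norm_le_const hfin e2).trans (le_of_eq ?_)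
    have : volume.real A = 4 * ℓ := by
      have e : u + 2 * ℓ - (u - 2 * ℓ) = 4 * ℓ := by ring
      rw [hA, Measure.real, Real.volume_Icc, e, ENNReal.toReal_ofReal (by linarith)]
    rw [this]; ring
  have hsum : ∫ p in A ×ˢ D,
      Q f p.1 p.2 * ((4 * ℓ ^ 2 - (p.1 - u) ^ 2) ^ 2 * (p.2 * (2 * ℓ - p.2) ^ 2)) =
      (1 / 4) * ((∫ p in A ×ˢ D, g1 p) + ∫ p in A ×ˢ D, g2 p) := by
    rw [← integral_add i1 i2, ← integral_const_mul]
    congr 1
    funext p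
    simp only [g1, g2]; ring
  rw [hsum]
  have a1 := (le_abs_self _).trans (Real.norm_eq_abs (∫ p in A ×ˢ D, g1 p) ▸ h1)
  have a2 := (le_abs_self _).trans (Real.norm_eq_abs (∫ p in A ×ˢ D, g2 p) ▸ h2)
  linarith

end

end E1

open E1 in
/-- TASK E1 -/
theorem energy_box : ∃ C : ℝ, 0 < C ∧ ∀ (f : ℂ → ℂ) (η : ℝ), 0 < η →
    DifferentiableOn ℂ f {w : ℂ | -η < w.im} → (∀ w : ℂ, 0 ≤ w.im → ‖f w‖ ≤ 1) →
    ∀ u ℓ : ℝ, 0 < ℓ →
      IntegrableOn (fun w : ℂ => ‖deriv f w‖ ^ 2 * w.im)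
        {w : ℂ | |w.re - u| ≤ ℓ ∧ 0 ≤ w.im ∧ w.im ≤ ℓ} ∧
      ∫ w in {w : ℂ | |w.re - u| ≤ ℓ ∧ 0 ≤ w.im ∧ w.im ≤ ℓ}, ‖deriv f w‖ ^ 2 * w.im ≤ C * ℓ := by
  refine ⟨192, by norm_num, fun f η hη hf hb u ℓ hℓ => ?_⟩
  set S : Set ℂ := {w : ℂ | |w.re - u| ≤ ℓ ∧ 0 ≤ w.im ∧ w.im ≤ ℓ} with hS
  have hScomp : IsCompact S := by
    have : S = Complex.equivRealProdCLM.symm '' (Icc (u - ℓ) (u + ℓ) ×ˢ Icc 0 ℓ) := by
      ext w
      constructor
      · rintro ⟨h1, h2, h3⟩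
        rw [abs_le] at h1
        exact ⟨(w.re, w.im), ⟨⟨by dsimp; linarith, by dsimp; linarith⟩, h2, h3⟩, by
          apply Complex.ext <;> simp⟩
      · rintro ⟨⟨x, v⟩, ⟨⟨h1, h2⟩, h3, h4⟩, rfl⟩
        dsimp only at h1 h2 h3 h4
        refine ⟨?_, ?_, ?_⟩
        · simp only [Complex.equivRealProdCLM_symm_apply_re]
          rw [abs_le]; constructor <;> linarith
        · simpa using h3
        · simpa using h4
    rw [this]
    exact (isCompact_Icc.prod isCompact_Icc).image (ContinuousLinearEquiv.continuous _)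
  have hsubS : S ⊆ {w : ℂ | -η < w.im} := by
    rintro w ⟨_, h2, _⟩
    simp only [mem_ofPred_eq]; linarith
  have hcS : ContinuousOn (fun w : ℂ => ‖deriv f w‖ ^ 2 * w.im) S :=
    (((hf.deriv isOpen_half).continuousOn.mono hsubS).norm.pow 2).mul
      Complex.continuous_im.continuousOn
  refine ⟨hcS.integrableOn_compact hScomp, ?_⟩
  -- transfer to `ℝ × ℝ`
  set S' : Set (ℝ × ℝ) := Icc (u - ℓ) (u + ℓ) ×ˢ Icc 0 ℓ with hS'
  have etrans : ∫ w in S, ‖deriv f w‖ ^ 2 * w.im = ∫ p in S', Q f p.1 p.2 * p.2 := by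
    have hpre : Complex.measurableEquivRealProd.symm ⁻¹' S = S' := by
      ext ⟨x, v⟩
      simp only [mem_preimage, Complex.measurableEquivRealProd_symm_apply, hS, hS', mem_ofPred_eq,
        mem_prod, mem_Icc, abs_le]
      constructor
      · rintro ⟨⟨h1, h2⟩, h3, h4⟩
        exact ⟨⟨by linarith, by linarith⟩, h3, h4⟩
      · rintro ⟨⟨h1, h2⟩, h3, h4⟩
        exact ⟨⟨by linarith, by linarith⟩, h3, h4⟩
    rw [← hpre, ← (Complex.volume_preserving_equiv_real_prod.symm).setIntegral_preimage_emb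
      Complex.measurableEquivRealProd.symm.measurableEmbedding]
    congr 1
    funext p
    have hp : Complex.measurableEquivRealProd.symm p = pt p.1 p.2 := by
      apply Complex.ext <;> simp [pt, Complex.measurableEquivRealProd_symm_apply]
    rw [hp, pt_im, Complex.sq_norm, Complex.normSq_apply]
    simp only [Q]; ring
  rw [etrans]
  -- comparison
  set R : Set (ℝ × ℝ) := Icc (u - 2 * ℓ) (u + 2 * ℓ) ×ˢ Icc 0 (2 * ℓ) with hR
  have hRsub : R ⊆ {p : ℝ × ℝ | -η < p.2} := by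
    rintro ⟨x, v⟩ ⟨_, hv⟩
    simp only [mem_Icc, mem_ofPred_eq] at hv ⊢
    linarith [hv.1]
  have hSR : S' ⊆ R := by
    rintro ⟨x, v⟩ ⟨⟨h1, h2⟩, h3, h4⟩
    dsimp only at h1 h2 h3 h4
    exact ⟨⟨by dsimp only; linarith, by dsimp only; linarith⟩, h3, by dsimp only; linarith⟩
  have hRcomp : IsCompact R := isCompact_Icc.prod isCompact_Icc
  have hS'comp : IsCompact S' := isCompact_Icc.prod isCompact_Icc
  have cQ := (cont_Q hf).mono hRsub
  have cQ' := cQ.mono hSR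
  have hW : IntegrableOn (fun p : ℝ × ℝ =>
      Q f p.1 p.2 * ((4 * ℓ ^ 2 - (p.1 - u) ^ 2) ^ 2 * (p.2 * (2 * ℓ - p.2) ^ 2))) R := by
    refine ContinuousOn.integrableOn_compact hRcomp ?_
    fun_prop
  have hQ0 : ∀ x v, 0 ≤ Q f x v := fun x v => by unfold Q; positivity
  have h1 : ∫ p in S', (9 * ℓ ^ 6) * (Q f p.1 p.2 * p.2) ≤
      ∫ p in S', Q f p.1 p.2 * ((4 * ℓ ^ 2 - (p.1 - u) ^ 2) ^ 2 * (p.2 * (2 * ℓ - p.2) ^ 2)) := by
    apply setIntegral_mono_on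
    · refine ContinuousOn.integrableOn_compact hS'comp ?_
      fun_prop
    · exact hW.mono_set hSR
    · exact measurableSet_Icc.prod measurableSet_Icc
    · rintro ⟨x, v⟩ ⟨⟨h1, h2⟩, h3, h4⟩
      dsimp only at h1 h2 h3 h4 ⊢
      have a1 : (x - u) ^ 2 ≤ ℓ ^ 2 := by nlinarith
      have a2 : 3 * ℓ ^ 2 ≤ 4 * ℓ ^ 2 - (x - u) ^ 2 := by linarith
      have a3 : (3 * ℓ ^ 2) ^ 2 ≤ (4 * ℓ ^ 2 - (x - u) ^ 2) ^ 2 :=
        pow_le_pow_left₀ (by positivity) a2 2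
      have a4 : ℓ ^ 2 ≤ (2 * ℓ - v) ^ 2 := by nlinarith
      have a5 : v * ℓ ^ 2 ≤ v * (2 * ℓ - v) ^ 2 := mul_le_mul_of_nonneg_left a4 h3
      have a6 : (3 * ℓ ^ 2) ^ 2 * (v * ℓ ^ 2) ≤
          (4 * ℓ ^ 2 - (x - u) ^ 2) ^ 2 * (v * (2 * ℓ - v) ^ 2) :=
        mul_le_mul a3 a5 (by positivity) (by positivity)
      calc 9 * ℓ ^ 6 * (Q f x v * v) = Q f x v * ((3 * ℓ ^ 2) ^ 2 * (v * ℓ ^ 2)) := by ring
        _ ≤ _ := mul_le_mul_of_nonneg_left a6 (hQ0 x v)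
  have h2 : ∫ p in S', Q f p.1 p.2 * ((4 * ℓ ^ 2 - (p.1 - u) ^ 2) ^ 2 * (p.2 * (2 * ℓ - p.2) ^ 2))
      ≤ ∫ p in R, Q f p.1 p.2 *
        ((4 * ℓ ^ 2 - (p.1 - u) ^ 2) ^ 2 * (p.2 * (2 * ℓ - p.2) ^ 2)) := by
    apply setIntegral_mono_set hW
    · rw [EventuallyLE, ae_restrict_iff' (measurableSet_Icc.prod measurableSet_Icc)]
      refine Eventually.of_forall ?_
      rintro ⟨x, v⟩ ⟨_, h3, h4⟩
      dsimp only at h3 h4
      have := hQ0 x v
      simp only [Pi.zero_apply]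
      positivity
    · exact hSR.eventuallyLE
  have h3 := energy_weight hf hη hb u hℓ
  rw [integral_const_mul] at h1
  have h4 : 9 * ℓ ^ 6 * ∫ p in S', Q f p.1 p.2 * p.2 ≤ 1728 * ℓ ^ 7 := h1.trans (h2.trans h3)
  have h5 : 1728 * ℓ ^ 7 = 9 * ℓ ^ 6 * (192 * ℓ) := by ring
  rw [h5] at h4
  exact le_of_mul_le_mul_left h4 (by positivity)

end Pool.Agent.H720R2.HP
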