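import Mathlib

/-!
TASK M of the project of helper720 (corona theorem): mollification at the hyperbolic scale.
Written by helper294.
-/

set_option autoImplicit false

open MeasureTheory Metric Set Filter Topology Complex
open scoped ContDiff

namespace Pool.Agent.H720R2.HP

namespace MollAux

/-- the inverse scale -/
noncomputable def sg (h δ : ℝ) (w : ℂ) : ℝ := (δ * (w.im + h))⁻¹

/-- derivative of the inverse scale -/
noncomputable def sg' (h δ : ℝ) (w : ℂ) : ℂ →L[ℝ] ℝ := (-(δ * sg h δ w ^ 2)) • Complex.imCLM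

/-- the scaled kernel -/
noncomputable def mK (φ : ℂ → ℝ) (h δ : ℝ) (w z : ℂ) : ℝ :=
  sg h δ w ^ 2 * φ (sg h δ w • (w + h * I - z))

/-- the derivative of the scaled kernel -/
noncomputable def mK' (φ : ℂ → ℝ) (h δ : ℝ) (w z : ℂ) : ℂ →L[ℝ] ℝ :=
  sg h δ w ^ 2 • ((fderiv ℝ φ (sg h δ w • (w + h * I - z))).comp
    (sg h δ w • ContinuousLinearMap.id ℝ ℂ + (sg' h δ w).smulRight (w + h * I - z))) +
  φ (sg h δ w • (w + h * I - z)) • ((2 * sg h δ w) • sg' h δ w)

variable {φ : ℂ → ℝ} {h δ : ℝ}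

lemma sg_pos (hh : 0 < h) (hδ : 0 < δ) {w : ℂ} (hw : 0 < w.im) : 0 < sg h δ w := by
  unfold sg; positivity

lemma sg_ne (hh : 0 < h) (hδ : 0 < δ) {w : ℂ} (hw : 0 < w.im) : δ * (w.im + h) ≠ 0 := by
  positivity

lemma hasFDerivAt_sg (hh : 0 < h) (hδ : 0 < δ) {w : ℂ} (hw : 0 < w.im) :
    HasFDerivAt (sg h δ) (sg' h δ w) w := by
  have h1 : HasFDerivAt (fun w : ℂ => δ * (w.im + h)) (δ • Complex.imCLM) w := by
    have := ((Complex.imCLM.hasFDerivAt (x := w)).add_const h).const_mul δ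
    simpa using this
  have h2 := (hasDerivAt_inv (sg_ne hh hδ hw)).comp_hasFDerivAt w h1
  refine HasFDerivAt.congr_fderiv h2 ?_
  ext x
  simp only [sg', sg, smul_apply, Complex.imCLM_apply, smul_eq_mul]
  field_simp

lemma hasFDerivAt_mK (hφ : ContDiff ℝ 1 φ) (hh : 0 < h) (hδ : 0 < δ) {w : ℂ} (hw : 0 < w.im)
    (z : ℂ) : HasFDerivAt (fun w => mK φ h δ w z) (mK' φ h δ w z) w := by
  have h1 := hasFDerivAt_sg hh hδ hw
  have h2 : HasFDerivAt (fun w : ℂ => w + h * I - z) (ContinuousLinearMap.id ℝ ℂ) w :=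
    ((hasFDerivAt_id w).add_const _).sub_const _
  have h3 := h1.smul h2
  have h4 : HasFDerivAt φ (fderiv ℝ φ (sg h δ w • (w + h * I - z)))
      (sg h δ w • (w + h * I - z)) :=
    (hφ.differentiable (by norm_num)).differentiableAt.hasFDerivAt
  have h5 := h4.comp w h3
  have h6 := (h1.pow 2).mul h5
  refine HasFDerivAt.congr_fderiv h6 ?_
  ext x
  simp [mK']

lemma norm_mK'_le (hh : 0 < h) (hδ : 0 < δ) (hδ4 : δ ≤ 1 / 4) {A : ℝ}
    (hA0 : 0 ≤ A) (hA : ∀ x, ‖φ x‖ ≤ A) (hA' : ∀ x, ‖fderiv ℝ φ x‖ ≤ A)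
    (hs : ∀ x, 1 ≤ ‖x‖ → φ x = 0) (hs' : ∀ x, 1 ≤ ‖x‖ → fderiv ℝ φ x = 0)
    {w : ℂ} (hw : 0 < w.im) (z : ℂ) :
    ‖mK' φ h δ w z‖ ≤ (ball (w + h * I) (δ * (w.im + h))).indicator
      (fun _ => 2 * A * sg h δ w ^ 3) z := by
  have hsp := sg_pos hh hδ hw
  have hne := sg_ne hh hδ hw
  by_cases hz : z ∈ ball (w + h * I) (δ * (w.im + h))
  · rw [indicator_of_mem hz]
    have hx : ‖w + h * I - z‖ ≤ (sg h δ w)⁻¹ := by
      rw [mem_ball, dist_comm, dist_eq_norm] at hz
      unfold sg; rw [inv_inv]; exact hz.le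
    have him : ‖Complex.imCLM‖ ≤ 1 := by
      refine ContinuousLinearMap.opNorm_le_bound _ zero_le_one fun x => ?_
      simpa using Complex.abs_im_le_norm x
    have h1 : ‖sg' h δ w‖ ≤ δ * sg h δ w ^ 2 := by
      unfold sg'
      rw [norm_smul, Real.norm_eq_abs, abs_neg, abs_of_nonneg (by positivity)]
      calc δ * sg h δ w ^ 2 * ‖Complex.imCLM‖ ≤ δ * sg h δ w ^ 2 * 1 := by gcongr
        _ = _ := mul_one _
    have h2 : ‖sg h δ w • ContinuousLinearMap.id ℝ ℂ +
        (sg' h δ w).smulRight (w + h * I - z)‖ ≤ (1 + δ) * sg h δ w := by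
      refine (norm_add_le _ _).trans ?_
      rw [norm_smul, ContinuousLinearMap.norm_smulRight_apply, Real.norm_eq_abs,
        abs_of_pos hsp]
      have h3 : ‖ContinuousLinearMap.id ℝ ℂ‖ ≤ 1 := ContinuousLinearMap.norm_id_le
      calc sg h δ w * ‖ContinuousLinearMap.id ℝ ℂ‖ + ‖sg' h δ w‖ * ‖w + h * I - z‖
          ≤ sg h δ w * 1 + (δ * sg h δ w ^ 2) * (sg h δ w)⁻¹ := by gcongr
        _ = (1 + δ) * sg h δ w := by field_simp
    unfold mK'
    refine (norm_add_le _ _).trans ?_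
    have h4 : ‖sg h δ w ^ 2 • ((fderiv ℝ φ (sg h δ w • (w + h * I - z))).comp
        (sg h δ w • ContinuousLinearMap.id ℝ ℂ + (sg' h δ w).smulRight (w + h * I - z)))‖ ≤
        sg h δ w ^ 2 * (A * ((1 + δ) * sg h δ w)) := by
      rw [norm_smul, Real.norm_eq_abs, abs_of_pos (by positivity)]
      gcongr
      refine (ContinuousLinearMap.opNorm_comp_le _ _).trans ?_
      exact mul_le_mul (hA' _) h2 (norm_nonneg _) hA0
    have h5 : ‖φ (sg h δ w • (w + h * I - z)) • ((2 * sg h δ w) • sg' h δ w)‖ ≤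
        A * ((2 * sg h δ w) * (δ * sg h δ w ^ 2)) := by
      rw [norm_smul, norm_smul, Real.norm_eq_abs (2 * _), abs_of_pos (by positivity)]
      exact mul_le_mul (hA _) (mul_le_mul_of_nonneg_left h1 (by positivity)) (by positivity) hA0
    calc _ ≤ sg h δ w ^ 2 * (A * ((1 + δ) * sg h δ w)) +
          A * ((2 * sg h δ w) * (δ * sg h δ w ^ 2)) := add_le_add h4 h5
      _ = (1 + 3 * δ) * (A * sg h δ w ^ 3) := by ring
      _ ≤ 2 * (A * sg h δ w ^ 3) := by gcongr; linarith
      _ = _ := by ring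
  · rw [indicator_of_notMem hz]
    have hx : 1 ≤ ‖sg h δ w • (w + h * I - z)‖ := by
      rw [mem_ball, dist_comm, dist_eq_norm, not_lt] at hz
      rw [norm_smul, Real.norm_eq_abs, abs_of_pos hsp]
      calc (1 : ℝ) = sg h δ w * (δ * (w.im + h)) := by unfold sg; field_simp
        _ ≤ _ := by gcongr
    unfold mK'
    rw [hs _ hx, hs' _ hx]
    simp

lemma mK_eq_zero (hh : 0 < h) (hδ : 0 < δ) (hs : ∀ x, 1 ≤ ‖x‖ → φ x = 0) {w : ℂ}
    (hw : 0 < w.im) {z : ℂ} (hz : δ * (w.im + h) ≤ ‖z - (w + h * I)‖) : mK φ h δ w z = 0 := by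
  have hsp := sg_pos hh hδ hw
  unfold mK
  rw [hs, mul_zero]
  rw [norm_smul, Real.norm_eq_abs, abs_of_pos hsp, norm_sub_rev]
  calc (1 : ℝ) = sg h δ w * (δ * (w.im + h)) := by
        unfold sg; field_simp [sg_ne hh hδ hw]
    _ ≤ _ := by gcongr

lemma continuous_mK (hφ : Continuous φ) (w : ℂ) : Continuous (fun z => mK φ h δ w z) := by
  unfold mK; fun_prop

lemma continuous_sR : Continuous (fun q : (ℂ →L[ℝ] ℝ) × ℂ => q.1.smulRight q.2) :=
  (isBoundedBilinearMap_smulRight (𝕜 := ℝ) (E := ℂ) (F := ℂ)).continuous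

lemma continuous_mK' (hφ : ContDiff ℝ 1 φ) (w : ℂ) : Continuous (fun z => mK' φ h δ w z) := by
  have h1 : Continuous φ := hφ.continuous
  have h2 : Continuous (fderiv ℝ φ) := hφ.continuous_fderiv (by norm_num)
  have h5 : Continuous (fun z : ℂ => w + h * I - z) := by fun_prop
  have h6 : Continuous (fun z : ℂ => sg h δ w • (w + h * I - z)) := by fun_prop
  have h7 : Continuous (fun z : ℂ => fderiv ℝ φ (sg h δ w • (w + h * I - z))) := h2.comp h6
  have h8 : Continuous (fun z : ℂ => φ (sg h δ w • (w + h * I - z))) := h1.comp h6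
  have h9 : Continuous (fun z : ℂ => (sg' h δ w).smulRight (w + h * I - z)) :=
    continuous_sR.comp (continuous_const.prodMk h5)
  have h10 : Continuous (fun z : ℂ => sg h δ w • ContinuousLinearMap.id ℝ ℂ +
      (sg' h δ w).smulRight (w + h * I - z)) := continuous_const.add h9
  have h11 := h7.clm_comp h10
  have h12 : Continuous (fun z : ℂ => sg h δ w ^ 2 • ((fderiv ℝ φ (sg h δ w • (w + h * I - z))).comp
      (sg h δ w • ContinuousLinearMap.id ℝ ℂ + (sg' h δ w).smulRight (w + h * I - z)))) :=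
    (continuous_const (y := sg h δ w ^ 2)).smul h11
  have h13 : Continuous (fun z : ℂ => φ (sg h δ w • (w + h * I - z)) •
      ((2 * sg h δ w) • sg' h δ w)) :=
    h8.smul (continuous_const (y := (2 * sg h δ w) • sg' h δ w))
  exact h12.add h13

lemma continuousAt_sg (hh : 0 < h) (hδ : 0 < δ) {w : ℂ} (hw : 0 < w.im) :
    ContinuousAt (sg h δ) w := (hasFDerivAt_sg hh hδ hw).continuousAt

lemma continuousAt_sg' (hh : 0 < h) (hδ : 0 < δ) {w : ℂ} (hw : 0 < w.im) :
    ContinuousAt (sg' h δ) w := by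
  have h1 := continuousAt_sg hh hδ hw
  unfold sg'
  exact ((continuousAt_const.mul (h1.pow 2)).neg).smul continuousAt_const

lemma continuousAt_mK' (hφ : ContDiff ℝ 1 φ) (hh : 0 < h) (hδ : 0 < δ) {w : ℂ} (hw : 0 < w.im)
    (z : ℂ) : ContinuousAt (fun w => mK' φ h δ w z) w := by
  have h1 : Continuous φ := hφ.continuous
  have h2 : Continuous (fderiv ℝ φ) := hφ.continuous_fderiv (by norm_num)
  have h3 := continuousAt_sg hh hδ hw
  have h4 := continuousAt_sg' hh hδ hw
  have h5 : ContinuousAt (fun w : ℂ => w + h * I - z) w := by fun_prop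
  have h6 : ContinuousAt (fun w : ℂ => sg h δ w • (w + h * I - z)) w := h3.smul h5
  have h7 : ContinuousAt (fun w : ℂ => fderiv ℝ φ (sg h δ w • (w + h * I - z))) w :=
    ContinuousAt.comp (f := fun w : ℂ => sg h δ w • (w + h * I - z)) h2.continuousAt h6
  have h8 : ContinuousAt (fun w : ℂ => φ (sg h δ w • (w + h * I - z))) w :=
    ContinuousAt.comp (f := fun w : ℂ => sg h δ w • (w + h * I - z)) h1.continuousAt h6
  have h9 : ContinuousAt (fun w : ℂ => (sg' h δ w).smulRight (w + h * I - z)) w :=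
    ContinuousAt.comp (f := fun w : ℂ => (sg' h δ w, w + h * I - z)) continuous_sR.continuousAt
      (h4.prodMk h5)
  have h10 : ContinuousAt (fun w : ℂ => sg h δ w • ContinuousLinearMap.id ℝ ℂ) w :=
    h3.smul continuousAt_const
  have h11 : ContinuousAt (fun w : ℂ => sg h δ w • ContinuousLinearMap.id ℝ ℂ +
      (sg' h δ w).smulRight (w + h * I - z)) w := h10.add h9
  have h12 := h7.clm_comp h11
  have h13 : ContinuousAt (fun w : ℂ => sg h δ w ^ 2) w := h3.pow 2
  have h14 : ContinuousAt (fun w : ℂ => (2 * sg h δ w) • sg' h δ w) w :=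
    (continuousAt_const.mul h3).smul h4
  exact (h13.smul h12).add (h8.smul h14)

lemma integrable_mK (hφ : Continuous φ) (hh : 0 < h) (hδ : 0 < δ)
    (hs : ∀ x, 1 ≤ ‖x‖ → φ x = 0) {w : ℂ} (hw : 0 < w.im) :
    Integrable (fun z => mK φ h δ w z) := by
  refine (continuous_mK hφ w).integrable_of_hasCompactSupport ?_
  refine HasCompactSupport.intro (isCompact_closedBall (w + h * I) (δ * (w.im + h))) ?_
  intro z hz
  refine mK_eq_zero hh hδ hs hw ?_
  rw [mem_closedBall, dist_eq_norm, not_le] at hz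
  exact hz.le

lemma integral_mK (hh : 0 < h) (hδ : 0 < δ) (hI : ∫ x, φ x = 1) {w : ℂ} (hw : 0 < w.im) :
    ∫ z, mK φ h δ w z = 1 := by
  have hsp := sg_pos hh hδ hw
  have h1 : ∫ z, mK φ h δ w z = ∫ z, sg h δ w ^ 2 * φ (sg h δ w • z) := by
    unfold mK
    exact integral_sub_left_eq_self (fun z : ℂ => sg h δ w ^ 2 * φ (sg h δ w • z)) volume
      (w + h * I)
  rw [h1, integral_const_mul, Measure.integral_comp_smul, hI]
  simp only [Complex.finrank_real_complex, smul_eq_mul, mul_one]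
  rw [abs_of_pos (by positivity)]
  field_simp

/-- derivative under the integral sign -/
lemma hasFDerivAt_int (hφ : ContDiff ℝ 1 φ) (hh : 0 < h) (hδ : 0 < δ) (hδ4 : δ ≤ 1 / 4) {A : ℝ}
    (hA0 : 0 ≤ A) (hA : ∀ x, ‖φ x‖ ≤ A) (hA' : ∀ x, ‖fderiv ℝ φ x‖ ≤ A)
    (hs : ∀ x, 1 ≤ ‖x‖ → φ x = 0) (hs' : ∀ x, 1 ≤ ‖x‖ → fderiv ℝ φ x = 0)
    (Ω : Set ℂ) {w : ℂ} (hw : 0 < w.im) :
    HasFDerivAt (fun w => ∫ z in Ω, mK φ h δ w z) (∫ z in Ω, mK' φ h δ w z) w ∧
    ContinuousAt (fun w => ∫ z in Ω, mK' φ h δ w z) w ∧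
    ‖∫ z in Ω, mK' φ h δ w z‖ ≤ 2 * Real.pi * A / (δ * (w.im + h)) := by
  -- the neighbourhood
  have hU : ball w w.im ∈ 𝓝 w := ball_mem_nhds w hw
  have hUim : ∀ x ∈ ball w w.im, 0 < x.im ∧ x.im ≤ 2 * w.im := by
    intro x hx
    rw [mem_ball, dist_eq_norm] at hx
    have h1 := (Complex.abs_im_le_norm (x - w)).trans_lt hx
    rw [Complex.sub_im, abs_lt] at h1
    constructor <;> linarith
  set M : ℝ := 2 * A * (δ * h)⁻¹ ^ 3 with hM
  set R : ℝ := w.im + δ * (2 * w.im + h) with hR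
  have hbd : ∀ x ∈ ball w w.im, ∀ z, ‖mK' φ h δ x z‖ ≤
      (closedBall (w + h * I) R).indicator (fun _ => M) z := by
    intro x hx z
    obtain ⟨hx0, hx1⟩ := hUim x hx
    have h1 := norm_mK'_le hh hδ hδ4 hA0 hA hA' hs hs' hx0 z
    refine h1.trans ?_
    have h2 : sg h δ x ≤ (δ * h)⁻¹ := by
      unfold sg
      gcongr
      linarith
    have h3 := sg_pos hh hδ hx0
    by_cases hz : z ∈ ball (x + h * I) (δ * (x.im + h))
    · rw [indicator_of_mem hz, indicator_of_mem]
      · rw [hM]; gcongr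
      · rw [mem_closedBall, dist_eq_norm]
        rw [mem_ball, dist_eq_norm] at hz hx
        calc ‖z - (w + h * I)‖ = ‖(z - (x + h * I)) + (x - w)‖ := by congr 1; ring
          _ ≤ ‖z - (x + h * I)‖ + ‖x - w‖ := norm_add_le _ _
          _ ≤ δ * (x.im + h) + w.im := by linarith
          _ ≤ δ * (2 * w.im + h) + w.im := by gcongr
          _ = R := by rw [hR]; ring
    · rw [indicator_of_notMem hz]
      refine indicator_nonneg (fun _ _ => ?_) _
      rw [hM]; positivity
  have hbi : Integrable ((closedBall (w + h * I) R).indicator (fun _ => M))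
      (volume.restrict Ω) := by
    refine Integrable.restrict ?_
    rw [integrable_indicator_iff measurableSet_closedBall]
    exact integrableOn_const (by
      exact (measure_closedBall_lt_top).ne)
  have hcK : ∀ x : ℂ, AEStronglyMeasurable (fun z => mK φ h δ x z) (volume.restrict Ω) := fun x =>
    (continuous_mK hφ.continuous x).aestronglyMeasurable
  have hcK' : ∀ x : ℂ, AEStronglyMeasurable (fun z => mK' φ h δ x z) (volume.restrict Ω) := fun x =>
    (continuous_mK' hφ x).aestronglyMeasurable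
  refine ⟨?_, ?_, ?_⟩
  · refine hasFDerivAt_integral_of_dominated_of_fderiv_le
      (bound := (closedBall (w + h * I) R).indicator (fun _ => M)) hU
      (Eventually.of_forall hcK) ?_ (hcK' w) ?_ hbi ?_
    · exact (integrable_mK hφ.continuous hh hδ hs hw).restrict
    · exact Eventually.of_forall fun z x hx => hbd x hx z
    · exact Eventually.of_forall fun z x hx => hasFDerivAt_mK hφ hh hδ (hUim x hx).1 z
  · refine continuousAt_of_dominated
      (bound := (closedBall (w + h * I) R).indicator (fun _ => M))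
      (Eventually.of_forall hcK') ?_ hbi ?_
    · filter_upwards [hU] with x hx
      exact Eventually.of_forall fun z => hbd x hx z
    · exact Eventually.of_forall fun z => continuousAt_mK' hφ hh hδ hw z
  · have hsp := sg_pos hh hδ hw
    have h1 : ‖∫ z in Ω, mK' φ h δ w z‖ ≤
        ∫ z in Ω, (ball (w + h * I) (δ * (w.im + h))).indicator
          (fun _ => 2 * A * sg h δ w ^ 3) z := by
      refine norm_integral_le_of_norm_le ?_ ?_
      · refine Integrable.restrict ?_
        rw [integrable_indicator_iff measurableSet_ball]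
        exact integrableOn_const (by exact (measure_ball_lt_top).ne)
      · exact Eventually.of_forall fun z => norm_mK'_le hh hδ hδ4 hA0 hA hA' hs hs' hw z
    have h2 : ∫ z in Ω, (ball (w + h * I) (δ * (w.im + h))).indicator
          (fun _ => 2 * A * sg h δ w ^ 3) z ≤
        ∫ z, (ball (w + h * I) (δ * (w.im + h))).indicator
          (fun _ => 2 * A * sg h δ w ^ 3) z := by
      refine setIntegral_le_integral ?_ ?_
      · rw [integrable_indicator_iff measurableSet_ball]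
        exact integrableOn_const (by exact (measure_ball_lt_top).ne)
      · exact Eventually.of_forall fun z => indicator_nonneg (fun _ _ => by positivity) _
    refine (h1.trans h2).trans ?_
    rw [integral_indicator measurableSet_ball, setIntegral_const, smul_eq_mul]
    have h3 : volume.real (ball (w + h * I) (δ * (w.im + h))) =
        (δ * (w.im + h)) ^ 2 * Real.pi := by
      rw [Measure.real, Complex.volume_ball, ENNReal.toReal_mul, ENNReal.toReal_pow,
        ENNReal.toReal_ofReal (by positivity)]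
      simp
    rw [h3]
    have h4 : δ * (w.im + h) = (sg h δ w)⁻¹ := by unfold sg; rw [inv_inv]
    rw [h4]
    have h5 : (sg h δ w)⁻¹ ^ 2 * Real.pi * (2 * A * sg h δ w ^ 3) =
        2 * Real.pi * A / (sg h δ w)⁻¹ := by
      field_simp
    exact h5.le

end MollAux

open MollAux in
theorem moll : ∃ A : ℝ, 0 < A ∧ ∀ Ω : Set ℂ, MeasurableSet Ω → ∀ h δ : ℝ, 0 < h → 0 < δ → δ ≤ 1 / 4 →
    ∃ p : ℂ → ℝ, ContDiffOn ℝ 1 p {w : ℂ | 0 < w.im} ∧
      (∀ w : ℂ, 0 < w.im → 0 ≤ p w ∧ p w ≤ 1) ∧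
      (∀ w : ℂ, 0 < w.im → p w ≠ 0 → ∃ z ∈ Ω, ‖z - (w + h * I)‖ ≤ δ * (w.im + h)) ∧
      (∀ w : ℂ, 0 < w.im → p w ≠ 1 → ∃ z, z ∉ Ω ∧ ‖z - (w + h * I)‖ ≤ δ * (w.im + h)) ∧
      ∀ w : ℂ, 0 < w.im → ‖fderiv ℝ p w‖ ≤ A / (δ * (w.im + h)) := by
  -- the bump function
  let f : ContDiffBump (0 : ℂ) := ⟨1 / 2, 1, by norm_num, by norm_num⟩
  set φ : ℂ → ℝ := f.normed volume with hφdef
  have hφ : ContDiff ℝ 1 φ := f.contDiff_normed
  have hφ0 : ∀ x, 0 ≤ φ x := fun x => f.nonneg_normed x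
  have hφI : ∫ x, φ x = 1 := f.integral_normed
  have hsupp : ∀ x, 1 ≤ ‖x‖ → φ x = 0 := by
    intro x hx
    have h1 : Function.support φ = ball 0 1 := f.support_normed_eq
    by_contra hne
    have h2 : x ∈ Function.support φ := hne
    rw [h1, mem_ball, dist_zero_right] at h2
    linarith
  have hcs : HasCompactSupport φ := f.hasCompactSupport_normed
  have hcf : Continuous (fderiv ℝ φ) := hφ.continuous_fderiv (by norm_num)
  have hsupp' : ∀ x, 1 ≤ ‖x‖ → fderiv ℝ φ x = 0 := by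
    intro x hx
    rcases hx.lt_or_eq with hx1 | hx1
    · -- φ vanishes near x
      have h1 : φ =ᶠ[𝓝 x] fun _ => 0 := by
        have : {y : ℂ | 1 < ‖y‖} ∈ 𝓝 x := (isOpen_lt continuous_const continuous_norm).mem_nhds hx1
        filter_upwards [this] with y hy
        exact hsupp y (le_of_lt hy)
      rw [h1.fderiv_eq]
      simp
    · -- minimum of φ
      have h1 : IsLocalMin φ x := by
        refine Eventually.of_forall fun y => ?_
        rw [hsupp x hx]
        exact hφ0 y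
      exact h1.fderiv_eq_zero
  obtain ⟨A1, hA1⟩ := hφ.continuous.bounded_above_of_compact_support hcs
  obtain ⟨A2, hA2⟩ := hcf.bounded_above_of_compact_support (hcs.fderiv (𝕜 := ℝ))
  set A : ℝ := max (max A1 A2) 1 with hAdef
  have hA0 : 0 < A := lt_of_lt_of_le one_pos (le_max_right _ _)
  have hA : ∀ x, ‖φ x‖ ≤ A := fun x =>
    (hA1 x).trans ((le_max_left _ _).trans (le_max_left _ _))
  have hA' : ∀ x, ‖fderiv ℝ φ x‖ ≤ A := fun x =>
    (hA2 x).trans ((le_max_right _ _).trans (le_max_left _ _))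
  refine ⟨2 * Real.pi * A, by positivity, ?_⟩
  intro Ω hΩ h δ hh hδ hδ4
  have key := fun (w : ℂ) (hw : 0 < w.im) =>
    hasFDerivAt_int hφ hh hδ hδ4 hA0.le hA hA' hsupp hsupp' Ω hw
  have hopen : IsOpen {w : ℂ | 0 < w.im} := isOpen_lt continuous_const Complex.continuous_im
  have hKnn : ∀ w z : ℂ, 0 ≤ mK φ h δ w z := fun w z => by
    unfold mK
    exact mul_nonneg (sq_nonneg _) (hφ0 _)
  refine ⟨fun w => ∫ z in Ω, mK φ h δ w z, ?_, ?_, ?_, ?_, ?_⟩
  · have h1 : (1 : WithTop ℕ∞) = 0 + 1 := by norm_num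
    rw [h1, contDiffOn_succ_iff_fderiv_of_isOpen hopen]
    refine ⟨fun w hw => (key w hw).1.differentiableAt.differentiableWithinAt, by simp, ?_⟩
    rw [contDiffOn_zero]
    have h2 : ContinuousOn (fun w => ∫ z in Ω, mK' φ h δ w z) {w : ℂ | 0 < w.im} :=
      fun w hw => (key w hw).2.1.continuousWithinAt
    exact h2.congr fun w hw => (key w hw).1.fderiv
  · intro w hw
    refine ⟨integral_nonneg fun z => hKnn w z, ?_⟩
    calc ∫ z in Ω, mK φ h δ w z ≤ ∫ z, mK φ h δ w z :=
          setIntegral_le_integral (integrable_mK hφ.continuous hh hδ hsupp hw)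
            (Eventually.of_forall fun z => hKnn w z)
      _ = 1 := integral_mK hh hδ hφI hw
  · intro w hw hp
    by_contra hcon
    push Not at hcon
    refine hp (setIntegral_eq_zero_of_forall_eq_zero fun z hz => ?_)
    exact mK_eq_zero hh hδ hsupp hw (hcon z hz).le
  · intro w hw hp
    by_contra hcon
    push Not at hcon
    refine hp ?_
    show ∫ z in Ω, mK φ h δ w z = 1
    rw [← integral_mK (φ := φ) hh hδ hφI hw]
    refine setIntegral_eq_integral_of_forall_compl_eq_zero fun z hz => ?_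
    exact mK_eq_zero hh hδ hsupp hw (hcon z hz).le
  · intro w hw
    rw [(key w hw).1.fderiv]
    exact (key w hw).2.2

end Pool.Agent.H720R2.HP
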