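import Mathlib
import Pool.Agent.H720R2.HP.PDefs

/-!
Packing of dyadic boxes (tasks P1 and P2): elementary operations.
-/

set_option autoImplicit false

open MeasureTheory Metric Set Filter Topology Complex
open scoped ContDiff

namespace Pool.Agent.H720R2.HP

private theorem ediv_succ (n D : ℤ) (hD : 0 < D) : (n + 1) / D = n / D ∨ (n + 1) / D = n / D + 1 := by
  have h1 : n / D ≤ (n + 1) / D := Int.ediv_le_ediv hD (by omega)
  have h2 : (n + 1) / D ≤ (n + D) / D := Int.ediv_le_ediv hD (by omega)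
  have h3 : (n + D) / D = n / D + 1 := by
    rw [Int.add_ediv_of_dvd_right (dvd_refl D), Int.ediv_self hD.ne']
  omega

private theorem desc_shift {q j : ℕ × ℤ} {e : ℤ} (he : e = 1 ∨ e = -1)
    (h : desc q (j.1, j.2 + e)) : desc q j ∨ desc (q.1, q.2 - e) j := by
  obtain ⟨h1, h2⟩ := h
  have hD : (0 : ℤ) < 2 ^ (j.1 - q.1) := by positivity
  simp only at h1 h2
  rcases he with rfl | rfl
  · rcases ediv_succ j.2 _ hD with h3 | h3
    · exact Or.inl ⟨h1, by rw [← h3, h2]⟩
    · refine Or.inr ⟨h1, ?_⟩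
      simp only
      omega
  · have h4 := ediv_succ (j.2 + -1) _ hD
    rw [neg_add_cancel_right] at h4
    rcases h4 with h3 | h3
    · exact Or.inl ⟨h1, by rw [h3, h2]⟩
    · refine Or.inr ⟨h1, ?_⟩
      simp only
      omega

private theorem desc_parent {q j : ℕ × ℤ} (hj : 1 ≤ j.1) (h : desc q (j.1 - 1, j.2 / 2)) :
    desc q j := by
  obtain ⟨h1, h2⟩ := h
  simp only at h1 h2
  refine ⟨by omega, ?_⟩
  rw [Int.ediv_ediv_of_nonneg (by norm_num), ← pow_succ'] at h2
  rw [← h2]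
  congr 2
  omega

private theorem desc_child {q j : ℕ × ℤ} {b : ℤ} (hb : b = 0 ∨ b = 1)
    (h : desc q (j.1 + 1, 2 * j.2 + b)) : (j.1 + 1, 2 * j.2 + b) = q ∨ desc q j := by
  obtain ⟨h1, h2⟩ := h
  simp only at h1 h2
  rcases Nat.lt_or_ge j.1 q.1 with h3 | h3
  · left
    have h4 : j.1 + 1 = q.1 := by omega
    rw [h4, Nat.sub_self, pow_zero, Int.ediv_one] at h2
    exact Prod.ext h4 h2
  · right
    refine ⟨h3, ?_⟩
    have h5 : j.1 + 1 - q.1 = (j.1 - q.1) + 1 := by omega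
    rw [h5, pow_succ', ← Int.ediv_ediv_of_nonneg (by norm_num)] at h2
    have h6 : (2 * j.2 + b) / 2 = j.2 := by omega
    rwa [h6] at h2

private theorem sum_image_le {α β : Type*} [DecidableEq β] (T : Finset α) (g : α → β) (w : β → ℝ)
    (hw : ∀ b, 0 ≤ w b) : ∑ b ∈ T.image g, w b ≤ ∑ a ∈ T, w (g a) := by
  classical
  induction T using Finset.induction_on with
  | empty => simp
  | insert a T ha ih =>
    rw [Finset.image_insert, Finset.sum_insert ha]
    by_cases h : g a ∈ T.image g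
    · rw [Finset.insert_eq_of_mem h]
      linarith [hw (g a)]
    · rw [Finset.sum_insert h]
      linarith

private theorem sum_union_le {β : Type*} [DecidableEq β] (S T : Finset β) (w : β → ℝ)
    (hw : ∀ b, 0 ≤ w b) : ∑ b ∈ S ∪ T, w b ≤ ∑ b ∈ S, w b + ∑ b ∈ T, w b := by
  rw [← Finset.sum_union_inter]
  have : 0 ≤ ∑ b ∈ S ∩ T, w b := Finset.sum_nonneg fun b _ => hw b
  linarith

private theorem sum_sub {β : Type*} {S T : Finset β} (w : β → ℝ) (hw : ∀ b, 0 ≤ w b) (h : S ⊆ T) :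
    ∑ b ∈ S, w b ≤ ∑ b ∈ T, w b :=
  Finset.sum_le_sum_of_subset_of_nonneg h fun b _ _ => hw b

private noncomputable def wt (j : ℕ × ℤ) : ℝ := (1 / 2 : ℝ) ^ j.1

private theorem wt_nonneg (j : ℕ × ℤ) : 0 ≤ wt j := by unfold wt; positivity

theorem Pk.mono {C : ℝ} {T T' : Finset (ℕ × ℤ)} (h : Pk C T) (hs : T' ⊆ T) : Pk C T' := by
  classical
  intro q
  refine le_trans ?_ (h q)
  exact sum_sub wt wt_nonneg (Finset.filter_subset_filter _ hs)

theorem Pk.union {C D : ℝ} {T T' : Finset (ℕ × ℤ)} (h : Pk C T) (h' : Pk D T') :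
    Pk (C + D) (T ∪ T') := by
  classical
  intro q
  rw [Finset.filter_union, add_mul]
  refine (sum_union_le _ _ wt wt_nonneg).trans ?_
  exact add_le_add (h q) (h' q)

theorem Pk.shift {C : ℝ} {T : Finset (ℕ × ℤ)} (h : Pk C T) (e : ℤ) (he : e = 1 ∨ e = -1) :
    Pk (2 * C) (T.image fun j => (j.1, j.2 + e)) := by
  classical
  intro q
  have h1 : (T.image fun j => (j.1, j.2 + e)).filter (fun j => desc q j) ⊆
      ((T.filter fun j => desc q j).image fun j => (j.1, j.2 + e)) ∪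
      ((T.filter fun j => desc (q.1, q.2 - e) j).image fun j => (j.1, j.2 + e)) := by
    intro j hj
    rw [Finset.mem_filter, Finset.mem_image] at hj
    obtain ⟨⟨j', hj', rfl⟩, hd⟩ := hj
    rw [Finset.mem_union, Finset.mem_image, Finset.mem_image]
    rcases desc_shift he hd with h2 | h2
    · exact Or.inl ⟨j', Finset.mem_filter.2 ⟨hj', h2⟩, rfl⟩
    · exact Or.inr ⟨j', Finset.mem_filter.2 ⟨hj', h2⟩, rfl⟩
  refine (sum_sub wt wt_nonneg h1).trans ((sum_union_le _ _ wt wt_nonneg).trans ?_)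
  have h2 := (sum_image_le (T.filter fun j => desc q j) (fun j => (j.1, j.2 + e)) wt
    wt_nonneg).trans (h q)
  have h3 := (sum_image_le (T.filter fun j => desc (q.1, q.2 - e) j) (fun j => (j.1, j.2 + e)) wt
    wt_nonneg).trans (h (q.1, q.2 - e))
  simp only at h3
  linarith

theorem Pk.parent {C : ℝ} {T : Finset (ℕ × ℤ)} (h : Pk C T) :
    Pk (2 * C) ((T.filter fun j => 1 ≤ j.1).image fun j => (j.1 - 1, j.2 / 2)) := by
  classical
  intro q
  have h1 : ((T.filter fun j => 1 ≤ j.1).image fun j => (j.1 - 1, j.2 / 2)).filter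
      (fun j => desc q j) ⊆
      ((T.filter fun j => desc q j).filter fun j => 1 ≤ j.1).image fun j => (j.1 - 1, j.2 / 2) := by
    intro j hj
    rw [Finset.mem_filter, Finset.mem_image] at hj
    obtain ⟨⟨j', hj', rfl⟩, hd⟩ := hj
    rw [Finset.mem_filter] at hj'
    rw [Finset.mem_image]
    exact ⟨j', Finset.mem_filter.2 ⟨Finset.mem_filter.2 ⟨hj'.1, desc_parent hj'.2 hd⟩, hj'.2⟩, rfl⟩
  refine (sum_sub wt wt_nonneg h1).trans ((sum_image_le _ _ wt wt_nonneg).trans ?_)
  have h2 : ∑ j ∈ (T.filter fun j => desc q j).filter (fun j => 1 ≤ j.1), wt (j.1 - 1, j.2 / 2) =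
      ∑ j ∈ (T.filter fun j => desc q j).filter (fun j => 1 ≤ j.1), 2 * wt j := by
    refine Finset.sum_congr rfl fun j hj => ?_
    rw [Finset.mem_filter] at hj
    unfold wt
    simp only
    obtain ⟨m, hm⟩ : ∃ m, j.1 = m + 1 := ⟨j.1 - 1, by omega⟩
    rw [hm, Nat.add_sub_cancel, pow_succ]
    ring
  rw [h2, ← Finset.mul_sum, mul_assoc]
  refine mul_le_mul_of_nonneg_left ?_ (by norm_num)
  exact (sum_sub wt wt_nonneg (Finset.filter_subset _ _)).trans (h q)

theorem Pk.child {C : ℝ} {T : Finset (ℕ × ℤ)} (h : Pk C T) :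
    Pk (C + 1) ((T.image fun j => (j.1 + 1, 2 * j.2)) ∪ T.image fun j => (j.1 + 1, 2 * j.2 + 1)) := by
  classical
  intro q
  have h1 : ((T.image fun j => (j.1 + 1, 2 * j.2)) ∪
      T.image fun j => (j.1 + 1, 2 * j.2 + 1)).filter (fun j => desc q j) ⊆
      (((T.filter fun j => desc q j).image fun j => (j.1 + 1, 2 * j.2)) ∪
        ((T.filter fun j => desc q j).image fun j => (j.1 + 1, 2 * j.2 + 1))) ∪ {q} := by
    intro j hj
    rw [Finset.mem_filter, Finset.mem_union, Finset.mem_image, Finset.mem_image] at hj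
    rw [Finset.mem_union, Finset.mem_union, Finset.mem_image, Finset.mem_image,
      Finset.mem_singleton]
    obtain ⟨⟨j', hj', rfl⟩ | ⟨j', hj', rfl⟩, hd⟩ := hj
    · have h2 : desc q (j'.1 + 1, 2 * j'.2 + 0) := by rwa [add_zero]
      rcases desc_child (Or.inl rfl) h2 with h3 | h3
      · right
        rwa [add_zero] at h3
      · exact Or.inl (Or.inl ⟨j', Finset.mem_filter.2 ⟨hj', h3⟩, rfl⟩)
    · rcases desc_child (Or.inr rfl) hd with h3 | h3
      · exact Or.inr h3
      · exact Or.inl (Or.inr ⟨j', Finset.mem_filter.2 ⟨hj', h3⟩, rfl⟩)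
  refine (sum_sub wt wt_nonneg h1).trans ((sum_union_le _ _ wt wt_nonneg).trans ?_)
  rw [Finset.sum_singleton, add_mul, one_mul]
  refine add_le_add ?_ le_rfl
  refine (sum_union_le _ _ wt wt_nonneg).trans ?_
  have h2 := sum_image_le (T.filter fun j => desc q j) (fun j => (j.1 + 1, 2 * j.2)) wt wt_nonneg
  have h3 := sum_image_le (T.filter fun j => desc q j) (fun j => (j.1 + 1, 2 * j.2 + 1)) wt
    wt_nonneg
  have h4 : ∀ (f : ℕ × ℤ → ℤ), ∑ j ∈ T.filter (fun j => desc q j), wt (j.1 + 1, f j) =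
      1 / 2 * ∑ j ∈ T.filter (fun j => desc q j), wt j := by
    intro f
    rw [Finset.mul_sum]
    refine Finset.sum_congr rfl fun j _ => ?_
    unfold wt
    rw [pow_succ]
    ring
  rw [h4] at h2 h3
  have h5 := h q
  change ∑ j ∈ T.filter (fun j => desc q j), wt j ≤ _ at h5
  linarith

theorem Pk.chain {C : ℝ} {T H : Finset (ℕ × ℤ)} (h : Pk C T)
    (hH : ∀ j ∈ H, j ∈ T ∨ ∃ j' ∈ H, j = (j'.1 + 1, 2 * j'.2 + 1)) :
    Pk (2 * C + 2) H := by
  classical
  intro q
  have h1 : H.filter (fun j => desc q j) ⊆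
      ((T.filter fun j => desc q j) ∪
        ((H.filter fun j => desc q j).image fun j => (j.1 + 1, 2 * j.2 + 1))) ∪ {q} := by
    intro j hj
    rw [Finset.mem_filter] at hj
    rw [Finset.mem_union, Finset.mem_union, Finset.mem_image, Finset.mem_filter,
      Finset.mem_singleton]
    rcases hH j hj.1 with h2 | ⟨j', hj', rfl⟩
    · exact Or.inl (Or.inl ⟨h2, hj.2⟩)
    · rcases desc_child (Or.inr rfl) hj.2 with h3 | h3
      · exact Or.inr h3
      · exact Or.inl (Or.inr ⟨j', Finset.mem_filter.2 ⟨hj', h3⟩, rfl⟩)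
  have h2 := (sum_sub wt wt_nonneg h1).trans (sum_union_le _ _ wt wt_nonneg)
  rw [Finset.sum_singleton] at h2
  have h3 := sum_union_le (T.filter fun j => desc q j)
    ((H.filter fun j => desc q j).image fun j => (j.1 + 1, 2 * j.2 + 1)) wt wt_nonneg
  have h4 := sum_image_le (H.filter fun j => desc q j) (fun j => (j.1 + 1, 2 * j.2 + 1)) wt
    wt_nonneg
  have h5 : ∑ j ∈ H.filter (fun j => desc q j), wt (j.1 + 1, 2 * j.2 + 1) =
      1 / 2 * ∑ j ∈ H.filter (fun j => desc q j), wt j := by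
    rw [Finset.mul_sum]
    refine Finset.sum_congr rfl fun j _ => ?_
    unfold wt
    rw [pow_succ]
    ring
  rw [h5] at h4
  have h6 := h q
  change ∑ j ∈ T.filter (fun j => desc q j), wt j ≤ C * wt q at h6
  change ∑ j ∈ H.filter (fun j => desc q j), wt j ≤ (2 * C + 2) * wt q
  linarith

end Pool.Agent.H720R2.HP
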