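import Mathlib
import Pool.Agent.H720R2.HP.Exc
import Pool.Agent.H720R2.HP.T_M
import Pool.Agent.H720R2.HP.T_E1
import Pool.Agent.H720R2.HP.T_P1

/-!
The cutoff function of one bounded holomorphic function.
-/

set_option autoImplicit false

open MeasureTheory Metric Set Filter Topology Complex
open scoped ContDiff

namespace Pool.Agent.H720R2.HP

/-! ### cells -/

theorem Tp_exists {Λ : ℝ} {z : ℂ} (h0 : 0 < z.im) (h1 : z.im ≤ Λ) : ∃ q, z ∈ Tp Λ q := by
  have hΛ : 0 < Λ := lt_of_lt_of_le h0 h1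
  obtain ⟨i, hi1, hi2⟩ := exists_nat_pow_near (x := Λ / z.im) (y := 2)
    ((one_le_div h0).2 h1) (by norm_num)
  have hpos := ln_pos hΛ i
  rw [le_div_iff₀ h0] at hi1
  rw [div_lt_iff₀ h0] at hi2
  have h2 : (2 : ℝ) ^ i * (1 / 2) ^ i = 1 := by rw [← mul_pow]; norm_num
  have h3 : (0 : ℝ) < (1 / 2) ^ i := by positivity
  have h4 : (0 : ℝ) < 2 ^ i := by positivity
  refine ⟨(i, ⌊z.re / ln Λ i⌋), ?_, ?_, ?_, ?_⟩
  · have := Int.floor_le (z.re / ln Λ i)
    rwa [le_div_iff₀ hpos] at this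
  · have := Int.lt_floor_add_one (z.re / ln Λ i)
    rwa [div_lt_iff₀ hpos] at this
  · change ln Λ i / 2 < z.im
    unfold ln
    rw [pow_succ] at hi2
    nlinarith [mul_lt_mul_of_pos_right hi2 h3]
  · change z.im ≤ ln Λ i
    unfold ln
    nlinarith [mul_le_mul_of_nonneg_right hi1 h3.le]

theorem Tp_gen {Λ : ℝ} (hΛ : 0 < Λ) {q q' : ℕ × ℤ} {z : ℂ} (h : z ∈ Tp Λ q) (h' : z ∈ Tp Λ q') :
    q.1 = q'.1 := by
  have key : ∀ p p' : ℕ × ℤ, z ∈ Tp Λ p → z ∈ Tp Λ p' → ¬ p.1 < p'.1 := by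
    intro p p' hp hp' hlt
    have h1 := ln_anti hΛ (Nat.succ_le_of_lt hlt)
    rw [Nat.succ_eq_add_one, ln_succ] at h1
    have h2 := hp.2.2.1
    have h3 := hp'.2.2.2
    linarith
  have h1 := key q q' h h'
  have h2 := key q' q h' h
  omega

theorem int_eq_of {n m : ℤ} {ℓ x : ℝ} (hℓ : 0 < ℓ) (h1 : n * ℓ ≤ x) (h2 : x < (n + 1) * ℓ)
    (h3 : m * ℓ ≤ x) (h4 : x < (m + 1) * ℓ) : n = m := by
  have h5 : (n : ℝ) < m + 1 := lt_of_mul_lt_mul_right (lt_of_le_of_lt h1 h4) hℓ.le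
  have h6 : (m : ℝ) < n + 1 := lt_of_mul_lt_mul_right (lt_of_le_of_lt h3 h2) hℓ.le
  have h7 : n < m + 1 := by exact_mod_cast h5
  have h8 : m < n + 1 := by exact_mod_cast h6
  omega

theorem Tp_unique {Λ : ℝ} (hΛ : 0 < Λ) {q q' : ℕ × ℤ} {z : ℂ} (h : z ∈ Tp Λ q)
    (h' : z ∈ Tp Λ q') : q = q' := by
  have h1 := Tp_gen hΛ h h'
  refine Prod.ext h1 ?_
  obtain ⟨a1, a2, -, -⟩ := h
  obtain ⟨b1, b2, -, -⟩ := h'
  rw [← h1] at b1 b2
  exact int_eq_of (ln_pos hΛ q.1) a1 a2 b1 b2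

theorem Tp_meas (Λ : ℝ) (q : ℕ × ℤ) : MeasurableSet (Tp Λ q) := by
  have : Tp Λ q = {z : ℂ | q.2 * ln Λ q.1 ≤ z.re} ∩ ({z : ℂ | z.re < (q.2 + 1) * ln Λ q.1} ∩
    ({z : ℂ | ln Λ q.1 / 2 < z.im} ∩ {z : ℂ | z.im ≤ ln Λ q.1})) := rfl
  rw [this]
  exact (measurableSet_le measurable_const Complex.measurable_re).inter
    ((measurableSet_lt Complex.measurable_re measurable_const).inter
    ((measurableSet_lt measurable_const Complex.measurable_im).inter
    (measurableSet_le Complex.measurable_im measurable_const)))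

/-- neighbours of a box -/
def nb (q q' : ℕ × ℤ) : Prop := ∃ m : ℤ, (m = q.2 - 1 ∨ m = q.2 ∨ m = q.2 + 1) ∧
  (q' = (q.1, m) ∨ (∃ b, q' = ch (q.1, m) b) ∨ (1 ≤ q.1 ∧ q' = (q.1 - 1, m / 2)))

theorem nb_of_near {Λ : ℝ} (hΛ : 0 < Λ) {q q' : ℕ × ℤ} {z z' : ℂ} (h : z ∈ Tp Λ q)
    (h' : z' ∈ Tp Λ q') (hd : ‖z' - z‖ ≤ z.im / 4) : nb q q' := by
  have hpos := ln_pos hΛ q.1
  have h1 := (Complex.abs_re_le_norm (z' - z)).trans hd
  have h2 := (Complex.abs_im_le_norm (z' - z)).trans hd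
  rw [Complex.sub_re, abs_le] at h1
  rw [Complex.sub_im, abs_le] at h2
  obtain ⟨a1, a2, a3, a4⟩ := h
  obtain ⟨b1, b2, b3, b4⟩ := h'
  obtain ⟨c1, c2⟩ := h1
  obtain ⟨d1, d2⟩ := h2
  set m : ℤ := ⌊z'.re / ln Λ q.1⌋ with hm
  have m1 : m * ln Λ q.1 ≤ z'.re := by
    have := Int.floor_le (z'.re / ln Λ q.1)
    rwa [le_div_iff₀ hpos] at this
  have m2 : z'.re < (m + 1) * ln Λ q.1 := by
    have := Int.lt_floor_add_one (z'.re / ln Λ q.1)
    rwa [div_lt_iff₀ hpos] at this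
  have e1 : (m : ℝ) < q.2 + 2 := by
    have : (m : ℝ) * ln Λ q.1 < (q.2 + 2) * ln Λ q.1 := by nlinarith
    exact lt_of_mul_lt_mul_right this hpos.le
  have e2 : (q.2 : ℝ) < m + 2 := by
    have : (q.2 : ℝ) * ln Λ q.1 < (m + 2) * ln Λ q.1 := by nlinarith
    exact lt_of_mul_lt_mul_right this hpos.le
  have e3 : m < q.2 + 2 := by exact_mod_cast e1
  have e4 : q.2 < m + 2 := by exact_mod_cast e2
  refine ⟨m, by omega, ?_⟩
  have hgen1 : q'.1 < q.1 + 2 := by
    by_contra hge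
    push Not at hge
    have := ln_anti hΛ hge
    rw [ln_succ, ln_succ] at this
    linarith
  have hgen2 : q.1 < q'.1 + 2 := by
    by_contra hge
    push Not at hge
    have := ln_anti hΛ hge
    rw [ln_succ, ln_succ] at this
    linarith
  rcases lt_trichotomy q'.1 q.1 with hlt | heq | hgt
  · right; right
    have hq : q.1 = q'.1 + 1 := by omega
    refine ⟨by omega, Prod.ext (by simp; omega) ?_⟩
    have hl : ln Λ q'.1 = 2 * ln Λ q.1 := by rw [hq, ln_succ]; ring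
    rw [hl] at b1 b2
    have g1 : (m : ℝ) < (q'.2 + 1) * 2 := by
      have : (m : ℝ) * ln Λ q.1 < ((q'.2 + 1) * 2) * ln Λ q.1 := by linarith
      exact lt_of_mul_lt_mul_right this hpos.le
    have g2 : (q'.2 : ℝ) * 2 < m + 1 := by
      have : ((q'.2 : ℝ) * 2) * ln Λ q.1 < (m + 1) * ln Λ q.1 := by linarith
      exact lt_of_mul_lt_mul_right this hpos.le
    have g3 : m < (q'.2 + 1) * 2 := by exact_mod_cast g1
    have g4 : q'.2 * 2 < m + 1 := by exact_mod_cast g2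
    simp only
    omega
  · left
    refine Prod.ext heq ?_
    rw [heq] at b1 b2
    exact int_eq_of hpos b1 b2 m1 m2
  · right; left
    have hq : q'.1 = q.1 + 1 := by omega
    have hl : ln Λ q.1 = 2 * ln Λ q'.1 := by rw [hq, ln_succ]; ring
    have hpos' := ln_pos hΛ q'.1
    rw [hl] at m1 m2
    have g1 : (q'.2 : ℝ) < (m + 1) * 2 := by
      have : (q'.2 : ℝ) * ln Λ q'.1 < ((m + 1) * 2) * ln Λ q'.1 := by linarith
      exact lt_of_mul_lt_mul_right this hpos'.le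
    have g2 : (m : ℝ) * 2 < q'.2 + 1 := by
      have : ((m : ℝ) * 2) * ln Λ q'.1 < (q'.2 + 1) * ln Λ q'.1 := by linarith
      exact lt_of_mul_lt_mul_right this hpos'.le
    have g3 : q'.2 < (m + 1) * 2 := by exact_mod_cast g1
    have g4 : m * 2 < q'.2 + 1 := by exact_mod_cast g2
    rcases Int.emod_two_eq_zero_or_one q'.2 with h6 | h6
    · refine ⟨false, Prod.ext hq ?_⟩
      simp only [ch]
      simp
      omega
    · refine ⟨true, Prod.ext hq ?_⟩
      simp only [ch]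
      simp
      omega

/-! ### the setting -/

/-- low boxes -/
def lowB (Λ εL : ℝ) (f : ℂ → ℂ) (q : ℕ × ℤ) : Prop := ∀ z ∈ TpC Λ q, ‖f z‖ ≤ εL

/-- high boxes -/
def highB (Λ εH : ℝ) (f : ℂ → ℂ) (q : ℕ × ℤ) : Prop := εH ≤ ‖f (cen Λ q)‖

/-- the setting -/
structure Sett (Λ τ εL εH : ℝ) (M : ℕ) (f : ℂ → ℂ) (η : ℝ) (c : ℂ) : Prop where
  nice : Nice f η
  hΛ : 0 < Λ
  hτ : 0 < τ
  hεL : εL = Real.exp (-(168 * M))
  hτL : 8 * τ ≤ εL
  hLH : 8 * εL ≤ εH
  hH1 : εH ≤ 1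
  hM1 : 1 ≤ M
  hM : 3 * Real.log (1 / εH) ≤ M
  far : ∀ w : ℂ, 0 ≤ w.im → Λ / 2 ≤ ‖w‖ → ‖f w - c‖ ≤ τ / 2

section

variable {Λ τ εL εH : ℝ} {M : ℕ} {f : ℂ → ℂ} {η : ℝ} {c : ℂ}

open scoped Classical in
/-- the state at infinity -/
noncomputable def cinf (εH : ℝ) (c : ℂ) : Bool := decide (εH / 2 ≤ ‖c‖)

/-- the states -/
noncomputable def sT (Λ εL εH : ℝ) (f : ℂ → ℂ) (c : ℂ) (q : ℕ × ℤ) : Bool :=
  stt (lowB Λ εL f) (highB Λ εH f) (cinf εH c) q.1 q.2

theorem Sett.hL (h : Sett Λ τ εL εH M f η c) : 0 < εL := by rw [h.hεL]; exact Real.exp_pos _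

theorem Sett.hHpos (h : Sett Λ τ εL εH M f η c) : 0 < εH := by linarith [h.hL, h.hLH]

theorem Sett.hτ1 (h : Sett Λ τ εL εH M f η c) : τ ≤ 1 := by linarith [h.hτL, h.hLH, h.hH1, h.hτ]

theorem Sett.far_true (h : Sett Λ τ εL εH M f η c) (hc : cinf εH c = true) {w : ℂ} (hw : 0 ≤ w.im)
    (hw2 : Λ / 2 ≤ ‖w‖) : εH / 2 - τ / 2 ≤ ‖f w‖ := by
  have h1 : εH / 2 ≤ ‖c‖ := by simpa [cinf] using hc
  have h2 := h.far w hw hw2
  have h3 : ‖c‖ ≤ ‖f w‖ + ‖f w - c‖ := by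
    have := norm_sub_norm_le c (f w)
    rw [norm_sub_rev] at this
    linarith
  linarith

theorem Sett.far_false (h : Sett Λ τ εL εH M f η c) (hc : cinf εH c = false) {w : ℂ}
    (hw : 0 ≤ w.im) (hw2 : Λ / 2 ≤ ‖w‖) : ‖f w‖ < εH / 2 + τ / 2 := by
  have h1 : ‖c‖ < εH / 2 := by simpa [cinf] using hc
  have h2 := h.far w hw hw2
  have h3 : ‖f w‖ ≤ ‖c‖ + ‖f w - c‖ := by
    have := norm_sub_norm_le (f w) c
    linarith
  linarith

theorem TpC_im {q : ℕ × ℤ} (hΛ : 0 < Λ) {z : ℂ} (hz : z ∈ TpC Λ q) : 0 < z.im := by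
  have := ln_pos hΛ q.1
  have := hz.2.1
  linarith

/-- boxes at the top or outside the two central towers are far -/
theorem far_box (hΛ : 0 < Λ) {q : ℕ × ℤ}
    (hq : q.1 = 0 ∨ (q.2 / 2 ^ q.1 ≠ 0 ∧ q.2 / 2 ^ q.1 ≠ -1)) {z : ℂ} (hz : z ∈ TpC Λ q) :
    Λ / 2 ≤ ‖z‖ := by
  rcases hq with h0 | ⟨h1, h2⟩
  · have h3 := hz.2.1
    rw [h0] at h3
    have h4 : ln Λ 0 = Λ := by unfold ln; simp
    rw [h4] at h3
    exact h3.trans (Complex.im_le_norm z)
  · set m := q.2 / 2 ^ q.1 with hm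
    have hd : desc (0, m) q := ⟨Nat.zero_le _, by simp [hm]⟩
    have h3 := desc_geo hΛ hd
    have h4 : ln Λ 0 = Λ := by unfold ln; simp
    have h5 := hz.1
    have h6 : |z.re - (m + 1 / 2) * Λ| ≤ Λ / 2 := by
      have h7 : z.re - (m + 1 / 2) * Λ = (z.re - uc' Λ q) + (uc' Λ q - uc' Λ (0, m)) := by
        simp only [uc', h4]
        ring
      rw [h7]
      refine (abs_add_le _ _).trans ?_
      simp only [h4] at h3
      linarith
    rw [abs_le] at h6
    refine le_trans ?_ (Complex.abs_re_le_norm z)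
    rcases lt_trichotomy m 0 with hlt | heq | hgt
    · have h7 : m ≤ -2 := by omega
      have h8 : (m : ℝ) ≤ -2 := by exact_mod_cast h7
      rw [le_abs]
      right
      nlinarith [h6.2]
    · exact absurd heq h1
    · have h8 : (1 : ℝ) ≤ m := by exact_mod_cast hgt
      rw [le_abs]
      left
      nlinarith [h6.1]

theorem Sett.far_state (h : Sett Λ τ εL εH M f η c) : ∀ q : ℕ × ℤ,
    (q.1 = 0 ∨ (q.2 / 2 ^ q.1 ≠ 0 ∧ q.2 / 2 ^ q.1 ≠ -1)) → sT Λ εL εH f c q = cinf εH c := by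
  classical
  rintro ⟨i, n⟩
  induction i generalizing n with
  | zero => intro _; rfl
  | succ i ih =>
    intro hq
    have hq' : n / 2 ^ (i + 1) ≠ 0 ∧ n / 2 ^ (i + 1) ≠ -1 := by
      rcases hq with h0 | h0
      · simp at h0
      · exact h0
    have h1 : n / 2 ^ (i + 1) = n / 2 / 2 ^ i := by
      rw [pow_succ, mul_comm, Int.ediv_ediv_of_nonneg (by norm_num)]
    have h2 := ih (n / 2) (Or.inr (by rw [← h1]; exact hq'))
    have hcm := cen_mem h.hΛ (i + 1, n)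
    have hfar := far_box h.hΛ hq hcm
    have him := (TpC_im h.hΛ hcm).le
    unfold sT at h2 ⊢
    simp only [stt] at h2 ⊢
    rw [h2]
    have := h.hLH
    have := h.hτL
    have := h.hL
    have := h.hτ
    cases hc : cinf εH c
    · have h3 := h.far_false hc him hfar
      have h4 : ¬ highB Λ εH f (i + 1, n) := by
        unfold highB
        push Not
        linarith
      rw [if_neg h4]
      split_ifs <;> rfl
    · have h3 := h.far_true hc him hfar
      have h4 : ¬ lowB Λ εL f (i + 1, n) := by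
        intro h5
        have := h5 _ hcm
        linarith
      rw [if_neg h4]
      split_ifs <;> rfl

theorem Sett.far_exc (h : Sett Λ τ εL εH M f η c) {q : ℕ × ℤ}
    (hq : q.1 = 0 ∨ (q.2 / 2 ^ q.1 ≠ 0 ∧ q.2 / 2 ^ q.1 ≠ -1)) : ¬ exc Λ τ f q := by
  rintro ⟨z, hz, hlt⟩
  have hcm := cen_mem h.hΛ q
  have h1 := h.far z (TpC_im h.hΛ hz).le (far_box h.hΛ hq hz)
  have h2 := h.far _ (TpC_im h.hΛ hcm).le (far_box h.hΛ hq hcm)
  have h3 : ‖f z - f (cen Λ q)‖ ≤ ‖f z - c‖ + ‖f (cen Λ q) - c‖ := by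
    have : f z - f (cen Λ q) = (f z - c) - (f (cen Λ q) - c) := by ring
    rw [this]
    exact norm_sub_le _ _
  linarith

theorem Sett.st_true (h : Sett Λ τ εL εH M f η c) {q : ℕ × ℤ} (hne : ¬ exc Λ τ f q)
    (hs : sT Λ εL εH f c q = true) {z : ℂ} (hz : z ∈ TpC Λ q) : εL - 2 * τ ≤ ‖f z‖ := by
  classical
  have := h.hLH
  have := h.hτL
  have := h.hL
  have := h.hτ
  obtain ⟨i, n⟩ := q
  cases i with
  | zero =>
    have h1 := h.far_state (0, n) (Or.inl rfl)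
    rw [hs] at h1
    have h2 := h.far_true h1.symm (TpC_im h.hΛ hz).le (far_box h.hΛ (Or.inl rfl) hz)
    linarith
  | succ i =>
    unfold sT at hs
    simp only [stt] at hs
    have hl : ¬ lowB Λ εL f (i + 1, n) := by
      intro hl
      rw [if_pos hl] at hs
      exact absurd hs (by simp)
    unfold lowB at hl
    push Not at hl
    obtain ⟨z', hz', hz'2⟩ := hl
    unfold exc at hne
    push Not at hne
    have h1 := hne z hz
    have h2 := hne z' hz'
    have h3 : ‖f z'‖ ≤ ‖f z‖ + ‖f z - f (cen Λ (i + 1, n))‖ + ‖f z' - f (cen Λ (i + 1, n))‖ := by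
      have h4 : f z' = f z - (f z - f (cen Λ (i + 1, n))) + (f z' - f (cen Λ (i + 1, n))) := by ring
      calc ‖f z'‖ = ‖f z - (f z - f (cen Λ (i + 1, n))) + (f z' - f (cen Λ (i + 1, n)))‖ := by
            rw [← h4]
        _ ≤ _ := (norm_add_le _ _).trans (add_le_add (norm_sub_le _ _) le_rfl)
    linarith

theorem Sett.st_false (h : Sett Λ τ εL εH M f η c) {q : ℕ × ℤ} (hne : ¬ exc Λ τ f q)
    (hs : sT Λ εL εH f c q = false) {z : ℂ} (hz : z ∈ TpC Λ q) : ‖f z‖ ≤ εH + τ := by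
  classical
  have := h.hLH
  have := h.hτL
  have := h.hL
  have := h.hτ
  have := h.hHpos
  obtain ⟨i, n⟩ := q
  cases i with
  | zero =>
    have h1 := h.far_state (0, n) (Or.inl rfl)
    rw [hs] at h1
    have h2 := h.far_false h1.symm (TpC_im h.hΛ hz).le (far_box h.hΛ (Or.inl rfl) hz)
    linarith
  | succ i =>
    unfold sT at hs
    simp only [stt] at hs
    by_cases hl : lowB Λ εL f (i + 1, n)
    · have := hl z hz
      linarith
    · rw [if_neg hl] at hs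
      have hh : ¬ highB Λ εH f (i + 1, n) := by
        intro hh
        rw [if_pos hh] at hs
        exact absurd hs (by simp)
      unfold highB at hh
      push Not at hh
      unfold exc at hne
      push Not at hne
      have h1 := hne z hz
      have h3 := norm_sub_norm_le (f z) (f (cen Λ (i + 1, n)))
      linarith

/-- the region where the cutoff is one -/
def OmS (Λ τ εL εH : ℝ) (f : ℂ → ℂ) (c : ℂ) : Set ℂ :=
  {z | (Λ < z.im ∧ cinf εH c = true) ∨ ∃ q, z ∈ Tp Λ q ∧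
    ((exc Λ τ f q ∧ εH ≤ ‖UH'.indicator f z‖) ∨ (¬ exc Λ τ f q ∧ sT Λ εL εH f c q = true))}
where
  /-- the upper half plane -/
  UH' : Set ℂ := {w : ℂ | 0 < w.im}

theorem ind_eq {z : ℂ} (hz : 0 < z.im) : OmS.UH'.indicator f z = f z := by
  rw [indicator_of_mem]
  exact hz

theorem Sett.OmS_meas (h : Sett Λ τ εL εH M f η c) : MeasurableSet (OmS Λ τ εL εH f c) := by
  classical
  have hf : Measurable (OmS.UH'.indicator f) := by
    rw [← Set.piecewise_eq_indicator]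
    exact ContinuousOn.measurable_piecewise
      (fun w hw => (h.nice.diffAt (le_of_lt hw)).continuousAt.continuousWithinAt) continuousOn_const
      (isOpen_lt continuous_const Complex.continuous_im).measurableSet
  have h1 : OmS Λ τ εL εH f c = {z : ℂ | Λ < z.im ∧ cinf εH c = true} ∪ ⋃ q : ℕ × ℤ,
      (Tp Λ q ∩ ({z | exc Λ τ f q ∧ εH ≤ ‖OmS.UH'.indicator f z‖} ∪
        {z | ¬ exc Λ τ f q ∧ sT Λ εL εH f c q = true})) := by
    ext z
    simp only [OmS, mem_setOf_eq, mem_union, mem_iUnion, mem_inter_iff]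
  rw [h1]
  refine MeasurableSet.union ?_ (MeasurableSet.iUnion (fun q => (Tp_meas Λ q).inter
    (MeasurableSet.union ?_ ?_)))
  · exact (measurableSet_lt measurable_const Complex.measurable_im).inter (MeasurableSet.const _)
  · exact (MeasurableSet.const _).inter (measurableSet_le measurable_const hf.norm)
  · exact MeasurableSet.const _

theorem Sett.Om_low (h : Sett Λ τ εL εH M f η c) {z : ℂ} (hz : 0 < z.im)
    (hm : z ∈ OmS Λ τ εL εH f c) : εL - 2 * τ ≤ ‖f z‖ := by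
  have := h.hLH
  have := h.hτL
  have := h.hL
  have := h.hτ
  rcases hm with ⟨h1, h2⟩ | ⟨q, hq, ⟨h1, h2⟩ | ⟨h1, h2⟩⟩
  · have h3 := h.far_true h2 hz.le (by
      have := Complex.im_le_norm z
      linarith [h.hΛ])
    linarith
  · rw [ind_eq hz] at h2
    linarith
  · exact h.st_true h1 h2 (Tp_sub hq)

theorem Sett.Om_high (h : Sett Λ τ εL εH M f η c) {z : ℂ} (hz : 0 < z.im)
    (hm : z ∉ OmS Λ τ εL εH f c) : ‖f z‖ ≤ εH + τ := by
  have := h.hLH
  have := h.hτL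
  have := h.hL
  have := h.hτ
  have := h.hHpos
  rcases lt_or_ge Λ z.im with hlt | hge
  · have h2 : cinf εH c = false := by
      by_contra h3
      exact hm (Or.inl ⟨hlt, by simpa using h3⟩)
    have h3 := h.far_false h2 hz.le (by
      have := Complex.im_le_norm z
      linarith [h.hΛ])
    linarith
  · obtain ⟨q, hq⟩ := Tp_exists hz hge
    by_cases he : exc Λ τ f q
    · by_contra hcon
      push Not at hcon
      refine hm (Or.inr ⟨q, hq, Or.inl ⟨he, ?_⟩⟩)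
      rw [ind_eq hz]
      linarith
    · refine h.st_false he ?_ (Tp_sub hq)
      by_contra h3
      exact hm (Or.inr ⟨q, hq, Or.inr ⟨he, by simpa using h3⟩⟩)

/-! ### the boxes where the cutoff varies -/

/-- the window -/
noncomputable def Wd (J : ℕ) : Finset (ℕ × ℤ) := Finset.range (J + 1) ×ˢ Finset.Icc (-2 ^ J - 2) (2 ^ J + 2)

theorem Wd_far {J : ℕ} {q : ℕ × ℤ} (hq : q.1 ≤ J) (hn : q ∉ Wd J) :
    (q.2 / 2 ^ q.1 ≠ 0 ∧ q.2 / 2 ^ q.1 ≠ -1) ∧
      ((q.2 + 1) / 2 ^ q.1 ≠ 0 ∧ (q.2 + 1) / 2 ^ q.1 ≠ -1) := by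
  have h1 : q.2 < -2 ^ J - 2 ∨ 2 ^ J + 2 < q.2 := by
    by_contra h
    push Not at h
    apply hn
    unfold Wd
    rw [Finset.mem_product, Finset.mem_range, Finset.mem_Icc]
    exact ⟨by omega, h⟩
  have h2 : (2 : ℤ) ^ q.1 ≤ 2 ^ J := pow_le_pow_right₀ (by norm_num) hq
  have h3 : (0 : ℤ) < 2 ^ q.1 := by positivity
  have key : ∀ n : ℤ, (n < -2 ^ J - 1 ∨ 2 ^ J + 1 < n) → n / 2 ^ q.1 ≠ 0 ∧ n / 2 ^ q.1 ≠ -1 := by
    intro n hn
    constructor
    · intro h
      rw [Int.ediv_eq_iff_of_pos h3] at h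
      rcases hn with hn | hn <;> linarith [h.1, h.2]
    · intro h
      rw [Int.ediv_eq_iff_of_pos h3] at h
      rcases hn with hn | hn <;> linarith [h.1, h.2]
  exact ⟨key _ (by omega), key _ (by omega)⟩

open scoped Classical in
/-- exceptional boxes -/
noncomputable def TE (Λ τ : ℝ) (f : ℂ → ℂ) (J : ℕ) : Finset (ℕ × ℤ) :=
  (Wd J).filter fun q => exc Λ τ f q

open scoped Classical in
/-- change boxes -/
noncomputable def TC (Λ εL εH : ℝ) (f : ℂ → ℂ) (c : ℂ) (J : ℕ) : Finset (ℕ × ℤ) :=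
  (Wd J).filter fun q => chg (lowB Λ εL f) (highB Λ εH f) (cinf εH c) q

open scoped Classical in
/-- horizontal changes -/
noncomputable def TH (Λ εL εH : ℝ) (f : ℂ → ℂ) (c : ℂ) (J : ℕ) : Finset (ℕ × ℤ) :=
  (Wd J).filter fun q => sT Λ εL εH f c q ≠ sT Λ εL εH f c (q.1, q.2 + 1)

theorem mem_TE (h : Sett Λ τ εL εH M f η c) {J : ℕ} {q : ℕ × ℤ} (hq : q.1 ≤ J)
    (hn : q ∉ TE Λ τ f J) : ¬ exc Λ τ f q := by
  classical
  by_cases hw : q ∈ Wd J
  · intro he
    exact hn (Finset.mem_filter.2 ⟨hw, he⟩)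
  · exact h.far_exc (Or.inr (Wd_far hq hw).1)

theorem mem_TC (h : Sett Λ τ εL εH M f η c) {J : ℕ} {q : ℕ × ℤ} (hq1 : 1 ≤ q.1) (hq : q.1 ≤ J)
    (hn : q ∉ TC Λ εL εH f c J) : sT Λ εL εH f c q = sT Λ εL εH f c (q.1 - 1, q.2 / 2) := by
  classical
  by_cases hw : q ∈ Wd J
  · by_contra he
    exact hn (Finset.mem_filter.2 ⟨hw, hq1, he⟩)
  · have h1 := (Wd_far hq hw).1
    rw [h.far_state _ (Or.inr h1), h.far_state _ (Or.inr ?_)]
    have h2 : q.2 / 2 ^ q.1 = q.2 / 2 / 2 ^ (q.1 - 1) := by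
      have h3 : q.1 = (q.1 - 1) + 1 := by omega
      conv_lhs => rw [h3]
      rw [pow_succ, mul_comm, Int.ediv_ediv_of_nonneg (by norm_num)]
    simp only
    rw [← h2]
    exact h1

theorem mem_TH (h : Sett Λ τ εL εH M f η c) {J : ℕ} {q : ℕ × ℤ} (hq : q.1 ≤ J)
    (hn : q ∉ TH Λ εL εH f c J) : sT Λ εL εH f c q = sT Λ εL εH f c (q.1, q.2 + 1) := by
  classical
  by_cases hw : q ∈ Wd J
  · by_contra he
    exact hn (Finset.mem_filter.2 ⟨hw, he⟩)
  · have h1 := Wd_far hq hw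
    rw [h.far_state _ (Or.inr h1.1), h.far_state _ (Or.inr h1.2)]

theorem TC_pk (h : Sett Λ τ εL εH M f η c) (J : ℕ) : Pk 6 (TC Λ εL εH f c J) := by
  classical
  refine tree (lowB Λ εL f) (highB Λ εH f) (cinf εH c) (J := J) (fun j hj => ?_) (fun j hj => ?_)
    (fun q hq F hF hanti => ?_)
  · have h1 := (Finset.mem_filter.1 hj).1
    unfold Wd at h1
    rw [Finset.mem_product, Finset.mem_range] at h1
    omega
  · exact (Finset.mem_filter.1 hj).2
  · refine stop_dyadic h.hΛ (fun w hw => (h.nice.diffAt (le_of_lt hw)).differentiableWithinAt)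
      (fun w hw => (h.nice.diffAt hw).continuousAt.continuousWithinAt) h.nice.bd h.hHpos h.hM1 h.hM
      q hq F (fun j hj => ⟨fun z hz => ?_, (hF j hj).2⟩) hanti
    rw [← h.hεL]
    exact (hF j hj).1 z hz

theorem TE_pk (h : Sett Λ τ εL εH M f η c) {CE : ℝ} (hE : ∀ u ℓ : ℝ, 0 < ℓ →
      IntegrableOn (fun w : ℂ => ‖deriv f w‖ ^ 2 * w.im) (bx u ℓ) ∧
      ∫ w in bx u ℓ, ‖deriv f w‖ ^ 2 * w.im ≤ CE * ℓ) (J : ℕ) :
    Pk (4 * (2 * CE / ((τ / 2) ^ 2 * (3 / 8) * (τ / 64) ^ 2))) (TE Λ τ f J) := by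
  classical
  set K := 2 * CE / ((τ / 2) ^ 2 * (3 / 8) * (τ / 64) ^ 2) with hK
  have key : ∀ (c₁ : ℕ) (c₂ : ℤ), Pk K ((TE Λ τ f J).filter fun j => j.1 % 2 = c₁ ∧ j.2 % 2 = c₂) := by
    intro c₁ c₂
    refine exc_class h.hΛ h.hτ h.hτ1 h.nice hE (fun j hj => ?_) c₁ c₂ (fun j hj => ?_)
    · exact (Finset.mem_filter.1 (Finset.mem_filter.1 hj).1).2
    · exact (Finset.mem_filter.1 hj).2
  have h1 := ((key 0 0).union (key 0 1)).union ((key 1 0).union (key 1 1))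
  have h2 : (4 : ℝ) * K = K + K + (K + K) := by ring
  rw [h2]
  refine h1.mono (fun j hj => ?_)
  simp only [Finset.mem_union, Finset.mem_filter, hj, true_and]
  rcases Nat.mod_two_eq_zero_or_one j.1 with a | a <;>
    rcases Int.emod_two_eq_zero_or_one j.2 with b | b <;> simp [a, b]

theorem TH_pk (h : Sett Λ τ εL εH M f η c) {J : ℕ} (hJ : 1 ≤ J) :
    Pk (2 * (6 + 2 * 6) + 2) (TH Λ εL εH f c J) := by
  classical
  have h1 := TC_pk h J
  have h2 := h1.union (h1.shift (-1) (Or.inr rfl))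
  refine h2.chain (fun j hj => ?_)
  obtain ⟨hjw, hjne⟩ := Finset.mem_filter.1 hj
  have hj1 : j.1 ≤ J := by
    unfold Wd at hjw
    rw [Finset.mem_product, Finset.mem_range] at hjw
    omega
  by_cases hA : j ∈ TC Λ εL εH f c J
  · exact Or.inl (Finset.mem_union_left _ hA)
  by_cases hB : (j.1, j.2 + 1) ∈ TC Λ εL εH f c J
  · left
    refine Finset.mem_union_right _ (Finset.mem_image.2 ⟨_, hB, ?_⟩)
    refine Prod.ext rfl ?_
    simp
  right
  have hj0 : 1 ≤ j.1 := by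
    by_contra h0
    have h3 : j.1 = 0 := by omega
    apply hjne
    rw [h.far_state j (Or.inl h3), h.far_state (j.1, j.2 + 1) (Or.inl h3)]
  have e1 := mem_TC h hj0 hj1 hA
  have e2 := mem_TC (q := (j.1, j.2 + 1)) h hj0 hj1 hB
  simp only at e2
  have hodd : j.2 % 2 = 1 := by
    by_contra hev
    have h3 : (j.2 + 1) / 2 = j.2 / 2 := by omega
    rw [h3] at e2
    exact hjne (e1.trans e2.symm)
  have h3 : (j.2 + 1) / 2 = j.2 / 2 + 1 := by omega
  have hne : sT Λ εL εH f c (j.1 - 1, j.2 / 2) ≠ sT Λ εL εH f c (j.1 - 1, j.2 / 2 + 1) := by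
    rw [← h3, ← e1, ← e2]
    exact hjne
  refine ⟨(j.1 - 1, j.2 / 2), ?_, ?_⟩
  · by_contra hno
    exact hne (mem_TH (q := (j.1 - 1, j.2 / 2)) h (by simp only; omega) hno)
  · refine Prod.ext ?_ ?_
    · simp only
      omega
    · simp only
      omega

/-- union of the exceptional and change boxes -/
noncomputable def TX (Λ τ εL εH : ℝ) (f : ℂ → ℂ) (c : ℂ) (J : ℕ) : Finset (ℕ × ℤ) :=
  (TE Λ τ f J ∪ TC Λ εL εH f c J) ∪ TH Λ εL εH f c J

/-- together with parents and children -/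
noncomputable def TZ (X : Finset (ℕ × ℤ)) : Finset (ℕ × ℤ) :=
  (X ∪ (X.filter fun j => 1 ≤ j.1).image fun j => (j.1 - 1, j.2 / 2)) ∪
    ((X.image fun j => (j.1 + 1, 2 * j.2)) ∪ X.image fun j => (j.1 + 1, 2 * j.2 + 1))

/-- together with horizontal neighbours -/
noncomputable def TS (X : Finset (ℕ × ℤ)) : Finset (ℕ × ℤ) :=
  (TZ X ∪ (TZ X).image fun j => (j.1, j.2 + 1)) ∪ (TZ X).image fun j => (j.1, j.2 + (-1))

theorem TS_pk {X : Finset (ℕ × ℤ)} {C : ℝ} (h : Pk C X) : Pk (20 * C + 5) (TS X) := by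
  have h1 : Pk (C + 2 * C + (C + 1)) (TZ X) := (h.union h.parent).union h.child
  have h2 := (h1.union (h1.shift 1 (Or.inl rfl))).union (h1.shift (-1) (Or.inr rfl))
  have h3 : (20 : ℝ) * C + 5 = C + 2 * C + (C + 1) + 2 * (C + 2 * C + (C + 1)) +
    2 * (C + 2 * C + (C + 1)) := by ring
  rw [h3]
  exact h2

theorem TS_nb {X : Finset (ℕ × ℤ)} {q q' : ℕ × ℤ} (hq : q ∉ TS X) (hn : nb q q') : q' ∉ X := by
  intro hX
  obtain ⟨m, hm, hc⟩ := hn
  have hZ : (q.1, m) ∈ TZ X := by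
    rcases hc with rfl | ⟨b, rfl⟩ | ⟨h1, rfl⟩
    · exact Finset.mem_union_left _ (Finset.mem_union_left _ hX)
    · refine Finset.mem_union_left _ (Finset.mem_union_right _ (Finset.mem_image.2
        ⟨_, Finset.mem_filter.2 ⟨hX, by simp [ch]⟩, ?_⟩))
      refine Prod.ext (by simp [ch]) ?_
      cases b
      · simp [ch]
      · simp only [ch]
        simp
        omega
    · refine Finset.mem_union_right _ ?_
      rcases Int.emod_two_eq_zero_or_one m with h6 | h6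
      · refine Finset.mem_union_left _ (Finset.mem_image.2 ⟨_, hX, Prod.ext ?_ ?_⟩)
        · simp only; omega
        · simp only; omega
      · refine Finset.mem_union_right _ (Finset.mem_image.2 ⟨_, hX, Prod.ext ?_ ?_⟩)
        · simp only; omega
        · simp only; omega
  apply hq
  rcases hm with hm | hm | hm
  · refine Finset.mem_union_left _ (Finset.mem_union_right _ (Finset.mem_image.2
      ⟨_, hZ, Prod.ext rfl ?_⟩))
    simp only; omega
  · refine Finset.mem_union_left _ (Finset.mem_union_left _ ?_)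
    rw [hm] at hZ
    exact hZ
  · refine Finset.mem_union_right _ (Finset.mem_image.2 ⟨_, hZ, Prod.ext rfl ?_⟩)
    simp only; omega

theorem nb_gen {q q' : ℕ × ℤ} (hn : nb q q') : q'.1 ≤ q.1 + 1 := by
  obtain ⟨m, hm, hc⟩ := hn
  rcases hc with rfl | ⟨b, rfl⟩ | ⟨h1, rfl⟩
  · simp
  · simp [ch]
  · simp only; omega

/-- away from the bad boxes the neighbours have the same state -/
theorem Sett.good (h : Sett Λ τ εL εH M f η c) {J : ℕ} {q : ℕ × ℤ} (hqJ : q.1 < J)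
    (hq : q ∉ TS (TX Λ τ εL εH f c J)) {q' : ℕ × ℤ} (hn : nb q q') :
    ¬ exc Λ τ f q' ∧ sT Λ εL εH f c q' = sT Λ εL εH f c q := by
  have hnot : ∀ p, nb q p → p ∉ TE Λ τ f J ∧ p ∉ TC Λ εL εH f c J ∧ p ∉ TH Λ εL εH f c J := by
    intro p hp
    have h1 := TS_nb hq hp
    unfold TX at h1
    rw [Finset.mem_union, Finset.mem_union] at h1
    push Not at h1
    exact ⟨h1.1.1, h1.1.2, h1.2⟩
  have hgen := nb_gen hn
  refine ⟨mem_TE h (by omega) (hnot _ hn).1, ?_⟩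
  obtain ⟨m, hm, hc⟩ := hn
  have hrow : sT Λ εL εH f c (q.1, m) = sT Λ εL εH f c q := by
    rcases hm with hm | hm | hm
    · have h1 : nb q (q.1, m) := ⟨m, Or.inl hm, Or.inl rfl⟩
      have h2 := mem_TH h (q := (q.1, m)) (by simp only; omega) (hnot _ h1).2.2
      rw [h2]
      congr 1
      refine Prod.ext rfl ?_
      simp only; omega
    · rw [hm]
    · have h1 : nb q q := ⟨q.2, Or.inr (Or.inl rfl), Or.inl rfl⟩
      have h2 := mem_TH h (q := q) (by omega) (hnot _ h1).2.2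
      rw [h2, hm]
  have hrn : nb q (q.1, m) := ⟨m, hm, Or.inl rfl⟩
  rcases hc with rfl | ⟨b, rfl⟩ | ⟨h1, rfl⟩
  · exact hrow
  · have h2 : nb q (ch (q.1, m) b) := ⟨m, hm, Or.inr (Or.inl ⟨b, rfl⟩)⟩
    have h3 := mem_TC h (q := ch (q.1, m) b) (by simp [ch]) (by simp [ch]; omega) (hnot _ h2).2.1
    rw [h3, ← hrow]
    congr 1
    refine Prod.ext (by simp [ch]) ?_
    cases b
    · simp [ch]
    · simp only [ch]
      simp
      omega
  · have h3 := mem_TC h (q := (q.1, m)) h1 (by simp only; omega) (hnot _ hrn).2.1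
    rw [← hrow, h3]

/-- local constancy of the region -/
theorem Sett.locally (h : Sett Λ τ εL εH M f η c) {J : ℕ} {z : ℂ} (hz : ln Λ J < z.im)
    (hno : ∀ q ∈ (TS (TX Λ τ εL εH f c J)).filter (fun j => j.1 < J), z ∉ Tp Λ q) :
    ∃ s : Bool, ∀ z' : ℂ, ‖z' - z‖ ≤ z.im / 4 → (z' ∈ OmS Λ τ εL εH f c ↔ s = true) := by
  have hJ := ln_pos h.hΛ J
  have hz0 : 0 < z.im := by linarith
  have htop : ∀ z' : ℂ, z' ∈ OmS Λ τ εL εH f c → Λ < z'.im → cinf εH c = true := by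
    intro z' hz' hlt
    rcases hz' with ⟨h1, h2⟩ | ⟨q, hq, -⟩
    · exact h2
    · exfalso
      have h1 := hq.2.2.2
      have h2 := ln_anti h.hΛ (Nat.zero_le q.1)
      have h3 : ln Λ 0 = Λ := by unfold ln; simp
      linarith
  rcases lt_or_ge Λ z.im with hlt | hge
  · refine ⟨cinf εH c, fun z' hz' => ?_⟩
    have h2 := (Complex.abs_im_le_norm (z' - z)).trans hz'
    rw [Complex.sub_im, abs_le] at h2
    rcases lt_or_ge Λ z'.im with hlt' | hge'
    · exact ⟨fun hm => htop z' hm hlt', fun hc => Or.inl ⟨hlt', hc⟩⟩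
    · obtain ⟨q, hq⟩ := Tp_exists (z := z') (by linarith [h2.1]) hge'
      have hq0 : q.1 = 0 := by
        by_contra hne
        have h3 : 1 ≤ q.1 := by omega
        have h4 := ln_anti h.hΛ h3
        have h5 : ln Λ 1 = Λ / 2 := by unfold ln; ring
        have h6 := hq.2.2.2
        have := h.hΛ
        linarith [h2.1]
      have hs := h.far_state q (Or.inl hq0)
      have he := h.far_exc (q := q) (Or.inl hq0)
      constructor
      · rintro (⟨h1, h2⟩ | ⟨q', hq', ⟨h1, -⟩ | ⟨-, h2⟩⟩)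
        · exact h2
        · rw [← Tp_unique h.hΛ hq hq'] at h1
          exact absurd h1 he
        · rw [← Tp_unique h.hΛ hq hq', hs] at h2
          exact h2
      · intro hc
        exact Or.inr ⟨q, hq, Or.inr ⟨he, hs.trans hc⟩⟩
  · obtain ⟨q, hq⟩ := Tp_exists hz0 hge
    have hqJ : q.1 < J := by
      by_contra hge'
      push Not at hge'
      have h1 := ln_anti h.hΛ hge'
      have h2 := hq.2.2.2
      linarith
    have hqS : q ∉ TS (TX Λ τ εL εH f c J) := by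
      intro hm
      exact hno q (Finset.mem_filter.2 ⟨hm, hqJ⟩) hq
    refine ⟨sT Λ εL εH f c q, fun z' hz' => ?_⟩
    have h2 := (Complex.abs_im_le_norm (z' - z)).trans hz'
    rw [Complex.sub_im, abs_le] at h2
    rcases lt_or_ge Λ z'.im with hlt' | hge'
    · have hq0 : q.1 = 0 := by
        by_contra hne
        have h3 : 1 ≤ q.1 := by omega
        have h4 := ln_anti h.hΛ h3
        have h5 : ln Λ 1 = Λ / 2 := by unfold ln; ring
        have h6 := hq.2.2.2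
        have := h.hΛ
        linarith [h2.2]
      rw [h.far_state q (Or.inl hq0)]
      exact ⟨fun hm => htop z' hm hlt', fun hc => Or.inl ⟨hlt', hc⟩⟩
    · obtain ⟨q', hq'⟩ := Tp_exists (z := z') (by linarith [h2.1]) hge'
      obtain ⟨he, hs⟩ := h.good hqJ hqS (nb_of_near h.hΛ hq hq' hz')
      rw [← hs]
      constructor
      · rintro (⟨h1, -⟩ | ⟨q'', hq'', ⟨h1, -⟩ | ⟨-, h2⟩⟩)
        · linarith
        · rw [← Tp_unique h.hΛ hq' hq''] at h1
          exact absurd h1 he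
        · rw [← Tp_unique h.hΛ hq' hq''] at h2
          exact h2
      · intro hc
        exact Or.inr ⟨q', hq', Or.inr ⟨he, hc⟩⟩

/-- **The cutoff function of one function.** -/
theorem cut1 {ε : ℝ} (hε : 0 < ε) (hε1 : ε ≤ 1) : ∃ ε' C κ : ℝ, 0 < ε' ∧ 0 < C ∧ 0 < κ ∧
    ∀ (f : ℂ → ℂ) (η : ℝ) (c : ℂ) (Λ : ℝ) (J : ℕ), Nice f η → 0 < Λ → 1 ≤ J →
      (∀ w : ℂ, 0 ≤ w.im → Λ / 2 ≤ ‖w‖ → ‖f w - c‖ ≤ κ) →
      (∀ w : ℂ, 0 ≤ w.im → ‖f (w + ln Λ J * I) - f w‖ ≤ κ) →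
      ∃ (p : ℂ → ℝ) (S : Finset (ℕ × ℤ)), (∀ j ∈ S, j.1 < J) ∧ Pk C S ∧
        ContDiffOn ℝ 1 p {w : ℂ | 0 < w.im} ∧ (∀ w : ℂ, 0 < w.im → 0 ≤ p w ∧ p w ≤ 1) ∧
        (∀ w : ℂ, 0 < w.im → p w ≠ 0 → ε' ≤ ‖f w‖) ∧
        (∀ w : ℂ, 0 < w.im → p w ≠ 1 → ‖f w‖ ≤ ε) ∧
        (∀ w : ℂ, 0 < w.im → ‖fderiv ℝ p w‖ ≤ C / (w.im + ln Λ J)) ∧
        ∀ w : ℂ, 0 < w.im → fderiv ℝ p w ≠ 0 → ∃ j ∈ S, w + ln Λ J * I ∈ Tp Λ j := by
  classical
  obtain ⟨CE, hCE, henergy⟩ := energy_box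
  obtain ⟨A, hA, hmoll⟩ := moll
  set εH : ℝ := ε / 2 with hεH
  have hεHpos : 0 < εH := by positivity
  set M : ℕ := ⌈3 * Real.log (1 / εH)⌉₊ + 1 with hM
  have hM1 : 1 ≤ M := by omega
  have hM2 : 3 * Real.log (1 / εH) ≤ M := by
    have := Nat.le_ceil (3 * Real.log (1 / εH))
    rw [hM]
    push_cast
    linarith
  set εL : ℝ := Real.exp (-(168 * M)) with hεL
  have hεLpos : 0 < εL := Real.exp_pos _
  have hlogH : 0 ≤ Real.log (1 / εH) := Real.log_nonneg (by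
    rw [le_div_iff₀ hεHpos]
    linarith)
  have hLH : 8 * εL ≤ εH := by
    have h1 : εL ≤ Real.exp (-3 - Real.log (1 / εH)) := by
      rw [hεL]
      refine Real.exp_le_exp.2 ?_
      have h2 : (1 : ℝ) ≤ M := by exact_mod_cast hM1
      linarith
    have h3 : Real.exp (-3 - Real.log (1 / εH)) = Real.exp (-3) * εH := by
      rw [Real.exp_sub, Real.exp_log (by positivity)]
      field_simp
    have h4 : Real.exp (-3) ≤ 1 / 8 := by
      rw [Real.exp_neg, inv_eq_one_div]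
      have h5 : Real.exp 3 = Real.exp 1 ^ 3 := by
        rw [← Real.exp_nat_mul]; norm_num
      have h6 : (2 : ℝ) ≤ Real.exp 1 := by linarith [Real.exp_one_gt_d9]
      have h7 : (8 : ℝ) ≤ Real.exp 3 := by
        rw [h5]
        calc (8 : ℝ) = 2 ^ 3 := by norm_num
          _ ≤ _ := pow_le_pow_left₀ (by norm_num) h6 3
      exact one_div_le_one_div_of_le (by norm_num) h7
    rw [h3] at h1
    nlinarith
  set τ : ℝ := εL / 8 with hτ
  have hτpos : 0 < τ := by positivity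
  have hτ8 : τ ≤ 1 / 8 := by linarith
  set CX : ℝ := 4 * (2 * CE / ((τ / 2) ^ 2 * (3 / 8) * (τ / 64) ^ 2)) + 6 + (2 * (6 + 2 * 6) + 2)
    with hCX
  have hCXpos : 0 < CX := by positivity
  refine ⟨εL / 2, max (20 * CX + 5) (A / (τ / 8)), τ / 2, by positivity,
    lt_max_of_lt_left (by positivity), by positivity, ?_⟩
  intro f η c Λ J hn hΛ hJ hfar hunif
  have hS : Sett Λ τ εL εH M f η c := {
    nice := hn
    hΛ := hΛ
    hτ := hτpos
    hεL := hεL
    hτL := by rw [hτ]; linarith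
    hLH := hLH
    hH1 := by rw [hεH]; linarith
    hM1 := hM1
    hM := hM2
    far := hfar }
  have hJpos := ln_pos hΛ J
  obtain ⟨p, hp1, hp2, hp3, hp4, hp5⟩ := hmoll _ hS.OmS_meas (ln Λ J) (τ / 8) hJpos (by positivity)
    (by linarith)
  have hclose : ∀ w z : ℂ, 0 < w.im → ‖z - (w + ln Λ J * I)‖ ≤ τ / 8 * (w.im + ln Λ J) →
      0 < z.im ∧ ‖f z - f w‖ ≤ 2 * τ := by
    intro w z hw hz
    set w' : ℂ := w + ln Λ J * I with hw'
    have hw'im : w'.im = w.im + ln Λ J := by simp [hw']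
    rw [← hw'im] at hz
    have hw'pos : 0 < w'.im := by rw [hw'im]; linarith
    have hball : ∀ x ∈ closedBall w' (τ / 8 * w'.im), 7 / 8 * w'.im ≤ x.im := by
      intro x hx
      rw [mem_closedBall, dist_eq_norm] at hx
      have h2 := (Complex.abs_im_le_norm (x - w')).trans hx
      rw [Complex.sub_im, abs_le] at h2
      nlinarith [h2.1]
    have hzm : z ∈ closedBall w' (τ / 8 * w'.im) := by
      rw [mem_closedBall, dist_eq_norm]
      exact hz
    have h1 := Convex.norm_image_sub_le_of_norm_deriv_le (f := f) (C := 2 / w'.im)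
      (s := closedBall w' (τ / 8 * w'.im)) (x := w') (y := z)
      (fun x hx => hn.diffAt (by linarith [hball x hx])) (fun x hx => ?_) (convex_closedBall _ _)
      (mem_closedBall_self (by positivity)) hzm
    · have h3 : ‖f z - f w'‖ ≤ τ := by
        refine h1.trans ?_
        calc 2 / w'.im * ‖z - w'‖ ≤ 2 / w'.im * (τ / 8 * w'.im) := by gcongr
          _ = τ / 4 := by field_simp; norm_num
          _ ≤ τ := by linarith
      have h4 := hunif w hw.le
      refine ⟨by linarith [hball z hzm], ?_⟩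
      have h5 : f z - f w = (f z - f w') + (f w' - f w) := by ring
      rw [h5]
      refine (norm_add_le _ _).trans ?_
      linarith
    · have h2 := hball x hx
      have h3 : 0 < x.im := by linarith
      refine (hn.deriv_le h3).trans ?_
      rw [div_le_div_iff₀ h3 hw'pos]
      linarith
  have hX : Pk CX (TX Λ τ εL εH f c J) :=
    ((TE_pk hS (fun u ℓ hℓ => henergy f η hn.pos hn.diff hn.bd u ℓ hℓ) J).union
      (TC_pk hS J)).union (TH_pk hS hJ)
  refine ⟨p, (TS (TX Λ τ εL εH f c J)).filter (fun j => j.1 < J), fun j hj =>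
    (Finset.mem_filter.1 hj).2, ?_, hp1, hp2, ?_, ?_, ?_, ?_⟩
  · have h1 := (TS_pk hX).mono (Finset.filter_subset (fun j => j.1 < J) _)
    intro q
    refine (h1 q).trans ?_
    gcongr
    exact le_max_left _ _
  · intro w hw hne
    obtain ⟨z, hz, hz2⟩ := hp3 w hw hne
    obtain ⟨h1, h2⟩ := hclose w z hw hz2
    have h3 := hS.Om_low h1 hz
    have h4 := norm_sub_norm_le (f z) (f w)
    have h5 : τ = εL / 8 := hτ
    linarith
  · intro w hw hne
    obtain ⟨z, hz, hz2⟩ := hp4 w hw hne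
    obtain ⟨h1, h2⟩ := hclose w z hw hz2
    have h3 := hS.Om_high h1 hz
    have h4 := norm_sub_norm_le (f w) (f z)
    rw [norm_sub_rev] at h4
    have h5 : τ = εL / 8 := hτ
    have h6 : εH = ε / 2 := hεH
    linarith
  · intro w hw
    refine (hp5 w hw).trans ?_
    have h1 : A / (τ / 8 * (w.im + ln Λ J)) = (A / (τ / 8)) / (w.im + ln Λ J) :=
      (div_div A (τ / 8) (w.im + ln Λ J)).symm
    rw [h1]
    gcongr
    exact le_max_right _ _
  · intro w hw hne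
    by_contra hno
    push Not at hno
    have hwim : (w + ln Λ J * I).im = w.im + ln Λ J := by simp
    obtain ⟨s, hs⟩ := hS.locally (J := J) (z := w + ln Λ J * I) (by rw [hwim]; linarith) hno
    apply hne
    rw [hwim] at hs
    have hev : ∀ᶠ w₂ in 𝓝 w, ‖w₂ - w‖ < w.im / 16 ∧ 0 < w₂.im := by
      have h1 : ∀ᶠ w₂ in 𝓝 w, dist w₂ w < w.im / 16 := Metric.ball_mem_nhds w (by positivity)
      filter_upwards [h1, (isOpen_lt continuous_const Complex.continuous_im).mem_nhds hw]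
        with w₂ h2 h3
      rw [dist_eq_norm] at h2
      exact ⟨h2, h3⟩
    have hin : ∀ w₂ : ℂ, ‖w₂ - w‖ < w.im / 16 → 0 < w₂.im → ∀ z : ℂ,
        ‖z - (w₂ + ln Λ J * I)‖ ≤ τ / 8 * (w₂.im + ln Λ J) →
        ‖z - (w + ln Λ J * I)‖ ≤ (w.im + ln Λ J) / 4 := by
      intro w₂ h2 h3 z hz
      have h4 : z - (w + ln Λ J * I) = (z - (w₂ + ln Λ J * I)) + (w₂ - w) := by ring
      rw [h4]
      refine (norm_add_le _ _).trans ?_
      have h5 := (Complex.abs_im_le_norm (w₂ - w)).trans h2.le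
      rw [Complex.sub_im, abs_le] at h5
      nlinarith [h5.2]
    have hconst : ∃ v : ℝ, p =ᶠ[𝓝 w] fun _ => v := by
      cases s
      · refine ⟨0, ?_⟩
        filter_upwards [hev] with w₂ hw₂
        by_contra hne'
        obtain ⟨z, hz, hz2⟩ := hp3 w₂ hw₂.2 hne'
        exact absurd ((hs z (hin w₂ hw₂.1 hw₂.2 z hz2)).1 hz) (by simp)
      · refine ⟨1, ?_⟩
        filter_upwards [hev] with w₂ hw₂
        by_contra hne'
        obtain ⟨z, hz, hz2⟩ := hp4 w₂ hw₂.2 hne'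
        exact hz ((hs z (hin w₂ hw₂.1 hw₂.2 z hz2)).2 rfl)
    obtain ⟨v, hv⟩ := hconst
    rw [hv.fderiv_eq]
    exact fderiv_const_apply v

end

end Pool.Agent.H720R2.HP
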