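import Mathlib
import Pool.Agent.H720R2.Cor.Fin

/-!
TASK B: from the Siegel domain to the ball.
-/

set_option autoImplicit false

open MeasureTheory Metric Set Filter Topology Complex
open scoped ContDiff

namespace Pool.Agent.H720R2.HP

/-- corona theorem on the Siegel domain for nice `f i` -/
def SiegelStatement (N : ℕ) (δ C : ℝ) : Prop :=
  ∀ (E : Type) [NormedAddCommGroup E] [NormedSpace ℂ E] [FiniteDimensional ℂ E]
    (f : Fin N → ℂ → ℂ) (η : ℝ), 0 < η →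
    (∀ i, DifferentiableOn ℂ (f i) {w : ℂ | -η < w.im}) →
    (∀ i, ∀ w : ℂ, 0 ≤ w.im → ‖f i w‖ ≤ 1) →
    (∀ i, ∃ c : ℂ, Tendsto (f i) (Bornology.cobounded ℂ ⊓ 𝓟 {w : ℂ | 0 ≤ w.im}) (𝓝 c)) →
    ∀ G : ℂ × E → ℂ, DifferentiableOn ℂ G {p : ℂ × E | ‖p.2‖ ^ 2 < p.1.im} →
    (∀ p : ℂ × E, ‖p.2‖ ^ 2 < p.1.im → ‖G p‖ ≤ 1) →
    (∀ p : ℂ × E, ‖p.2‖ ^ 2 < p.1.im → (∀ i, ‖f i p.1‖ ≤ δ / 2) → δ ≤ ‖G p‖) →
    ∃ (g : Fin N → ℂ × E → ℂ) (g₀ : ℂ × E → ℂ),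
      (∀ i, DifferentiableOn ℂ (g i) {p : ℂ × E | ‖p.2‖ ^ 2 < p.1.im}) ∧
      DifferentiableOn ℂ g₀ {p : ℂ × E | ‖p.2‖ ^ 2 < p.1.im} ∧
      (∀ i, ∀ p : ℂ × E, ‖p.2‖ ^ 2 < p.1.im → ‖g i p‖ ≤ C) ∧
      (∀ p : ℂ × E, ‖p.2‖ ^ 2 < p.1.im → ‖g₀ p‖ ≤ C) ∧
      ∀ p : ℂ × E, ‖p.2‖ ^ 2 < p.1.im → ∑ i, f i p.1 * g i p + G p * g₀ p = 1

namespace TB

open Pool.Agent.H720R2.Cor

variable {E : Type} [NormedAddCommGroup E] [NormedSpace ℂ E]

/-- Cayley transform from the Siegel domain to the ball -/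
noncomputable def cayD (p : ℂ × E) : ℂ × E :=
  ((p.1 - I) / (p.1 + I), (2 * I / (p.1 + I)) • p.2)

/-- Cayley transform from the ball to the Siegel domain -/
noncomputable def cayU (q : ℂ × E) : ℂ × E :=
  (I * (1 + q.1) / (1 - q.1), (1 - q.1)⁻¹ • q.2)

theorem add_I_ne {w : ℂ} (h : -1 < w.im) : w + I ≠ 0 := by
  intro h0
  have h1 := congrArg Complex.im h0
  simp at h1
  linarith

theorem cayU_add_I {q : ℂ × E} (h : q.1 ≠ 1) : (cayU q).1 + I = 2 * I / (1 - q.1) := by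
  have h1 : 1 - q.1 ≠ 0 := sub_ne_zero.2 (Ne.symm h)
  simp only [cayU]
  field_simp
  ring

theorem cayD_cayU {q : ℂ × E} (h : q.1 ≠ 1) : cayD (cayU q) = q := by
  have h1 : 1 - q.1 ≠ 0 := sub_ne_zero.2 (Ne.symm h)
  have h2 := cayU_add_I h
  have h3 : (cayU q).1 - I = 2 * I * q.1 / (1 - q.1) := by
    simp only [cayU]
    field_simp
    ring
  apply Prod.ext
  · change ((cayU q).1 - I) / ((cayU q).1 + I) = q.1
    rw [h2, h3]
    have := I_ne_zero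
    field_simp
  · change (2 * I / ((cayU q).1 + I)) • ((1 - q.1)⁻¹ • q.2) = q.2
    rw [h2, smul_smul]
    have h4 : 2 * I / (2 * I / (1 - q.1)) * (1 - q.1)⁻¹ = 1 := by
      have := I_ne_zero
      field_simp
    rw [h4, one_smul]

theorem cayU_mem {q : ℂ × E} (hq : q ∈ BB E 1) : ‖(cayU q).2‖ ^ 2 < (cayU q).1.im := by
  have h1 : ‖q.1‖ ^ 2 + ‖q.2‖ ^ 2 < 1 := hq
  have h2 : ‖q.1‖ < 1 := fst_lt_one hq
  have h3 : 1 - q.1 ≠ 0 := by
    intro h0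
    have : q.1 = 1 := (sub_eq_zero.1 h0).symm
    rw [this] at h2
    simp at h2
  have h4 : 0 < normSq (1 - q.1) := normSq_pos.2 h3
  have h5 : (cayU q).1.im = (1 - ‖q.1‖ ^ 2) / normSq (1 - q.1) := by
    rw [← Complex.normSq_eq_norm_sq, normSq_apply q.1]
    simp only [cayU]
    rw [Complex.div_im]
    simp
    ring
  have h6 : ‖(cayU q).2‖ ^ 2 = ‖q.2‖ ^ 2 / normSq (1 - q.1) := by
    simp only [cayU]
    rw [norm_smul, mul_pow, norm_inv, inv_pow, ← Complex.normSq_eq_norm_sq]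
    field_simp
  rw [h5, h6]
  gcongr
  linarith

theorem normSq_cay (w : ℂ) : normSq (w + I) - normSq (w - I) = 4 * w.im := by
  simp only [normSq_apply]
  simp
  ring

theorem cayD_mem {p : ℂ × E} (hp : ‖p.2‖ ^ 2 < p.1.im) : cayD p ∈ BB E 1 := by
  have h0 : 0 < p.1.im := lt_of_le_of_lt (by positivity) hp
  have h1 : p.1 + I ≠ 0 := add_I_ne (by linarith)
  have h4 : 0 < normSq (p.1 + I) := normSq_pos.2 h1
  change ‖(p.1 - I) / (p.1 + I)‖ ^ 2 + ‖(2 * I / (p.1 + I)) • p.2‖ ^ 2 < 1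
  rw [norm_smul, mul_pow, norm_div, norm_div, div_pow, div_pow, ← Complex.normSq_eq_norm_sq,
    ← Complex.normSq_eq_norm_sq]
  have h5 : ‖2 * I‖ ^ 2 = 4 := by
    simp
    norm_num
  rw [h5]
  have h6 := normSq_cay p.1
  rw [div_mul_eq_mul_div, ← add_div, div_lt_one h4]
  linarith

theorem cayD_diff : DifferentiableOn ℂ (cayD (E := E)) {p : ℂ × E | ‖p.2‖ ^ 2 < p.1.im} := by
  have h1 : ∀ p ∈ {p : ℂ × E | ‖p.2‖ ^ 2 < p.1.im}, p.1 + I ≠ 0 := by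
    intro p hp
    have hp' : ‖p.2‖ ^ 2 < p.1.im := hp
    have h0 : 0 < p.1.im := lt_of_le_of_lt (by positivity) hp'
    exact add_I_ne (by linarith)
  have h2 : DifferentiableOn ℂ (fun p : ℂ × E => p.1 + I) {p : ℂ × E | ‖p.2‖ ^ 2 < p.1.im} := by
    fun_prop
  have h3 : DifferentiableOn ℂ (fun p : ℂ × E => p.1 - I) {p : ℂ × E | ‖p.2‖ ^ 2 < p.1.im} := by
    fun_prop
  have h4 := (h3.fun_mul (h2.inv h1)).prodMk (((differentiableOn_const (2 * I)).fun_mul (h2.inv h1)).smul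
    differentiable_snd.differentiableOn)
  refine h4.congr (fun p _ => ?_)
  simp only [cayD, div_eq_mul_inv]
  rfl

theorem cayU_diff : DifferentiableOn ℂ (cayU (E := E)) (BB E 1) := by
  have h1 : ∀ q ∈ BB E 1, 1 - q.1 ≠ 0 := by
    intro q hq h0
    have h2 : ‖q.1‖ < 1 := fst_lt_one hq
    have : q.1 = 1 := (sub_eq_zero.1 h0).symm
    rw [this] at h2
    simp at h2
  have h2 : DifferentiableOn ℂ (fun q : ℂ × E => 1 - q.1) (BB E 1) := by
    fun_prop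
  have h3 : DifferentiableOn ℂ (fun q : ℂ × E => I * (1 + q.1)) (BB E 1) := by
    fun_prop
  have h4 := (h3.fun_mul (h2.inv h1)).prodMk ((h2.inv h1).smul differentiable_snd.differentiableOn)
  refine h4.congr (fun p _ => ?_)
  simp only [cayU, div_eq_mul_inv]
  rfl

/-- the one-variable Cayley map extends below the real line after dilation -/
theorem cay_small {r : ℝ} (hr0 : 0 < r) (hr1 : r < 1) {w : ℂ} (hw : -((1 - r ^ 2) / 16) < w.im) :
    ‖(r : ℂ) * ((w - I) / (w + I))‖ < 1 := by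
  have hr2 : r ^ 2 < 1 := by nlinarith
  have hr2' : 0 < r ^ 2 := by positivity
  have h1 : w + I ≠ 0 := add_I_ne (by linarith)
  have h4 : 0 < normSq (w + I) := normSq_pos.2 h1
  have h5 : ‖(r : ℂ) * ((w - I) / (w + I))‖ ^ 2 < 1 := by
    rw [norm_mul, norm_div, Complex.norm_real, Real.norm_of_nonneg hr0.le, mul_pow, div_pow,
      ← Complex.normSq_eq_norm_sq, ← Complex.normSq_eq_norm_sq, mul_div_assoc', div_lt_one h4]
    simp only [normSq_apply]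
    simp
    set x := w.re
    set y := w.im
    have e1 : 0 < (1 - r ^ 2) := by linarith
    have e2 : 0 ≤ (1 - r ^ 2) * (x * x) := mul_nonneg e1.le (mul_self_nonneg x)
    have e3 : 0 ≤ (1 - r ^ 2) * (y * y) := mul_nonneg e1.le (mul_self_nonneg y)
    have e4 : 0 < (y + (1 - r ^ 2) / 16) * (1 + r ^ 2) := mul_pos (by linarith) (by linarith)
    have e5 : (1 - r ^ 2) * (1 + r ^ 2) < (1 - r ^ 2) * 2 := by
      apply mul_lt_mul_of_pos_left _ e1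
      linarith
    nlinarith
  by_contra hc
  push Not at hc
  nlinarith

theorem cay_le_one {w : ℂ} (hw : 0 ≤ w.im) : ‖(w - I) / (w + I)‖ ≤ 1 := by
  have h1 : w + I ≠ 0 := add_I_ne (by linarith)
  have h4 : 0 < normSq (w + I) := normSq_pos.2 h1
  have h5 : ‖(w - I) / (w + I)‖ ^ 2 ≤ 1 := by
    rw [norm_div, div_pow, ← Complex.normSq_eq_norm_sq, ← Complex.normSq_eq_norm_sq, div_le_one h4]
    have := normSq_cay w
    linarith
  by_contra hc
  push Not at hc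
  nlinarith

theorem cay_tendsto : Tendsto (fun w : ℂ => (w - I) / (w + I)) (Bornology.cobounded ℂ) (𝓝 1) := by
  have h1 : Tendsto (fun w : ℂ => (w + I)⁻¹) (Bornology.cobounded ℂ) (𝓝 0) := by
    refine tendsto_inv₀_cobounded.comp ?_
    rw [← tendsto_norm_atTop_iff_cobounded]
    refine tendsto_atTop_mono (f := fun w : ℂ => ‖w‖ - 1) ?_ ?_
    · intro w
      have := norm_sub_norm_le w (-I)
      simp at this
      linarith
    · exact tendsto_atTop_add_const_right _ _ tendsto_norm_cobounded_atTop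
  have h2 : Tendsto (fun w : ℂ => 1 - 2 * I * (w + I)⁻¹) (Bornology.cobounded ℂ) (𝓝 (1 - 2 * I * 0)) :=
    tendsto_const_nhds.sub (tendsto_const_nhds.mul h1)
  rw [mul_zero, sub_zero] at h2
  refine h2.congr' ?_
  have h3 : ∀ᶠ w : ℂ in Bornology.cobounded ℂ, w ≠ -I := by
    have h4 : ({-I} : Set ℂ)ᶜ ∈ Bornology.cobounded ℂ :=
      Bornology.isBounded_def.1 Bornology.isBounded_singleton
    filter_upwards [h4] with w hw
    simpa using hw
  filter_upwards [h3] with w hw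
  have : w + I ≠ 0 := fun h => hw (eq_neg_of_add_eq_zero_left h)
  field_simp
  ring

theorem solve_r [FiniteDimensional ℂ E] {N : ℕ} {δ C : ℝ} (hδ : 0 < δ) (H : SiegelStatement N δ C)
    (f : Fin N → ℂ → ℂ) (hf : ∀ i, DifferentiableOn ℂ (f i) (ball 0 1))
    (hfb : ∀ i, ∀ z ∈ ball (0 : ℂ) 1, ‖f i z‖ ≤ 1)
    (G : ℂ × E → ℂ) (hG : DifferentiableOn ℂ G (BB E 1)) (hGb : ∀ q ∈ BB E 1, ‖G q‖ ≤ 1)
    (hlow : ∀ q ∈ BB E 1, (∀ i, ‖f i q.1‖ < δ) → δ ≤ ‖G q‖) {r : ℝ} (hr0 : 0 < r) (hr1 : r < 1) :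
    ∃ (g : Fin N → ℂ × E → ℂ) (g₀ : ℂ × E → ℂ),
      (∀ i, DifferentiableOn ℂ (g i) (BB E 1)) ∧ DifferentiableOn ℂ g₀ (BB E 1) ∧
      (∀ i, ∀ q ∈ BB E 1, ‖g i q‖ ≤ C) ∧ (∀ q ∈ BB E 1, ‖g₀ q‖ ≤ C) ∧
      ∀ q ∈ BB E 1, ∑ i, f i ((r : ℂ) * q.1) * g i q + G ((r : ℂ) • q) * g₀ q = 1 := by
  have hr2 : r ^ 2 < 1 := by nlinarith
  have hball : ∀ q ∈ BB E 1, (r : ℂ) • q ∈ BB E 1 := by
    intro q hq
    have h1 : ‖q.1‖ ^ 2 + ‖q.2‖ ^ 2 < 1 := hq
    change ‖(r : ℂ) • q.1‖ ^ 2 + ‖(r : ℂ) • q.2‖ ^ 2 < 1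
    rw [norm_smul, norm_smul, Complex.norm_real, Real.norm_of_nonneg hr0.le, mul_pow, mul_pow]
    nlinarith [norm_nonneg q.1, norm_nonneg q.2, sq_nonneg ‖q.1‖, sq_nonneg ‖q.2‖]
  have hmul : ∀ (q : ℂ × E), ((r : ℂ) • q).1 = (r : ℂ) * q.1 := fun q => rfl
  obtain ⟨g, g₀, hg, hg0, hgb, hg0b, hid⟩ := H E (fun i w => f i ((r : ℂ) * ((w - I) / (w + I))))
    ((1 - r ^ 2) / 16) (by linarith) (by
      intro i
      have hm : MapsTo (fun w : ℂ => (r : ℂ) * ((w - I) / (w + I)))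
          {w : ℂ | -((1 - r ^ 2) / 16) < w.im} (ball 0 1) := by
        intro w hw
        rw [mem_ball_zero_iff]
        exact cay_small hr0 hr1 hw
      refine (hf i).comp ?_ hm
      have h2 : DifferentiableOn ℂ (fun w : ℂ => w + I) {w : ℂ | -((1 - r ^ 2) / 16) < w.im} := by
        fun_prop
      have h3 : DifferentiableOn ℂ (fun w : ℂ => w - I) {w : ℂ | -((1 - r ^ 2) / 16) < w.im} := by
        fun_prop
      refine (h3.div h2 ?_).const_mul _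
      intro w hw
      have hw' : -((1 - r ^ 2) / 16) < w.im := hw
      exact add_I_ne (by nlinarith))
    (by
      intro i w hw
      apply hfb
      rw [mem_ball_zero_iff, norm_mul, Complex.norm_real, Real.norm_of_nonneg hr0.le]
      have := cay_le_one hw
      nlinarith [norm_nonneg ((w - I) / (w + I))])
    (by
      intro i
      refine ⟨f i ((r : ℂ) * 1), ?_⟩
      refine Tendsto.mono_left ?_ inf_le_left
      have hmem : (r : ℂ) * 1 ∈ ball (0 : ℂ) 1 := by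
        rw [mem_ball_zero_iff, mul_one, Complex.norm_real, Real.norm_of_nonneg hr0.le]
        exact hr1
      have hc : ContinuousAt (f i) ((r : ℂ) * 1) :=
        ((hf i).differentiableAt (isOpen_ball.mem_nhds hmem)).continuousAt
      exact hc.tendsto.comp (cay_tendsto.const_mul (r : ℂ)))
    (fun p => G ((r : ℂ) • cayD p))
    (by
      refine hG.comp ((cayD_diff (E := E)).const_smul (r : ℂ)) ?_
      intro p hp
      exact hball _ (cayD_mem hp))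
    (fun p hp => hGb _ (hball _ (cayD_mem hp)))
    (by
      intro p hp hi
      refine hlow _ (hball _ (cayD_mem hp)) (fun i => ?_)
      have := hi i
      rw [hmul]
      change ‖f i ((r : ℂ) * ((p.1 - I) / (p.1 + I)))‖ < δ
      linarith)
  have hm : MapsTo (cayU (E := E)) (BB E 1) {p : ℂ × E | ‖p.2‖ ^ 2 < p.1.im} :=
    fun q hq => cayU_mem hq
  refine ⟨fun i q => g i (cayU q), fun q => g₀ (cayU q), fun i => (hg i).comp cayU_diff hm,
    hg0.comp cayU_diff hm, fun i q hq => hgb i _ (cayU_mem hq), fun q hq => hg0b _ (cayU_mem hq),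
    fun q hq => ?_⟩
  have h1 : q.1 ≠ 1 := by
    intro h0
    have h2 : ‖q.1‖ < 1 := fst_lt_one hq
    rw [h0] at h2
    simp at h2
  have h2 := hid _ (cayU_mem hq)
  have h3 : ((cayU q).1 - I) / ((cayU q).1 + I) = q.1 := congrArg Prod.fst (cayD_cayU h1)
  simp only [h3, cayD_cayU h1] at h2
  exact h2

theorem ball_E [FiniteDimensional ℂ E] {N : ℕ} {δ C : ℝ} (hδ : 0 < δ) (H : SiegelStatement N δ C)
    (f : Fin N → ℂ → ℂ) (hf : ∀ i, DifferentiableOn ℂ (f i) (ball 0 1))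
    (hfb : ∀ i, ∀ z ∈ ball (0 : ℂ) 1, ‖f i z‖ ≤ 1)
    (G : ℂ × E → ℂ) (hG : DifferentiableOn ℂ G (BB E 1)) (hGb : ∀ q ∈ BB E 1, ‖G q‖ ≤ 1)
    (hlow : ∀ q ∈ BB E 1, (∀ i, ‖f i q.1‖ < δ) → δ ≤ ‖G q‖) :
    ∃ (g : Fin N → ℂ × E → ℂ) (g₀ : ℂ × E → ℂ),
      (∀ i, DifferentiableOn ℂ (g i) (BB E 1)) ∧ DifferentiableOn ℂ g₀ (BB E 1) ∧
      (∀ i, ∀ q ∈ BB E 1, ‖g i q‖ ≤ C) ∧ (∀ q ∈ BB E 1, ‖g₀ q‖ ≤ C) ∧
      ∀ q ∈ BB E 1, ∑ i, f i q.1 * g i q + G q * g₀ q = 1 := by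
  set r : ℕ → ℝ := fun m => 1 - 1 / ((m : ℝ) + 2) with hr
  have hr0 : ∀ m, 0 < r m := by
    intro m
    have : (0 : ℝ) ≤ m := Nat.cast_nonneg m
    rw [hr]
    beta_reduce
    rw [sub_pos, div_lt_one (by linarith)]
    linarith
  have hr1 : ∀ m, r m < 1 := by
    intro m
    have : (0 : ℝ) ≤ m := Nat.cast_nonneg m
    rw [hr]
    beta_reduce
    have : 0 < 1 / ((m : ℝ) + 2) := by positivity
    linarith
  have hrt : Tendsto (fun m => ((r m : ℝ) : ℂ)) atTop (𝓝 1) := by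
    have h1 : Tendsto r atTop (𝓝 (1 - 0)) := by
      refine tendsto_const_nhds.sub ?_
      have h2 := (tendsto_one_div_add_atTop_nhds_zero_nat (𝕜 := ℝ))
      have h3 := h2.comp (tendsto_add_atTop_nat 1)
      refine h3.congr (fun m => ?_)
      simp only [Function.comp_apply]
      push_cast
      ring
    rw [sub_zero] at h1
    have h2 := (Complex.continuous_ofReal.tendsto 1).comp h1
    rw [Complex.ofReal_one] at h2
    exact h2
  have hsol := fun m => solve_r hδ H f hf hfb G hG hGb hlow (hr0 m) (hr1 m)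
  choose g g₀ hg hg0 hgb hg0b hid using hsol
  set 𝒰 : Ultrafilter ℕ := Ultrafilter.of atTop with h𝒰
  have hle : (𝒰 : Filter ℕ) ≤ atTop := Ultrafilter.of_le _
  have hul := fun i => ultra_lim (isOpen_BB (E := E) 1) 𝒰 (fun m => g m i) (fun m => hg m i)
    (fun m => hgb m i)
  choose u hu hub hut using hul
  obtain ⟨u0, hu0, hu0b, hu0t⟩ := ultra_lim (isOpen_BB (E := E) 1) 𝒰 g₀ hg0 hg0b
  refine ⟨u, u0, hu, hu0, hub, hu0b, fun q hq => ?_⟩
  have hq1 : q.1 ∈ ball (0 : ℂ) 1 := by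
    rw [mem_ball_zero_iff]
    exact fst_lt_one hq
  have hf1 : ∀ i, Tendsto (fun m => f i ((r m : ℂ) * q.1)) 𝒰 (𝓝 (f i q.1)) := by
    intro i
    have hc : ContinuousAt (f i) q.1 := ((hf i).differentiableAt (isOpen_ball.mem_nhds hq1)).continuousAt
    have h1 : Tendsto (fun m => (r m : ℂ) * q.1) atTop (𝓝 (1 * q.1)) := hrt.mul_const _
    rw [one_mul] at h1
    exact (hc.tendsto.comp h1).mono_left hle
  have hG1 : Tendsto (fun m => G ((r m : ℂ) • q)) 𝒰 (𝓝 (G q)) := by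
    have hc : ContinuousAt G q := (hG.differentiableAt ((isOpen_BB (E := E) 1).mem_nhds hq)).continuousAt
    have h1 : Tendsto (fun m => (r m : ℂ) • q) atTop (𝓝 ((1 : ℂ) • q)) := hrt.smul_const _
    rw [one_smul] at h1
    exact (hc.tendsto.comp h1).mono_left hle
  have h1 : Tendsto (fun m => ∑ i, f i ((r m : ℂ) * q.1) * g m i q + G ((r m : ℂ) • q) * g₀ m q) 𝒰
      (𝓝 (∑ i, f i q.1 * u i q + G q * u0 q)) := by
    refine Tendsto.add (tendsto_finsetSum _ fun i _ => ?_) ?_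
    · exact (hf1 i).mul (hut i q hq)
    · exact hG1.mul (hu0t q hq)
  have h2 : (fun m => ∑ i, f i ((r m : ℂ) * q.1) * g m i q + G ((r m : ℂ) • q) * g₀ m q)
      = fun _ => (1 : ℂ) := by
    funext m
    exact hid m q hq
  rw [h2] at h1
  exact tendsto_nhds_unique h1 tendsto_const_nhds

end TB

open Pool.Agent.H720R2.Cor (Ball)

theorem ball_of_siegel {N : ℕ} {δ C : ℝ} (hδ : 0 < δ) (H : SiegelStatement N δ C) (n : ℕ)
    (f : Fin N → ℂ → ℂ) (hf : ∀ i, DifferentiableOn ℂ (f i) (ball 0 1))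
    (hfb : ∀ i, ∀ z ∈ ball (0 : ℂ) 1, ‖f i z‖ ≤ 1)
    (G : (Fin (n + 1) → ℂ) → ℂ) (hG : DifferentiableOn ℂ G (Ball (n + 1)))
    (hGb : ∀ z ∈ Ball (n + 1), ‖G z‖ ≤ 1)
    (hlow : ∀ z ∈ Ball (n + 1), (∀ i, ‖f i (z 0)‖ < δ) → δ ≤ ‖G z‖) :
    ∃ (g : Fin N → (Fin (n + 1) → ℂ) → ℂ) (g₀ : (Fin (n + 1) → ℂ) → ℂ),
      (∀ i, DifferentiableOn ℂ (g i) (Ball (n + 1))) ∧ DifferentiableOn ℂ g₀ (Ball (n + 1)) ∧
      (∀ i, ∀ z ∈ Ball (n + 1), ‖g i z‖ ≤ C) ∧ (∀ z ∈ Ball (n + 1), ‖g₀ z‖ ≤ C) ∧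
      ∀ z ∈ Ball (n + 1), ∑ i, f i (z 0) * g i z + G z * g₀ z = 1 := by
  obtain ⟨g, g₀, hg, hg0, hgb, hg0b, hid⟩ := TB.ball_E (E := EuclideanSpace ℂ (Fin n)) hδ H f hf hfb
    (fun p => G (Cor.unspl p))
    (hG.comp Cor.unspl_diff.differentiableOn (fun p hp => Cor.unspl_mem hp))
    (fun p hp => hGb _ (Cor.unspl_mem hp))
    (fun p hp h => hlow _ (Cor.unspl_mem hp) h)
  refine ⟨fun i z => g i (Cor.spl z), fun z => g₀ (Cor.spl z),
    fun i => (hg i).comp Cor.spl_diff.differentiableOn (fun z hz => Cor.spl_mem hz),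
    hg0.comp Cor.spl_diff.differentiableOn (fun z hz => Cor.spl_mem hz),
    fun i z hz => hgb i _ (Cor.spl_mem hz), fun z hz => hg0b _ (Cor.spl_mem hz), fun z hz => ?_⟩
  have h1 := hid _ (Cor.spl_mem hz)
  simp only [Cor.unspl_spl] at h1
  exact h1

end Pool.Agent.H720R2.HP
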