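import Mathlib
import Pool.Agent.H720R2.HP.PDefs

/-!
Poisson type sums over a packed family (task P2).
-/

set_option autoImplicit false

open MeasureTheory Metric Set Filter Topology Complex
open scoped ContDiff

namespace Pool.Agent.H720R2.HP

private noncomputable def bet (m : ℤ) : ℝ :=
  if |m| ≤ 1 then 21 else 21 / 16 / ((|m| : ℤ) - 1 : ℝ) ^ 2

private theorem bet_nonneg (m : ℤ) : 0 ≤ bet m := by
  unfold bet
  split_ifs <;> positivity

private theorem bet_large (n : ℕ) : bet ((n : ℤ) + 2) = 21 / 16 / ((n : ℝ) + 1) ^ 2 ∧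
    bet (-((n : ℤ) + 2)) = 21 / 16 / ((n : ℝ) + 1) ^ 2 := by
  have h1 : |((n : ℤ) + 2)| = (n : ℤ) + 2 := abs_of_nonneg (by positivity)
  have h2 : |(-((n : ℤ) + 2))| = (n : ℤ) + 2 := by rw [abs_neg, h1]
  unfold bet
  rw [h1, h2, if_neg (by omega)]
  refine ⟨?_, ?_⟩ <;>
  · push_cast
    congr 2
    ring

private theorem bet_sum (n : ℕ) : ∑ m ∈ Finset.Icc (-((n : ℤ) + 1)) ((n : ℤ) + 1), bet m ≤
    63 + 21 / 4 * (1 - 1 / ((n : ℝ) + 1)) := by
  induction n with
  | zero =>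
    have h : Finset.Icc (-(((0 : ℕ) : ℤ) + 1)) (((0 : ℕ) : ℤ) + 1) = {-1, 0, 1} := by decide
    rw [h]
    have h1 : (-1 : ℤ) ∉ ({0, 1} : Finset ℤ) := by decide
    have h2 : (0 : ℤ) ∉ ({1} : Finset ℤ) := by decide
    rw [Finset.sum_insert h1, Finset.sum_insert h2, Finset.sum_singleton]
    norm_num [bet]
  | succ n ih =>
    have h : Finset.Icc (-(((n + 1 : ℕ) : ℤ) + 1)) (((n + 1 : ℕ) : ℤ) + 1) =
        insert ((n : ℤ) + 2) (insert (-((n : ℤ) + 2)) (Finset.Icc (-((n : ℤ) + 1)) ((n : ℤ) + 1))) := by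
      ext m
      simp only [Finset.mem_Icc, Finset.mem_insert]
      push_cast
      omega
    have h1 : (-((n : ℤ) + 2)) ∉ Finset.Icc (-((n : ℤ) + 1)) ((n : ℤ) + 1) := by
      rw [Finset.mem_Icc]; omega
    have h2 : ((n : ℤ) + 2) ∉ insert (-((n : ℤ) + 2)) (Finset.Icc (-((n : ℤ) + 1)) ((n : ℤ) + 1)) := by
      rw [Finset.mem_insert, Finset.mem_Icc]; omega
    rw [h, Finset.sum_insert h2, Finset.sum_insert h1, (bet_large n).1, (bet_large n).2]
    have hn : (0 : ℝ) ≤ n := Nat.cast_nonneg n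
    have h3 : 1 / ((n : ℝ) + 1) ^ 2 ≤ 2 * (1 / ((n : ℝ) + 1) - 1 / ((n : ℝ) + 1 + 1)) := by
      rw [div_sub_div _ _ (by positivity) (by positivity), ← mul_div_assoc,
        div_le_div_iff₀ (by positivity) (by positivity)]
      nlinarith
    have h4 : 21 / 16 / ((n : ℝ) + 1) ^ 2 = 21 / 16 * (1 / ((n : ℝ) + 1) ^ 2) := by ring
    rw [h4]
    push_cast
    nlinarith

private theorem bet_sum' (F : Finset ℤ) : ∑ m ∈ F, bet m ≤ 100 := by
  obtain ⟨n, hn⟩ : ∃ n : ℕ, F ⊆ Finset.Icc (-((n : ℤ) + 1)) ((n : ℤ) + 1) := by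
    refine ⟨∑ m ∈ F, m.natAbs, fun m hm => ?_⟩
    have h1 : m.natAbs ≤ ∑ m ∈ F, m.natAbs := Finset.single_le_sum (fun _ _ => Nat.zero_le _) hm
    rw [Finset.mem_Icc]
    omega
  refine (Finset.sum_le_sum_of_subset_of_nonneg hn fun m _ _ => bet_nonneg m).trans
    ((bet_sum n).trans ?_)
  have : 0 ≤ 1 / ((n : ℝ) + 1) := by positivity
  linarith

private theorem pos_box (Λ : ℝ) (k j : ℕ × ℤ) (hjk : k.1 ≤ j.1) (hΛ : 0 < Λ) :
    ((j.2 / 2 ^ (j.1 - k.1) : ℤ) : ℝ) * (Λ * (1 / 2) ^ k.1) ≤ (cen Λ j).re ∧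
      (cen Λ j).re ≤ (((j.2 / 2 ^ (j.1 - k.1) : ℤ) : ℝ) + 1) * (Λ * (1 / 2) ^ k.1) := by
  set L : ℝ := Λ * (1 / 2) ^ k.1 with hL
  have hLpos : 0 < L := by positivity
  obtain ⟨D, hD⟩ : ∃ D : ℤ, D = 2 ^ (j.1 - k.1) := ⟨_, rfl⟩
  obtain ⟨n', hn'⟩ : ∃ n' : ℤ, n' = j.2 / D := ⟨_, rfl⟩
  rw [← hD, ← hn']
  have hDpos : 0 < D := by rw [hD]; positivity
  have hn1 : D * n' ≤ j.2 := by rw [hn']; exact Int.mul_ediv_self_le hDpos.ne'
  have hn2 : j.2 < D * n' + D := by
    rw [hn']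
    exact Int.lt_mul_ediv_self_add (x := j.2) hDpos
  obtain ⟨q, hq⟩ : ∃ q : ℝ, q = (1 / 2 : ℝ) ^ (j.1 - k.1) := ⟨_, rfl⟩
  have hqpos : 0 < q := by rw [hq]; positivity
  have hDr : (D : ℝ) * q = 1 := by
    rw [hD, hq]
    push_cast
    rw [← mul_pow]
    norm_num
  have hre : (cen Λ j).re = (j.2 + 1 / 2) * (L * q) := by
    change (j.2 + 1 / 2 : ℝ) * (Λ * (1 / 2 : ℝ) ^ j.1) = _
    rw [hL, hq, mul_assoc Λ, ← pow_add]
    congr 4
    omega
  have hn1' : (D : ℝ) * n' ≤ j.2 := by exact_mod_cast hn1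
  have hn2' : (j.2 : ℝ) + 1 ≤ D * n' + D := by
    have : j.2 + 1 ≤ D * n' + D := hn2
    exact_mod_cast this
  have hw : 0 < L * q := by positivity
  rw [hre]
  constructor
  · have : (n' : ℝ) * L = (D * n') * (L * q) := by
      calc (n' : ℝ) * L = n' * L * (D * q) := by rw [hDr, mul_one]
        _ = _ := by ring
    rw [this]
    exact mul_le_mul_of_nonneg_right (by linarith) hw.le
  · have : ((n' : ℝ) + 1) * L = (D * n' + D) * (L * q) := by
      calc ((n' : ℝ) + 1) * L = (n' + 1) * L * (D * q) := by rw [hDr, mul_one]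
        _ = _ := by ring
    rw [this]
    exact mul_le_mul_of_nonneg_right (by linarith) hw.le

theorem Pk.kernel {C : ℝ} {T : Finset (ℕ × ℤ)} (h : Pk C T) (hC : 0 ≤ C) {Λ : ℝ} (hΛ : 0 < Λ)
    {k : ℕ × ℤ} (hk : k ∈ T) {ζ : ℂ} (h1 : 0 < ζ.im)
    (h1' : Λ * (1 / 2) ^ k.1 / 4 ≤ ζ.im ∨ ∀ j ∈ T, j.1 ≤ k.1)
    (h2 : ζ.im ≤ Λ * (1 / 2) ^ k.1)
    (h3 : |ζ.re - (cen Λ k).re| ≤ Λ * (1 / 2) ^ k.1 / 2) :
    ∑ j ∈ T.filter (fun j => (cen Λ j).im ≤ (cen Λ k).im),
      (cen Λ j).im * (ζ.im + (cen Λ j).im) / ‖ζ - starRingEnd ℂ (cen Λ j)‖ ^ 2 ≤ 100 * C := by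
  classical
  set L : ℝ := Λ * (1 / 2) ^ k.1 with hL
  have hLpos : 0 < L := by positivity
  set t : ℕ × ℤ → ℝ := fun j =>
    (cen Λ j).im * (ζ.im + (cen Λ j).im) / ‖ζ - starRingEnd ℂ (cen Λ j)‖ ^ 2 with ht
  set T' := T.filter (fun j => (cen Λ j).im ≤ (cen Λ k).im) with hT'
  set g : ℕ × ℤ → ℤ := fun j => j.2 / 2 ^ (j.1 - k.1) - k.2 with hg
  -- basic facts
  have hC1 : 1 ≤ C := by
    have h4 := h k
    have h5 : (1 / 2 : ℝ) ^ k.1 ≤ ∑ j ∈ T.filter (fun j => desc k j), (1 / 2 : ℝ) ^ j.1 :=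
      Finset.single_le_sum (f := fun j : ℕ × ℤ => (1 / 2 : ℝ) ^ j.1) (fun _ _ => by positivity)
        (Finset.mem_filter.2 ⟨hk, le_rfl, by simp⟩)
    have h6 : (0 : ℝ) < (1 / 2 : ℝ) ^ k.1 := by positivity
    have h7 : (1 / 2 : ℝ) ^ k.1 ≤ C * (1 / 2) ^ k.1 := h5.trans h4
    nlinarith
  have hmem : ∀ j ∈ T', j ∈ T ∧ k.1 ≤ j.1 := by
    intro j hj
    rw [hT', Finset.mem_filter] at hj
    refine ⟨hj.1, ?_⟩
    have h4 : 3 / 4 * (Λ * (1 / 2 : ℝ) ^ j.1) ≤ 3 / 4 * (Λ * (1 / 2 : ℝ) ^ k.1) := hj.2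
    have h5 : (1 / 2 : ℝ) ^ j.1 ≤ (1 / 2 : ℝ) ^ k.1 := by
      have : 0 < 3 / 4 * Λ := by positivity
      nlinarith
    exact (pow_le_pow_iff_right_of_lt_one₀ (by norm_num) (by norm_num)).1 h5
  -- the norm
  have hnorm : ∀ j : ℕ × ℤ, ‖ζ - starRingEnd ℂ (cen Λ j)‖ ^ 2 =
      (ζ.re - (cen Λ j).re) ^ 2 + (ζ.im + (cen Λ j).im) ^ 2 := by
    intro j
    rw [Complex.sq_norm, Complex.normSq_apply]
    simp only [sub_re, sub_im, conj_re, conj_im, sub_neg_eq_add]
    ring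
  have hLj : ∀ j ∈ T', (cen Λ j).im = 3 / 4 * (L * (1 / 2) ^ (j.1 - k.1)) ∧
      (0 : ℝ) < (1 / 2 : ℝ) ^ (j.1 - k.1) ∧ (1 / 2 : ℝ) ^ (j.1 - k.1) ≤ 1 := by
    intro j hj
    have h4 := (hmem j hj).2
    refine ⟨?_, by positivity, pow_le_one₀ (by norm_num) (by norm_num)⟩
    change 3 / 4 * (Λ * (1 / 2 : ℝ) ^ j.1) = _
    rw [hL, mul_assoc Λ, ← pow_add]
    congr 4
    omega
  -- group sums
  have hgroup : ∀ m : ℤ, ∑ j ∈ T' with g j = m, (1 / 2 : ℝ) ^ (j.1 - k.1) ≤ C := by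
    intro m
    have h4 := h (k.1, m + k.2)
    have h5 : ∑ j ∈ T' with g j = m, (1 / 2 : ℝ) ^ j.1 ≤
        ∑ j ∈ T.filter (fun j => desc (k.1, m + k.2) j), (1 / 2 : ℝ) ^ j.1 := by
      apply Finset.sum_le_sum_of_subset_of_nonneg
      · intro j hj
        rw [Finset.mem_filter] at hj
        rw [Finset.mem_filter]
        refine ⟨(hmem j hj.1).1, (hmem j hj.1).2, ?_⟩
        have := hj.2
        simp only [hg] at this
        simp only
        omega
      · intro j _ _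
        positivity
    have h6 : ∑ j ∈ T' with g j = m, (1 / 2 : ℝ) ^ j.1 =
        (∑ j ∈ T' with g j = m, (1 / 2 : ℝ) ^ (j.1 - k.1)) * (1 / 2) ^ k.1 := by
      rw [Finset.sum_mul]
      refine Finset.sum_congr rfl fun j hj => ?_
      rw [Finset.mem_filter] at hj
      have := (hmem j hj.1).2
      rw [← pow_add, Nat.sub_add_cancel this]
    rw [h6] at h5
    have h7 : (0 : ℝ) < (1 / 2 : ℝ) ^ k.1 := by positivity
    have h8 := h5.trans h4
    simp only at h8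
    exact le_of_mul_le_mul_right h8 h7
  -- one group
  have hone : ∀ m : ℤ, ∑ j ∈ T' with g j = m, t j ≤ bet m * C := by
    intro m
    have hnum : ∀ j ∈ T', (cen Λ j).im * (ζ.im + (cen Λ j).im) ≤
        21 / 16 * L ^ 2 * (1 / 2) ^ (j.1 - k.1) ∧ 0 ≤ (cen Λ j).im * (ζ.im + (cen Λ j).im) ∧
        0 < (cen Λ j).im := by
      intro j hj
      obtain ⟨h4, h5, h6⟩ := hLj j hj
      rw [h4]
      have h7 : 0 < L * (1 / 2 : ℝ) ^ (j.1 - k.1) := by positivity
      have h8 : L * (1 / 2 : ℝ) ^ (j.1 - k.1) ≤ L := by nlinarith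
      refine ⟨?_, by positivity, by positivity⟩
      have h9 : ζ.im + 3 / 4 * (L * (1 / 2 : ℝ) ^ (j.1 - k.1)) ≤ 7 / 4 * L := by linarith
      calc 3 / 4 * (L * (1 / 2 : ℝ) ^ (j.1 - k.1)) * (ζ.im + 3 / 4 * (L * (1 / 2 : ℝ) ^ (j.1 - k.1)))
          ≤ 3 / 4 * (L * (1 / 2 : ℝ) ^ (j.1 - k.1)) * (7 / 4 * L) :=
            mul_le_mul_of_nonneg_left h9 (by positivity)
        _ = _ := by ring
    by_cases hm : |m| ≤ 1
    · have hb : bet m = 21 := by unfold bet; rw [if_pos hm]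
      rw [hb]
      rcases h1' with h1' | h1'
      · -- the height is at least `L / 4`
        have h4 : ∀ j ∈ T'.filter (fun j => g j = m), t j ≤ 21 * (1 / 2) ^ (j.1 - k.1) := by
          intro j hj
          rw [Finset.mem_filter] at hj
          obtain ⟨h5, h6, h7⟩ := hnum j hj.1
          have h8 : L ^ 2 / 16 ≤ ‖ζ - starRingEnd ℂ (cen Λ j)‖ ^ 2 := by
            rw [hnorm]
            nlinarith [sq_nonneg (ζ.re - (cen Λ j).re)]
          have h9 : 0 < L ^ 2 / 16 := by positivity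
          simp only [ht]
          rw [div_le_iff₀ (lt_of_lt_of_le h9 h8)]
          have h10 : 0 < (1 / 2 : ℝ) ^ (j.1 - k.1) := by positivity
          nlinarith [mul_le_mul_of_nonneg_left h8 h10.le]
        refine (Finset.sum_le_sum h4).trans ?_
        rw [← Finset.mul_sum]
        exact mul_le_mul_of_nonneg_left (hgroup m) (by norm_num)
      · -- all boxes have the same generation
        have h4 : T'.filter (fun j => g j = m) ⊆ {(k.1, m + k.2)} := by
          intro j hj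
          rw [Finset.mem_filter] at hj
          rw [Finset.mem_singleton]
          have h5 := hmem j hj.1
          have h6 : j.1 = k.1 := le_antisymm (h1' j h5.1) h5.2
          have h7 := hj.2
          simp only [hg] at h7
          rw [h6, Nat.sub_self, pow_zero, Int.ediv_one] at h7
          exact Prod.ext h6 (by simp only; omega)
        have h5 : ∀ j ∈ T'.filter (fun j => g j = m), t j ≤ 1 := by
          intro j hj
          rw [Finset.mem_filter] at hj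
          obtain ⟨h5, h6, h7⟩ := hnum j hj.1
          have h8 : (ζ.im + (cen Λ j).im) ^ 2 ≤ ‖ζ - starRingEnd ℂ (cen Λ j)‖ ^ 2 := by
            rw [hnorm]
            nlinarith [sq_nonneg (ζ.re - (cen Λ j).re)]
          simp only [ht]
          rw [div_le_iff₀ (lt_of_lt_of_le (by positivity) h8)]
          nlinarith
        have h6 : ∑ j ∈ T' with g j = m, t j ≤ ((T'.filter (fun j => g j = m)).card : ℝ) := by
          refine (Finset.sum_le_sum h5).trans ?_
          simp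
        have h7 : ((T'.filter (fun j => g j = m)).card : ℝ) ≤ 1 := by
          exact_mod_cast (Finset.card_le_card h4).trans (by simp)
        linarith
    · -- far groups
      have hb : bet m = 21 / 16 / ((|m| : ℤ) - 1 : ℝ) ^ 2 := by unfold bet; rw [if_neg hm]
      rw [hb]
      have hm2 : (2 : ℝ) ≤ ((|m| : ℤ) : ℝ) := by
        have : (2 : ℤ) ≤ |m| := by omega
        exact_mod_cast this
      set d : ℝ := ((|m| : ℤ) : ℝ) - 1 with hd
      have hd1 : 1 ≤ d := by linarith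
      have h4 : ∀ j ∈ T'.filter (fun j => g j = m), t j ≤ 21 / 16 / d ^ 2 * (1 / 2) ^ (j.1 - k.1) := by
        intro j hj
        rw [Finset.mem_filter] at hj
        obtain ⟨h5, h6, h7⟩ := hnum j hj.1
        obtain ⟨h8, h9, h10⟩ := hLj j hj.1
        have hjk := (hmem j hj.1).2
        obtain ⟨hu1, hu2⟩ := pos_box Λ k j hjk hΛ
        rw [← hL] at hu1 hu2
        have hck : (cen Λ k).re = (k.2 + 1 / 2) * L := rfl
        rw [hck, abs_le] at h3
        have hgm : j.2 / 2 ^ (j.1 - k.1) = m + k.2 := by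
          have := hj.2
          simp only [hg] at this
          omega
        rw [hgm] at hu1 hu2
        push_cast at hu1 hu2
        have hfar : d ^ 2 * L ^ 2 ≤ ‖ζ - starRingEnd ℂ (cen Λ j)‖ ^ 2 := by
          rw [hnorm]
          have h11 : d * L ≤ |ζ.re - (cen Λ j).re| := by
            rcases le_or_gt 0 m with h12 | h12
            · have h13 : ((|m| : ℤ) : ℝ) = m := by rw [abs_of_nonneg h12]
              rw [hd, h13]
              rw [abs_sub_comm]
              refine le_trans ?_ (le_abs_self _)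
              nlinarith [h3.1, h3.2]
            · have h13 : ((|m| : ℤ) : ℝ) = -m := by rw [abs_of_neg h12]; push_cast; ring
              rw [hd, h13]
              refine le_trans ?_ (le_abs_self _)
              nlinarith [h3.1, h3.2]
          have h14 : (d * L) ^ 2 ≤ (ζ.re - (cen Λ j).re) ^ 2 := by
            rw [← sq_abs (ζ.re - (cen Λ j).re)]
            exact pow_le_pow_left₀ (by positivity) h11 2
          nlinarith [sq_nonneg (ζ.im + (cen Λ j).im)]
        have h15 : 0 < d ^ 2 * L ^ 2 := by positivity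
        simp only [ht]
        rw [div_le_iff₀ (lt_of_lt_of_le h15 hfar)]
        refine h5.trans ?_
        have h16 : 21 / 16 * L ^ 2 * (1 / 2 : ℝ) ^ (j.1 - k.1) =
            21 / 16 / d ^ 2 * (1 / 2 : ℝ) ^ (j.1 - k.1) * (d ^ 2 * L ^ 2) := by
          field_simp
        rw [h16]
        exact mul_le_mul_of_nonneg_left hfar (by positivity)
      refine (Finset.sum_le_sum h4).trans ?_
      rw [← Finset.mul_sum]
      exact mul_le_mul_of_nonneg_left (hgroup m) (by positivity)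
  -- assembly
  have hfib : ∑ j ∈ T', t j = ∑ m ∈ T'.image g, ∑ j ∈ T' with g j = m, t j :=
    (Finset.sum_fiberwise_of_maps_to (fun j hj => Finset.mem_image_of_mem g hj) t).symm
  rw [hfib]
  refine (Finset.sum_le_sum fun m _ => hone m).trans ?_
  rw [← Finset.sum_mul]
  exact mul_le_mul_of_nonneg_right (bet_sum' _) hC

end Pool.Agent.H720R2.HP
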