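import Mathlib
import Pool.Agent.H720R2.HP.Cut1
import Pool.Agent.H720R2.HP.Asm
import Pool.Agent.H720R2.HP.T_P2
import Pool.Agent.H720R2.HP.T_B

/-!
The cutoff functions of `N` functions, and the corona theorem on the Siegel domain.
-/

set_option autoImplicit false

open MeasureTheory Metric Set Filter Topology Complex
open scoped ContDiff

namespace Pool.Agent.H720R2.HP

/-- derivative of a finite product of functions bounded by one -/
theorem fderiv_prod_le {N : ℕ} (φ : Fin N → ℂ → ℝ) {w : ℂ} (hd : ∀ j, DifferentiableAt ℝ (φ j) w)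
    (hb : ∀ j, |φ j w| ≤ 1) :
    ‖fderiv ℝ (fun z => ∏ j, φ j z) w‖ ≤ ∑ j, ‖fderiv ℝ (φ j) w‖ := by
  classical
  have h1 := HasFDerivAt.finset_prod (u := Finset.univ) (g := φ)
    (g' := fun j => fderiv ℝ (φ j) w) (x := w) (fun j _ => (hd j).hasFDerivAt)
  rw [h1.fderiv]
  refine (norm_sum_le _ _).trans (Finset.sum_le_sum (fun j _ => ?_))
  rw [norm_smul, Real.norm_eq_abs, Finset.abs_prod]
  refine mul_le_of_le_one_left (norm_nonneg _) ?_
  exact Finset.prod_le_one (fun _ _ => abs_nonneg _) (fun i _ => hb i)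

/-- the factors -/
noncomputable def fac {N : ℕ} (p : Fin N → ℂ → ℝ) (o : Option (Fin N)) (j : Fin N) (w : ℂ) : ℝ :=
  match o with
  | none => 1 - p j w
  | some i => if j < i then 1 - p j w else if j = i then p j w else 1

theorem fac_cases {N : ℕ} (p : Fin N → ℂ → ℝ) (o : Option (Fin N)) (j : Fin N) :
    (fac p o j = fun w => 1 - p j w) ∨ (fac p o j = fun w => p j w) ∨ (fac p o j = fun _ => 1) := by
  cases o with
  | none => exact Or.inl rfl
  | some i =>
    unfold fac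
    simp only
    split_ifs with h1 h2
    · exact Or.inl rfl
    · exact Or.inr (Or.inl rfl)
    · exact Or.inr (Or.inr rfl)

theorem fac_sum {N : ℕ} (p : Fin N → ℂ → ℝ) (w : ℂ) :
    ∑ o : Option (Fin N), ∏ j, fac p o j w = 1 := by
  classical
  rw [Fintype.sum_option]
  have h1 := Finset.prod_one_sub_ordered (Finset.univ : Finset (Fin N)) (fun j => p j w)
  have h2 : ∀ i : Fin N, ∏ j, fac p (some i) j w =
      p i w * ∏ j ∈ Finset.univ.filter (fun j => j < i), (1 - p j w) := by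
    intro i
    have h3 : ∀ j, fac p (some i) j w =
        (if j < i then 1 - p j w else 1) * (if j = i then p j w else 1) := by
      intro j
      unfold fac
      simp only
      by_cases h4 : j < i
      · rw [if_pos h4, if_pos h4, if_neg (ne_of_lt h4), mul_one]
      · rw [if_neg h4, if_neg h4, one_mul]
    simp only [h3]
    rw [Finset.prod_mul_distrib, Finset.prod_ite_eq' Finset.univ i (fun j => p j w),
      if_pos (Finset.mem_univ i), mul_comm, Finset.prod_filter]
  simp only [h2]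
  have h3 : ∏ j, fac p none j w = ∏ j, (1 - p j w) := rfl
  rw [h3, h1]
  ring

theorem unif_far {f : ℂ → ℂ} {η : ℝ} (hn : Nice f η) {c : ℂ}
    (hc : Tendsto f (Bornology.cobounded ℂ ⊓ 𝓟 {w : ℂ | 0 ≤ w.im}) (𝓝 c)) {κ : ℝ} (hκ : 0 < κ) :
    (∀ᶠ Λ : ℝ in atTop, ∀ w : ℂ, 0 ≤ w.im → Λ / 2 ≤ ‖w‖ → ‖f w - c‖ ≤ κ) ∧
    ∀ᶠ h : ℝ in 𝓝[>] 0, ∀ w : ℂ, 0 ≤ w.im → ‖f (w + h * I) - f w‖ ≤ κ := by
  have key : ∀ κ' : ℝ, 0 < κ' → ∃ R : ℝ, ∀ w : ℂ, 0 ≤ w.im → R ≤ ‖w‖ → ‖f w - c‖ ≤ κ' := by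
    intro κ' hκ'
    have h1 : ∀ᶠ w in Bornology.cobounded ℂ ⊓ 𝓟 {w : ℂ | 0 ≤ w.im}, dist (f w) c < κ' :=
      hc.eventually (Metric.ball_mem_nhds c hκ')
    rw [Filter.eventually_inf_principal] at h1
    obtain ⟨R, -, hR⟩ := (Metric.hasBasis_cobounded_compl_closedBall (0 : ℂ)).eventually_iff.1 h1
    refine ⟨R + 1, fun w hw hw2 => ?_⟩
    have h2 : w ∈ (closedBall (0 : ℂ) R)ᶜ := by
      intro h3
      have h4 : ‖w‖ ≤ R := by simpa using h3
      linarith
    have h3 := hR h2 hw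
    rw [dist_eq_norm] at h3
    exact h3.le
  constructor
  · obtain ⟨R, hR⟩ := key κ hκ
    filter_upwards [eventually_ge_atTop (2 * R)] with Λ hΛ w hw hw2
    exact hR w hw (by linarith)
  · obtain ⟨R, hR⟩ := key (κ / 2) (by positivity)
    set K : Set ℂ := closedBall (0 : ℂ) (|R| + 2) ∩ {w : ℂ | 0 ≤ w.im} with hK
    have hKc : IsCompact K := (isCompact_closedBall _ _).inter_right
      (isClosed_le continuous_const Complex.continuous_im)
    have hfK : ContinuousOn f K := fun w hw =>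
      (hn.diffAt hw.2).continuousAt.continuousWithinAt
    have hu := hKc.uniformContinuousOn_of_continuous hfK
    rw [Metric.uniformContinuousOn_iff] at hu
    obtain ⟨δ, hδ, hδ2⟩ := hu κ hκ
    have hmem : Ioo (0 : ℝ) (min δ 1) ∈ 𝓝[>] (0 : ℝ) := Ioo_mem_nhdsGT (lt_min hδ one_pos)
    filter_upwards [hmem] with h hh w hw
    obtain ⟨hh0, hh1⟩ := hh
    have hhδ : h < δ := lt_of_lt_of_le hh1 (min_le_left _ _)
    have hh11 : h < 1 := lt_of_lt_of_le hh1 (min_le_right _ _)
    have him : (w + h * I).im = w.im + h := by simp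
    have hwim : 0 ≤ (w + h * I).im := by rw [him]; linarith
    have hdist : ‖(w + h * I) - w‖ = h := by
      rw [add_sub_cancel_left, norm_mul, Complex.norm_I, mul_one, Complex.norm_real,
        Real.norm_of_nonneg hh0.le]
    rcases le_or_gt ‖w‖ (|R| + 1) with hle | hgt
    · have h1 : ‖w + h * I‖ ≤ |R| + 2 := by
        have h2 : ‖w + h * I‖ ≤ ‖w‖ + ‖(w + h * I) - w‖ := by
          have h3 : w + h * I = w + ((w + h * I) - w) := by ring
          calc ‖w + h * I‖ = ‖w + ((w + h * I) - w)‖ := by rw [← h3]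
            _ ≤ _ := norm_add_le _ _
        rw [hdist] at h2
        linarith
      have h3 := hδ2 (w + h * I) ⟨by simpa using h1, hwim⟩ w
        ⟨by rw [mem_closedBall, dist_zero_right]; linarith, hw⟩ (by rw [dist_eq_norm, hdist]; exact hhδ)
      rw [dist_eq_norm] at h3
      exact h3.le
    · have hRw : R ≤ ‖w‖ := by linarith [le_abs_self R]
      have h2 : ‖w‖ ≤ ‖w + h * I‖ + ‖(w + h * I) - w‖ := by
        have h3 : w = (w + h * I) - ((w + h * I) - w) := by ring
        calc ‖w‖ = ‖(w + h * I) - ((w + h * I) - w)‖ := by rw [← h3]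
          _ ≤ _ := norm_sub_le _ _
      rw [hdist] at h2
      have h3 := hR w hw hRw
      have h4 := hR (w + h * I) hwim (by linarith [le_abs_self R])
      have h5 : f (w + h * I) - f w = (f (w + h * I) - c) - (f w - c) := by ring
      rw [h5]
      refine (norm_sub_le _ _).trans ?_
      linarith

theorem cutN (N : ℕ) {ε : ℝ} (hε : 0 < ε) (hε1 : ε ≤ 1) : ∃ ε' C : ℝ, 0 < ε' ∧ 0 < C ∧
    ∀ (f : Fin N → ℂ → ℂ) (η : ℝ), (∀ i, Nice (f i) η) →
      (∀ i, ∃ c : ℂ, Tendsto (f i) (Bornology.cobounded ℂ ⊓ 𝓟 {w : ℂ | 0 ≤ w.im}) (𝓝 c)) →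
      ∃ (S : Finset (ℕ × ℤ)) (a : ℕ × ℤ → ℂ) (R : ℕ × ℤ → Set ℂ) (χ : Option (Fin N) → ℂ → ℂ),
        CutP f ε ε' C S a R χ := by
  classical
  obtain ⟨ε', C, κ, hε', hC, hκ, hcut⟩ := cut1 hε hε1
  refine ⟨ε', (100 * (N * C)) + (3 / 2 * (N * C)) + 1, hε', by positivity, ?_⟩
  intro f η hn hlim
  choose c hc using hlim
  have hΛ : ∃ Λ : ℝ, 0 < Λ ∧ ∀ i, ∀ w : ℂ, 0 ≤ w.im → Λ / 2 ≤ ‖w‖ → ‖f i w - c i‖ ≤ κ := by
    have h1 := eventually_all.2 (fun i => (unif_far (hn i) (hc i) hκ).1)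
    obtain ⟨Λ, hΛ1, hΛ2⟩ := (h1.and (eventually_gt_atTop (0 : ℝ))).exists
    exact ⟨Λ, hΛ2, hΛ1⟩
  obtain ⟨Λ, hΛ0, hΛ1⟩ := hΛ
  have hJ : ∃ J : ℕ, 1 ≤ J ∧ ∀ i, ∀ w : ℂ, 0 ≤ w.im → ‖f i (w + ln Λ J * I) - f i w‖ ≤ κ := by
    have h1 := eventually_all.2 (fun i => (unif_far (hn i) (hc i) hκ).2)
    have h2 : Tendsto (fun J : ℕ => ln Λ J) atTop (𝓝[>] 0) := by
      rw [tendsto_nhdsWithin_iff]
      constructor
      · have h3 := (tendsto_pow_atTop_nhds_zero_of_lt_one (r := (1 / 2 : ℝ)) (by norm_num)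
          (by norm_num)).const_mul Λ
        rw [mul_zero] at h3
        exact h3
      · exact Eventually.of_forall (fun J => ln_pos hΛ0 J)
    obtain ⟨J, hJ1, hJ2⟩ := ((h2.eventually h1).and (eventually_ge_atTop 1)).exists
    exact ⟨J, hJ2, hJ1⟩
  obtain ⟨J, hJ0, hJ1⟩ := hJ
  choose p Sf hS1 hS2 hp1 hp2 hp3 hp4 hp5 hp6 using fun i =>
    hcut (f i) η (c i) Λ J (hn i) hΛ0 hJ0 (hΛ1 i) (hJ1 i)
  set S : Finset (ℕ × ℤ) := Finset.univ.biUnion Sf with hS
  have hSJ : ∀ j ∈ S, j.1 < J := by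
    intro j hj
    obtain ⟨i, -, hi⟩ := Finset.mem_biUnion.1 hj
    exact hS1 i j hi
  have hSpk : Pk (N * C) S := by
    have key : ∀ T : Finset (Fin N), Pk (T.card * C) (T.biUnion Sf) := by
      intro T
      induction T using Finset.induction_on with
      | empty =>
        intro q
        simp
      | insert i T hi ih =>
        rw [Finset.biUnion_insert, Finset.card_insert_of_notMem hi]
        have h1 := (hS2 i).union ih
        have h2 : ((T.card + 1 : ℕ) : ℝ) * C = C + T.card * C := by push_cast; ring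
        rw [h2]
        exact h1
    have h1 := key Finset.univ
    rwa [Finset.card_univ, Fintype.card_fin] at h1
  set R : ℕ × ℤ → Set ℂ := fun j => {w : ℂ | w + ln Λ J * I ∈ Tp Λ j} with hR
  set χ : Option (Fin N) → ℂ → ℂ := fun o w => ((∏ j, fac p o j w : ℝ) : ℂ) with hχ
  have hJpos := ln_pos hΛ0 J
  have hRfacts : ∀ j ∈ S, ∀ w ∈ R j, 0 < w.im ∧ ln Λ j.1 / 2 < w.im + ln Λ J ∧
      w.im + ln Λ J ≤ ln Λ j.1 ∧ |w.re - (cen Λ j).re| ≤ ln Λ j.1 / 2 := by
    intro j hj w hw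
    have hw' : w + ln Λ J * I ∈ Tp Λ j := hw
    have hre : (w + ln Λ J * I).re = w.re := by simp
    have him : (w + ln Λ J * I).im = w.im + ln Λ J := by simp
    have h1 := (Tp_sub hw').1
    obtain ⟨h2, h3, h4, h5⟩ := hw'
    rw [him] at h4 h5
    rw [hre] at h1
    have h6 := ln_anti hΛ0 (Nat.succ_le_of_lt (hSJ j hj))
    rw [Nat.succ_eq_add_one, ln_succ] at h6
    exact ⟨by linarith, h4, h5, h1⟩
  have hpd : ∀ i, ∀ w ∈ UH, DifferentiableAt ℝ (p i) w := fun i w hw =>
    ((hp1 i).differentiableOn one_ne_zero w hw).differentiableAt (isOpen_UH.mem_nhds hw)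
  have hfd : ∀ o j, ∀ w ∈ UH, DifferentiableAt ℝ (fac p o j) w := by
    intro o j w hw
    rcases fac_cases p o j with h | h | h <;> rw [h]
    · exact (differentiableAt_const _).sub (hpd j w hw)
    · exact hpd j w hw
    · exact differentiableAt_const _
  have hfb : ∀ o j, ∀ w ∈ UH, 0 ≤ fac p o j w ∧ fac p o j w ≤ 1 := by
    intro o j w hw
    have h1 := hp2 j w hw
    rcases fac_cases p o j with h | h | h <;> rw [h] <;> constructor <;> simp only <;> linarith [h1.1, h1.2]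
  have hfder : ∀ o j, ∀ w ∈ UH, ‖fderiv ℝ (fac p o j) w‖ ≤ ‖fderiv ℝ (p j) w‖ := by
    intro o j w hw
    rcases fac_cases p o j with h | h | h <;> rw [h]
    · rw [fderiv_const_sub, norm_neg]
    · rw [fderiv_const_apply, norm_zero]
      exact norm_nonneg _
  have hχd : ∀ o, ∀ w ∈ UH, ‖fderiv ℝ (χ o) w‖ ≤ ∑ j, ‖fderiv ℝ (p j) w‖ := by
    intro o w hw
    have h1 : fderiv ℝ (χ o) w =
        Complex.ofRealCLM.comp (fderiv ℝ (fun z => ∏ j, fac p o j z) w) := by
      have h2 : DifferentiableAt ℝ (fun z => ∏ j, fac p o j z) w :=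
        (HasFDerivAt.finset_prod (u := Finset.univ) (g := fac p o)
          (g' := fun j => fderiv ℝ (fac p o j) w) (x := w)
          (fun j _ => (hfd o j w hw).hasFDerivAt)).differentiableAt
      have h3 := (Complex.ofRealCLM.hasFDerivAt (x := ∏ j, fac p o j w)).comp w h2.hasFDerivAt
      exact h3.fderiv
    rw [h1]
    refine (ContinuousLinearMap.opNorm_comp_le _ _).trans ?_
    rw [Complex.ofRealCLM_norm, one_mul]
    refine (fderiv_prod_le _ (fun j => hfd o j w hw) (fun j => ?_)).trans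
      (Finset.sum_le_sum (fun j _ => hfder o j w hw))
    rw [abs_le]
    constructor <;> linarith [(hfb o j w hw).1, (hfb o j w hw).2]
  refine ⟨S, cen Λ, R, χ, ?_⟩
  refine
    { fam := ?_, smooth := ?_, bd := ?_, sum := ?_, small := ?_, large := ?_, grad := ?_,
      gradb := ?_ }
  · refine { ha := ?_, hm := ?_, hd := ?_, hR := ?_, hp := ?_ }
    · intro k _
      rw [cen_im]
      have := ln_pos hΛ0 k.1
      positivity
    · intro k _
      exact (Tp_meas Λ k).preimage (by fun_prop)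
    · intro k _ j _ hne
      rw [Set.disjoint_left]
      intro w hw hw'
      exact hne (Tp_unique hΛ0 hw hw')
    · intro k hk w hw
      obtain ⟨h1, h2, h3, h4⟩ := hRfacts k hk w hw
      refine ⟨h1, ?_⟩
      refine (Complex.norm_le_abs_re_add_abs_im _).trans ?_
      rw [Complex.sub_re, Complex.sub_im, cen_im]
      have h5 : |w.im - 3 / 4 * ln Λ k.1| ≤ ln Λ k.1 := by
        rw [abs_le]; constructor <;> linarith
      have := ln_pos hΛ0 k.1
      linarith
    · intro k hk ζ hζ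
      obtain ⟨h1, h2, h3, h4⟩ := hRfacts k hk ζ hζ
      have h5 : ζ.im ≤ Λ * (1 / 2) ^ k.1 := by
        have : ln Λ k.1 = Λ * (1 / 2) ^ k.1 := rfl
        rw [← this]
        linarith
      have h6 : Λ * (1 / 2) ^ k.1 / 4 ≤ ζ.im ∨ ∀ j ∈ S, j.1 ≤ k.1 := by
        rcases Nat.lt_or_ge (k.1 + 1) J with h | h
        · left
          have h7 : k.1 + 1 + 1 ≤ J := h
          have h8 := ln_anti hΛ0 h7
          rw [ln_succ, ln_succ] at h8
          have : ln Λ k.1 = Λ * (1 / 2) ^ k.1 := rfl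
          rw [← this]
          linarith
        · right
          intro j hj
          have := hSJ j hj
          omega
      have h7 := hSpk.kernel (by positivity) hΛ0 hk h1 h6 h5 (by
        have : ln Λ k.1 = Λ * (1 / 2) ^ k.1 := rfl
        rw [← this]
        exact h4)
      refine h7.trans ?_
      have : 0 ≤ 3 / 2 * (N * C) := by positivity
      linarith
  · intro o
    have h1 : ContDiffOn ℝ 1 (fun z => ∏ j, fac p o j z) UH := by
      refine contDiffOn_prod (fun j _ => ?_)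
      rcases fac_cases p o j with h | h | h <;> rw [h]
      · exact contDiffOn_const.sub (hp1 j)
      · exact hp1 j
      · exact contDiffOn_const
    exact Complex.ofRealCLM.contDiff.comp_contDiffOn h1
  · intro o w hw
    simp only [hχ]
    rw [Complex.norm_real, Real.norm_eq_abs, Finset.abs_prod]
    refine Finset.prod_le_one (fun _ _ => abs_nonneg _) (fun j _ => ?_)
    rw [abs_le]
    constructor <;> linarith [(hfb o j w hw).1, (hfb o j w hw).2]
  · intro w hw
    simp only [hχ]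
    rw [← Complex.ofReal_sum, fac_sum, Complex.ofReal_one]
  · intro w hw hne i
    refine hp4 i w hw (fun h1 => hne ?_)
    simp only [hχ]
    rw [Finset.prod_eq_zero (Finset.mem_univ i) (by simp [fac, h1]), Complex.ofReal_zero]
  · intro w hw i hne
    refine hp3 i w hw (fun h1 => hne ?_)
    simp only [hχ]
    rw [Finset.prod_eq_zero (Finset.mem_univ i) (by simp [fac, h1]), Complex.ofReal_zero]
  · intro w hw o hne
    have h1 : ∃ i, fderiv ℝ (p i) w ≠ 0 := by
      by_contra hcon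
      push Not at hcon
      have h2 := hχd o w hw
      rw [Finset.sum_eq_zero (fun i _ => by rw [hcon i, norm_zero])] at h2
      exact hne (norm_le_zero_iff.1 h2)
    obtain ⟨i, hi⟩ := h1
    obtain ⟨j, hj, hj2⟩ := hp6 i w hw hi
    exact ⟨j, Finset.mem_biUnion.2 ⟨i, Finset.mem_univ i, hj⟩, hj2⟩
  · intro k hk w hw o
    obtain ⟨h1, h2, h3, h4⟩ := hRfacts k hk w hw
    have hk0 := ln_pos hΛ0 k.1
    refine (hχd o w h1).trans ?_
    have h5 : ∑ j, ‖fderiv ℝ (p j) w‖ ≤ N * (C / (w.im + ln Λ J)) := by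
      refine (Finset.sum_le_sum (fun j _ => hp5 j w h1)).trans (le_of_eq ?_)
      simp
    refine h5.trans ?_
    rw [cen_im]
    have h6 : C / (w.im + ln Λ J) ≤ C / (ln Λ k.1 / 2) := by gcongr
    calc (N : ℝ) * (C / (w.im + ln Λ J)) ≤ N * (C / (ln Λ k.1 / 2)) := by gcongr
      _ = (3 / 2 * (N * C)) / (3 / 4 * ln Λ k.1) := by
        field_simp
        norm_num
      _ ≤ _ := by
        gcongr
        have : 0 ≤ 100 * (N * C) := by positivity
        linarith

/-- **The corona theorem on the Siegel domain.** -/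
theorem siegel (N : ℕ) {δ : ℝ} (hδ : 0 < δ) (hδ1 : δ ≤ 1) : ∃ C : ℝ, SiegelStatement N δ C := by
  obtain ⟨ε', C, hε', hC, hcut⟩ := cutN N (ε := δ / 2) (by positivity) (by linarith)
  refine ⟨max (1 / ε' + 2160 * Real.exp C * (C / ε') * (1 / δ) +
        N * (2 * (2160 * Real.exp C * (2 * C / ε' ^ 2) * 1)))
        (1 / δ + N * (2160 * Real.exp C * (C / ε') * (1 / δ))), ?_⟩
  intro E _ _ _ f η hη hf hfb hlim G hG hGb hlow
  obtain ⟨S, a, R, χ, hP⟩ := hcut f η (fun i => ⟨hη, hf i, hfb i⟩) hlim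
  obtain ⟨g, g0, h1, h2, h3, h4, h5⟩ := solve hP hε' hC.le
    (fun i => (hf i).mono (fun w hw => by
      change -η < w.im
      have : (0 : ℝ) < w.im := hw
      linarith)) (fun i w hw => hfb i w (le_of_lt hw)) hG hGb hδ hlow
  exact ⟨g, g0, h1, h2, fun i p hp => (h3 i p hp).trans (le_max_left _ _),
    fun p hp => (h4 p hp).trans (le_max_right _ _), h5⟩

end Pool.Agent.H720R2.HP
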