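import Mathlib
import Pool.Agent.H720R2.HP.CutN

/-!
The corona theorem on the ball for `f_1(z₀), …, f_N(z₀), G(z)`, and products of such data.
-/

set_option autoImplicit false

open Metric Set Filter Topology
open Pool.Agent.H720R2.Cor (Ball IsAutomorphism)

namespace Pool.Agent.H720R2.HP

/-- the statement for one coordinate with constant `C` -/
def OneCoord (N : ℕ) (δ C : ℝ) : Prop :=
  ∀ (n : ℕ) (ψ : (Fin (n + 1) → ℂ) → (Fin (n + 1) → ℂ)), IsAutomorphism ψ →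
    ∀ (f : Fin N → ℂ → ℂ), (∀ i, DifferentiableOn ℂ (f i) (ball 0 1)) →
      (∀ i, ∀ x ∈ ball (0 : ℂ) 1, ‖f i x‖ ≤ 1) →
      ∀ (G : (Fin (n + 1) → ℂ) → ℂ), DifferentiableOn ℂ G (Ball (n + 1)) →
        (∀ z ∈ Ball (n + 1), ‖G z‖ ≤ 1) →
        (∀ z ∈ Ball (n + 1), (∀ i, ‖f i (ψ z 0)‖ < δ) → δ ≤ ‖G z‖) →
        ∃ (g : Fin N → (Fin (n + 1) → ℂ) → ℂ) (g₀ : (Fin (n + 1) → ℂ) → ℂ),
          (∀ i, DifferentiableOn ℂ (g i) (Ball (n + 1))) ∧ DifferentiableOn ℂ g₀ (Ball (n + 1)) ∧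
          (∀ i, ∀ z ∈ Ball (n + 1), ‖g i z‖ ≤ C) ∧ (∀ z ∈ Ball (n + 1), ‖g₀ z‖ ≤ C) ∧
          ∀ z ∈ Ball (n + 1), ∑ i, f i (ψ z 0) * g i z + G z * g₀ z = 1

theorem oneCoord (N : ℕ) {δ : ℝ} (hδ : 0 < δ) : ∃ C : ℝ, 0 ≤ C ∧ OneCoord N δ C := by
  obtain ⟨C, hC⟩ := siegel N (δ := min δ 1) (lt_min hδ one_pos) (min_le_right _ _)
  have key : OneCoord N δ (max C 0) := by
    intro n ψ hψ f hf hfb G hG hGb hlow
    obtain ⟨hψd, hψm, φ, hφd, hφm, hinv1, hinv2⟩ := hψ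
    obtain ⟨g, g₀, h1, h2, h3, h4, h5⟩ := ball_of_siegel (lt_min hδ one_pos) hC n f hf hfb
      (fun z => G (φ z)) (hG.comp hφd hφm) (fun z hz => hGb _ (hφm hz)) (fun z hz hz2 => by
        refine (min_le_left δ 1).trans (hlow _ (hφm hz) (fun i => ?_))
        rw [hinv2 z hz]
        exact lt_of_lt_of_le (hz2 i) (min_le_left _ _))
    refine ⟨fun i z => g i (ψ z), fun z => g₀ (ψ z), fun i => (h1 i).comp hψd hψm,
      h2.comp hψd hψm, fun i z hz => (h3 i _ (hψm hz)).trans (le_max_left _ _),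
      fun z hz => (h4 _ (hψm hz)).trans (le_max_left _ _), fun z hz => ?_⟩
    have h6 := h5 _ (hψm hz)
    rw [hinv1 z hz] at h6
    exact h6
  exact ⟨max C 0, le_max_right _ _, key⟩

theorem ball_zero {n : ℕ} {z : Fin (n + 1) → ℂ} (hz : z ∈ Ball (n + 1)) : z 0 ∈ ball (0 : ℂ) 1 := by
  have h1 : ∑ i, ‖z i‖ ^ 2 < 1 := hz
  have h2 : ‖z 0‖ ^ 2 ≤ ∑ i, ‖z i‖ ^ 2 :=
    Finset.single_le_sum (f := fun i => ‖z i‖ ^ 2) (fun i _ => by positivity) (Finset.mem_univ 0)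
  rw [mem_ball, dist_zero_right]
  nlinarith [norm_nonneg (z 0)]

theorem diff_prod {X : Type*} [NormedAddCommGroup X] [NormedSpace ℂ X] {B : Set X} {J : Type*}
    (T : Finset J) (F : J → X → ℂ) (h : ∀ j ∈ T, DifferentiableOn ℂ (F j) B) :
    DifferentiableOn ℂ (fun z => ∏ j ∈ T, F j z) B := by
  classical
  induction T using Finset.induction_on with
  | empty => simp only [Finset.prod_empty]; exact differentiableOn_const _
  | insert i T hi ih =>
    have h1 := (h i (Finset.mem_insert_self _ _)).fun_mul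
      (ih (fun j hj => h j (Finset.mem_insert_of_mem hj)))
    refine h1.congr (fun z _ => ?_)
    rw [Finset.prod_insert hi]

/-- **Main theorem.** -/
theorem main (m : ℕ) (N : Fin m → ℕ) {δ : ℝ} (hδ : 0 < δ) :
    ∃ C : ℝ, ∀ (n : ℕ) (ψ : Fin m → (Fin (n + 1) → ℂ) → (Fin (n + 1) → ℂ)),
      (∀ j, IsAutomorphism (ψ j)) → ∀ (f : (j : Fin m) → Fin (N j) → ℂ → ℂ),
      (∀ j i, DifferentiableOn ℂ (f j i) (ball 0 1)) →
      (∀ j i, ∀ x ∈ ball (0 : ℂ) 1, ‖f j i x‖ ≤ 1) →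
      ∀ (G : (Fin (n + 1) → ℂ) → ℂ), DifferentiableOn ℂ G (Ball (n + 1)) →
      (∀ z ∈ Ball (n + 1), ‖G z‖ ≤ 1) →
      (∀ z ∈ Ball (n + 1),
        δ ≤ (∑ ι : (j : Fin m) → Fin (N j), ‖∏ j, f j (ι j) (ψ j z 0)‖) + ‖G z‖) →
      ∃ (g : ((j : Fin m) → Fin (N j)) → (Fin (n + 1) → ℂ) → ℂ) (g₀ : (Fin (n + 1) → ℂ) → ℂ),
        (∀ ι, DifferentiableOn ℂ (g ι) (Ball (n + 1))) ∧ DifferentiableOn ℂ g₀ (Ball (n + 1)) ∧
        (∀ ι, ∀ z ∈ Ball (n + 1), ‖g ι z‖ ≤ C) ∧ (∀ z ∈ Ball (n + 1), ‖g₀ z‖ ≤ C) ∧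
        ∀ z ∈ Ball (n + 1), ∑ ι, (∏ j, f j (ι j) (ψ j z 0)) * g ι z + G z * g₀ z = 1 := by
  classical
  set P : ℕ := Fintype.card ((j : Fin m) → Fin (N j)) with hP
  set δ' : ℝ := δ / (P + 1) with hδ'
  have hP0 : (0 : ℝ) < P + 1 := by positivity
  have hδ'pos : 0 < δ' := by positivity
  choose Cf hC0 hCf using fun j => oneCoord (N j) hδ'pos
  obtain ⟨C, hC1, hC⟩ : ∃ C : ℝ, 1 ≤ C ∧ ∀ j, Cf j ≤ C := by
    refine ⟨1 + ∑ j, Cf j, by
      have := Finset.sum_nonneg (s := Finset.univ) (f := Cf) (fun j _ => hC0 j)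
      linarith, fun j => ?_⟩
    have := Finset.single_le_sum (f := Cf) (fun i _ => hC0 i) (Finset.mem_univ j)
    linarith
  have hCpos : 0 < C := by linarith
  refine ⟨max (C ^ m) (m * (C * (1 + C) ^ m)), ?_⟩
  intro n ψ hψ f hf hfb G hG hGb hlow
  have hψ0 : ∀ j, ∀ z ∈ Ball (n + 1), ψ j z 0 ∈ ball (0 : ℂ) 1 := fun j z hz =>
    ball_zero ((hψ j).2.1 hz)
  -- each factor
  have hstep : ∀ j, ∀ z ∈ Ball (n + 1), (∀ i, ‖f j i (ψ j z 0)‖ < δ') → δ' ≤ ‖G z‖ := by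
    intro j z hz hsmall
    have h1 := hlow z hz
    by_contra hlt
    push Not at hlt
    have h2 : ∀ ι : (j : Fin m) → Fin (N j), ‖∏ j, f j (ι j) (ψ j z 0)‖ ≤ δ' := by
      intro ι
      rw [norm_prod, ← Finset.mul_prod_erase Finset.univ _ (Finset.mem_univ j)]
      refine (mul_le_of_le_one_right (norm_nonneg _) ?_).trans (hsmall (ι j)).le
      exact Finset.prod_le_one (fun _ _ => norm_nonneg _) (fun i _ => hfb i (ι i) _ (hψ0 i z hz))
    have h3 : ∑ ι : (j : Fin m) → Fin (N j), ‖∏ j, f j (ι j) (ψ j z 0)‖ ≤ P * δ' := by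
      refine (Finset.sum_le_sum (fun ι _ => h2 ι)).trans (le_of_eq ?_)
      rw [Finset.sum_const, Finset.card_univ, nsmul_eq_mul]
    have h4 : δ = P * δ' + δ' := by
      rw [hδ']
      field_simp
    linarith
  choose g g₀ hg1 hg2 hg3 hg4 hg5 using fun j =>
    hCf j n (ψ j) (hψ j) (f j) (hf j) (hfb j) G hG hGb (hstep j)
  have hfd : ∀ j i, DifferentiableOn ℂ (fun z => f j i (ψ j z 0)) (Ball (n + 1)) := by
    intro j i
    have h1 : DifferentiableOn ℂ (fun z => ψ j z 0) (Ball (n + 1)) :=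
      (differentiableOn_pi.1 (hψ j).1) 0
    exact (hf j i).comp h1 (fun z hz => hψ0 j z hz)
  set A : Fin m → (Fin (n + 1) → ℂ) → ℂ := fun j z => ∑ i, f j i (ψ j z 0) * g j i z with hA
  have hAd : ∀ j, DifferentiableOn ℂ (A j) (Ball (n + 1)) := fun j =>
    DifferentiableOn.fun_sum (fun i _ => (hfd j i).fun_mul (hg1 j i))
  have hAe : ∀ j, ∀ z ∈ Ball (n + 1), A j z = 1 - G z * g₀ j z := by
    intro j z hz
    have := hg5 j z hz
    simp only [hA]
    linear_combination this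
  have hAb : ∀ j, ∀ z ∈ Ball (n + 1), ‖A j z‖ ≤ 1 + C := by
    intro j z hz
    rw [hAe j z hz]
    refine (norm_sub_le _ _).trans ?_
    rw [norm_one, norm_mul]
    have h1 := hGb z hz
    have h2 := (hg4 j z hz).trans (hC j)
    have h3 : ‖G z‖ * ‖g₀ j z‖ ≤ 1 * C := by gcongr
    linarith
  refine ⟨fun ι z => ∏ j, g j (ι j) z,
    fun z => ∑ j, g₀ j z * ∏ i ∈ Finset.univ.filter (fun i => i < j), A i z, ?_, ?_, ?_, ?_, ?_⟩
  · intro ι
    exact diff_prod _ (fun j z => g j (ι j) z) (fun j _ => hg1 j (ι j))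
  · refine DifferentiableOn.fun_sum (fun j _ => (hg2 j).fun_mul ?_)
    exact diff_prod _ A (fun i _ => hAd i)
  · intro ι z hz
    rw [norm_prod]
    refine le_trans ?_ (le_max_left _ _)
    calc ∏ j, ‖g j (ι j) z‖ ≤ ∏ _j : Fin m, C :=
          Finset.prod_le_prod (fun _ _ => norm_nonneg _)
            (fun j _ => (hg3 j (ι j) z hz).trans (hC j))
      _ = C ^ m := by simp
  · intro z hz
    refine le_trans ?_ (le_max_right _ _)
    refine (norm_sum_le _ _).trans ?_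
    have h1 : ∀ j ∈ Finset.univ, ‖g₀ j z * ∏ i ∈ Finset.univ.filter (fun i => i < j), A i z‖ ≤
        C * (1 + C) ^ m := by
      intro j _
      rw [norm_mul, norm_prod]
      have h2 := (hg4 j z hz).trans (hC j)
      have h3 : ∏ i ∈ Finset.univ.filter (fun i => i < j), ‖A i z‖ ≤ (1 + C) ^ m := by
        calc ∏ i ∈ Finset.univ.filter (fun i => i < j), ‖A i z‖
            ≤ ∏ _i ∈ Finset.univ.filter (fun i => i < j), (1 + C) :=
              Finset.prod_le_prod (fun _ _ => norm_nonneg _) (fun i _ => hAb i z hz)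
          _ = (1 + C) ^ (Finset.univ.filter (fun i => i < j)).card := by
              rw [Finset.prod_const]
          _ ≤ (1 + C) ^ m := by
              refine pow_le_pow_right₀ (by linarith) ?_
              refine (Finset.card_filter_le _ _).trans ?_
              simp
      exact mul_le_mul h2 h3 (Finset.prod_nonneg fun _ _ => norm_nonneg _) hCpos.le
    refine (Finset.sum_le_sum h1).trans (le_of_eq ?_)
    simp
  · intro z hz
    have h1 := Finset.prod_one_sub_ordered (Finset.univ : Finset (Fin m)) (fun j => G z * g₀ j z)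
    have h2 : ∏ j, A j z = ∏ j, (1 - G z * g₀ j z) :=
      Finset.prod_congr rfl (fun j _ => hAe j z hz)
    have h3 : ∀ j, ∏ i ∈ Finset.univ.filter (fun i => i < j), A i z =
        ∏ i ∈ Finset.univ.filter (fun i => i < j), (1 - G z * g₀ i z) := fun j =>
      Finset.prod_congr rfl (fun i _ => hAe i z hz)
    have h4 : ∏ j, A j z = ∑ ι : (j : Fin m) → Fin (N j),
        (∏ j, f j (ι j) (ψ j z 0)) * ∏ j, g j (ι j) z := by
      simp only [hA]
      rw [Finset.prod_univ_sum, Fintype.piFinset_univ]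
      refine Finset.sum_congr rfl (fun ι _ => ?_)
      rw [Finset.prod_mul_distrib]
    rw [← h4, h2, h1]
    simp only [h3]
    rw [Finset.mul_sum]
    have h5 : ∀ j, G z * (g₀ j z * ∏ i ∈ Finset.univ.filter (fun i => i < j), (1 - G z * g₀ i z)) =
        G z * g₀ j z * ∏ i ∈ Finset.univ.filter (fun i => i < j), (1 - G z * g₀ i z) :=
      fun j => by ring
    simp only [h5]
    ring

end Pool.Agent.H720R2.HP
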