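import Mathlib
import Pool.Agent.H720R2.HP.PDefs

/-!
STUBS for the project of helper720 (corona theorem on the ball for f_1(z_1),...,f_N(z_1),G(z)).
Everything only needs Mathlib (task B may use `Pool.Agent.H720R2.Cor.Fin`, `Pool.Agent.H720R2.Cor.Lim`).
Write your proof in your own file, e.g. `Pool/Agent/H720R2/HP/T_M.lean`, namespace
`Pool.Agent.H720R2.HP`, same names and statements.
-/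

set_option autoImplicit false

open MeasureTheory Metric Set Filter Topology Complex
open scoped ContDiff

namespace Pool.Agent.H720R2.HP

/-! ## TASK M (mollification at the hyperbolic scale) -/

theorem moll : ∃ A : ℝ, 0 < A ∧ ∀ Ω : Set ℂ, MeasurableSet Ω → ∀ h δ : ℝ, 0 < h → 0 < δ → δ ≤ 1 / 4 →
    ∃ p : ℂ → ℝ, ContDiffOn ℝ 1 p {w : ℂ | 0 < w.im} ∧
      (∀ w : ℂ, 0 < w.im → 0 ≤ p w ∧ p w ≤ 1) ∧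
      (∀ w : ℂ, 0 < w.im → p w ≠ 0 → ∃ z ∈ Ω, ‖z - (w + h * I)‖ ≤ δ * (w.im + h)) ∧
      (∀ w : ℂ, 0 < w.im → p w ≠ 1 → ∃ z, z ∉ Ω ∧ ‖z - (w + h * I)‖ ≤ δ * (w.im + h)) ∧
      ∀ w : ℂ, 0 < w.im → ‖fderiv ℝ p w‖ ≤ A / (δ * (w.im + h)) := by
  sorry

/-! ## TASK E1 (energy of a bounded holomorphic function over a box) -/

theorem energy_box : ∃ C : ℝ, 0 < C ∧ ∀ (f : ℂ → ℂ) (η : ℝ), 0 < η →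
    DifferentiableOn ℂ f {w : ℂ | -η < w.im} → (∀ w : ℂ, 0 ≤ w.im → ‖f w‖ ≤ 1) →
    ∀ u ℓ : ℝ, 0 < ℓ →
      IntegrableOn (fun w : ℂ => ‖deriv f w‖ ^ 2 * w.im)
        {w : ℂ | |w.re - u| ≤ ℓ ∧ 0 ≤ w.im ∧ w.im ≤ ℓ} ∧
      ∫ w in {w : ℂ | |w.re - u| ≤ ℓ ∧ 0 ≤ w.im ∧ w.im ≤ ℓ}, ‖deriv f w‖ ^ 2 * w.im ≤ C * ℓ := by
  sorry

/-! ## TASK P (packing of dyadic boxes; `(i, n)` is the box `[n 2^-i, (n+1) 2^-i)`) -/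

/- `desc`, `Pk`, `cen` are defined in `Pool.Agent.H720R2.HP.PDefs` (import it!). -/

theorem Pk.mono {C : ℝ} {T T' : Finset (ℕ × ℤ)} (h : Pk C T) (hs : T' ⊆ T) : Pk C T' := by
  sorry

theorem Pk.union {C D : ℝ} {T T' : Finset (ℕ × ℤ)} (h : Pk C T) (h' : Pk D T') :
    Pk (C + D) (T ∪ T') := by
  sorry

theorem Pk.shift {C : ℝ} {T : Finset (ℕ × ℤ)} (h : Pk C T) (e : ℤ) (he : e = 1 ∨ e = -1) :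
    Pk (2 * C) (T.image fun j => (j.1, j.2 + e)) := by
  sorry

theorem Pk.parent {C : ℝ} {T : Finset (ℕ × ℤ)} (h : Pk C T) :
    Pk (2 * C) ((T.filter fun j => 1 ≤ j.1).image fun j => (j.1 - 1, j.2 / 2)) := by
  sorry

theorem Pk.child {C : ℝ} {T : Finset (ℕ × ℤ)} (h : Pk C T) :
    Pk (C + 1) ((T.image fun j => (j.1 + 1, 2 * j.2)) ∪ T.image fun j => (j.1 + 1, 2 * j.2 + 1)) := by
  sorry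

theorem Pk.chain {C : ℝ} {T H : Finset (ℕ × ℤ)} (h : Pk C T)
    (hH : ∀ j ∈ H, j ∈ T ∨ ∃ j' ∈ H, j = (j'.1 + 1, 2 * j'.2 + 1)) :
    Pk (2 * C + 2) H := by
  sorry

theorem Pk.kernel {C : ℝ} {T : Finset (ℕ × ℤ)} (h : Pk C T) (hC : 0 ≤ C) {Λ : ℝ} (hΛ : 0 < Λ)
    {k : ℕ × ℤ} (hk : k ∈ T) {ζ : ℂ} (h1 : 0 < ζ.im)
    (h1' : Λ * (1 / 2) ^ k.1 / 4 ≤ ζ.im ∨ ∀ j ∈ T, j.1 ≤ k.1)
    (h2 : ζ.im ≤ Λ * (1 / 2) ^ k.1)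
    (h3 : |ζ.re - (cen Λ k).re| ≤ Λ * (1 / 2) ^ k.1 / 2) :
    ∑ j ∈ T.filter (fun j => (cen Λ j).im ≤ (cen Λ k).im),
      (cen Λ j).im * (ζ.im + (cen Λ j).im) / ‖ζ - starRingEnd ℂ (cen Λ j)‖ ^ 2 ≤ 100 * C := by
  sorry

/-! ## TASK B (from the Siegel domain to the ball) -/

/-- corona theorem on the Siegel domain for nice `f i` -/
def SiegelStatement (N : ℕ) (δ C : ℝ) : Prop :=
  ∀ (E : Type) [NormedAddCommGroup E] [NormedSpace ℂ E] [FiniteDimensional ℂ E]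
    (f : Fin N → ℂ → ℂ) (η : ℝ), 0 < η →
    (∀ i, DifferentiableOn ℂ (f i) {w : ℂ | -η < w.im}) →
    (∀ i, ∀ w : ℂ, 0 ≤ w.im → ‖f i w‖ ≤ 1) →
    (∀ i, ∃ c : ℂ, Tendsto (f i) (Bornology.cobounded ℂ ⊓ 𝓟 {w : ℂ | 0 ≤ w.im}) (𝓝 c)) →
    ∀ G : ℂ × E → ℂ, DifferentiableOn ℂ G {p : ℂ × E | ‖p.2‖ ^ 2 < p.1.im} →
    (∀ p : ℂ × E, ‖p.2‖ ^ 2 < p.1.im → ‖G p‖ ≤ 1) →
    (∀ p : ℂ × E, ‖p.2‖ ^ 2 < p.1.im → (∀ i, ‖f i p.1‖ ≤ δ / 2) → δ ≤ ‖G p‖) →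
    ∃ (g : Fin N → ℂ × E → ℂ) (g₀ : ℂ × E → ℂ),
      (∀ i, DifferentiableOn ℂ (g i) {p : ℂ × E | ‖p.2‖ ^ 2 < p.1.im}) ∧
      DifferentiableOn ℂ g₀ {p : ℂ × E | ‖p.2‖ ^ 2 < p.1.im} ∧
      (∀ i, ∀ p : ℂ × E, ‖p.2‖ ^ 2 < p.1.im → ‖g i p‖ ≤ C) ∧
      (∀ p : ℂ × E, ‖p.2‖ ^ 2 < p.1.im → ‖g₀ p‖ ≤ C) ∧
      ∀ p : ℂ × E, ‖p.2‖ ^ 2 < p.1.im → ∑ i, f i p.1 * g i p + G p * g₀ p = 1

/-- The open Euclidean unit ball of `ℂⁿ` (in the final file: `Pool.Agent.H720R2.Cor.Ball`). -/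
def Ball (n : ℕ) : Set (Fin n → ℂ) := {z | ∑ i, ‖z i‖ ^ 2 < 1}

theorem ball_of_siegel {N : ℕ} {δ C : ℝ} (hδ : 0 < δ) (H : SiegelStatement N δ C) (n : ℕ)
    (f : Fin N → ℂ → ℂ) (hf : ∀ i, DifferentiableOn ℂ (f i) (ball 0 1))
    (hfb : ∀ i, ∀ z ∈ ball (0 : ℂ) 1, ‖f i z‖ ≤ 1)
    (G : (Fin (n + 1) → ℂ) → ℂ) (hG : DifferentiableOn ℂ G (Ball (n + 1)))
    (hGb : ∀ z ∈ Ball (n + 1), ‖G z‖ ≤ 1)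
    (hlow : ∀ z ∈ Ball (n + 1), (∀ i, ‖f i (z 0)‖ < δ) → δ ≤ ‖G z‖) :
    ∃ (g : Fin N → (Fin (n + 1) → ℂ) → ℂ) (g₀ : (Fin (n + 1) → ℂ) → ℂ),
      (∀ i, DifferentiableOn ℂ (g i) (Ball (n + 1))) ∧ DifferentiableOn ℂ g₀ (Ball (n + 1)) ∧
      (∀ i, ∀ z ∈ Ball (n + 1), ‖g i z‖ ≤ C) ∧ (∀ z ∈ Ball (n + 1), ‖g₀ z‖ ≤ C) ∧
      ∀ z ∈ Ball (n + 1), ∑ i, f i (z 0) * g i z + G z * g₀ z = 1 := by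
  sorry

end Pool.Agent.H720R2.HP
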